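import Pool.Agent.Lib.MP_0dc93f_an.Est

namespace Pool.Agent.Lib.MP_0dc93f_an

open Complex Filter Set Topology MeasureTheory
open scoped Real ComplexConjugate ContDiff

/-- the singular datum -/
noncomputable def dat (β : ℝ) (x : ℝ) : ℂ := ((x ^ (-β) : ℝ) : ℂ)

lemma measurable_dat (β : ℝ) : Measurable (dat β) := by
  unfold dat; fun_prop

lemma intInt_dat {β : ℝ} (hβ : β < 1) (a b : ℝ) : IntervalIntegrable (dat β) volume a b := by
  have := intervalIntegral.intervalIntegrable_rpow' (a := a) (b := b) (r := -β) (by linarith)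
  exact ⟨this.1.ofReal, this.2.ofReal⟩

lemma norm_dat {β x : ℝ} (hx : 0 < x) : ‖dat β x‖ = x ^ (-β) := by
  unfold dat; rw [Complex.norm_real, Real.norm_eq_abs, abs_of_pos (by positivity)]

lemma memLp_dat {β : ℝ} (hβ : 2 * β < 1) :
    MemLp (dat β) 2 (volume.restrict (Ioc 0 (2 * π))) := by
  rw [memLp_two_iff_integrable_sq_norm (measurable_dat β).aestronglyMeasurable]
  have := (intervalIntegral.intervalIntegrable_rpow' (a := 0) (b := 2 * π) (r := -(2 * β))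
    (by linarith)).1
  refine this.congr_fun (fun x hx => ?_) measurableSet_Ioc
  simp only
  rw [norm_dat hx.1, ← Real.rpow_natCast, ← Real.rpow_mul hx.1.le]
  congr 1; push_cast; ring

lemma norm_coef_dat {β : ℝ} (hβ0 : 0 < β) (hβ : 2 * β < 1) {k : ℤ} (hk : k ≠ 0) :
    ‖coef (dat β) k‖ ≤ 4 * |(k : ℝ)| ^ (β - 1) := by
  have hk1 := one_le_abs_int hk
  set δ := |(k : ℝ)|⁻¹ with hδ
  have hδ0 : 0 < δ := by positivity
  have hδ1 : δ ≤ 1 := inv_le_one_of_one_le₀ hk1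
  have hδ2 : δ ≤ 2 * π := by linarith [Real.two_le_pi]
  have hint : ∀ a b, IntervalIntegrable (fun x => ex (-k) x * dat β x) volume a b := fun a b =>
    (intInt_dat (by linarith) a b).continuousOn_mul (continuous_ex _).continuousOn
  have hpow : |(k : ℝ)| ^ (β - 1) = δ ^ (1 - β) := by
    rw [hδ, Real.inv_rpow (by positivity), ← Real.rpow_neg (by positivity)]; congr 1; ring
  have hpow2 : δ ^ (1 - β) = δ * δ ^ (-β) := by
    rw [sub_eq_add_neg, Real.rpow_add hδ0, Real.rpow_one]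
  have b1 : ‖∫ x in (0 : ℝ)..δ, ex (-k) x * dat β x‖ ≤ 2 * δ ^ (1 - β) := by
    refine (intervalIntegral.norm_integral_le_of_norm_le (g := fun x => x ^ (-β)) hδ0.le
      (Eventually.of_forall fun x hx => ?_)
      (intervalIntegral.intervalIntegrable_rpow' (by linarith))).trans ?_
    · rw [norm_mul, norm_ex, one_mul, norm_dat hx.1]
    · rw [integral_rpow (Or.inl (by linarith)), Real.zero_rpow (by linarith), sub_zero,
        div_le_iff₀ (by linarith), show -β + 1 = 1 - β by ring]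
      have : 0 ≤ δ ^ (1 - β) := by positivity
      nlinarith
  have hkc : (k : ℂ) ≠ 0 := by exact_mod_cast hk
  have b2 : ‖∫ x in δ..2 * π, ex (-k) x * dat β x‖ ≤ 2 * δ ^ (1 - β) := by
    have hpos : ∀ x ∈ uIcc δ (2 * π), 0 < x := fun x hx => by
      rw [uIcc_of_le hδ2] at hx; linarith [hx.1]
    have hd : ∀ x ∈ uIcc δ (2 * π),
        HasDerivAt (dat β) (((-β * x ^ (-β - 1) : ℝ)) : ℂ) x := fun x hx =>
      (Real.hasDerivAt_rpow_const (Or.inl (hpos x hx).ne')).ofReal_comp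
    have hc : ContinuousOn (fun x : ℝ => -β * x ^ (-β - 1)) (uIcc δ (2 * π)) :=
      continuousOn_const.mul (continuousOn_id.rpow_const fun x hx => Or.inl (hpos x hx).ne')
    have hv : ∀ x ∈ uIcc δ (2 * π),
        HasDerivAt (fun x => ex (-k) x / (-k * I)) (ex (-k) x) x := fun x _ => by
      refine ((hasDerivAt_ex (-k) x).div_const (-k * I)).congr_deriv ?_
      push_cast; field_simp
    have h := intervalIntegral.integral_mul_deriv_eq_deriv_mul hd hv
      (Complex.continuous_ofReal.comp_continuousOn hc).intervalIntegrable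
      ((continuous_ex _).intervalIntegrable _ _)
    have nv : ∀ x, ‖ex (-k) x / (-k * I)‖ = δ := fun x => by
      rw [norm_div, norm_ex, norm_mul, norm_neg, Complex.norm_I, Complex.norm_intCast, mul_one,
        one_div]
    simp only [mul_comm (ex (-k) _) (dat β _)]
    rw [h]
    have b3 : ‖∫ x in δ..2 * π, (((-β * x ^ (-β - 1) : ℝ)) : ℂ) * (ex (-k) x / (-k * I))‖
        ≤ δ * (δ ^ (-β) - (2 * π) ^ (-β)) := by
      refine (intervalIntegral.norm_integral_le_of_norm_le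
        (g := fun x => δ * -(-β * x ^ (-β - 1))) hδ2
        (Eventually.of_forall fun x hx => ?_) (hc.neg.intervalIntegrable.const_mul δ)).trans ?_
      · have : 0 < x := by linarith [hx.1]
        rw [norm_mul, nv, Complex.norm_real, Real.norm_eq_abs, mul_comm, abs_of_nonpos]
        have : 0 < x ^ (-β - 1) := by positivity
        nlinarith
      · rw [intervalIntegral.integral_const_mul, intervalIntegral.integral_neg,
          intervalIntegral.integral_eq_sub_of_hasDerivAt (f := fun x : ℝ => x ^ (-β))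
            (fun x hx => Real.hasDerivAt_rpow_const (Or.inl (hpos x hx).ne'))
            hc.intervalIntegrable]
        simp
    refine (norm_sub_le _ _).trans ?_
    refine (add_le_add (norm_sub_le _ _) b3).trans ?_
    rw [norm_mul, norm_mul, nv, nv, norm_dat two_pi_pos', norm_dat hδ0, hpow2]
    exact le_of_eq (by ring)
  rw [coef_def, ← intervalIntegral.integral_add_adjacent_intervals (hint 0 δ) (hint δ (2 * π)),
    norm_mul, Complex.norm_real, Real.norm_eq_abs,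
    abs_of_pos (by have := two_pi_pos'; positivity), hpow]
  have h1 : 1 / (2 * π) ≤ 1 := by
    rw [div_le_one two_pi_pos']; linarith [Real.two_le_pi]
  calc _ ≤ 1 * (2 * δ ^ (1 - β) + 2 * δ ^ (1 - β)) := by
        gcongr
        exact (norm_add_le _ _).trans (add_le_add b1 b2)
    _ = _ := by ring

lemma hsq_lt_top_of_summable {α : ℝ} {c : ℤ → ℂ}
    (h : Summable fun k : ℤ => (1 + |(k : ℝ)|) ^ α * ‖c k‖ ^ 2) : hsq α c < ⊤ := by
  unfold hsq
  rw [← ENNReal.ofReal_tsum_of_nonneg (fun k => by positivity) h]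
  exact ENNReal.ofReal_lt_top

lemma hsq_dat {α β : ℝ} (hα0 : 0 ≤ α) (hβ0 : 0 < β) (hβ : α + 2 * β < 1) :
    hsq α (coef (dat β)) < ⊤ := by
  refine hsq_lt_top_of_summable ?_
  refine Summable.of_norm_bounded_eventually
    ((summable_int_rpow (s := 2 - α - 2 * β) (by linarith)).mul_left 32) ?_
  have : ∀ᶠ k : ℤ in cofinite, k ≠ 0 := (Set.finite_singleton (0 : ℤ)).eventually_cofinite_notMem
  filter_upwards [this] with k hk
  have hk1 := one_le_abs_int hk
  have h1 := norm_coef_dat hβ0 (by linarith) hk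
  have h2 : (1 + |(k : ℝ)|) ^ α ≤ 2 * |(k : ℝ)| ^ α := by
    calc (1 + |(k : ℝ)|) ^ α ≤ (2 * |(k : ℝ)|) ^ α := by gcongr; linarith
      _ = 2 ^ α * |(k : ℝ)| ^ α := Real.mul_rpow (by norm_num) (by positivity)
      _ ≤ 2 ^ (1 : ℝ) * |(k : ℝ)| ^ α := by
          gcongr
          · norm_num
          · linarith
      _ = _ := by rw [Real.rpow_one]
  rw [Real.norm_eq_abs, abs_of_nonneg (by positivity)]
  calc _ ≤ (2 * |(k : ℝ)| ^ α) * (4 * |(k : ℝ)| ^ (β - 1)) ^ 2 := by gcongr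
    _ = 32 * (|(k : ℝ)| ^ α * |(k : ℝ)| ^ (β - 1) * |(k : ℝ)| ^ (β - 1)) := by ring
    _ = _ := by
      rw [← Real.rpow_add (by linarith), ← Real.rpow_add (by linarith)]
      congr 2; ring

lemma sum_le_of_hsq_le {α : ℝ} {c : ℤ → ℂ} {M : ℝ} (hM : 0 ≤ M)
    (h : hsq α c ≤ ENNReal.ofReal M) (s : Finset ℤ) :
    ∑ k ∈ s, (1 + |(k : ℝ)|) ^ α * ‖c k‖ ^ 2 ≤ M := by
  rw [← ENNReal.ofReal_le_ofReal_iff hM,
    ENNReal.ofReal_sum_of_nonneg (fun k _ => by positivity)]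
  exact (ENNReal.sum_le_tsum s).trans h

lemma exp_neg_sub_lower {σ σ' : ℝ} (h0 : 0 ≤ σ') (h1 : σ' ≤ 1) :
    min 1 |σ - σ'| ≤ 6 * |Real.exp (-σ) - Real.exp (-σ')| := by
  have e1 : Real.exp (-σ) - Real.exp (-σ') = Real.exp (-σ') * (Real.exp (-(σ - σ')) - 1) := by
    rw [mul_sub, ← Real.exp_add]; congr 2 <;> ring
  have e2 : 1 / 3 ≤ Real.exp (-σ') := by
    have : Real.exp (-1) ≤ Real.exp (-σ') := Real.exp_le_exp.2 (by linarith)
    have h3 := Real.exp_neg_one_gt_d9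
    linarith
  have e3 : min 1 |σ - σ'| ≤ 2 * |Real.exp (-(σ - σ')) - 1| := by
    generalize σ - σ' = d
    rcases le_total d 0 with hd | hd
    · have := Real.add_one_le_exp (-d)
      rw [abs_of_nonpos hd, abs_of_nonneg (by linarith)]
      exact (min_le_right _ _).trans (by linarith)
    · have h4 := Real.add_one_le_exp d
      have h5 : Real.exp (-d) * (d + 1) ≤ 1 := by
        rw [Real.exp_neg, ← div_eq_inv_mul, div_le_one (Real.exp_pos _)]; exact h4
      have h6 : Real.exp (-d) ≤ 1 := Real.exp_le_one_iff.2 (by linarith)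
      have h7 := Real.exp_pos (-d)
      rw [abs_of_nonneg hd, abs_of_nonpos (by linarith)]
      rcases le_total d 1 with hd1 | hd1
      · rw [min_eq_right hd1]; nlinarith
      · rw [min_eq_left hd1]; nlinarith
  rw [e1, abs_mul, abs_of_pos (Real.exp_pos _)]
  have := abs_nonneg (Real.exp (-(σ - σ')) - 1)
  nlinarith

lemma norm_expI_sub_le (a b : ℝ) : ‖cexp (a * I) - cexp (b * I)‖ ≤ |a - b| := by
  have e : cexp (a * I) - cexp (b * I) = cexp (b * I) * (cexp (I * ((a - b : ℝ) : ℂ)) - 1) := by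
    rw [mul_sub, ← Complex.exp_add, mul_one]; congr 2; push_cast; ring
  rw [e, norm_mul, Complex.norm_exp_ofReal_mul_I, one_mul]
  exact Real.norm_exp_I_mul_ofReal_sub_one_le

lemma approx_bump {τ K y : ℝ} (hτ : 0 ≤ τ) (hK : 1 + τ ≤ K) (hy0 : 0 ≤ y) (hy : y ≤ 1) (z : ℂ) :
    ‖pp (-1) z - pp (-1) y * cexp (((-τ * y ^ 2 : ℝ) : ℂ) * I)‖
      ≤ 12 * K * (‖pp (-1 + τ * I) z - pp (-1) y‖ + ‖qq (-1) z - qq (-1) y‖) := by
  have e1 : pp (-1) z = pp (-1 + τ * I) z * cexp (((-τ * ‖z‖ ^ 2 : ℝ) : ℂ) * I) := by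
    unfold pp qq
    rw [mul_assoc, ← Complex.exp_add]; congr 2; push_cast; ring
  have e2 : pp (-1) z - pp (-1) y * cexp (((-τ * y ^ 2 : ℝ) : ℂ) * I)
      = (pp (-1 + τ * I) z - pp (-1) y) * cexp (((-τ * ‖z‖ ^ 2 : ℝ) : ℂ) * I) +
        pp (-1) y * (cexp (((-τ * ‖z‖ ^ 2 : ℝ) : ℂ) * I) - cexp (((-τ * y ^ 2 : ℝ) : ℂ) * I)) := by
    rw [e1]; ring
  have hy' : ‖(y : ℂ)‖ = y := by rw [Complex.norm_real, Real.norm_eq_abs, abs_of_nonneg hy0]
  have e3 : ‖qq (-1) z - qq (-1) y‖ = |Real.exp (-‖z‖ ^ 2) - Real.exp (-y ^ 2)| := by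
    have a3 : qq (-1) z = ((Real.exp (-‖z‖ ^ 2) : ℝ) : ℂ) := by
      unfold qq; push_cast; congr 1; ring
    have a4 : qq (-1) y = ((Real.exp (-y ^ 2) : ℝ) : ℂ) := by
      unfold qq; rw [hy']; push_cast; congr 1; ring
    rw [a3, a4, ← Complex.ofReal_sub, Complex.norm_real, Real.norm_eq_abs]
  have h1 := exp_neg_sub_lower (σ := ‖z‖ ^ 2) (σ' := y ^ 2) (by positivity) (by nlinarith)
  have h2 : ‖cexp (((-τ * ‖z‖ ^ 2 : ℝ) : ℂ) * I) - cexp (((-τ * y ^ 2 : ℝ) : ℂ) * I)‖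
      ≤ 2 * K * min 1 |‖z‖ ^ 2 - y ^ 2| := by
    rcases le_total 1 |‖z‖ ^ 2 - y ^ 2| with h | h
    · rw [min_eq_left h]
      refine (norm_sub_le _ _).trans ?_
      rw [Complex.norm_exp_ofReal_mul_I, Complex.norm_exp_ofReal_mul_I]; linarith
    · rw [min_eq_right h]
      refine (norm_expI_sub_le _ _).trans ?_
      rw [← mul_sub, abs_mul, abs_neg, abs_of_nonneg hτ]
      have := abs_nonneg (‖z‖ ^ 2 - y ^ 2)
      nlinarith
  have h3 : ‖pp (-1) (y : ℂ)‖ ≤ 1 := norm_pp_le_one (by simp; norm_num) _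
  rw [e2, e3]
  refine (norm_add_le _ _).trans ?_
  rw [norm_mul, norm_mul, Complex.norm_exp_ofReal_mul_I, mul_one]
  have h4 := norm_nonneg (pp (-1 + τ * I) z - pp (-1) y)
  have h5 : ‖pp (-1) (y : ℂ)‖ * ‖cexp (((-τ * ‖z‖ ^ 2 : ℝ) : ℂ) * I) -
      cexp (((-τ * y ^ 2 : ℝ) : ℂ) * I)‖
      ≤ 1 * (2 * K * (6 * |Real.exp (-‖z‖ ^ 2) - Real.exp (-y ^ 2)|)) := by
    gcongr
    refine h2.trans ?_
    have : 0 ≤ K := by linarith
    gcongr
  nlinarith

lemma sep_bump {y y' a b : ℝ} (hy0 : 1 / 2 ≤ y) (hy : y ≤ 1) (hy0' : 1 / 2 ≤ y') (hy' : y' ≤ 1)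
    (h1 : 1 / 9 ≤ a - b) (h2 : a - b ≤ 1) :
    1 / 100 ≤ ‖pp (-1) y' * cexp (a * I) - pp (-1) y * cexp (b * I)‖ := by
  have key : ∀ w : ℝ, 1 / 2 ≤ w → w ≤ 1 → ∃ r : ℝ, 1 / 6 ≤ r ∧ pp (-1) w = r := by
    intro w h0 h1
    refine ⟨w * Real.exp (-w ^ 2), ?_, ?_⟩
    · have : Real.exp (-1) ≤ Real.exp (-w ^ 2) := Real.exp_le_exp.2 (by nlinarith)
      have h3 := Real.exp_neg_one_gt_d9
      nlinarith
    · unfold pp qq
      rw [Complex.norm_real, Real.norm_eq_abs, sq_abs]; push_cast; congr 2; ring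
  obtain ⟨r, hr, e⟩ := key y hy0 hy
  obtain ⟨r', hr', e'⟩ := key y' hy0' hy'
  rw [e, e']
  have hsq : ‖(r' : ℂ) * cexp (a * I) - r * cexp (b * I)‖ ^ 2
      = (r' - r) ^ 2 + 2 * r * r' * (1 - Real.cos (a - b)) := by
    rw [Complex.sq_norm, Complex.normSq_apply, Real.cos_sub]
    simp only [Complex.sub_re, Complex.sub_im, Complex.re_ofReal_mul, Complex.im_ofReal_mul,
      Complex.exp_ofReal_mul_I_re, Complex.exp_ofReal_mul_I_im]
    linear_combination (r' ^ 2) * Real.sin_sq_add_cos_sq a + (r ^ 2) * Real.sin_sq_add_cos_sq b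
  have hcos := Real.cos_le_one_sub_mul_cos_sq (x := a - b)
    (by rw [abs_of_nonneg (by linarith)]; linarith [Real.two_le_pi])
  have hpi : 2 / 10 ≤ 2 / π ^ 2 := by
    have := Real.pi_lt_d2
    have := Real.pi_pos
    gcongr; nlinarith
  have h3 : 1 / 500 ≤ 1 - Real.cos (a - b) := by
    have : 2 / 10 * (1 / 9) ^ 2 ≤ 2 / π ^ 2 * (a - b) ^ 2 := by gcongr
    linarith
  have h4 : 2 * (1 / 6) * (1 / 6) * (1 / 500) ≤ 2 * r * r' * (1 - Real.cos (a - b)) := by gcongr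
  refine (pow_le_pow_iff_left₀ (by norm_num) (norm_nonneg _) two_ne_zero).1 ?_
  rw [hsq]
  nlinarith [sq_nonneg (r' - r)]

lemma phase_gap {β X H : ℝ} (hβ0 : 0 < β) (hβ : 2 * β < 1) (hX : 1 ≤ X) (hX2 : X ≤ 2)
    (hH0 : 0 < H) (hH : H ≤ 1) :
    2 * β * H / 9 ≤ X ^ (-(2 * β)) - (X + H) ^ (-(2 * β)) ∧
      X ^ (-(2 * β)) - (X + H) ^ (-(2 * β)) ≤ 2 * β * H := by
  obtain ⟨ξ, hξ, h⟩ := exists_hasDerivAt_eq_slope (fun x : ℝ => x ^ (-(2 * β)))
    (fun x => -(2 * β) * x ^ (-(2 * β) - 1)) (show X < X + H by linarith)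
    (continuousOn_id.rpow_const fun x hx => Or.inl (by simp only [id]; linarith [hx.1]))
    (fun x hx => Real.hasDerivAt_rpow_const (Or.inl (by linarith [hx.1])))
  rw [add_sub_cancel_left, eq_div_iff hH0.ne'] at h
  have hξ1 : 1 ≤ ξ := by linarith [hξ.1]
  have u1 : ξ ^ (-(2 * β) - 1) ≤ 1 := Real.rpow_le_one_of_one_le_of_nonpos hξ1 (by linarith)
  have u2 : 1 / 9 ≤ ξ ^ (-(2 * β) - 1) := by
    calc (1 / 9 : ℝ) = 3 ^ (-2 : ℝ) := by
          rw [Real.rpow_neg (by norm_num), Real.rpow_two]; norm_num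
      _ ≤ ξ ^ (-2 : ℝ) := Real.rpow_le_rpow_of_nonpos (by linarith) (by linarith [hξ.2])
          (by norm_num)
      _ ≤ _ := Real.rpow_le_rpow_of_exponent_le hξ1 (by linarith)
  have e : X ^ (-(2 * β)) - (X + H) ^ (-(2 * β)) = 2 * β * H * ξ ^ (-(2 * β) - 1) := by
    linarith
  rw [e]
  have : 0 < 2 * β * H := by positivity
  constructor <;> nlinarith

end Pool.Agent.Lib.MP_0dc93f_an
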