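import Mathlib

namespace Pool.Agent.Lib.MP_0dc93f_an

open Complex Filter Set Topology
open scoped ContDiff

/-- The `k`-th Fourier coefficient of a function on the circle of length `2π`. -/
noncomputable def coef (f : ℝ → ℂ) (k : ℤ) : ℂ :=
  (1 / (2 * Real.pi) : ℝ) • ∫ x in (0 : ℝ)..2 * Real.pi, cexp (-(k * x * I)) * f x

/-- The squared `H^(α/2)` norm of the distribution with Fourier coefficients `c`. -/
noncomputable def hsq (α : ℝ) (c : ℤ → ℂ) : ENNReal :=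
  ∑' k : ℤ, ENNReal.ofReal ((1 + |(k : ℝ)|) ^ α * ‖c k‖ ^ 2)

/-- The symbol of `|D|^α`, equal to `0` at frequency `0`. -/
noncomputable def symb (α : ℝ) (k : ℤ) : ℝ := if k = 0 then 0 else |(k : ℝ)| ^ α

/-- The Fourier multiplier `|D|^α` applied to a smooth periodic function. -/
noncomputable def fracD (α : ℝ) (f : ℝ → ℂ) (x : ℝ) : ℂ :=
  ∑' k : ℤ, (symb α k : ℂ) * coef f k * cexp (k * x * I)

/-- `u` is a smooth solution of `i ∂ₜ u = |D|^α u + |u|² u` on `[-T, T] × 𝕋`. -/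
def IsSmoothSol (α T : ℝ) (u : ℝ → ℝ → ℂ) : Prop :=
  ContDiffOn ℝ ∞ (fun p : ℝ × ℝ => u p.1 p.2) (Icc (-T) T ×ˢ univ) ∧
  (∀ t ∈ Icc (-T) T, ∀ x, u t (x + 2 * Real.pi) = u t x) ∧
  ∀ t ∈ Icc (-T) T, ∀ x,
    I * derivWithin (fun s => u s x) (Icc (-T) T) t = fracD α (u t) x + (‖u t x‖ : ℂ) ^ 2 * u t x

/-- `U` (given by its Fourier coefficients at each time) is a global solution with datum `a`:
it is continuous from `ℝ` to `H^(α/2)`, starts at `a`, and on each `[-T, T]` it is the limit in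
`C([-T, T]; H^(α/2))` of smooth solutions whose data tend to `a` in `H^(α/2)`. -/
def IsGlobalSol (α : ℝ) (a : ℤ → ℂ) (U : ℝ → ℤ → ℂ) : Prop :=
  (∀ t, hsq α (U t) < ⊤) ∧
  (∀ t, Tendsto (fun s => hsq α (U s - U t)) (𝓝 t) (𝓝 0)) ∧
  U 0 = a ∧
  ∀ T > 0, ∃ u : ℕ → ℝ → ℝ → ℂ,
    (∀ᶠ n in atTop, IsSmoothSol α T (u n)) ∧
    Tendsto (fun n => hsq α (coef (u n 0) - a)) atTop (𝓝 0) ∧
    Tendsto (fun n => ⨆ t ∈ Icc (-T) T, hsq α (coef (u n t) - U t)) atTop (𝓝 0)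

end Pool.Agent.Lib.MP_0dc93f_an
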