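import Pool.Agent.Lib.MP_0dc93f_an.Func

namespace Pool.Agent.Lib.MP_0dc93f_an

open Complex Filter Set Topology MeasureTheory
open scoped Real ComplexConjugate ContDiff

lemma swap_int {E : Type*} [NormedAddCommGroup E] [NormedSpace ℝ E] {D : ℝ → ℝ → E} {a b : ℝ}
    (ht : a ≤ b) (hD : ContinuousOn (fun p : ℝ × ℝ => D p.1 p.2) (Icc a b ×ˢ univ)) :
    ∫ x in (0 : ℝ)..2 * π, ∫ s in a..b, D s x = ∫ s in a..b, ∫ x in (0 : ℝ)..2 * π, D s x := by
  simp only [intervalIntegral.integral_of_le ht, intervalIntegral.integral_of_le two_pi_pos'.le]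
  symm
  refine integral_integral_swap ?_
  rw [Measure.prod_restrict]
  have h1 : IntegrableOn (fun p : ℝ × ℝ => D p.1 p.2) (Icc a b ×ˢ Icc 0 (2 * π))
      (volume.prod volume) :=
    (hD.mono (prod_mono le_rfl (subset_univ _))).integrableOn_compact
      (isCompact_Icc.prod isCompact_Icc)
  exact h1.mono_set (prod_mono Ioc_subset_Icc_self Ioc_subset_Icc_self)

lemma nat_le_inf (n : ℕ) : (n : WithTop ℕ∞) ≤ ∞ := by exact_mod_cast le_top

lemma three_le_inf : (3 : WithTop ℕ∞) ≤ ∞ := nat_le_inf 3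

section

variable {α T : ℝ} {u : ℝ → ℝ → ℂ}

lemma IsSmoothSol.contDiff (h : IsSmoothSol α T u) {t : ℝ} (ht : t ∈ Icc (-T) T) :
    ContDiff ℝ ∞ (u t) := by
  have := h.1.comp_contDiff (f := fun x : ℝ => (t, x)) (by fun_prop) (fun x => ⟨ht, mem_univ _⟩)
  exact this

lemma IsSmoothSol.periodic (h : IsSmoothSol α T u) {t : ℝ} (ht : t ∈ Icc (-T) T) :
    Function.Periodic (u t) (2 * π) := h.2.1 t ht

lemma IsSmoothSol.derivWithin_eq (h : IsSmoothSol α T u) (hT : 0 < T) {t : ℝ}
    (ht : t ∈ Icc (-T) T) (x : ℝ) :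
    HasDerivWithinAt (fun s => u s x)
      (fderivWithin ℝ (fun p : ℝ × ℝ => u p.1 p.2) (Icc (-T) T ×ˢ univ) (t, x) (1, 0))
      (Icc (-T) T) t := by
  have h1 := ((h.1 (t, x) ⟨ht, mem_univ _⟩).differentiableWithinAt (by simp)).hasFDerivWithinAt
  have h2 : HasDerivWithinAt (fun s : ℝ => (s, x)) ((1 : ℝ), (0 : ℝ)) (Icc (-T) T) t :=
    ((hasDerivAt_id t).prodMk (hasDerivAt_const t x)).hasDerivWithinAt
  exact h1.comp_hasDerivWithinAt (f := fun s : ℝ => (s, x)) t h2
    (fun s hs => mk_mem_prod hs (mem_univ _))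

lemma IsSmoothSol.continuousOn_fracD (h : IsSmoothSol α T u) (hT : 0 < T) :
    ContinuousOn (fun p : ℝ × ℝ => fracD α (u p.1) p.2) (Icc (-T) T ×ˢ univ) := by
  have hu : UniqueDiffOn ℝ (Icc (-T) T ×ˢ (univ : Set ℝ)) :=
    (uniqueDiffOn_Icc (by linarith)).prod uniqueDiffOn_univ
  have h1 := h.1.continuousOn_fderivWithin hu (by simp)
  have h2 : ContinuousOn (fun p : ℝ × ℝ => I *
      fderivWithin ℝ (fun p : ℝ × ℝ => u p.1 p.2) (Icc (-T) T ×ˢ univ) p (1, 0) -
        (‖u p.1 p.2‖ : ℂ) ^ 2 * u p.1 p.2) (Icc (-T) T ×ˢ univ) := by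
    have h3 := h.1.continuousOn
    have h4 := h1.clm_apply (g := fun _ => ((1 : ℝ), (0 : ℝ))) continuousOn_const
    refine (continuousOn_const.mul h4).sub ?_
    exact ((Complex.continuous_ofReal.comp_continuousOn h3.norm).pow 2).mul h3
  refine h2.congr fun p hp => ?_
  have h5 := h.2.2 p.1 hp.1 p.2
  rw [(h.derivWithin_eq hT hp.1 p.2).derivWithin (uniqueDiffOn_Icc (by linarith) _ hp.1)] at h5
  simp only
  rw [h5]; ring

lemma IsSmoothSol.hasDerivAt (h : IsSmoothSol α T u) {t : ℝ} (ht : t ∈ Ioo (-T) T) (x : ℝ) :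
    HasDerivAt (fun s => u s x)
      (-I * (fracD α (u t) x + (‖u t x‖ : ℂ) ^ 2 * u t x)) t := by
  have hT : 0 < T := by linarith [ht.1, ht.2]
  have ht' := Ioo_subset_Icc_self ht
  have h5 := h.2.2 t ht' x
  have h6 := h.derivWithin_eq hT ht' x
  rw [h6.derivWithin (uniqueDiffOn_Icc (by linarith) _ ht')] at h5
  refine (h6.hasDerivAt (Icc_mem_nhds ht.1 ht.2)).congr_deriv ?_
  rw [← h5]
  linear_combination (fderivWithin ℝ (fun p : ℝ × ℝ => u p.1 p.2) (Icc (-T) T ×ˢ univ) (t, x)
    (1, 0)) * Complex.I_mul_I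

lemma Psi_zero (y : ℂ) : Psi 0 y y = 0 := by simp [Psi]

/-- The main a priori estimate. -/
lemma Psi_est (hα0 : 0 < α) (hα : α < 1) (h : IsSmoothSol α T u) {t lam B : ℝ} (ht0 : 0 ≤ t)
    (htT : t < T) (hlam : 0 < lam) (hB : ∀ s ∈ Icc 0 t, NB α (u s) B) :
    ∫ x in (0 : ℝ)..2 * π, Psi (t * lam ^ 2) (u t x / lam) (u 0 x / lam)
      ≤ t * (π * (1080000 * CW α + 1) * (1 + t * lam ^ 2) ^ 2 * B / lam ^ 2) := by
  have hT : 0 < T := by linarith
  have hsub : Icc 0 t ⊆ Ioo (-T) T := fun s hs => ⟨by linarith [hs.1], by linarith [hs.2]⟩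
  have hsub' : Icc 0 t ⊆ Icc (-T) T := hsub.trans Ioo_subset_Icc_self
  have h0 : (0 : ℝ) ∈ Icc (-T) T := hsub' ⟨le_rfl, ht0⟩
  set D : ℝ → ℝ → ℝ := fun s x => (conj (gg (s * lam ^ 2) (u s x / lam) (u 0 x / lam)) *
    (-I * fracD α (u s) x / lam)).re with hD
  have hu0 : Continuous (u 0) := (h.contDiff h0).continuous
  have hDc : ContinuousOn (fun p : ℝ × ℝ => D p.1 p.2) (Icc 0 t ×ˢ univ) := by
    have c1 := h.1.continuousOn.mono (prod_mono hsub' (le_refl univ))
    have c2 := (h.continuousOn_fracD hT).mono (prod_mono hsub' (le_refl univ))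
    have c3 : ContinuousOn (fun p : ℝ × ℝ =>
        ((p.1 * lam ^ 2, u p.1 p.2 / lam, u 0 p.2 / lam) : ℝ × ℂ × ℂ)) (Icc 0 t ×ˢ univ) := by
      refine ContinuousOn.prodMk (by fun_prop) (ContinuousOn.prodMk (c1.div_const _) ?_)
      exact (by fun_prop : Continuous fun p : ℝ × ℝ => u 0 p.2 / (lam : ℂ)).continuousOn
    have c4 := continuous_gg.comp_continuousOn c3
    refine Complex.continuous_re.comp_continuousOn ?_
    exact (Complex.continuous_conj.comp_continuousOn c4).mul
      ((continuousOn_const.mul c2).div_const _)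
  have hlc : (lam : ℂ) ≠ 0 := by exact_mod_cast hlam.ne'
  have step1 : ∀ x, Psi (t * lam ^ 2) (u t x / lam) (u 0 x / lam) = ∫ s in (0 : ℝ)..t, D s x := by
    intro x
    rw [intervalIntegral.integral_eq_sub_of_hasDerivAt
      (f := fun s => Psi (s * lam ^ 2) (u s x / lam) (u 0 x / lam))]
    · simp [Psi_zero]
    · intro s hs
      rw [uIcc_of_le ht0] at hs
      refine hasDerivAt_Psi (f := fun s => u s x / lam) ?_
      refine ((h.hasDerivAt (hsub hs) x).div_const (lam : ℂ)).congr_deriv ?_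
      rw [norm_div, Complex.norm_real, Real.norm_eq_abs, abs_of_pos hlam]
      push_cast
      field_simp
      ring
    · refine ContinuousOn.intervalIntegrable ?_
      rw [uIcc_of_le ht0]
      exact hDc.comp (f := fun s : ℝ => (s, x)) (by fun_prop) (fun s hs => ⟨hs, mem_univ _⟩)
  simp only [step1]
  rw [swap_int ht0 hDc]
  have hB0 : 0 ≤ B := (hB 0 ⟨le_rfl, ht0⟩).nonneg
  have hCW := CW_pos hα0 hα
  have step2 : ∀ s ∈ Icc 0 t, ‖∫ x in (0 : ℝ)..2 * π, D s x‖
      ≤ π * (1080000 * CW α + 1) * (1 + t * lam ^ 2) ^ 2 * B / lam ^ 2 := by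
    intro s hs
    set K := 1 + t * lam ^ 2 with hK
    have hK1 : 1 ≤ K := by have : 0 ≤ t * lam ^ 2 := by positivity
                           linarith
    have hτ : 1 + |s * lam ^ 2| ≤ K := by
      rw [abs_of_nonneg (mul_nonneg hs.1 (by positivity))]
      have := mul_le_mul_of_nonneg_right hs.2 (sq_nonneg lam)
      linarith
    have hus := h.contDiff (hsub' hs)
    have husc := hus.continuous
    set g : ℝ → ℂ := fun x => gg (s * lam ^ 2) (u s x / lam) (u 0 x / lam) with hg
    have hgc : Continuous g :=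
      continuous_gg.comp (f := fun x => ((s * lam ^ 2, u s x / lam, u 0 x / lam) : ℝ × ℂ × ℂ))
        (by fun_prop)
    have hgp : Function.Periodic g (2 * π) := by
      intro x; simp only [hg, h.periodic (hsub' hs) x, h.periodic h0 x]
    have hNB := NB_comp hα0 hα (h.periodic (hsub' hs)) husc (h.periodic h0) hu0 hgp hgc
      (hB s hs) (hB 0 ⟨le_rfl, ht0⟩) (L := 300 * K ^ 2 / lam) (fun x y => by
        refine (gg_lip hτ _ _ _ _).trans (le_of_eq ?_)
        rw [← sub_div, ← sub_div, norm_div, norm_div, Complex.norm_real, Real.norm_eq_abs,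
          abs_of_pos hlam]
        field_simp)
    have hpair := pairing_le hα.le (h.periodic (hsub' hs)) (hus.of_le three_le_inf)
      hgc (c := K ^ 2 / lam) (by positivity) (hB s hs) hNB
    have hwc : Continuous (fracD α (u s)) := by
      have := (h.continuousOn_fracD hT).comp_continuous (f := fun x : ℝ => (s, x)) (by fun_prop)
        (fun x => ⟨hsub' hs, mem_univ _⟩)
      exact this
    have e1 : ∫ x in (0 : ℝ)..2 * π, D s x
        = ((-I / lam) * ∫ x in (0 : ℝ)..2 * π, conj (g x) * fracD α (u s) x).re := by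
      rw [← intervalIntegral.integral_const_mul]
      have := Complex.reCLM.intervalIntegral_comp_comm (μ := volume) (a := 0) (b := 2 * π)
        (f := fun x => (-I / lam) * (conj (g x) * fracD α (u s) x))
        ((by fun_prop : Continuous fun x => (-I / lam) *
          (conj (g x) * fracD α (u s) x)).intervalIntegrable _ _)
      simp only [Complex.reCLM_apply] at this
      rw [← this]
      refine intervalIntegral.integral_congr fun x _ => ?_
      simp only [hD, hg]
      congr 1; ring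
    rw [e1]
    refine (Complex.abs_re_le_norm _).trans ?_
    rw [norm_mul, norm_div, norm_neg, Complex.norm_I, Complex.norm_real, Real.norm_eq_abs,
      abs_of_pos hlam]
    have hpi := Real.pi_pos
    calc _ ≤ 1 / lam * (π * (12 * (300 * K ^ 2 / lam) ^ 2 * CW α * B / (K ^ 2 / lam) +
          K ^ 2 / lam * B)) := by gcongr
      _ = _ := by field_simp; ring
  have := intervalIntegral.norm_integral_le_of_norm_le_const (a := 0) (b := t)
    (f := fun s => ∫ x in (0 : ℝ)..2 * π, D s x) (fun s hs => by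
      rw [uIoc_of_le ht0] at hs
      exact step2 s (Ioc_subset_Icc_self hs))
  rw [sub_zero, abs_of_nonneg ht0] at this
  exact ((le_abs_self _).trans this).trans (le_of_eq (mul_comm _ _))

end

end Pool.Agent.Lib.MP_0dc93f_an
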