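import Pool.Agent.Lib.MP_0dc93f_an.Defs

namespace Pool.Agent.Lib.MP_0dc93f_an

open Complex Filter Set Topology MeasureTheory
open scoped Real ComplexConjugate

lemma two_pi_pos' : (0 : ℝ) < 2 * π := Real.two_pi_pos

/-- exponential `e^{ikx}` -/
noncomputable def ex (k : ℤ) (x : ℝ) : ℂ := cexp (k * x * I)

lemma norm_ex (k : ℤ) (x : ℝ) : ‖ex k x‖ = 1 := by
  unfold ex
  have : ((k : ℂ) * x * I) = ((k * x : ℝ) : ℂ) * I := by push_cast; ring
  rw [this, Complex.norm_exp_ofReal_mul_I]

lemma ex_neg (k : ℤ) (x : ℝ) : ex (-k) x = cexp (-(k * x * I)) := by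
  unfold ex; congr 1; push_cast; ring

lemma conj_ex (k : ℤ) (x : ℝ) : conj (ex k x) = ex (-k) x := by
  unfold ex; rw [← Complex.exp_conj]; congr 1; simp

lemma ex_add (k : ℤ) (x y : ℝ) : ex k (x + y) = ex k x * ex k y := by
  unfold ex; rw [← Complex.exp_add]; congr 1; push_cast; ring

lemma ex_add' (k l : ℤ) (x : ℝ) : ex (k + l) x = ex k x * ex l x := by
  unfold ex; rw [← Complex.exp_add]; congr 1; push_cast; ring

lemma ex_two_pi (k : ℤ) : ex k (2 * π) = 1 := by
  unfold ex
  have := Complex.exp_int_mul_two_pi_mul_I k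
  rw [← this]; congr 1; push_cast; ring

lemma ex_zero (k : ℤ) : ex k 0 = 1 := by simp [ex]

lemma ex_zero' (x : ℝ) : ex 0 x = 1 := by simp [ex]

lemma ex_periodic (k : ℤ) : Function.Periodic (ex k) (2 * π) := by
  intro x; rw [ex_add, ex_two_pi, mul_one]

@[fun_prop] lemma continuous_ex (k : ℤ) : Continuous (ex k) := by
  unfold ex; fun_prop

lemma hasDerivAt_ex (k : ℤ) (x : ℝ) : HasDerivAt (ex k) (k * I * ex k x) x := by
  unfold ex
  have h1 : HasDerivAt (fun y : ℝ => (k : ℂ) * (y : ℂ) * I) (k * 1 * I) x :=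
    ((Complex.ofRealCLM.hasDerivAt (x := x)).const_mul (k : ℂ)).mul_const I
  have := h1.cexp
  convert this using 1
  ring

lemma coef_def (f : ℝ → ℂ) (k : ℤ) :
    coef f k = ((1 / (2 * π) : ℝ) : ℂ) * ∫ x in (0 : ℝ)..2 * π, ex (-k) x * f x := by
  unfold coef
  simp only [ex_neg, real_smul]

lemma coef_eq_fourierCoeffOn (f : ℝ → ℂ) (k : ℤ) :
    coef f k = fourierCoeffOn two_pi_pos' f k := by
  rw [fourierCoeffOn_eq_integral]
  unfold coef
  simp only [sub_zero]
  congr 1
  refine intervalIntegral.integral_congr fun x _ => ?_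
  simp only [fourier_coe_apply, smul_eq_mul]
  congr 2
  have : (π : ℂ) ≠ 0 := by exact_mod_cast Real.pi_ne_zero
  push_cast
  field_simp
  ring

lemma parseval {f : ℝ → ℂ} (hf : MemLp f 2 (volume.restrict (Ioc 0 (2 * π)))) :
    HasSum (fun k => ‖coef f k‖ ^ 2) ((1 / (2 * π)) * ∫ x in (0 : ℝ)..2 * π, ‖f x‖ ^ 2) := by
  have := hasSum_sq_fourierCoeffOn two_pi_pos' hf
  simp only [← coef_eq_fourierCoeffOn, sub_zero, smul_eq_mul] at this
  rwa [one_div]

lemma memLp_of_continuous {f : ℝ → ℂ} (hf : Continuous f) :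
    MemLp f 2 (volume.restrict (Ioc 0 (2 * π))) := by
  obtain ⟨C, hC⟩ := (isCompact_Icc (a := (0 : ℝ)) (b := 2 * π)).exists_bound_of_continuousOn
    hf.continuousOn
  refine MemLp.of_bound hf.aestronglyMeasurable C ?_
  exact ae_restrict_of_forall_mem measurableSet_Ioc fun x hx => hC x (Ioc_subset_Icc_self hx)

lemma intInt_ex_mul {f : ℝ → ℂ} (hf : IntervalIntegrable f volume 0 (2 * π)) (k : ℤ) :
    IntervalIntegrable (fun x => ex k x * f x) volume 0 (2 * π) :=
  hf.continuousOn_mul (continuous_ex k).continuousOn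

lemma coef_add {f g : ℝ → ℂ} (hf : IntervalIntegrable f volume 0 (2 * π))
    (hg : IntervalIntegrable g volume 0 (2 * π)) (k : ℤ) :
    coef (fun x => f x + g x) k = coef f k + coef g k := by
  simp only [coef_def, mul_add]
  rw [intervalIntegral.integral_add (intInt_ex_mul hf _) (intInt_ex_mul hg _), mul_add]

lemma coef_sub {f g : ℝ → ℂ} (hf : IntervalIntegrable f volume 0 (2 * π))
    (hg : IntervalIntegrable g volume 0 (2 * π)) (k : ℤ) :
    coef (fun x => f x - g x) k = coef f k - coef g k := by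
  simp only [coef_def, mul_sub]
  rw [intervalIntegral.integral_sub (intInt_ex_mul hf _) (intInt_ex_mul hg _), mul_sub]

lemma coef_const_mul (c : ℂ) (f : ℝ → ℂ) (k : ℤ) :
    coef (fun x => c * f x) k = c * coef f k := by
  simp only [coef_def]
  have : ∀ x, ex (-k) x * (c * f x) = c * (ex (-k) x * f x) := fun x => by ring
  simp only [this, intervalIntegral.integral_const_mul]
  ring

lemma coef_shift {f : ℝ → ℂ} (hp : Function.Periodic f (2 * π)) (h : ℝ) (k : ℤ) :
    coef (fun x => f (x + h)) k = ex k h * coef f k := by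
  simp only [coef_def]
  have hper : Function.Periodic (fun x => ex (-k) x * f x) (2 * π) :=
    (ex_periodic (-k)).mul hp
  have h1 : ∀ x, ex (-k) x * f (x + h) = ex k h * (ex (-k) (x + h) * f (x + h)) := by
    intro x
    rw [ex_add]
    have : ex k h * ex (-k) h = 1 := by rw [← ex_add']; simp [ex_zero']
    linear_combination (-(ex (-k) x * f (x + h))) * this
  simp only [h1, intervalIntegral.integral_const_mul]
  rw [intervalIntegral.integral_comp_add_right (fun x => ex (-k) x * f x) h]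
  have := hper.intervalIntegral_add_eq h 0
  simp only [zero_add] at this ⊢
  rw [add_comm (2 * π) h, this]
  ring

lemma norm_coef_le {f : ℝ → ℂ} {C : ℝ} (hC : ∀ x ∈ Ioc 0 (2 * π), ‖f x‖ ≤ C) (k : ℤ) :
    ‖coef f k‖ ≤ C := by
  rw [coef_def, norm_mul]
  have h := intervalIntegral.norm_integral_le_of_norm_le_const (a := 0) (b := 2 * π)
    (f := fun x => ex (-k) x * f x) (C := C) (by
      intro x hx
      rw [uIoc_of_le two_pi_pos'.le] at hx
      rw [norm_mul, norm_ex, one_mul]; exact hC x hx)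
  have hp := two_pi_pos'
  rw [sub_zero, abs_of_pos hp] at h
  rw [Complex.norm_real, Real.norm_eq_abs, abs_of_pos (by positivity)]
  calc 1 / (2 * π) * ‖∫ x in (0 : ℝ)..2 * π, ex (-k) x * f x‖ ≤ 1 / (2 * π) * (C * (2 * π)) := by
        gcongr
    _ = C := by field_simp

lemma coef_deriv {f f' : ℝ → ℂ} (hp : Function.Periodic f (2 * π))
    (hf : ∀ x, HasDerivAt f (f' x) x) (hf' : Continuous f') (k : ℤ) :
    coef f' k = k * I * coef f k := by
  simp only [coef_def]
  have h := intervalIntegral.integral_mul_deriv_eq_deriv_mul (a := 0) (b := 2 * π)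
    (u := ex (-k)) (v := f) (u' := fun x => ((-k : ℤ) : ℂ) * I * ex (-k) x) (v' := f')
    (fun x _ => hasDerivAt_ex (-k) x) (fun x _ => hf x)
    ((by fun_prop : Continuous fun x => ((-k : ℤ) : ℂ) * I * ex (-k) x).intervalIntegrable _ _)
    (hf'.intervalIntegrable _ _)
  rw [h, ex_two_pi, ex_zero]
  have h0 : f (2 * π) = f 0 := by simpa using hp 0
  rw [h0]
  have : ∀ x, ((-k : ℤ) : ℂ) * I * ex (-k) x * f x = (-(k * I)) * (ex (-k) x * f x) := by
    intro x; push_cast; ring
  simp only [this, intervalIntegral.integral_const_mul]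
  ring

lemma periodic_deriv {f : ℝ → ℂ} (hp : Function.Periodic f (2 * π)) :
    Function.Periodic (deriv f) (2 * π) := by
  intro x
  have : f = fun y => f (y + 2 * π) := funext fun y => (hp y).symm
  conv_rhs => rw [this]
  rw [deriv_comp_add_const]

/-- decay of Fourier coefficients of a `C^m` periodic function -/
lemma coef_decay (m : ℕ) : ∀ {f : ℝ → ℂ}, Function.Periodic f (2 * π) → ContDiff ℝ m f →
    ∃ C, ∀ k : ℤ, |(k : ℝ)| ^ m * ‖coef f k‖ ≤ C := by
  induction m with
  | zero =>
    intro f _ hf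
    obtain ⟨C, hC⟩ := (isCompact_Icc (a := (0 : ℝ)) (b := 2 * π)).exists_bound_of_continuousOn
      hf.continuous.continuousOn
    exact ⟨C, fun k => by
      simpa using norm_coef_le (fun x hx => hC x (Ioc_subset_Icc_self hx)) k⟩
  | succ m ih =>
    intro f hp hf
    have hf1 : ContDiff ℝ m (deriv f) := by
      have : ContDiff ℝ ((m : WithTop ℕ∞) + 1) f := by exact_mod_cast hf
      exact (contDiff_succ_iff_deriv.1 this).2.2
    have hd : Differentiable ℝ f := hf.differentiable (by simp)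
    obtain ⟨C, hC⟩ := ih (periodic_deriv hp) hf1
    refine ⟨C, fun k => ?_⟩
    have := hC k
    rw [coef_deriv hp (fun x => (hd x).hasDerivAt) hf1.continuous k, norm_mul, norm_mul,
      Complex.norm_I, mul_one, Complex.norm_intCast] at this
    rw [pow_succ]
    linarith

lemma summable_int_rpow {s : ℝ} (hs : 1 < s) : Summable fun k : ℤ => |(k : ℝ)| ^ (-s) :=
  Real.summable_abs_int_rpow hs

lemma symb_nonneg (α : ℝ) (k : ℤ) : 0 ≤ symb α k := by
  unfold symb; split_ifs
  · exact le_rfl
  · positivity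

lemma one_le_abs_int {k : ℤ} (hk : k ≠ 0) : (1 : ℝ) ≤ |(k : ℝ)| := by
  have := Int.one_le_abs hk
  exact_mod_cast this

lemma symb_le {α : ℝ} (hα : α ≤ 1) (k : ℤ) : symb α k ≤ |(k : ℝ)| := by
  unfold symb; split_ifs with h
  · positivity
  · calc |(k : ℝ)| ^ α ≤ |(k : ℝ)| ^ (1 : ℝ) :=
          Real.rpow_le_rpow_of_exponent_le (one_le_abs_int h) hα
      _ = _ := Real.rpow_one _

lemma summable_symb_coef {α : ℝ} (hα : α ≤ 1) {f : ℝ → ℂ} (hp : Function.Periodic f (2 * π))
    (hf : ContDiff ℝ 3 f) : Summable fun k => ‖(symb α k : ℂ) * coef f k‖ := by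
  obtain ⟨C, hC⟩ := coef_decay 3 hp (by exact_mod_cast hf)
  refine Summable.of_nonneg_of_le (fun k => norm_nonneg _) (fun k => ?_)
    ((summable_int_rpow (s := 2) (by norm_num)).mul_left C)
  by_cases hk : k = 0
  · subst hk; simp [symb]
  have h1 := one_le_abs_int hk
  have h2 := hC k
  rw [norm_mul, Complex.norm_real, Real.norm_eq_abs, abs_of_nonneg (symb_nonneg _ _)]
  rw [Real.rpow_neg (by positivity), Real.rpow_two, ← div_eq_mul_inv, le_div_iff₀ (by positivity)]
  have h3 := symb_le hα k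
  calc symb α k * ‖coef f k‖ * |(k : ℝ)| ^ 2 ≤ |(k : ℝ)| * ‖coef f k‖ * |(k : ℝ)| ^ 2 := by gcongr
    _ = |(k : ℝ)| ^ 3 * ‖coef f k‖ := by ring
    _ ≤ C := h2

lemma intInt_conj (f : ℝ → ℂ) :
    conj (∫ x in (0 : ℝ)..2 * π, f x) = ∫ x in (0 : ℝ)..2 * π, conj (f x) := by
  simp only [intervalIntegral.integral_of_le two_pi_pos'.le, integral_conj]

/-- pairing a continuous function with an absolutely convergent Fourier series -/
lemma hasSum_pairing {b : ℤ → ℂ} (hb : Summable fun k => ‖b k‖) {g : ℝ → ℂ} (hg : Continuous g) :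
    HasSum (fun k => conj (coef g k) * b k)
      (((1 / (2 * π) : ℝ) : ℂ) * ∫ x in (0 : ℝ)..2 * π, conj (g x) * ∑' k, b k * ex k x) := by
  obtain ⟨C, hC⟩ := (isCompact_Icc (a := (0 : ℝ)) (b := 2 * π)).exists_bound_of_continuousOn
    hg.continuousOn
  have key := intervalIntegral.hasSum_integral_of_dominated_convergence (μ := volume)
    (a := 0) (b := 2 * π) (F := fun k x => conj (g x) * (b k * ex k x))
    (f := fun x => conj (g x) * ∑' k, b k * ex k x) (fun k _ => C * ‖b k‖)
    (fun k => (by fun_prop : Continuous fun x => conj (g x) * (b k * ex k x)).aestronglyMeasurable)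
    (fun k => Eventually.of_forall fun x hx => by
      rw [uIoc_of_le two_pi_pos'.le] at hx
      rw [norm_mul, norm_mul, norm_ex, mul_one, RCLike.norm_conj]
      gcongr
      exact hC x (Ioc_subset_Icc_self hx))
    (Eventually.of_forall fun x _ => hb.mul_left C)
    (by simp)
    (Eventually.of_forall fun x _ => by
      refine HasSum.mul_left _ (Summable.hasSum (Summable.of_norm ?_))
      simpa [norm_ex] using hb)
  have := key.mul_left ((1 / (2 * π) : ℝ) : ℂ)
  refine (congrArg (fun F => HasSum F _) ?_).mp this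
  funext k
  rw [coef_def, map_mul, Complex.conj_ofReal, intInt_conj, mul_assoc,
    ← intervalIntegral.integral_mul_const]
  congr 1
  refine intervalIntegral.integral_congr fun x _ => ?_
  simp only [map_mul, conj_ex, neg_neg]
  ring

end Pool.Agent.Lib.MP_0dc93f_an
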