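import Pool.Agent.Lib.MP_0dc93f_an.Gag

namespace Pool.Agent.Lib.MP_0dc93f_an

open Complex Filter Set Topology MeasureTheory
open scoped Real ComplexConjugate

/-- Gaussian factor -/
noncomputable def qq (c z : ℂ) : ℂ := cexp (c * ((‖z‖ ^ 2 : ℝ) : ℂ))

/-- Gaussian factor times the variable -/
noncomputable def pp (c z : ℂ) : ℂ := z * qq c z

@[fun_prop] lemma continuous_qq : Continuous fun p : ℂ × ℂ => qq p.1 p.2 := by
  unfold qq; fun_prop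

@[fun_prop] lemma continuous_pp : Continuous fun p : ℂ × ℂ => pp p.1 p.2 := by
  unfold pp; fun_prop

lemma qq_add (c d z : ℂ) : qq (c + d) z = qq c z * qq d z := by
  unfold qq; rw [← Complex.exp_add]; congr 1; ring

lemma qq_ofReal (c : ℝ) (z : ℂ) : qq c z = (Real.exp (c * ‖z‖ ^ 2) : ℝ) := by
  unfold qq; push_cast; rfl

lemma norm_qq (c z : ℂ) : ‖qq c z‖ = Real.exp (c.re * ‖z‖ ^ 2) := by
  unfold qq; rw [Complex.norm_exp, Complex.re_mul_ofReal]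

lemma norm_qq_le {c : ℂ} (hc : c.re ≤ -1 / 2) (z : ℂ) : ‖qq c z‖ ≤ Real.exp (-(‖z‖ ^ 2 / 2)) := by
  rw [norm_qq]; refine Real.exp_le_exp.2 ?_; nlinarith [sq_nonneg ‖z‖]

lemma norm_qq_le_one {c : ℂ} (hc : c.re ≤ -1 / 2) (z : ℂ) : ‖qq c z‖ ≤ 1 :=
  (norm_qq_le hc z).trans (Real.exp_le_one_iff.2 (by nlinarith [sq_nonneg ‖z‖]))

lemma mul_gauss_le (r : ℝ) : r * Real.exp (-(r ^ 2 / 2)) ≤ 1 := by
  rw [Real.exp_neg, ← div_eq_mul_inv, div_le_one (Real.exp_pos _)]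
  nlinarith [Real.add_one_le_exp (r ^ 2 / 2), sq_nonneg (r - 1)]

lemma sq_mul_gauss_le (r : ℝ) : r ^ 2 * Real.exp (-(r ^ 2 / 2)) ≤ 2 := by
  rw [Real.exp_neg, ← div_eq_mul_inv, div_le_iff₀ (Real.exp_pos _)]
  nlinarith [Real.add_one_le_exp (r ^ 2 / 2)]

lemma norm_pp_le_one {c : ℂ} (hc : c.re ≤ -1 / 2) (z : ℂ) : ‖pp c z‖ ≤ 1 := by
  unfold pp; rw [norm_mul]
  exact le_trans (mul_le_mul_of_nonneg_left (norm_qq_le hc z) (norm_nonneg _)) (mul_gauss_le _)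

lemma hasDerivAt_normSq {f : ℝ → ℂ} {ξ : ℂ} {s : ℝ} (hf : HasDerivAt f ξ s) :
    HasDerivAt (fun s => ‖f s‖ ^ 2) (2 * (conj (f s) * ξ).re) s := by
  have := hf.norm_sq
  rwa [Complex.inner, mul_comm ξ] at this

lemma hasDerivAt_qq {f c : ℝ → ℂ} {ξ c' : ℂ} {s : ℝ} (hf : HasDerivAt f ξ s)
    (hc : HasDerivAt c c' s) :
    HasDerivAt (fun s => qq (c s) (f s))
      (qq (c s) (f s) * (c' * ((‖f s‖ ^ 2 : ℝ) : ℂ) +
        c s * ((2 * (conj (f s) * ξ).re : ℝ) : ℂ))) s := by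
  unfold qq
  exact (hc.mul (hasDerivAt_normSq hf).ofReal_comp).cexp

lemma hasDerivAt_pp {f c : ℝ → ℂ} {ξ c' : ℂ} {s : ℝ} (hf : HasDerivAt f ξ s)
    (hc : HasDerivAt c c' s) :
    HasDerivAt (fun s => pp (c s) (f s))
      (ξ * qq (c s) (f s) + f s * (qq (c s) (f s) * (c' * ((‖f s‖ ^ 2 : ℝ) : ℂ) +
        c s * ((2 * (conj (f s) * ξ).re : ℝ) : ℂ)))) s := by
  unfold pp
  exact hf.mul (hasDerivAt_qq hf hc)

lemma seg_deriv (z z' : ℂ) (r : ℝ) :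
    HasDerivAt (fun r : ℝ => z' + (r : ℂ) * (z - z')) (z - z') r := by
  have := ((Complex.ofRealCLM.hasDerivAt (x := r)).mul_const (z - z')).const_add z'
  simpa using this

lemma abs_re_conj_mul_le (a b : ℂ) : |(conj a * b).re| ≤ ‖a‖ * ‖b‖ := by
  refine (Complex.abs_re_le_norm _).trans ?_
  rw [norm_mul, RCLike.norm_conj]

lemma lip_qq {c : ℂ} (hc : c.re ≤ -1 / 2) (z z' : ℂ) :
    ‖qq c z - qq c z'‖ ≤ 2 * ‖c‖ * ‖z - z'‖ := by
  have := norm_image_sub_le_of_norm_deriv_le_segment_01'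
    (f := fun r : ℝ => qq c (z' + (r : ℂ) * (z - z'))) (C := 2 * ‖c‖ * ‖z - z'‖)
    (fun r _ => (hasDerivAt_qq (seg_deriv z z' r) (hasDerivAt_const r c)).hasDerivWithinAt)
    (fun r _ => by
      set w := z' + (r : ℂ) * (z - z')
      rw [zero_mul, zero_add, norm_mul, norm_mul, Complex.norm_real, Real.norm_eq_abs, abs_mul,
        abs_two]
      have h1 := norm_qq_le hc w
      have h2 := abs_re_conj_mul_le w (z - z')
      have h3 := mul_gauss_le ‖w‖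
      calc _ ≤ Real.exp (-(‖w‖ ^ 2 / 2)) * (‖c‖ * (2 * (‖w‖ * ‖z - z'‖))) := by gcongr
        _ = (‖w‖ * Real.exp (-(‖w‖ ^ 2 / 2))) * (2 * ‖c‖ * ‖z - z'‖) := by ring
        _ ≤ 1 * (2 * ‖c‖ * ‖z - z'‖) := by gcongr
        _ = _ := one_mul _)
  simpa using this

lemma lip_pp {c : ℂ} (hc : c.re ≤ -1 / 2) (z z' : ℂ) :
    ‖pp c z - pp c z'‖ ≤ (1 + 4 * ‖c‖) * ‖z - z'‖ := by
  have := norm_image_sub_le_of_norm_deriv_le_segment_01'
    (f := fun r : ℝ => pp c (z' + (r : ℂ) * (z - z'))) (C := (1 + 4 * ‖c‖) * ‖z - z'‖)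
    (fun r _ => (hasDerivAt_pp (seg_deriv z z' r) (hasDerivAt_const r c)).hasDerivWithinAt)
    (fun r _ => by
      set w := z' + (r : ℂ) * (z - z')
      refine (norm_add_le _ _).trans ?_
      rw [zero_mul, zero_add, norm_mul, norm_mul, norm_mul, norm_mul, Complex.norm_real,
        Real.norm_eq_abs, abs_mul, abs_two]
      have h1 := norm_qq_le hc w
      have h1' := norm_qq_le_one hc w
      have h2 := abs_re_conj_mul_le w (z - z')
      have h3 := sq_mul_gauss_le ‖w‖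
      calc _ ≤ ‖z - z'‖ * 1 +
            ‖w‖ * (Real.exp (-(‖w‖ ^ 2 / 2)) * (‖c‖ * (2 * (‖w‖ * ‖z - z'‖)))) := by gcongr
        _ = ‖z - z'‖ + (‖w‖ ^ 2 * Real.exp (-(‖w‖ ^ 2 / 2))) * (2 * ‖c‖ * ‖z - z'‖) := by ring
        _ ≤ ‖z - z'‖ + 2 * (2 * ‖c‖ * ‖z - z'‖) := by gcongr
        _ = _ := by ring)
  simpa using this

/-- bounded Lipschitz functions of two complex variables -/
structure BL (F : ℂ → ℂ → ℂ) (B L : ℝ) : Prop where
  bd : ∀ z y, ‖F z y‖ ≤ B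
  lip : ∀ z y z' y', ‖F z y - F z' y'‖ ≤ L * (‖z - z'‖ + ‖y - y'‖)

lemma BL.mono {F : ℂ → ℂ → ℂ} {B L B' L' : ℝ} (h : BL F B L) (hB : B ≤ B') (hL : L ≤ L') :
    BL F B' L' :=
  ⟨fun z y => (h.bd z y).trans hB, fun z y z' y' => (h.lip z y z' y').trans (by gcongr)⟩

lemma BL.mul {F G : ℂ → ℂ → ℂ} {B L B' L' : ℝ} (h : BL F B L) (h' : BL G B' L') :
    BL (fun z y => F z y * G z y) (B * B') (L * B' + B * L') := by
  have hB : 0 ≤ B := (norm_nonneg _).trans (h.bd 0 0)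
  have hB' : 0 ≤ B' := (norm_nonneg _).trans (h'.bd 0 0)
  refine ⟨fun z y => ?_, fun z y z' y' => ?_⟩
  · rw [norm_mul]; exact mul_le_mul (h.bd z y) (h'.bd z y) (norm_nonneg _) hB
  · have e : F z y * G z y - F z' y' * G z' y'
        = (F z y - F z' y') * G z y + F z' y' * (G z y - G z' y') := by ring
    rw [e]
    refine (norm_add_le _ _).trans ?_
    rw [norm_mul, norm_mul]
    have a1 := h.lip z y z' y'
    have a2 := h'.lip z y z' y'
    have a3 := h.bd z' y'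
    have a4 := h'.bd z y
    have a5 : 0 ≤ L * (‖z - z'‖ + ‖y - y'‖) := (norm_nonneg _).trans a1
    calc _ ≤ L * (‖z - z'‖ + ‖y - y'‖) * B' + B * (L' * (‖z - z'‖ + ‖y - y'‖)) := by gcongr
      _ = _ := by ring

lemma BL.add {F G : ℂ → ℂ → ℂ} {B L B' L' : ℝ} (h : BL F B L) (h' : BL G B' L') :
    BL (fun z y => F z y + G z y) (B + B') (L + L') := by
  refine ⟨fun z y => (norm_add_le _ _).trans (add_le_add (h.bd z y) (h'.bd z y)),
    fun z y z' y' => ?_⟩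
  have e : F z y + G z y - (F z' y' + G z' y') = (F z y - F z' y') + (G z y - G z' y') := by ring
  rw [e, add_mul]
  exact (norm_add_le _ _).trans (add_le_add (h.lip z y z' y') (h'.lip z y z' y'))

lemma BL.sub {F G : ℂ → ℂ → ℂ} {B L B' L' : ℝ} (h : BL F B L) (h' : BL G B' L') :
    BL (fun z y => F z y - G z y) (B + B') (L + L') := by
  refine ⟨fun z y => (norm_sub_le _ _).trans (add_le_add (h.bd z y) (h'.bd z y)),
    fun z y z' y' => ?_⟩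
  have e : F z y - G z y - (F z' y' - G z' y') = (F z y - F z' y') - (G z y - G z' y') := by ring
  rw [e, add_mul]
  exact (norm_sub_le _ _).trans (add_le_add (h.lip z y z' y') (h'.lip z y z' y'))

lemma BL.const (a : ℂ) : BL (fun _ _ => a) ‖a‖ 0 :=
  ⟨fun _ _ => le_rfl, fun _ _ _ _ => by simp⟩

lemma BL.conj {F : ℂ → ℂ → ℂ} {B L : ℝ} (h : BL F B L) : BL (fun z y => conj (F z y)) B L :=
  ⟨fun z y => by simpa using h.bd z y, fun z y z' y' => by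
    rw [← map_sub, RCLike.norm_conj]; exact h.lip z y z' y'⟩

lemma BL.re {F : ℂ → ℂ → ℂ} {B L : ℝ} (h : BL F B L) :
    BL (fun z y => (((F z y).re : ℝ) : ℂ)) B L := by
  refine ⟨fun z y => ?_, fun z y z' y' => ?_⟩
  · rw [Complex.norm_real]; exact (Complex.abs_re_le_norm _).trans (h.bd z y)
  · rw [← Complex.ofReal_sub, Complex.norm_real, ← Complex.sub_re]
    exact (Complex.abs_re_le_norm _).trans (h.lip z y z' y')

lemma BL.q1 {c : ℂ} (hc : c.re ≤ -1 / 2) {K : ℝ} (hK : ‖c‖ ≤ K) :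
    BL (fun z _ => qq c z) 1 (2 * K) :=
  ⟨fun z _ => norm_qq_le_one hc z, fun z y z' y' => (lip_qq hc z z').trans (by
    have : 0 ≤ K := (norm_nonneg _).trans hK
    gcongr; linarith [norm_nonneg (y - y')])⟩

lemma BL.q2 {c : ℂ} (hc : c.re ≤ -1 / 2) {K : ℝ} (hK : ‖c‖ ≤ K) :
    BL (fun _ y => qq c y) 1 (2 * K) :=
  ⟨fun _ y => norm_qq_le_one hc y, fun z y z' y' => (lip_qq hc y y').trans (by
    have : 0 ≤ K := (norm_nonneg _).trans hK
    gcongr; linarith [norm_nonneg (z - z')])⟩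

lemma BL.p1 {c : ℂ} (hc : c.re ≤ -1 / 2) {K : ℝ} (hK : ‖c‖ ≤ K) :
    BL (fun z _ => pp c z) 1 (1 + 4 * K) :=
  ⟨fun z _ => norm_pp_le_one hc z, fun z y z' y' => (lip_pp hc z z').trans (by
    have : 0 ≤ K := (norm_nonneg _).trans hK
    gcongr; linarith [norm_nonneg (y - y')])⟩

lemma BL.p2 {c : ℂ} (hc : c.re ≤ -1 / 2) {K : ℝ} (hK : ‖c‖ ≤ K) :
    BL (fun _ y => pp c y) 1 (1 + 4 * K) :=
  ⟨fun _ y => norm_pp_le_one hc y, fun z y z' y' => (lip_pp hc y y').trans (by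
    have : 0 ≤ K := (norm_nonneg _).trans hK
    gcongr; linarith [norm_nonneg (z - z')])⟩

/-- the functional conserved along the flow of `i z' = |z|² z` -/
noncomputable def Psi (τ : ℝ) (z y : ℂ) : ℝ :=
  ‖pp (-1 + τ * I) z - pp (-1) y‖ ^ 2 + ‖qq (-1) z - qq (-1) y‖ ^ 2

/-- its gradient in the first variable -/
noncomputable def gg (τ : ℝ) (z y : ℂ) : ℂ :=
  2 * (conj (qq (-1 + τ * I) z) * (pp (-1 + τ * I) z - pp (-1) y)) +
    4 * (((conj (pp (-1 + τ * I) z - pp (-1) y) * ((-1 + τ * I) *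
      pp (-1 / 2 + τ * I) z)).re : ℝ) * pp (-1 / 2) z) -
    4 * (((conj (qq (-1) z - qq (-1) y) * qq (-1 / 2) z).re : ℝ) * pp (-1 / 2) z)

@[fun_prop] lemma continuous_gg : Continuous fun p : ℝ × ℂ × ℂ => gg p.1 p.2.1 p.2.2 := by
  unfold gg pp qq; fun_prop

lemma gg_lip {τ K : ℝ} (hτ : 1 + |τ| ≤ K) (z y z' y' : ℂ) :
    ‖gg τ z y - gg τ z' y'‖ ≤ 300 * K ^ 2 * (‖z - z'‖ + ‖y - y'‖) := by
  have hK : 1 ≤ K := by linarith [abs_nonneg τ]
  have n1 : ‖(-1 + τ * I : ℂ)‖ ≤ K := by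
    refine (norm_add_le _ _).trans ?_; simpa using hτ
  have n2 : ‖(-1 / 2 + τ * I : ℂ)‖ ≤ K := by
    refine (norm_add_le _ _).trans ?_
    simp only [norm_div, norm_neg, norm_one, Complex.norm_ofNat, norm_mul, Complex.norm_real,
      Complex.norm_I, mul_one, Real.norm_eq_abs]
    linarith
  have n3 : ‖(-1 : ℂ)‖ ≤ K := by simpa using hK
  have n4 : ‖(-1 / 2 : ℂ)‖ ≤ K := by
    simp only [norm_div, norm_neg, norm_one, Complex.norm_ofNat]; linarith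
  have r1 : (-1 + τ * I : ℂ).re ≤ -1 / 2 := by simp; norm_num
  have r2 : (-1 / 2 + τ * I : ℂ).re ≤ -1 / 2 := by simp
  have r3 : (-1 : ℂ).re ≤ -1 / 2 := by simp; norm_num
  have r4 : (-1 / 2 : ℂ).re ≤ -1 / 2 := by simp
  have hβ := (BL.p1 r1 n1).sub (BL.p2 r3 n3)
  have hα := (BL.q1 r3 n3).sub (BL.q2 r3 n3)
  have t1 := (BL.const 2).mul ((BL.q1 r1 n1).conj.mul hβ)
  have t2 := (BL.const 4).mul ((hβ.conj.mul (((BL.const (-1 + τ * I)).mono n1 le_rfl).mul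
    (BL.p1 r2 n2))).re.mul (BL.p1 r4 n4))
  have t3 := (BL.const 4).mul ((hα.conj.mul (BL.q1 r4 n4)).re.mul (BL.p1 r4 n4))
  have := ((t1.add t2).sub t3).lip z y z' y'
  refine this.trans ?_
  gcongr
  simp only [Complex.norm_ofNat]
  nlinarith

lemma hasDerivAt_Psi {f : ℝ → ℂ} {ξ y : ℂ} {s lam : ℝ}
    (hf : HasDerivAt f (ξ - I * lam ^ 2 * ((‖f s‖ ^ 2 : ℝ) : ℂ) * f s) s) :
    HasDerivAt (fun s => Psi (s * lam ^ 2) (f s) y) (conj (gg (s * lam ^ 2) (f s) y) * ξ).re s := by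
  have hc : HasDerivAt (fun s : ℝ => (-1 + ((s * lam ^ 2 : ℝ) : ℂ) * I : ℂ)) (lam ^ 2 * I) s := by
    have := (((hasDerivAt_id s).mul_const (lam ^ 2)).ofReal_comp.mul_const I).const_add (-1)
    simpa using this
  have h1 := hasDerivAt_normSq ((hasDerivAt_pp hf hc).sub_const (pp (-1) y))
  have h2 := hasDerivAt_normSq ((hasDerivAt_qq hf (hasDerivAt_const s (-1))).sub_const (qq (-1) y))
  have h3 := h1.add h2
  refine HasDerivAt.congr_deriv h3 ?_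
  unfold gg
  set τ := s * lam ^ 2
  set z := f s
  have e0 : (conj z * (ξ - I * lam ^ 2 * ((‖z‖ ^ 2 : ℝ) : ℂ) * z)).re = (conj z * ξ).re := by
    have : conj z * (ξ - I * lam ^ 2 * ((‖z‖ ^ 2 : ℝ) : ℂ) * z)
        = conj z * ξ - ((lam ^ 2 * ‖z‖ ^ 2 * ‖z‖ ^ 2 : ℝ) : ℂ) * I := by
      have := Complex.conj_mul' z
      push_cast
      linear_combination (-(I * lam ^ 2 * (‖z‖ : ℂ) ^ 2)) * this
    rw [this, Complex.sub_re, Complex.re_ofReal_mul, Complex.I_re]; ring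
  rw [e0]
  obtain ⟨ρ, hρ⟩ : ∃ ρ : ℝ, qq (-1 / 2) z = ρ :=
    ⟨_, by rw [← qq_ofReal (-1 / 2) z]; congr 1; push_cast; ring⟩
  have e1 : qq (-1 + τ * I) z = qq (-1 / 2 + τ * I) z * ρ := by
    rw [← hρ, ← qq_add]; congr 1; ring
  have e2 : qq (-1) z = ρ * ρ := by
    rw [← hρ, ← qq_add]; congr 1; ring
  set β := pp (-1 + τ * I) z - pp (-1) y
  set a := qq (-1) z - qq (-1) y
  have e3 : (ξ - I * lam ^ 2 * ((‖z‖ ^ 2 : ℝ) : ℂ) * z) * qq (-1 + τ * I) z +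
      z * (qq (-1 + τ * I) z * (lam ^ 2 * I * ((‖z‖ ^ 2 : ℝ) : ℂ) +
        (-1 + τ * I) * ((2 * (conj z * ξ).re : ℝ) : ℂ)))
      = qq (-1 + τ * I) z * (ξ + (-1 + τ * I) * z * ((2 * (conj z * ξ).re : ℝ) : ℂ)) := by ring
  rw [e3]
  simp only [pp, hρ, e1, e2]
  generalize qq (-1 / 2 + τ * I) z = E
  simp only [Complex.mul_re, Complex.mul_im, Complex.add_re, Complex.add_im, Complex.sub_re,
    Complex.sub_im, Complex.conj_re, Complex.conj_im, Complex.ofReal_re, Complex.ofReal_im,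
    Complex.I_re, Complex.I_im, Complex.neg_re, Complex.neg_im, Complex.one_re, Complex.one_im,
    Complex.re_ofNat, Complex.im_ofNat, Complex.zero_re, Complex.zero_im]
  ring

end Pool.Agent.Lib.MP_0dc93f_an
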