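import Pool.Agent.Lib.MP_0dc93f_an.Four

namespace Pool.Agent.Lib.MP_0dc93f_an

open Complex Filter Set Topology MeasureTheory
open scoped Real ComplexConjugate

/-- bound on the homogeneous squared seminorm -/
def NB (α : ℝ) (f : ℝ → ℂ) (B : ℝ) : Prop :=
  ∀ s : Finset ℤ, ∑ k ∈ s, symb α k * ‖coef f k‖ ^ 2 ≤ B

/-- mean square increment -/
noncomputable def DD (f : ℝ → ℂ) (h : ℝ) : ℝ :=
  (1 / (2 * π)) * ∫ x in (0 : ℝ)..2 * π, ‖f (x + h) - f x‖ ^ 2

lemma NB.nonneg {α : ℝ} {f : ℝ → ℂ} {B : ℝ} (h : NB α f B) : 0 ≤ B := by simpa using h ∅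

lemma NB.mono {α : ℝ} {f : ℝ → ℂ} {B B' : ℝ} (h : NB α f B) (hB : B ≤ B') : NB α f B' :=
  fun s => (h s).trans hB

lemma NB.summable {α : ℝ} {f : ℝ → ℂ} {B : ℝ} (h : NB α f B) :
    Summable fun k => symb α k * ‖coef f k‖ ^ 2 :=
  summable_of_sum_le (fun k => mul_nonneg (symb_nonneg _ _) (by positivity)) h

lemma NB.tsum_le {α : ℝ} {f : ℝ → ℂ} {B : ℝ} (h : NB α f B) :
    ∑' k, symb α k * ‖coef f k‖ ^ 2 ≤ B :=
  Real.tsum_le_of_sum_le (fun k => mul_nonneg (symb_nonneg _ _) (by positivity)) h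

lemma hasSum_DD {f : ℝ → ℂ} (hp : Function.Periodic f (2 * π)) (hf : Continuous f) (h : ℝ) :
    HasSum (fun k => ‖ex k h - 1‖ ^ 2 * ‖coef f k‖ ^ 2) (DD f h) := by
  have hc : Continuous fun x => f (x + h) - f x := by fun_prop
  have := parseval (memLp_of_continuous hc)
  refine (congrArg (fun F => HasSum F _) ?_).mp this
  funext k
  rw [coef_sub ((by fun_prop : Continuous fun x => f (x + h)).intervalIntegrable _ _)
    (hf.intervalIntegrable _ _), coef_shift hp, ← mul_pow, ← norm_mul]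
  congr 2; ring

lemma norm_ex_sub_one_le (k : ℤ) (h : ℝ) : ‖ex k h - 1‖ ≤ |(k : ℝ)| * |h| := by
  have := Real.norm_exp_I_mul_ofReal_sub_one_le (x := k * h)
  rw [Real.norm_eq_abs, abs_mul] at this
  refine le_trans (le_of_eq ?_) this
  unfold ex; congr 3; push_cast; ring

lemma norm_ex_sub_one_le_two (k : ℤ) (h : ℝ) : ‖ex k h - 1‖ ≤ 2 := by
  have := norm_sub_le (ex k h) 1
  rw [norm_ex, norm_one] at this; linarith

lemma normSq_ex_sub_one (k : ℤ) (h : ℝ) : ‖ex k h - 1‖ ^ 2 = 2 - 2 * Real.cos (k * h) := by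
  have : ex k h = cexp (((k * h : ℝ) : ℂ) * I) := by unfold ex; congr 1; push_cast; ring
  rw [this, Complex.sq_norm, Complex.normSq_apply]
  simp only [Complex.sub_re, Complex.exp_ofReal_mul_I_re, Complex.one_re, Complex.sub_im,
    Complex.exp_ofReal_mul_I_im, Complex.one_im, sub_zero]
  nlinarith [Real.sin_sq_add_cos_sq (k * h)]

lemma DD_le {α : ℝ} (hα0 : 0 ≤ α) (hα : α ≤ 1) {f : ℝ → ℂ} (hp : Function.Periodic f (2 * π))
    (hf : Continuous f) {B : ℝ} (hB : NB α f B) {h : ℝ} (hh : 0 < h) :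
    DD f h ≤ 4 * h ^ α * B := by
  have h1 := hasSum_DD hp hf h
  have h2 := (hB.summable.hasSum.mul_left (4 * h ^ α))
  refine (hasSum_le (fun k => ?_) h1 h2).trans ?_
  · rw [← mul_assoc]
    refine mul_le_mul_of_nonneg_right ?_ (by positivity)
    by_cases hk : k = 0
    · subst hk; simp [symb, ex_zero']
    have hk1 := one_le_abs_int hk
    simp only [symb, hk, if_false]
    rw [mul_assoc, ← Real.mul_rpow hh.le (by positivity)]
    have a1 := norm_ex_sub_one_le k h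
    have a2 := norm_ex_sub_one_le_two k h
    rw [abs_of_pos hh] at a1
    have hn := norm_nonneg (ex k h - 1)
    rcases le_total (h * |(k : ℝ)|) 1 with hle | hle
    · have : h * |(k : ℝ)| ≤ (h * |(k : ℝ)|) ^ α := by
        conv_lhs => rw [← Real.rpow_one (h * |(k : ℝ)|)]
        exact Real.rpow_le_rpow_of_exponent_ge (by positivity) hle hα
      nlinarith
    · have : 1 ≤ (h * |(k : ℝ)|) ^ α := Real.one_le_rpow hle hα0
      nlinarith
  · have := hB.tsum_le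
    gcongr

/-- dyadic weight -/
noncomputable def WW (α : ℝ) (J : ℕ) (k : ℤ) : ℝ :=
  ∑ j ∈ Finset.range J, ((2 : ℝ) ^ α) ^ j * ‖ex k ((1 / 2) ^ j) - 1‖ ^ 2

/-- constant in the upper bound of the dyadic weight -/
noncomputable def CW (α : ℝ) : ℝ := 8 * (1 / (2 ^ α - 1) + 1 / (1 - 2 ^ α / 2))

lemma two_rpow_bounds {α : ℝ} (hα0 : 0 < α) (hα : α < 1) :
    1 < (2 : ℝ) ^ α ∧ (2 : ℝ) ^ α < 2 := by
  refine ⟨Real.one_lt_rpow (by norm_num) hα0, ?_⟩
  conv_rhs => rw [← Real.rpow_one 2]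
  exact Real.rpow_lt_rpow_of_exponent_lt (by norm_num) hα

lemma CW_pos {α : ℝ} (hα0 : 0 < α) (hα : α < 1) : 0 < CW α := by
  obtain ⟨h1, h2⟩ := two_rpow_bounds hα0 hα
  unfold CW
  have : 0 < (2 : ℝ) ^ α - 1 := by linarith
  have : 0 < 1 - (2 : ℝ) ^ α / 2 := by linarith
  positivity

lemma exists_dyadic {k : ℤ} (hk : k ≠ 0) :
    ∃ j : ℕ, (2 : ℝ) ^ j ≤ |(k : ℝ)| ∧ |(k : ℝ)| < 2 ^ (j + 1) := by
  exact exists_nat_pow_near (one_le_abs_int hk) (by norm_num)

lemma WW_le {α : ℝ} (hα0 : 0 < α) (hα : α < 1) (J : ℕ) (k : ℤ) :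
    WW α J k ≤ CW α * symb α k := by
  by_cases hk : k = 0
  · subst hk; simp [WW, symb, ex_zero']
  obtain ⟨h1, h2⟩ := two_rpow_bounds hα0 hα
  obtain ⟨j0, hj1, hj2⟩ := exists_dyadic hk
  set r := (2 : ℝ) ^ α with hr
  have hr0 : 0 < r := by linarith
  have hsub : WW α J k ≤ WW α (j0 + 1 + J) k := by
    unfold WW
    refine Finset.sum_le_sum_of_subset_of_nonneg (Finset.range_mono (by omega)) ?_
    intro j _ _; positivity
  refine hsub.trans ?_
  unfold WW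
  rw [Finset.sum_range_add, ← hr]
  have b1 : ∑ j ∈ Finset.range (j0 + 1), r ^ j * ‖ex k ((1 / 2) ^ j) - 1‖ ^ 2
      ≤ 4 * (r ^ (j0 + 1) / (r - 1)) := by
    calc _ ≤ ∑ j ∈ Finset.range (j0 + 1), 4 * r ^ j := by
          refine Finset.sum_le_sum fun j _ => ?_
          have a2 := norm_ex_sub_one_le_two k ((1 / 2) ^ j)
          have hn := norm_nonneg (ex k ((1 / 2) ^ j) - 1)
          have : ‖ex k ((1 / 2) ^ j) - 1‖ ^ 2 ≤ 4 := by nlinarith
          have hp : 0 ≤ r ^ j := by positivity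
          nlinarith
      _ = 4 * ((r ^ (j0 + 1) - 1) / (r - 1)) := by
          rw [← Finset.mul_sum, geom_sum_eq (by linarith)]
      _ ≤ _ := by
          have : 0 < r - 1 := by linarith
          gcongr; linarith
  have b2 : ∑ i ∈ Finset.range J, r ^ (j0 + 1 + i) * ‖ex k ((1 / 2) ^ (j0 + 1 + i)) - 1‖ ^ 2
      ≤ 4 * (r ^ (j0 + 1) / (1 - r / 2)) := by
    calc _ ≤ ∑ i ∈ Finset.range J, 4 * r ^ (j0 + 1) * (r / 2) ^ i := by
          refine Finset.sum_le_sum fun i _ => ?_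
          have a2 := norm_ex_sub_one_le_two k ((1 / 2) ^ (j0 + 1 + i))
          have a1 := norm_ex_sub_one_le k ((1 / 2) ^ (j0 + 1 + i))
          have hn := norm_nonneg (ex k ((1 / 2) ^ (j0 + 1 + i)) - 1)
          have a3 : |(k : ℝ)| * |((1 / 2 : ℝ)) ^ (j0 + 1 + i)| ≤ (1 / 2) ^ i := by
            rw [abs_of_pos (by positivity : (0 : ℝ) < (1 / 2) ^ (j0 + 1 + i)), pow_add]
            have : |(k : ℝ)| * (1 / 2) ^ (j0 + 1) ≤ 1 := by
              rw [one_div, inv_pow, ← div_eq_mul_inv, div_le_one (by positivity)]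
              exact hj2.le
            calc |(k : ℝ)| * ((1 / 2) ^ (j0 + 1) * (1 / 2) ^ i)
                = (|(k : ℝ)| * (1 / 2) ^ (j0 + 1)) * (1 / 2) ^ i := by ring
              _ ≤ 1 * (1 / 2) ^ i := by gcongr
              _ = _ := one_mul _
          have a4 : ‖ex k ((1 / 2) ^ (j0 + 1 + i)) - 1‖ ^ 2 ≤ 4 * (1 / 2) ^ i := by
            have : (0 : ℝ) ≤ (1 / 2) ^ i := by positivity
            nlinarith
          calc r ^ (j0 + 1 + i) * ‖ex k ((1 / 2) ^ (j0 + 1 + i)) - 1‖ ^ 2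
              ≤ r ^ (j0 + 1 + i) * (4 * (1 / 2) ^ i) := by gcongr
            _ = 4 * r ^ (j0 + 1) * (r / 2) ^ i := by
              rw [pow_add, div_pow, div_pow]; ring
      _ = 4 * r ^ (j0 + 1) * ∑ i ∈ Finset.range J, (r / 2) ^ i := by rw [Finset.mul_sum]
      _ ≤ 4 * r ^ (j0 + 1) * (1 - r / 2)⁻¹ := by
          gcongr
          have hs := summable_geometric_of_lt_one (r := r / 2) (by positivity) (by linarith)
          rw [← tsum_geometric_of_lt_one (by positivity) (by linarith)]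
          exact hs.sum_le_tsum _ fun i _ => by positivity
      _ = _ := by ring
  have b3 : r ^ (j0 + 1) ≤ 2 * symb α k := by
    simp only [symb, hk, if_false]
    have e1 : r ^ j0 = ((2 : ℝ) ^ j0) ^ α := by
      rw [hr, ← Real.rpow_natCast, ← Real.rpow_mul (by norm_num), mul_comm,
        Real.rpow_mul (by norm_num), Real.rpow_natCast]
    have e2 : r ^ j0 ≤ |(k : ℝ)| ^ α := by
      rw [e1]; exact Real.rpow_le_rpow (by positivity) hj1 hα0.le
    rw [pow_succ]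
    have : 0 ≤ r ^ j0 := by positivity
    nlinarith
  have c1 : 0 < r - 1 := by linarith
  have c2 : 0 < 1 - r / 2 := by linarith
  calc _ ≤ 4 * (r ^ (j0 + 1) / (r - 1)) + 4 * (r ^ (j0 + 1) / (1 - r / 2)) := add_le_add b1 b2
    _ = 4 * (1 / (r - 1) + 1 / (1 - r / 2)) * r ^ (j0 + 1) := by ring
    _ ≤ 4 * (1 / (r - 1) + 1 / (1 - r / 2)) * (2 * symb α k) := by gcongr
    _ = CW α * symb α k := by unfold CW; ring

lemma le_WW {α : ℝ} (hα0 : 0 < α) (hα : α < 1) (k : ℤ) :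
    ∀ᶠ J in atTop, symb α k ≤ 3 * WW α J k := by
  by_cases hk : k = 0
  · subst hk; simp [WW, symb, ex_zero']
  obtain ⟨h1, h2⟩ := two_rpow_bounds hα0 hα
  obtain ⟨j0, hj1, hj2⟩ := exists_dyadic hk
  filter_upwards [eventually_gt_atTop j0] with J hJ
  set r := (2 : ℝ) ^ α with hr
  have hsingle : r ^ j0 * ‖ex k ((1 / 2) ^ j0) - 1‖ ^ 2 ≤ WW α J k := by
    unfold WW
    exact Finset.single_le_sum (f := fun j => ((2 : ℝ) ^ α) ^ j * ‖ex k ((1 / 2) ^ j) - 1‖ ^ 2)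
      (fun j _ => by positivity) (Finset.mem_range.2 hJ)
  have hcos : Real.cos (k * (1 / 2) ^ j0) ≤ 2 / 3 := by
    rw [← Real.cos_abs, abs_mul, abs_of_pos (by positivity : (0 : ℝ) < (1 / 2) ^ j0)]
    have l1 : 1 ≤ |(k : ℝ)| * (1 / 2) ^ j0 := by
      rw [one_div, inv_pow, ← div_eq_mul_inv, one_le_div (by positivity)]; exact hj1
    have l2 : |(k : ℝ)| * (1 / 2) ^ j0 ≤ 2 := by
      rw [one_div, inv_pow, ← div_eq_mul_inv, div_le_iff₀ (by positivity)]
      rw [pow_succ] at hj2; linarith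
    refine le_trans (Real.cos_le_cos_of_nonneg_of_le_pi (by norm_num) ?_ l1)
      (Real.cos_one_le.trans (by norm_num))
    linarith [Real.two_le_pi]
  rw [normSq_ex_sub_one] at hsingle
  have b3 : symb α k ≤ 2 * r ^ j0 := by
    simp only [symb, hk, if_false]
    have e1 : r ^ (j0 + 1) = ((2 : ℝ) ^ (j0 + 1)) ^ α := by
      rw [hr, ← Real.rpow_natCast, ← Real.rpow_mul (by norm_num), mul_comm,
        Real.rpow_mul (by norm_num), Real.rpow_natCast]
    have e2 : |(k : ℝ)| ^ α ≤ r ^ (j0 + 1) := by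
      rw [e1]; exact Real.rpow_le_rpow (by positivity) hj2.le hα0.le
    rw [pow_succ] at e2
    have : 0 ≤ r ^ j0 := by positivity
    nlinarith
  have : 0 ≤ r ^ j0 := by positivity
  nlinarith

lemma hasSum_WW {α : ℝ} {f : ℝ → ℂ} (hp : Function.Periodic f (2 * π)) (hf : Continuous f)
    (J : ℕ) : HasSum (fun k => WW α J k * ‖coef f k‖ ^ 2)
      (∑ j ∈ Finset.range J, ((2 : ℝ) ^ α) ^ j * DD f ((1 / 2) ^ j)) := by
  have := hasSum_sum (s := Finset.range J)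
    (fun j _ => (hasSum_DD hp hf ((1 / 2) ^ j)).mul_left (((2 : ℝ) ^ α) ^ j))
  refine (congrArg (fun F => HasSum F _) ?_).mp this
  funext k
  unfold WW
  rw [Finset.sum_mul]
  refine Finset.sum_congr rfl fun j _ => by ring

lemma sum_DD_le {α : ℝ} (hα0 : 0 < α) (hα : α < 1) {f : ℝ → ℂ}
    (hp : Function.Periodic f (2 * π)) (hf : Continuous f) {B : ℝ} (hB : NB α f B) (J : ℕ) :
    ∑ j ∈ Finset.range J, ((2 : ℝ) ^ α) ^ j * DD f ((1 / 2) ^ j) ≤ CW α * B := by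
  refine (hasSum_le (fun k => ?_) (hasSum_WW hp hf J)
    (hB.summable.hasSum.mul_left (CW α))).trans ?_
  · rw [← mul_assoc]
    exact mul_le_mul_of_nonneg_right (WW_le hα0 hα J k) (by positivity)
  · have := hB.tsum_le
    have := CW_pos hα0 hα
    gcongr

/-- Lipschitz compositions are bounded on the homogeneous Sobolev space. -/
lemma NB_comp {α : ℝ} (hα0 : 0 < α) (hα : α < 1) {f₁ f₂ g : ℝ → ℂ}
    (hp₁ : Function.Periodic f₁ (2 * π)) (hf₁ : Continuous f₁)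
    (hp₂ : Function.Periodic f₂ (2 * π)) (hf₂ : Continuous f₂)
    (hp : Function.Periodic g (2 * π)) (hg : Continuous g) {B L : ℝ}
    (hB₁ : NB α f₁ B) (hB₂ : NB α f₂ B)
    (hL : ∀ x y, ‖g x - g y‖ ≤ L * (‖f₁ x - f₁ y‖ + ‖f₂ x - f₂ y‖)) :
    NB α g (12 * L ^ 2 * CW α * B) := by
  intro s
  have hev : ∀ᶠ J in atTop, ∀ k ∈ s, symb α k ≤ 3 * WW α J k :=
    (eventually_all_finset s).2 fun k _ => le_WW hα0 hα k
  obtain ⟨J, hJ⟩ := hev.exists
  have hW : ∀ k, 0 ≤ WW α J k := fun k => Finset.sum_nonneg fun j _ => by positivity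
  have hD : ∀ h, DD g h ≤ 2 * L ^ 2 * (DD f₁ h + DD f₂ h) := by
    intro h
    unfold DD
    rw [← mul_add, ← intervalIntegral.integral_add
      ((by fun_prop : Continuous fun x => ‖f₁ (x + h) - f₁ x‖ ^ 2).intervalIntegrable _ _)
      ((by fun_prop : Continuous fun x => ‖f₂ (x + h) - f₂ x‖ ^ 2).intervalIntegrable _ _),
      mul_left_comm, ← intervalIntegral.integral_const_mul (2 * L ^ 2)]
    have := two_pi_pos'
    refine mul_le_mul_of_nonneg_left ?_ (by positivity)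
    refine intervalIntegral.integral_mono_on this.le
      ((by fun_prop : Continuous fun x => ‖g (x + h) - g x‖ ^ 2).intervalIntegrable _ _)
      ((by fun_prop : Continuous fun x => 2 * L ^ 2 *
        (‖f₁ (x + h) - f₁ x‖ ^ 2 + ‖f₂ (x + h) - f₂ x‖ ^ 2)).intervalIntegrable _ _) ?_
    intro x _
    have h1 := hL (x + h) x
    have h2 := norm_nonneg (g (x + h) - g x)
    calc ‖g (x + h) - g x‖ ^ 2 ≤ (L * (‖f₁ (x + h) - f₁ x‖ + ‖f₂ (x + h) - f₂ x‖)) ^ 2 := by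
          gcongr
      _ ≤ _ := by
          rw [mul_pow]
          nlinarith [sq_nonneg (‖f₁ (x + h) - f₁ x‖ - ‖f₂ (x + h) - f₂ x‖), sq_nonneg L]
  calc ∑ k ∈ s, symb α k * ‖coef g k‖ ^ 2 ≤ ∑ k ∈ s, 3 * (WW α J k * ‖coef g k‖ ^ 2) := by
        refine Finset.sum_le_sum fun k hk => ?_
        rw [← mul_assoc]
        exact mul_le_mul_of_nonneg_right (hJ k hk) (by positivity)
    _ = 3 * ∑ k ∈ s, WW α J k * ‖coef g k‖ ^ 2 := by rw [Finset.mul_sum]
    _ ≤ 3 * ∑ j ∈ Finset.range J, ((2 : ℝ) ^ α) ^ j * DD g ((1 / 2) ^ j) := by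
        gcongr
        exact sum_le_hasSum s (fun k _ => mul_nonneg (hW k) (by positivity)) (hasSum_WW hp hg J)
    _ ≤ 3 * ∑ j ∈ Finset.range J, 2 * L ^ 2 * (((2 : ℝ) ^ α) ^ j * DD f₁ ((1 / 2) ^ j) +
          ((2 : ℝ) ^ α) ^ j * DD f₂ ((1 / 2) ^ j)) := by
        refine mul_le_mul_of_nonneg_left (Finset.sum_le_sum fun j _ => ?_) (by norm_num)
        have := hD ((1 / 2) ^ j)
        calc _ ≤ ((2 : ℝ) ^ α) ^ j * (2 * L ^ 2 * (DD f₁ ((1 / 2) ^ j) + DD f₂ ((1 / 2) ^ j))) := by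
              gcongr
          _ = _ := by ring
    _ = 6 * L ^ 2 * (∑ j ∈ Finset.range J, ((2 : ℝ) ^ α) ^ j * DD f₁ ((1 / 2) ^ j) +
          ∑ j ∈ Finset.range J, ((2 : ℝ) ^ α) ^ j * DD f₂ ((1 / 2) ^ j)) := by
        rw [← Finset.mul_sum, Finset.sum_add_distrib]; ring
    _ ≤ 6 * L ^ 2 * (CW α * B + CW α * B) := by
        gcongr
        · exact sum_DD_le hα0 hα hp₁ hf₁ hB₁ J
        · exact sum_DD_le hα0 hα hp₂ hf₂ hB₂ J
    _ = _ := by ring

/-- pairing estimate -/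
lemma pairing_le {α : ℝ} (hα : α ≤ 1) {f g : ℝ → ℂ} (hp : Function.Periodic f (2 * π))
    (hf : ContDiff ℝ 3 f) (hg : Continuous g) {A B c : ℝ} (hc : 0 < c)
    (hB : NB α f B) (hA : NB α g A) :
    ‖∫ x in (0 : ℝ)..2 * π, conj (g x) * fracD α f x‖ ≤ π * (A / c + c * B) := by
  have h1 := hasSum_pairing (summable_symb_coef hα hp hf) hg
  have h2 := (hA.summable.hasSum.mul_left (1 / (2 * c))).add (hB.summable.hasSum.mul_left (c / 2))
  have h3 := h1.norm_le_of_bounded h2 (fun k => by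
    rw [norm_mul, norm_mul, RCLike.norm_conj, Complex.norm_real, Real.norm_eq_abs,
      abs_of_nonneg (symb_nonneg _ _)]
    have := symb_nonneg α k
    have e : 1 / (2 * c) * (symb α k * ‖coef g k‖ ^ 2) + c / 2 * (symb α k * ‖coef f k‖ ^ 2)
        - ‖coef g k‖ * (symb α k * ‖coef f k‖)
        = symb α k * (‖coef g k‖ - c * ‖coef f k‖) ^ 2 / (2 * c) := by
      field_simp; ring
    have : 0 ≤ symb α k * (‖coef g k‖ - c * ‖coef f k‖) ^ 2 / (2 * c) := by positivity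
    linarith)
  rw [norm_mul, Complex.norm_real, Real.norm_eq_abs,
    abs_of_pos (by have := two_pi_pos'; positivity)] at h3
  have h4 := hA.tsum_le
  have h5 := hB.tsum_le
  have h6 : 1 / (2 * π) * ‖∫ x in (0 : ℝ)..2 * π, conj (g x) * fracD α f x‖
      ≤ 1 / (2 * c) * A + c / 2 * B := by
    refine le_trans h3 ?_
    gcongr
  have hpi := Real.pi_pos
  calc _ = 2 * π * (1 / (2 * π) * ‖∫ x in (0 : ℝ)..2 * π, conj (g x) * fracD α f x‖) := by
        field_simp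
    _ ≤ 2 * π * (1 / (2 * c) * A + c / 2 * B) := by gcongr
    _ = _ := by field_simp

end Pool.Agent.Lib.MP_0dc93f_an
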