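import Pool.Agent.Lib.MP_0dc93f_an.Datum

namespace Pool.Agent.Lib.MP_0dc93f_an

open Complex Filter Set Topology MeasureTheory
open scoped Real ComplexConjugate ContDiff

lemma Psi_nonneg (τ : ℝ) (z y : ℂ) : 0 ≤ Psi τ z y := by unfold Psi; positivity

lemma continuous_Psi (τ : ℝ) : Continuous fun p : ℂ × ℂ => Psi τ p.1 p.2 := by
  unfold Psi pp qq; fun_prop

lemma err_sq_le (τ : ℝ) (z y y' : ℂ) :
    (‖pp (-1 + τ * I) z - pp (-1) y'‖ + ‖qq (-1) z - qq (-1) y'‖) ^ 2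
      ≤ 3 * (Psi τ z y + 49 * ‖y - y'‖ ^ 2) := by
  have r3 : (-1 : ℂ).re ≤ -1 / 2 := by simp; norm_num
  have h1 := lip_pp r3 y y'
  have h2 := lip_qq r3 y y'
  rw [norm_neg, norm_one] at h1 h2
  have h3 := norm_sub_le_norm_sub_add_norm_sub (pp (-1 + τ * I) z) (pp (-1) y) (pp (-1) y')
  have h4 := norm_sub_le_norm_sub_add_norm_sub (qq (-1) z) (qq (-1) y) (qq (-1) y')
  unfold Psi
  set a := ‖pp (-1 + τ * I) z - pp (-1) y‖
  set b := ‖qq (-1) z - qq (-1) y‖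
  set c := ‖y - y'‖
  calc _ ≤ (a + b + 7 * c) ^ 2 := pow_le_pow_left₀ (by positivity) (by linarith) 2
    _ ≤ _ := by nlinarith [sq_nonneg (a - b), sq_nonneg (a - 7 * c), sq_nonneg (b - 7 * c)]

lemma dat_div {β ε x : ℝ} (hε : 0 < ε) (hx : 0 < x) :
    dat β x / ((ε ^ (-β) : ℝ) : ℂ) = (((x / ε) ^ (-β) : ℝ) : ℂ) := by
  unfold dat
  rw [Real.div_rpow hx.le hε.le]; push_cast; rfl

lemma prof_bounds {β X : ℝ} (hβ0 : 0 < β) (hβ : 2 * β < 1) (hX : 1 ≤ X) (hX3 : X ≤ 3) :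
    1 / 2 ≤ X ^ (-β) ∧ X ^ (-β) ≤ 1 := by
  refine ⟨?_, Real.rpow_le_one_of_one_le_of_nonpos hX (by linarith)⟩
  calc (1 / 2 : ℝ) = 4 ^ (-(1 / 2) : ℝ) := by
        rw [show (4 : ℝ) = 2 ^ (2 : ℝ) by norm_num, ← Real.rpow_mul (by norm_num)]
        norm_num
    _ ≤ X ^ (-(1 / 2) : ℝ) := Real.rpow_le_rpow_of_nonpos (by linarith) (by linarith)
        (by norm_num)
    _ ≤ _ := Real.rpow_le_rpow_of_exponent_le hX (by linarith)

lemma bump_pointwise {β ε τ h x : ℝ} (hβ0 : 0 < β) (hβ : 2 * β < 1) (hε : 0 < ε) (hτ : 0 < τ)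
    (hh : h = ε / (2 * β * τ)) (hH : 1 ≤ 2 * β * τ) (hx : x ∈ Icc ε (2 * ε)) (z z' y y' : ℂ) :
    1 / 10000 ≤ 1296 * (1 + τ) ^ 2 *
        (Psi τ z y + 49 * ‖y - dat β x / ((ε ^ (-β) : ℝ) : ℂ)‖ ^ 2) +
      1296 * (1 + τ) ^ 2 *
        (Psi τ z' y' + 49 * ‖y' - dat β (x + h) / ((ε ^ (-β) : ℝ) : ℂ)‖ ^ 2) +
      75 * ‖z' - z‖ ^ 2 := by
  have hx0 : 0 < x := by linarith [hx.1]
  have hh0 : 0 < h := by rw [hh]; positivity
  set H := 1 / (2 * β * τ) with hHdef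
  have hH0 : 0 < H := by positivity
  have hH1 : H ≤ 1 := by rw [hHdef, div_le_one (by positivity)]; exact hH
  have hX1 : 1 ≤ x / ε := by rw [one_le_div hε]; exact hx.1
  have hX2 : x / ε ≤ 2 := by rw [div_le_iff₀ hε]; exact hx.2
  have hXH : (x + h) / ε = x / ε + H := by rw [hh, hHdef]; field_simp
  rw [dat_div hε hx0, dat_div hε (by linarith), hXH]
  set X := x / ε
  obtain ⟨a1, a2⟩ := prof_bounds hβ0 hβ hX1 (by linarith)
  obtain ⟨b1, b2⟩ := prof_bounds (X := X + H) hβ0 hβ (by linarith) (by linarith)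
  obtain ⟨g1, g2⟩ := phase_gap hβ0 hβ hX1 hX2 hH0 hH1
  have sq1 : ∀ Y : ℝ, 0 < Y → (Y ^ (-β)) ^ 2 = Y ^ (-(2 * β)) := fun Y hY => by
    rw [← Real.rpow_natCast, ← Real.rpow_mul hY.le]; congr 1; push_cast; ring
  have hτH : τ * (2 * β * H) = 1 := by rw [hHdef]; field_simp
  have hsep := sep_bump (a := -τ * ((X + H) ^ (-β)) ^ 2) (b := -τ * (X ^ (-β)) ^ 2) a1 a2 b1 b2
    (by rw [sq1 _ (by linarith), sq1 _ (by linarith)]; nlinarith)
    (by rw [sq1 _ (by linarith), sq1 _ (by linarith)]; nlinarith)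
  have p1 := approx_bump hτ.le le_rfl (by linarith) a2 z
  have p2 := approx_bump hτ.le le_rfl (by linarith) b2 z'
  have q1 := err_sq_le τ z y ((X ^ (-β) : ℝ) : ℂ)
  have q2 := err_sq_le τ z' y' (((X + H) ^ (-β) : ℝ) : ℂ)
  have r3 : (-1 : ℂ).re ≤ -1 / 2 := by simp; norm_num
  have l1 := lip_pp r3 z' z
  rw [norm_neg, norm_one] at l1
  set e := ‖pp (-1 + τ * I) z - pp (-1) ((X ^ (-β) : ℝ) : ℂ)‖ +
    ‖qq (-1) z - qq (-1) ((X ^ (-β) : ℝ) : ℂ)‖
  set e' := ‖pp (-1 + τ * I) z' - pp (-1) (((X + H) ^ (-β) : ℝ) : ℂ)‖ +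
    ‖qq (-1) z' - qq (-1) (((X + H) ^ (-β) : ℝ) : ℂ)‖
  set r := pp (-1) ((X ^ (-β) : ℝ) : ℂ) * cexp (((-τ * (X ^ (-β)) ^ 2 : ℝ) : ℂ) * I)
  set r' := pp (-1) (((X + H) ^ (-β) : ℝ) : ℂ) *
    cexp (((-τ * ((X + H) ^ (-β)) ^ 2 : ℝ) : ℂ) * I)
  have tri : ‖r' - r‖ ≤ ‖pp (-1) z' - r'‖ + ‖pp (-1) z' - pp (-1) z‖ + ‖pp (-1) z - r‖ := by
    have : r' - r = -(pp (-1) z' - r') + (pp (-1) z' - pp (-1) z) + (pp (-1) z - r) := by ring
    rw [this]
    refine norm_add₃_le.trans ?_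
    rw [norm_neg]
  set K := 1 + τ
  set d := ‖z' - z‖
  have fin1 : 1 / 100 ≤ 12 * K * e + 12 * K * e' + 5 * d := by linarith
  have fin2 : (1 / 100) ^ 2 ≤ (12 * K * e + 12 * K * e' + 5 * d) ^ 2 := by gcongr
  have fin3 : (12 * K * e + 12 * K * e' + 5 * d) ^ 2
      ≤ 432 * K ^ 2 * e ^ 2 + 432 * K ^ 2 * e' ^ 2 + 75 * d ^ 2 := by
    nlinarith [sq_nonneg (12 * K * e - 12 * K * e'), sq_nonneg (12 * K * e - 5 * d),
      sq_nonneg (12 * K * e' - 5 * d)]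
  have fin4 : 432 * K ^ 2 * e ^ 2 ≤ 432 * K ^ 2 * (3 * (Psi τ z y +
      49 * ‖y - ((X ^ (-β) : ℝ) : ℂ)‖ ^ 2)) := by gcongr
  have fin5 : 432 * K ^ 2 * e' ^ 2 ≤ 432 * K ^ 2 * (3 * (Psi τ z' y' +
      49 * ‖y' - (((X + H) ^ (-β) : ℝ) : ℂ)‖ ^ 2)) := by gcongr
  linarith

lemma main_ineq {α T β ε τ lam t h B η : ℝ} {u : ℝ → ℝ → ℂ} (hα0 : 0 < α) (hα : α < 1)
    (hu : IsSmoothSol α T u) (hβ0 : 0 < β) (hβ : 2 * β < 1) (hε : 0 < ε) (hε1 : ε ≤ 1)
    (hτ : 0 < τ) (hh : h = ε / (2 * β * τ)) (hH : 1 ≤ 2 * β * τ) (hlam : lam = ε ^ (-β))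
    (ht : t = τ / lam ^ 2) (htT : t < T) (hB : ∀ s ∈ Icc 0 t, NB α (u s) B)
    (hη : ∀ s : Finset ℤ, ∑ k ∈ s, ‖coef (u 0) k - coef (dat β) k‖ ^ 2 ≤ η) :
    ε / 10000 ≤ 2592 * (1 + τ) ^ 2 *
      (t * (π * (1080000 * CW α + 1) * (1 + τ) ^ 2 * B / lam ^ 2) + 49 * (2 * π * η) / lam ^ 2) +
      75 * (2 * π * (4 * h ^ α * B)) / lam ^ 2 := by
  have hlam0 : 0 < lam := by rw [hlam]; positivity
  have ht0 : 0 < t := by rw [ht]; positivity
  have hh0 : 0 < h := by rw [hh]; positivity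
  have hh1 : h ≤ ε := by rw [hh]; exact div_le_self hε.le hH
  have htl : t * lam ^ 2 = τ := by rw [ht]; field_simp
  have hpi := Real.pi_gt_three
  have h0 : (0 : ℝ) ∈ Icc (-T) T := ⟨by linarith, by linarith⟩
  have htI : t ∈ Icc (-T) T := ⟨by linarith, by linarith⟩
  have hu0 : Continuous (u 0) := (hu.contDiff h0).continuous
  have hut : Continuous (u t) := (hu.contDiff htI).continuous
  have est := Psi_est hα0 hα hu ht0.le htT hlam0 hB
  rw [htl] at est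
  have hm : MemLp (fun x => u 0 x - dat β x) 2 (volume.restrict (Ioc 0 (2 * π))) :=
    (memLp_of_continuous hu0).sub (memLp_dat hβ)
  have hpar := parseval hm
  have hL2 : ∫ x in (0 : ℝ)..2 * π, ‖u 0 x - dat β x‖ ^ 2 ≤ 2 * π * η := by
    have h1 := hasSum_le_of_sum_le hpar (c := η) (fun s => by
      simp only [coef_sub (hu0.intervalIntegrable _ _) (intInt_dat (β := β) (by linarith) _ _)]
      exact hη s)
    rw [one_div, inv_mul_le_iff₀ (by linarith)] at h1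
    exact h1
  have hi1 : IntervalIntegrable (fun x => ‖u 0 x - dat β x‖ ^ 2) volume 0 (2 * π) := by
    rw [intervalIntegrable_iff_integrableOn_Ioc_of_le (by linarith)]
    exact (memLp_two_iff_integrable_sq_norm hm.1).1 hm
  have hc2 : Continuous fun x => Psi τ (u t x / lam) (u 0 x / lam) :=
    (continuous_Psi τ).comp (f := fun x => (u t x / lam, u 0 x / lam)) (by fun_prop)
  set E : ℝ → ℝ := fun x => Psi τ (u t x / lam) (u 0 x / lam) +
    49 / lam ^ 2 * ‖u 0 x - dat β x‖ ^ 2 with hE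
  have hEi : IntervalIntegrable E volume 0 (2 * π) :=
    (hc2.intervalIntegrable _ _).add (hi1.const_mul _)
  have hE0 : ∀ x, 0 ≤ E x := fun x => add_nonneg (Psi_nonneg _ _ _) (by positivity)
  have hEint : ∫ x in (0 : ℝ)..2 * π, E x ≤
      t * (π * (1080000 * CW α + 1) * (1 + τ) ^ 2 * B / lam ^ 2) + 49 * (2 * π * η) / lam ^ 2 := by
    rw [hE, intervalIntegral.integral_add (hc2.intervalIntegrable _ _) (hi1.const_mul _),
      intervalIntegral.integral_const_mul]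
    refine add_le_add est ?_
    calc _ ≤ 49 / lam ^ 2 * (2 * π * η) := by gcongr
      _ = _ := by ring
  have hmono : ∀ {F : ℝ → ℝ}, (∀ x, 0 ≤ F x) → IntervalIntegrable F volume 0 (2 * π) →
      ∀ a b, 0 ≤ a → a ≤ b → b ≤ 2 * π → ∫ x in a..b, F x ≤ ∫ x in (0 : ℝ)..2 * π, F x :=
    fun hF hFi a b ha hab hb => intervalIntegral.integral_mono_interval ha hab hb
      (Eventually.of_forall hF) hFi
  have hsubI : ∀ a b, 0 ≤ a → a ≤ b → b ≤ 2 * π → IntervalIntegrable E volume a b :=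
    fun a b ha hab hb => hEi.mono_set (by
      rw [uIcc_of_le hab, uIcc_of_le (by linarith)]; exact Icc_subset_Icc ha hb)
  have hE1 := hsubI ε (2 * ε) hε.le (by linarith) (by linarith)
  have hE2 : IntervalIntegrable (fun x => E (x + h)) volume ε (2 * ε) := by
    have := (hsubI (ε + h) (2 * ε + h) (by linarith) (by linarith) (by linarith)).comp_add_right h
    simpa using this
  have hc3 : Continuous fun x => ‖u t (x + h) - u t x‖ ^ 2 := by fun_prop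
  have hDD := DD_le hα0.le hα.le (hu.periodic htI) hut (hB t ⟨ht0.le, le_rfl⟩) hh0
  unfold DD at hDD
  rw [one_div, inv_mul_le_iff₀ (by linarith)] at hDD
  have key := intervalIntegral.integral_mono_on (μ := volume) (a := ε) (b := 2 * ε)
    (f := fun _ => (1 / 10000 : ℝ))
    (g := fun x => 1296 * (1 + τ) ^ 2 * E x + 1296 * (1 + τ) ^ 2 * E (x + h) +
      75 / lam ^ 2 * ‖u t (x + h) - u t x‖ ^ 2) (by linarith) intervalIntegrable_const
    (((hE1.const_mul _).add (hE2.const_mul _)).add ((hc3.intervalIntegrable _ _).const_mul _))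
    (fun x hx => by
      have := bump_pointwise hβ0 hβ hε hτ hh hH hx (u t x / lam) (u t (x + h) / lam)
        (u 0 x / lam) (u 0 (x + h) / lam)
      rw [← hlam, ← sub_div, ← sub_div, ← sub_div, norm_div, norm_div, norm_div,
        Complex.norm_real, Real.norm_eq_abs, abs_of_pos hlam0] at this
      refine this.trans (le_of_eq ?_)
      simp only [hE]
      ring)
  rw [intervalIntegral.integral_add ((hE1.const_mul _).add (hE2.const_mul _))
      ((hc3.intervalIntegrable _ _).const_mul _),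
    intervalIntegral.integral_add (hE1.const_mul _) (hE2.const_mul _),
    intervalIntegral.integral_const_mul, intervalIntegral.integral_const_mul,
    intervalIntegral.integral_const_mul, intervalIntegral.integral_const,
    intervalIntegral.integral_comp_add_right E h, smul_eq_mul] at key
  have m1 := (hmono hE0 hEi ε (2 * ε) hε.le (by linarith) (by linarith)).trans hEint
  have m2 := (hmono hE0 hEi (ε + h) (2 * ε + h) (by linarith) (by linarith)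
    (by linarith)).trans hEint
  have m3 := (hmono (fun x => by positivity) (hc3.intervalIntegrable _ _) ε (2 * ε) hε.le
    (by linarith) (by linarith)).trans hDD
  set Q := t * (π * (1080000 * CW α + 1) * (1 + τ) ^ 2 * B / lam ^ 2) +
    49 * (2 * π * η) / lam ^ 2
  calc ε / 10000 = (2 * ε - ε) * (1 / 10000) := by ring
    _ ≤ _ := key
    _ ≤ 1296 * (1 + τ) ^ 2 * Q + 1296 * (1 + τ) ^ 2 * Q +
        75 / lam ^ 2 * (2 * π * (4 * h ^ α * B)) := by gcongr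
    _ = _ := by ring

lemma tendsto_rpow_zero {p : ℝ} (hp : 0 < p) (C : ℝ) :
    Tendsto (fun ε : ℝ => C * ε ^ p) (𝓝[>] 0) (𝓝 0) := by
  have := (Real.continuousAt_rpow_const 0 p (Or.inr hp.le)).tendsto
  rw [Real.zero_rpow hp.ne'] at this
  have h2 := (this.mono_left (nhdsWithin_le_nhds (s := Ioi 0))).const_mul C
  simpa using h2

lemma symb_le_weight {α : ℝ} (hα : 0 ≤ α) (k : ℤ) : symb α k ≤ (1 + |(k : ℝ)|) ^ α := by
  unfold symb; split_ifs
  · positivity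
  · gcongr; linarith

theorem no_global_sol {α : ℝ} (hα0 : 0 < α) (hα : α < 1 / 2) :
    ∃ a : ℤ → ℂ, hsq α a < ⊤ ∧ ∀ U, ¬ IsGlobalSol α a U := by
  set γ := α * (1 - 2 * α) / 20 with hγ
  set ρ := (1 - 2 * α) / 10 with hρ
  set β := (1 - α - γ) / 2 with hβdef
  have hγ0 : 0 < γ := by rw [hγ]; have : 0 < 1 - 2 * α := by linarith
                         positivity
  have hγ1 : γ ≤ 1 / 40 := by rw [hγ]; nlinarith
  have hρ0 : 0 < ρ := by rw [hρ]; linarith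
  have hβ1 : 1 / 5 ≤ β := by rw [hβdef]; linarith
  have hβ0 : 0 < β := by linarith
  have hβ2 : α + 2 * β < 1 := by rw [hβdef]; linarith
  have hp1 : 0 < 2 * β - ρ := by rw [hρ]; linarith
  have hp2 : 0 < 4 * β - 5 * ρ - 1 := by rw [hβdef, hρ, hγ]; nlinarith
  have hp3 : 0 < (1 + ρ) * α + 2 * β - 1 := by rw [hβdef, hρ, hγ]; nlinarith
  have ha := hsq_dat hα0.le hβ0 hβ2
  refine ⟨coef (dat β), ha, fun U hU => ?_⟩
  obtain ⟨-, hcont, hU0, hsol⟩ := hU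
  obtain ⟨u, hu1, hu2, hu3⟩ := hsol 1 one_pos
  obtain ⟨δ, hδ0, hδ⟩ := Metric.eventually_nhds_iff.1
    ((hcont 0).eventually (ge_mem_nhds (zero_lt_one' ENNReal)))
  set A := (hsq α (coef (dat β))).toReal with hA
  have hA0 : 0 ≤ A := ENNReal.toReal_nonneg
  set B := 3 * (2 + A) with hBdef
  have hB0 : 0 ≤ B := by positivity
  have hCW := CW_pos hα0 (by linarith)
  have hpi := Real.pi_pos
  set C := π * (1080000 * CW α + 1) with hC
  have hC0 : 0 < C := by positivity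
  have ev1 : ∀ᶠ ε : ℝ in 𝓝[>] 0, 1 * ε ^ (2 * β - ρ) < min δ 1 :=
    (tendsto_rpow_zero hp1 1).eventually (gt_mem_nhds (by positivity))
  have ev2 : ∀ᶠ ε : ℝ in 𝓝[>] 0, (2592 * 16 * C * B) * ε ^ (4 * β - 5 * ρ - 1) < 1 / 30000 :=
    (tendsto_rpow_zero hp2 _).eventually (gt_mem_nhds (by positivity))
  have ev3 : ∀ᶠ ε : ℝ in 𝓝[>] 0,
      (1800 * π * B) * ε ^ ((1 + ρ) * α + 2 * β - 1) < 1 / 30000 :=
    (tendsto_rpow_zero hp3 _).eventually (gt_mem_nhds (by positivity))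
  have ev4 : ∀ᶠ ε : ℝ in 𝓝[>] 0, 1 * ε ^ ρ < 2 / 5 :=
    (tendsto_rpow_zero hρ0 1).eventually (gt_mem_nhds (by positivity))
  have ev5 : ∀ᶠ ε : ℝ in 𝓝[>] 0, ε ∈ Ioo (0 : ℝ) 1 := Ioo_mem_nhdsGT one_pos
  obtain ⟨ε, e1, e2, e3, e4, e5⟩ := (ev1.and (ev2.and (ev3.and (ev4.and ev5)))).exists
  have hε := e5.1
  set τ := ε ^ (-ρ) with hτ
  set lam := ε ^ (-β) with hlam
  have hτ0 : 0 < τ := by positivity
  have hlam0 : 0 < lam := by positivity
  have hτ1 : 5 / 2 ≤ τ := by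
    rw [hτ, Real.rpow_neg hε.le, le_inv_comm₀ (by norm_num) (by positivity)]; linarith
  have hH : 1 ≤ 2 * β * τ := by nlinarith
  have hlam2 : (lam ^ 2)⁻¹ = ε ^ (2 * β) := by
    rw [hlam, ← Real.rpow_natCast, ← Real.rpow_mul hε.le, ← Real.rpow_neg hε.le]
    congr 1; push_cast; ring
  have ht : τ / lam ^ 2 = ε ^ (2 * β - ρ) := by
    rw [div_eq_mul_inv, hlam2, hτ, ← Real.rpow_add hε]; congr 1; ring
  set η := ε / 30000 / (2592 * (1 + τ) ^ 2 * (49 * (2 * π) / lam ^ 2)) with hη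
  have hη0 : 0 < η := by positivity
  obtain ⟨n, n1, n2, n3⟩ := (hu1.and ((hu2.eventually (ge_mem_nhds
    (ENNReal.ofReal_pos.2 hη0))).and (hu3.eventually (ge_mem_nhds (zero_lt_one' ENNReal))))).exists
  have htδ : τ / lam ^ 2 < δ := by rw [ht]; linarith [min_le_left δ 1]
  have ht1 : τ / lam ^ 2 < 1 := by rw [ht]; linarith [min_le_right δ 1]
  have hNB : ∀ s ∈ Icc 0 (τ / lam ^ 2), NB α (u n s) B := by
    intro s hs F
    have b1 : hsq α (coef (u n s) - U s) ≤ ENNReal.ofReal 1 := by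
      rw [ENNReal.ofReal_one]
      exact le_trans (le_iSup₂ (f := fun t (_ : t ∈ Icc (-1 : ℝ) 1) =>
        hsq α (coef (u n t) - U t)) s ⟨by linarith [hs.1], by linarith [hs.2]⟩) n3
    have b2 : hsq α (U s - U 0) ≤ ENNReal.ofReal 1 := by
      rw [ENNReal.ofReal_one]
      refine hδ ?_
      rw [Real.dist_eq, sub_zero, abs_of_nonneg hs.1]; linarith [hs.2]
    have b3 : hsq α (coef (dat β)) ≤ ENNReal.ofReal A := by
      rw [hA, ENNReal.ofReal_toReal ha.ne]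
    have c1 := sum_le_of_hsq_le zero_le_one b1 F
    have c2 := sum_le_of_hsq_le zero_le_one b2 F
    have c3 := sum_le_of_hsq_le hA0 b3 F
    rw [hU0] at c2
    calc _ ≤ ∑ k ∈ F, 3 * ((1 + |(k : ℝ)|) ^ α * ‖(coef (u n s) - U s) k‖ ^ 2 +
          (1 + |(k : ℝ)|) ^ α * ‖(U s - coef (dat β)) k‖ ^ 2 +
          (1 + |(k : ℝ)|) ^ α * ‖coef (dat β) k‖ ^ 2) := by
          refine Finset.sum_le_sum fun k _ => ?_
          have d1 : ‖coef (u n s) k‖ ≤ ‖(coef (u n s) - U s) k‖ + ‖(U s - coef (dat β)) k‖ +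
              ‖coef (dat β) k‖ := by
            refine le_trans (le_of_eq ?_) norm_add₃_le
            congr 1; simp
          set x1 := ‖(coef (u n s) - U s) k‖
          set x2 := ‖(U s - coef (dat β)) k‖
          set x3 := ‖coef (dat β) k‖
          have d2 : ‖coef (u n s) k‖ ^ 2 ≤ 3 * (x1 ^ 2 + x2 ^ 2 + x3 ^ 2) := by
            calc _ ≤ (x1 + x2 + x3) ^ 2 := by gcongr
              _ ≤ _ := by nlinarith [sq_nonneg (x1 - x2), sq_nonneg (x1 - x3), sq_nonneg (x2 - x3)]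
          calc _ ≤ (1 + |(k : ℝ)|) ^ α * (3 * (x1 ^ 2 + x2 ^ 2 + x3 ^ 2)) := by
                gcongr
                exact symb_le_weight hα0.le k
            _ = _ := by ring
      _ ≤ B := by
          rw [← Finset.mul_sum, Finset.sum_add_distrib, Finset.sum_add_distrib, hBdef]
          linarith
  have hηs : ∀ s : Finset ℤ, ∑ k ∈ s, ‖coef (u n 0) k - coef (dat β) k‖ ^ 2 ≤ η := by
    intro s
    refine le_trans (Finset.sum_le_sum fun k _ => ?_) (sum_le_of_hsq_le hη0.le n2 s)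
    have : 1 ≤ (1 + |(k : ℝ)|) ^ α := Real.one_le_rpow (by linarith [abs_nonneg (k : ℝ)]) hα0.le
    rw [Pi.sub_apply]
    exact le_mul_of_one_le_left (by positivity) this
  have main := main_ineq hα0 (by linarith) n1 hβ0 (by linarith) hε e5.2.le hτ0 rfl hH hlam rfl
    ht1 hNB hηs
  rw [← hC] at main
  have t2 : 2592 * (1 + τ) ^ 2 * (49 * (2 * π * η) / lam ^ 2) = ε / 30000 := by
    rw [hη]; field_simp
  have t1 : 2592 * (1 + τ) ^ 2 * (τ / lam ^ 2 * (C * (1 + τ) ^ 2 * B / lam ^ 2)) < ε / 30000 := by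
    have f1 : τ ^ 5 * (lam ^ 2)⁻¹ * (lam ^ 2)⁻¹ = ε ^ (4 * β - 5 * ρ - 1) * ε := by
      rw [hlam2, hτ, ← Real.rpow_natCast, ← Real.rpow_mul hε.le, ← Real.rpow_add hε,
        ← Real.rpow_add hε, ← Real.rpow_add_one hε.ne']
      congr 1; push_cast; ring
    calc _ ≤ 2592 * (2 * τ) ^ 2 * (τ / lam ^ 2 * (C * (2 * τ) ^ 2 * B / lam ^ 2)) := by
          gcongr <;> linarith
      _ = 2592 * 16 * C * B * (τ ^ 5 * (lam ^ 2)⁻¹ * (lam ^ 2)⁻¹) := by ring
      _ = (2592 * 16 * C * B * ε ^ (4 * β - 5 * ρ - 1)) * ε := by rw [f1]; ring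
      _ < 1 / 30000 * ε := by gcongr
      _ = _ := by ring
  have t3 : 75 * (2 * π * (4 * (ε / (2 * β * τ)) ^ α * B)) / lam ^ 2 < ε / 30000 := by
    have f1 : ε / (2 * β * τ) ≤ 3 * ε ^ (1 + ρ) := by
      rw [Real.rpow_add hε, Real.rpow_one, div_le_iff₀ (by positivity)]
      have : ε ^ ρ * τ = 1 := by rw [hτ, ← Real.rpow_add hε]; simp
      calc ε = ε * 1 := (mul_one _).symm
        _ ≤ ε * (6 * β * (ε ^ ρ * τ)) := by rw [this]; gcongr; linarith
        _ = _ := by ring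
    have f2 : (ε / (2 * β * τ)) ^ α ≤ 3 * ε ^ ((1 + ρ) * α) := by
      calc _ ≤ (3 * ε ^ (1 + ρ)) ^ α := by gcongr
        _ = 3 ^ α * ε ^ ((1 + ρ) * α) := by
            rw [Real.mul_rpow (by norm_num) (by positivity), ← Real.rpow_mul hε.le]
        _ ≤ 3 ^ (1 : ℝ) * ε ^ ((1 + ρ) * α) := by
            gcongr
            · norm_num
            · linarith
        _ = _ := by rw [Real.rpow_one]
    have f3 : ε ^ ((1 + ρ) * α) * (lam ^ 2)⁻¹ = ε ^ ((1 + ρ) * α + 2 * β - 1) * ε := by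
      rw [hlam2, ← Real.rpow_add hε, ← Real.rpow_add_one hε.ne']; congr 1; ring
    calc _ ≤ 75 * (2 * π * (4 * (3 * ε ^ ((1 + ρ) * α)) * B)) / lam ^ 2 := by gcongr
      _ = 1800 * π * B * (ε ^ ((1 + ρ) * α) * (lam ^ 2)⁻¹) := by ring
      _ = (1800 * π * B * ε ^ ((1 + ρ) * α + 2 * β - 1)) * ε := by rw [f3]; ring
      _ < 1 / 30000 * ε := by gcongr
      _ = _ := by ring
  rw [mul_add, t2] at main
  linarith

end Pool.Agent.Lib.MP_0dc93f_an
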