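import Pool.Agent.Lib.MP_0dc93f_an.WReal

/-! The flux symbol on a type (job D6). -/

namespace Pool.Agent.Lib.MMTW

open Finset

/-- properties of the step -/
structure Psi (N : ℝ) (ψ : ℤ → ℝ) : Prop where
  nn : ∀ k, 0 ≤ ψ k
  le : ∀ k, ψ k ≤ 1
  lo : ∀ k, br k ≤ N → ψ k = 0
  hi : ∀ k, 2 * N ≤ br k → ψ k = 1
  d1 : ∀ k, |ψ (k + 1) - ψ k| ≤ 8 / N
  d2 : ∀ k, |ψ (k + 2) - 2 * ψ (k + 1) + ψ k| ≤ 16 / N ^ 2

/-- the flux through the step carried by a type -/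
noncomputable def fl (d : Dat) (ψ : ℤ → ℝ) (τ : Ty) : ℝ :=
  ‖∑ k ∈ d.box τ.2, d.w0 k * ((ψ (k 1) + ψ (k 3) - ψ (k 0) - ψ (k 2) : ℝ) : ℂ)‖

variable {d : Dat} {K : ℕ} {Q R β N : ℝ} {τ : Ty} {ψ : ℤ → ℝ}

lemma psi_box {A : Fin 4 → Cell} {k : Fin 4 → ℤ} (hk : k ∈ d.box A) (i : Fin 4) :
    k i ∈ cell (A i) := (mem_filter.1 hk).2 i

lemma psi_br (H : Hyp d K Q R β) (hτ : τ ∈ TT K d.Kc) {i : Fin 4} {k : ℤ}
    (hk : k ∈ cell (τ.2 i)) : xx (τ.2 i) ≤ 2 * br k ∧ br k ≤ 2 * xx (τ.2 i) :=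
  br_PP (by have := H.K_ge; omega) ((H.good hτ).mem i) (cell_sub _ hk)

lemma psi_mu (H : Hyp d K Q R β) (hτ : τ ∈ TT K d.Kc) (i : Fin 4) : mu (τ.2 i) ≤ 2 ^ τ.1 :=
  pow_le_pow_right₀ (by norm_num) ((H.good hτ).lev i)

lemma fl_ne (H : Hyp d K Q R β) (hτ : τ ∈ TT K d.Kc) (hψ : Psi N ψ) (h : fl d ψ τ ≠ 0) :
    ¬ Out K τ ∧ N ≤ 2 * MM τ ∧ ∃ i, xx (τ.2 i) ≤ 4 * N := by
  obtain ⟨k, hk, hne⟩ := exists_ne_zero_of_sum_ne_zero (norm_ne_zero_iff.1 h)
  have h0 : De k = 0 := by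
    by_contra h0
    exact hne (by rw [Dat.w0, if_neg h0, zero_mul])
  have h1 : ψ (k 1) + ψ (k 3) - ψ (k 0) - ψ (k 2) ≠ 0 := fun h1 =>
    hne (by rw [h1, Complex.ofReal_zero, mul_zero])
  refine ⟨?_, ?_, ?_⟩
  · have c := fun i => mem_cell.1 (psi_box hk i)
    have m := psi_mu H hτ
    have c0 := c 0; have c1 := c 1; have c2 := c 2; have c3 := c 3
    have m0 := m 0; have m1 := m 1; have m2 := m 2; have m3 := m 3
    have hK : (20 : ℤ) ≤ K := by have := H.K_ge; omega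
    have h2 : 20 * 2 ^ τ.1 ≤ (K : ℤ) * 2 ^ τ.1 :=
      mul_le_mul_of_nonneg_right hK (by positivity)
    simp only [Out, De, not_lt, abs_eq_max_neg] at h0 ⊢
    omega
  · by_contra hN
    have z : ∀ i, ψ (k i) = 0 := fun i => hψ.lo _ (by
      have := (psi_br H hτ (psi_box hk i)).2
      have := xx_le_MM τ i
      linarith)
    exact h1 (by simp [z])
  · by_contra hN
    push Not at hN
    have z : ∀ i, ψ (k i) = 1 := fun i => hψ.hi _ (by
      have := (psi_br H hτ (psi_box hk i)).1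
      have := hN i
      linarith)
    exact h1 (by simp [z])

/-- a symbol that is an alternating sum of one variable symbols -/
lemma psi_alt {A : Fin 4 → Cell} {r : ℤ → ℝ} {C : ℝ}
    (h : ∀ i, An (cell (A i) : Set ℤ) (fun k => (r k : ℂ)) C) :
    An (cellS A) (fun k => ((r (k 1) + r (k 3) - r (k 0) - r (k 2) : ℝ) : ℂ)) (4 * C) := by
  have g : ∀ i, An (cellS A) (fun k => (r (k i) : ℂ)) C := fun i =>
    ((h i).comap (Pi.evalAddMonoidHom (fun _ => ℤ) i)).subset fun k hk => hk i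
  refine (((((g 1).add (g 3)).sub (g 0)).sub (g 2)).congr fun k _ => ?_).mono (le_of_eq ?_)
  · push_cast; rfl
  · ring

lemma psi_cell (H : Hyp d K Q R β) {J : Cell} (hJ : J ∈ AA K d.Kc) (hN : 4 ≤ N) (hψ : Psi N ψ) :
    An (cell J : Set ℤ) (fun k => (ψ k : ℂ)) 9 := by
  have hK := H.K_ge
  rcases le_or_gt (mu J : ℝ) N with h | h
  · have := An.lip (f := fun k => (ψ k : ℂ)) (a := cc J) (n := 2 ^ J.1) (L := 8 / N)
      fun k _ _ => by rw [← Complex.ofReal_sub, Complex.norm_real]; exact hψ.d1 k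
    refine (this.subset fun k hk => ?_).mono ?_
    · have := mem_cell.1 hk
      rw [mu] at this
      exact ⟨this.1, by push_cast; exact this.2.le⟩
    · have h1 : ‖(ψ (cc J) : ℂ)‖ ≤ 1 := by
        rw [Complex.norm_real, Real.norm_eq_abs, abs_of_nonneg (hψ.nn _)]; exact hψ.le _
      have h2 : ((2 ^ J.1 : ℕ) : ℝ) * (8 / N) ≤ 8 := by
        rw [mu] at h
        push_cast at h ⊢
        rw [← mul_div_assoc, div_le_iff₀ (by linarith)]; linarith
      linarith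
  · refine ((An.const _ 1).congr fun k hk => ?_).mono (by simp)
    have h1 := (br_PP (by omega) hJ (cell_sub _ hk)).1
    rcases AA_mu hJ with h2 | h2
    · rw [h2] at h; push_cast at h; linarith
    · have h3 : (K : ℝ) * mu J ≤ |(cc J : ℝ)| := by exact_mod_cast h2
      have h4 : (4 : ℝ) ≤ K := by exact_mod_cast (by omega : 4 ≤ K)
      have h5 : 4 * (mu J : ℝ) ≤ K * mu J := mul_le_mul_of_nonneg_right h4 (by linarith)
      rw [hψ.hi k (by unfold xx br at h1; unfold br; linarith), Complex.ofReal_one]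

lemma fl_le_one (H : Hyp d K Q R β) (hτ : τ ∈ TT K d.Kc) (hN : 4 ≤ N) (hψ : Psi N ψ) :
    fl d ψ τ ≤ Q * Lg τ.2 * ZZ d K τ := by
  have hQ := H.Q_ge
  exact d.master0 τ.2 (pr K τ)
    ((psi_alt fun i => psi_cell H ((H.good hτ).mem i) hN hψ).mono (by linarith)) (by linarith)

lemma psi_d2 (hψ : Psi N ψ) (a : ℤ) (m : ℕ) :
    |ψ (a + m + 1) - ψ (a + m) - (ψ (a + 1) - ψ a)| ≤ m * (16 / N ^ 2) := by
  induction m with
  | zero => simp
  | succ m ih =>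
    have h := hψ.d2 (a + m)
    push_cast
    rw [show a + (m + 1) + 1 = a + m + 2 by ring, ← add_assoc]
    rw [abs_le] at ih h ⊢
    constructor <;> linarith [ih.1, ih.2, h.1, h.2]

lemma psi_d1 (hψ : Psi N ψ) (a : ℤ) (m : ℕ) : |ψ (a + m) - ψ a| ≤ m * (8 / N) := by
  induction m with
  | zero => simp
  | succ m ih =>
    have h := hψ.d1 (a + m)
    push_cast
    rw [← add_assoc]
    rw [abs_le] at ih h ⊢
    constructor <;> linarith [ih.1, ih.2, h.1, h.2]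

lemma psi_lip (hψ : Psi N ψ) (a b : ℤ) : |ψ a - ψ b| ≤ |(a : ℝ) - b| * (8 / N) := by
  wlog h : b ≤ a generalizing a b
  · rw [abs_sub_comm, abs_sub_comm (a : ℝ)]; exact this b a (by omega)
  obtain ⟨m, rfl⟩ := Int.le.dest h
  simpa using psi_d1 hψ b m

lemma fl_le_sq (H : Hyp d K Q R β) (hτ : τ ∈ TT K d.Kc) (hN : 4 ≤ N) (hψ : Psi N ψ) :
    fl d ψ τ ≤ Q ^ 2 * (DD τ / N) ^ 2 * Lg τ.2 * ZZ d K τ := by
  set W : ℕ := (2 * K + 3) * 2 ^ τ.1 with hW
  set a : ℤ := cc (τ.2 0) - W with ha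
  set r : ℤ → ℝ := fun k => ψ k - ψ a - (ψ (a + 1) - ψ a) * (k - a) with hr
  have h1 : An (Set.Icc a (a + (2 * W : ℕ))) (fun k => (r k : ℂ))
      (‖(r a : ℂ)‖ + (2 * W : ℕ) * ((2 * W : ℕ) * (16 / N ^ 2))) := by
    refine An.lip (f := fun k => (r k : ℂ)) fun k h1 h2 => ?_
    obtain ⟨m, rfl⟩ := Int.le.dest h1
    rw [← Complex.ofReal_sub, Complex.norm_real, Real.norm_eq_abs]
    have h3 : r (a + m + 1) - r (a + m) = ψ (a + m + 1) - ψ (a + m) - (ψ (a + 1) - ψ a) := by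
      simp only [hr]; push_cast; ring
    rw [h3]
    refine (psi_d2 hψ a m).trans (mul_le_mul_of_nonneg_right ?_ (by positivity))
    exact_mod_cast (by omega : m ≤ 2 * W)
  have h2 : ∀ i, An (cell (τ.2 i) : Set ℤ) (fun k => (r k : ℂ)) (Q ^ 2 * (DD τ / N) ^ 2 / 4) :=
    fun i => by
    refine (h1.subset fun k hk => ?_).mono ?_
    · have c := mem_cell.1 hk
      have m := psi_mu H hτ i
      have n1 := (H.good hτ).near i 0
      have n2 := (H.good hτ).near 0 i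
      have e : (W : ℤ) = (2 * K + 2) * 2 ^ τ.1 + 2 ^ τ.1 := by rw [hW]; push_cast; ring
      constructor
      · have : (0 : ℤ) < 2 ^ τ.1 := by positivity
        omega
      · push_cast; omega
    · have e : r a = 0 := by simp [hr]
      have hK : (250000 : ℝ) ≤ K := by exact_mod_cast H.K_ge
      have hQ := H.hQ
      have h3 : (256 : ℝ) * (2 * K + 3) ^ 2 ≤ Q ^ 2 := by nlinarith
      rw [e, Complex.ofReal_zero, norm_zero, zero_add, hW, DD]
      push_cast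
      calc _ = 256 * (2 * (K : ℝ) + 3) ^ 2 * ((2 ^ τ.1 / N) ^ 2 / 4) := by ring
        _ ≤ Q ^ 2 * ((2 ^ τ.1 / N) ^ 2 / 4) := by gcongr
        _ = _ := by ring
  have h3 := d.master0 τ.2 (pr K τ) ((psi_alt h2).mono (le_of_eq (by ring :
    4 * (Q ^ 2 * (DD τ / N) ^ 2 / 4) = Q ^ 2 * (DD τ / N) ^ 2))) (by positivity)
  unfold fl
  refine le_of_eq_of_le (congrArg norm (sum_congr rfl fun k _ => ?_)) h3
  by_cases h0 : De k = 0
  · congr 2
    have h4 : (k 0 : ℝ) - k 1 + k 2 - k 3 = 0 := by exact_mod_cast h0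
    simp only [hr]
    linear_combination (-(ψ (a + 1) - ψ a)) * h4
  · rw [Dat.w0, if_neg h0, zero_mul, zero_mul]

/-- the signs of the four slots -/
def psiSg : Fin 4 → ℤ := ![1, -1, 1, -1]

lemma psi_sg : ∀ e : Equiv.Perm (Fin 4), (psiSg (e 0) = 1 ∨ psiSg (e 0) = -1) ∧
    (psiSg (e 1) = 1 ∨ psiSg (e 1) = -1) ∧
    ((psiSg (e 2) = -psiSg (e 0) ∧ psiSg (e 3) = -psiSg (e 1)) ∨
      (psiSg (e 3) = psiSg (e 1) ∧ psiSg (e 0) = -psiSg (e 1) ∧ psiSg (e 2) = -psiSg (e 1))) := by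
  decide

lemma psi_perm (e : Equiv.Perm (Fin 4)) :
    (∀ f : Fin 4 → ℝ, (f 0 - f 1 + f 2 - f 3 = 0 → |f (e 1) - f (e 3)| = |f (e 0) - f (e 2)|) ∧
      |f 0 - f 1 + f 2 - f 3| ≤ |f (e 0) - f (e 2)| + |f (e 1) - f (e 3)|) ∨
    ∀ f : Fin 4 → ℝ, |f 0 - f 1 + f 2 - f 3| = |f (e 1) + f (e 3) - f (e 0) - f (e 2)| := by
  have key : ∀ f : Fin 4 → ℝ, f 0 - f 1 + f 2 - f 3 = psiSg (e 0) * f (e 0) +
      psiSg (e 1) * f (e 1) + psiSg (e 2) * f (e 2) + psiSg (e 3) * f (e 3) := fun f => by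
    have := Equiv.sum_comp e fun i => (psiSg i : ℝ) * f i
    rw [Fin.sum_univ_four, Fin.sum_univ_four] at this
    rw [this]; simp [psiSg]; ring
  obtain ⟨h0, h1, h | h⟩ := psi_sg e
  · refine .inl fun f => ?_
    rw [key, h.1, h.2]
    have a1 := le_abs_self (f (e 0) - f (e 2))
    have a2 := neg_abs_le (f (e 0) - f (e 2))
    have a3 := le_abs_self (f (e 1) - f (e 3))
    have a4 := neg_abs_le (f (e 1) - f (e 3))
    rcases h0 with h0 | h0 <;> rcases h1 with h1 | h1 <;> rw [h0, h1] <;> push_cast <;>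
      refine ⟨fun h => abs_eq_abs.2 ?_, abs_le.2 ⟨by linarith, by linarith⟩⟩
    · right; linarith
    · left; linarith
    · left; linarith
    · right; linarith
  · refine .inr fun f => ?_
    rw [key, h.1, h.2.1, h.2.2]
    rcases h1 with h1 | h1 <;> rw [h1] <;> push_cast <;> refine abs_eq_abs.2 ?_
    · left; ring
    · right; ring

/-- low cells: `ℓ¹` bounds -/
lemma psi_low (H : Hyp d K Q R β) {J : Cell} (hJ : J ∈ AA K d.Kc) {Z : ℝ} (hZ : xx J ≤ Z) :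
    (∀ t ∈ Set.Icc 0 d.T, ∑ k ∈ FF d.Kc ∩ cell J, ‖d.b t k‖ ≤ Q ^ 3 * Z) ∧
    ∀ t ∈ Set.Icc 0 d.T, ∑ k ∈ FF d.Kc ∩ cell J, ‖NL d.Kc (d.b t) k‖ ≤ Q ^ 3 * Z := by
  have hQ := H.Q_ge
  have hβ : 0 ≤ β := by linarith [H.a1, H.b1]
  have hc : ((FF d.Kc ∩ cell J).card : ℝ) ≤ Z := by
    refine le_trans ?_ ((mu_le_xx (by have := H.K_ge; omega) hJ).trans hZ)
    have h1 : ((cell J).card : ℤ) = mu J := by
      have := mu_pos J
      rw [cell, Int.card_Ico]; omega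
    have h2 : ((FF d.Kc ∩ cell J).card : ℤ) ≤ mu J := by
      rw [← h1]; exact_mod_cast card_le_card inter_subset_right
    exact_mod_cast h2
  have key : ∀ f : ℤ → ℝ, (∀ k ∈ FF d.Kc, f k ≤ Q ^ 3) →
      ∑ k ∈ FF d.Kc ∩ cell J, f k ≤ Q ^ 3 * Z := fun f hf => by
    refine (sum_le_card_nsmul _ _ _ fun k hk => hf k (mem_inter.1 hk).1).trans ?_
    rw [nsmul_eq_mul, mul_comm]
    exact mul_le_mul_of_nonneg_left hc (by positivity)
  refine ⟨fun t ht => key _ fun k hk => ?_, fun t ht => key _ fun k _ => ?_⟩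
  · have h1 := H.tl t ht 1 one_pos
    rw [Real.one_rpow, mul_one] at h1
    have h2 : ‖d.b t k‖ ^ 2 ≤ tail d.Kc (d.b t) 1 :=
      single_le_sum (f := fun k => ‖d.b t k‖ ^ 2) (fun _ _ => by positivity)
        (mem_filter.2 ⟨hk, one_le_br k⟩)
    have h3 : Q ≤ (Q ^ 3) ^ 2 := by
      rw [← pow_mul]; exact le_self_pow₀ (by linarith) (by norm_num)
    exact (pow_le_pow_iff_left₀ (norm_nonneg _) (by positivity) two_ne_zero).1
      (h2.trans (h1.trans h3))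
  · exact (H.nl t ht k).trans (mul_le_of_le_one_right (by positivity)
      (Real.rpow_le_one_of_one_le_of_nonpos (one_le_br k) (by linarith)))

/-- high cells: `ℓ²` bounds -/
lemma psi_high (H : Hyp d K Q R β) {J : Cell} (hJ : J ∈ AA K d.Kc) {M : ℝ} (h1 : xx J ≤ M)
    (h2 : M ≤ Q * xx J) :
    (∀ t ∈ Set.Icc 0 d.T,
      ∑ k ∈ FF d.Kc ∩ cell J, ‖d.b t k‖ ^ 2 ≤ (Q ^ 2 * M ^ (-β / 2)) ^ 2) ∧
    ∀ t ∈ Set.Icc 0 d.T, ∑ k ∈ FF d.Kc ∩ cell J, ‖NL d.Kc (d.b t) k‖ ^ 2 ≤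
      (Q ^ 5 * M ^ (1 / 2 - β / 2)) ^ 2 := by
  have hQ := H.Q_ge
  have hK := H.K_ge
  have hβ : 0 ≤ β := by linarith [H.a1, H.b1]
  have hM : 0 < M := (xx_pos J).trans_le h1
  have hb : ∀ k ∈ cell J, M / (2 * Q) ≤ br k := fun k hk => by
    have := (br_PP (by omega) hJ (cell_sub _ hk)).1
    rw [div_le_iff₀ (by positivity)]
    nlinarith
  have hp : (M / (2 * Q)) ^ (-β) ≤ Q ^ 3 * M ^ (-β) := by
    rw [Real.div_rpow hM.le (by positivity), Real.rpow_neg (by positivity : 0 ≤ 2 * Q),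
      div_inv_eq_mul, mul_comm]
    refine mul_le_mul_of_nonneg_right ?_ (by positivity)
    calc (2 * Q) ^ β ≤ (2 * Q) ^ (2 : ℝ) :=
          Real.rpow_le_rpow_of_exponent_le (by linarith) H.b2
      _ = 4 * Q ^ 2 := by rw [Real.rpow_two]; ring
      _ ≤ Q * Q ^ 2 := by gcongr; linarith
      _ = _ := by ring
  have sq : ∀ x e : ℝ, 0 ≤ x → (x ^ e) ^ 2 = x ^ (2 * e) := fun x e hx => by
    rw [← Real.rpow_two, ← Real.rpow_mul hx, mul_comm]
  refine ⟨fun t ht => ?_, fun t ht => ?_⟩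
  · calc _ ≤ tail d.Kc (d.b t) (M / (2 * Q)) :=
          sum_le_sum_of_subset_of_nonneg (fun k hk =>
            mem_filter.2 ⟨(mem_inter.1 hk).1, hb k (mem_inter.1 hk).2⟩) fun _ _ _ => by positivity
      _ ≤ Q * (M / (2 * Q)) ^ (-β) := H.tl t ht _ (by positivity)
      _ ≤ Q * (Q ^ 3 * M ^ (-β)) := by gcongr
      _ = _ := by rw [mul_pow, sq _ _ hM.le, show 2 * (-β / 2) = -β by ring]; ring
  · have hc : ((FF d.Kc ∩ cell J).card : ℝ) ≤ M := by
      refine le_trans ?_ ((mu_le_xx (by omega) hJ).trans h1)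
      have h1 : ((cell J).card : ℤ) = mu J := by
        have := mu_pos J
        rw [cell, Int.card_Ico]; omega
      have h2 : ((FF d.Kc ∩ cell J).card : ℤ) ≤ mu J := by
        rw [← h1]; exact_mod_cast card_le_card inter_subset_right
      exact_mod_cast h2
    have h3 : ∀ k ∈ FF d.Kc ∩ cell J, ‖NL d.Kc (d.b t) k‖ ^ 2 ≤ Q ^ 10 * M ^ (-β) :=
      fun k hk => by
      calc _ ≤ (Q ^ 3 * br k ^ (-β / 2)) ^ 2 := by gcongr; exact H.nl t ht k
        _ = Q ^ 6 * br k ^ (-β) := by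
            rw [mul_pow, sq _ _ (br_pos k).le, show 2 * (-β / 2) = -β by ring]; ring
        _ ≤ Q ^ 6 * (M / (2 * Q)) ^ (-β) := mul_le_mul_of_nonneg_left
            (Real.rpow_le_rpow_of_nonpos (by positivity) (hb k (mem_inter.1 hk).2) (by linarith))
            (by positivity)
        _ ≤ Q ^ 6 * (Q ^ 3 * M ^ (-β)) := by gcongr
        _ = Q ^ 9 * M ^ (-β) := by ring
        _ ≤ _ := by gcongr <;> linarith
    refine (sum_le_card_nsmul _ _ _ h3).trans ?_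
    rw [nsmul_eq_mul, mul_pow, sq _ _ hM.le, show 2 * (1 / 2 - β / 2) = 1 + -β by ring,
      Real.rpow_add hM, Real.rpow_one]
    calc _ ≤ M * (Q ^ 10 * M ^ (-β)) := by gcongr
      _ = _ := by ring

/-- the phase is large when two frequencies are high with the same sign -/
lemma psi_phase {α Q M : ℝ} (h1 : 3 / 5 ≤ α) (h2 : α < 1) (hQ : 1 ≤ Q) (hM : 0 < M)
    {a b c e : ℤ} (ha : |(a : ℝ)| ≤ M / (16 * Q)) (hc : |(c : ℝ)| ≤ M / (16 * Q))
    (hb : M / (4 * Q) ≤ |(b : ℝ)|) (he : M / (4 * Q) ≤ |(e : ℝ)|) :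
    M ^ α / (4 * Q) ≤ om α b + om α e - om α a - om α c := by
  have y0 : 0 < M / (4 * Q) := by positivity
  have lo : ∀ a : ℤ, |(a : ℝ)| ≤ M / (16 * Q) → om α a ≤ (M / (4 * Q)) ^ α / 2 := fun a ha => by
    have h4 : (2 : ℝ) ≤ 4 ^ α := by
      calc (2 : ℝ) = 4 ^ (1 / 2 : ℝ) := by
            rw [show (4 : ℝ) = 2 ^ (2 : ℝ) by norm_num, ← Real.rpow_mul (by norm_num)]; norm_num
        _ ≤ _ := Real.rpow_le_rpow_of_exponent_le (by norm_num) (by linarith)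
    calc om α a ≤ (M / (4 * Q) / 4) ^ α := by
          unfold om
          exact Real.rpow_le_rpow (abs_nonneg _) (ha.trans (le_of_eq (by field_simp; ring)))
            (by linarith)
      _ = (M / (4 * Q)) ^ α / 4 ^ α := Real.div_rpow y0.le (by norm_num) _
      _ ≤ _ := by gcongr
  have hi : ∀ a : ℤ, M / (4 * Q) ≤ |(a : ℝ)| → (M / (4 * Q)) ^ α ≤ om α a := fun a ha =>
    Real.rpow_le_rpow y0.le ha (by linarith)
  have h5 : M ^ α / (4 * Q) ≤ (M / (4 * Q)) ^ α := by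
    rw [Real.div_rpow hM.le (by positivity)]
    refine div_le_div_of_nonneg_left (by positivity) (by positivity) ?_
    calc (4 * Q) ^ α ≤ (4 * Q) ^ (1 : ℝ) := Real.rpow_le_rpow_of_exponent_le (by linarith) h2.le
      _ = _ := Real.rpow_one _
  linarith [lo a ha, lo c hc, hi b hb, hi e he]

/-- two low frequencies: first order gain or normal form -/
lemma fl_low (H : Hyp d K Q R β) (hτ : τ ∈ TT K d.Kc) (hN : 4 ≤ N) (hψ : Psi N ψ)
    (h : ¬ Sm R τ) (ho : ¬ Out K τ) (hl : LL (45 / 1000) K τ) (hM : N ≤ 2 * MM τ) :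
    N ^ (β + 5 / 10000) * fl d ψ τ * ((τ.1 : ℝ) + 2) ^ 6 ≤
      Q ^ 25 * MM τ ^ (-(2 / 10000) : ℝ) := by
  have hQ := H.Q_ge
  have hQ1 : 1 ≤ Q := by linarith
  have hα := H.a1
  have hβ := H.b1
  have hβ2 := H.b2
  have hT := H.hT
  have hT0 := d.hT
  have g := H.good hτ
  obtain ⟨hRD, hDM⟩ := not_Sm H hτ h
  have hMD := LL_near H hτ h (by norm_num) hl
  obtain ⟨hb, hd, -, -⟩ := pr_high H hτ h ho
  have hlog := logs6 H τ
  have hM1 := one_le_MM τ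
  have hxM := xx_le_MM τ
  have hD0 := DD_pos τ
  obtain ⟨hla, hlc⟩ := hl
  have hbr : ∀ k ∈ d.box τ.2, ∀ i, xx (τ.2 i) ≤ 2 * br (k i) ∧ br (k i) ≤ 2 * xx (τ.2 i) :=
    fun k hk i => psi_br H hτ (psi_box hk i)
  set e := pr K τ
  set M := MM τ
  have hM0 : 0 < M := by linarith
  have hb' : M ≤ Q * xx (τ.2 (e 1)) := hMD.trans (by gcongr)
  have hd' : M ≤ Q * xx (τ.2 (e 3)) := hMD.trans (by gcongr)
  obtain ⟨l0, n0⟩ := psi_low H (g.mem (e 0)) hla
  obtain ⟨l2, n2⟩ := psi_low H (g.mem (e 2)) hlc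
  obtain ⟨l1, n1⟩ := psi_high H (g.mem (e 1)) (hxM _) hb'
  obtain ⟨l3, n3⟩ := psi_high H (g.mem (e 3)) (hxM _) hd'
  have hlog' : ((τ.1 : ℝ) + 2) ^ 6 ≤ Q ^ 6 * M ^ (3 / 100000 : ℝ) := hlog.trans (by gcongr)
  have two : ∀ s : ℝ, 0 ≤ s → s ≤ 3 → N ^ s ≤ 8 * M ^ s := fun s h0 h3 => by
    calc N ^ s ≤ (2 * M) ^ s := Real.rpow_le_rpow (by linarith) hM h0
      _ = 2 ^ s * M ^ s := Real.mul_rpow (by norm_num) hM0.le
      _ ≤ _ := by
          gcongr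
          exact (Real.rpow_le_rpow_of_exponent_le (by norm_num) h3).trans (by norm_num)
  have fin : ∀ c s : ℝ, c ≤ Q → s ≤ -(2 / 10000) →
      c * Q ^ 21 * M ^ s ≤ Q ^ 25 * M ^ (-(2 / 10000) : ℝ) := fun c s h1 h2 => by
    have h3 : M ^ s ≤ M ^ (-(2 / 10000) : ℝ) := Real.rpow_le_rpow_of_exponent_le hM1 h2
    have h4 : c * Q ^ 21 ≤ Q ^ 25 := by
      calc c * Q ^ 21 ≤ Q * Q ^ 21 := by gcongr
        _ = Q ^ 22 := by ring
        _ ≤ _ := pow_le_pow_right₀ hQ1 (by norm_num)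
    exact mul_le_mul h4 h3 (by positivity) (by positivity)
  have hsym : ∀ k : Fin 4 → ℤ, ‖((ψ (k 1) + ψ (k 3) - ψ (k 0) - ψ (k 2) : ℝ) : ℂ)‖ =
      |ψ (k 0) - ψ (k 1) + ψ (k 2) - ψ (k 3)| := fun k => by
    rw [Complex.norm_real, Real.norm_eq_abs, ← abs_neg]; congr 1; ring
  rcases psi_perm e with hp | hp
  · have h1 := d.direct τ.2 e
      (σ := fun k => ((ψ (k 1) + ψ (k 3) - ψ (k 0) - ψ (k 2) : ℝ) : ℂ))
      (s := 64 * M ^ (45 / 1000 : ℝ) / N) (by positivity) (fun k hk h0 => by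
        have h2 := (hp fun i => (k i : ℝ)).1 (by exact_mod_cast h0)
        have h3 := (hp fun i => ψ (k i)).2
        have h4 := psi_lip hψ (k (e 0)) (k (e 2))
        have h5 := psi_lip hψ (k (e 1)) (k (e 3))
        have h6 : |(k (e 0) : ℝ) - k (e 2)| ≤ 4 * M ^ (45 / 1000 : ℝ) := by
          have a1 := (hbr k hk (e 0)).2
          have a2 := (hbr k hk (e 2)).2
          have a3 := abs_sub (k (e 0) : ℝ) (k (e 2))
          unfold br at a1 a2
          linarith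
        have h7 : |(k (e 0) : ℝ) - k (e 2)| * (8 / N) ≤ 4 * M ^ (45 / 1000 : ℝ) * (8 / N) := by
          gcongr
        rw [h2] at h5
        rw [hsym]
        calc _ ≤ 4 * M ^ (45 / 1000 : ℝ) * (8 / N) + 4 * M ^ (45 / 1000 : ℝ) * (8 / N) := by
              linarith
          _ = _ := by ring)
      (by positivity) (by positivity) l0 l2 l1 l3
    have h2 : N ^ (β + 5 / 10000) / N ≤ 8 * M ^ (β - 1 / 2) := by
      rw [← Real.rpow_sub_one (by linarith)]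
      exact (Real.rpow_le_rpow_of_exponent_le (by linarith) (by linarith)).trans
        (two _ (by linarith) (by linarith))
    have h3 : M ^ (β - 1 / 2) * M ^ (45 / 1000 : ℝ) * (M ^ (45 / 1000 : ℝ)) ^ 2 *
        (M ^ (-β / 2)) ^ 2 * M ^ (3 / 100000 : ℝ) = M ^ (-(36497 / 100000) : ℝ) := by
      simp only [sq, ← Real.rpow_add hM0]; congr 1; ring
    calc _ ≤ N ^ (β + 5 / 10000) * (64 * M ^ (45 / 1000 : ℝ) / N * Q *
          (Q ^ 3 * M ^ (45 / 1000 : ℝ)) ^ 2 * (Q ^ 2 * M ^ (-β / 2)) ^ 2) *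
          (Q ^ 6 * M ^ (3 / 100000 : ℝ)) := by
          gcongr
          exact h1.trans (by gcongr)
      _ = N ^ (β + 5 / 10000) / N * (64 * Q ^ 17 * (M ^ (45 / 1000 : ℝ) *
          (M ^ (45 / 1000 : ℝ)) ^ 2 * (M ^ (-β / 2)) ^ 2 * M ^ (3 / 100000 : ℝ))) := by ring
      _ ≤ 8 * M ^ (β - 1 / 2) * (64 * Q ^ 21 * (M ^ (45 / 1000 : ℝ) *
          (M ^ (45 / 1000 : ℝ)) ^ 2 * (M ^ (-β / 2)) ^ 2 * M ^ (3 / 100000 : ℝ))) := by
          gcongr; norm_num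
      _ = 512 * Q ^ 21 * M ^ (-(36497 / 100000) : ℝ) := by rw [← h3]; ring
      _ ≤ _ := fin _ _ (by linarith) (by norm_num)
  · have hQM : Q ^ 200 ≤ M := H.QR.trans (hRD.trans hDM)
    have hbig : 32 * Q * M ^ (45 / 1000 : ℝ) ≤ M := by
      have h1 : 32 * Q ≤ M ^ (1 / 2 : ℝ) := by
        rw [← Real.sqrt_eq_rpow]
        refine Real.le_sqrt_of_sq_le (le_trans ?_ hQM)
        calc (32 * Q) ^ 2 ≤ (Q * Q) ^ 2 := by gcongr; linarith
          _ = Q ^ 4 := by ring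
          _ ≤ _ := pow_le_pow_right₀ hQ1 (by norm_num)
      calc _ ≤ M ^ (1 / 2 : ℝ) * M ^ (1 / 2 : ℝ) :=
            mul_le_mul h1 (Real.rpow_le_rpow_of_exponent_le hM1 (by norm_num)) (by positivity)
              (by positivity)
        _ = M := by rw [← Real.rpow_add hM0]; norm_num
    have hone : 1 ≤ M ^ (45 / 1000 : ℝ) := Real.one_le_rpow hM1 (by norm_num)
    have lo : ∀ k ∈ d.box τ.2, ∀ i, xx (τ.2 i) ≤ M ^ (45 / 1000 : ℝ) →
        |(k i : ℝ)| ≤ M / (16 * Q) := fun k hk i hi => by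
      have a1 := (hbr k hk i).2
      unfold br at a1
      rw [le_div_iff₀ (by positivity)]
      nlinarith
    have hi : ∀ k ∈ d.box τ.2, ∀ i, M ≤ Q * xx (τ.2 i) → M / (4 * Q) ≤ |(k i : ℝ)| :=
      fun k hk i hi => by
      have a1 := (hbr k hk i).1
      unfold br at a1
      rw [div_le_iff₀ (by positivity)]
      nlinarith
    have hΓ : Q ^ 2 * M ^ (-β / 2) ≤ Q ^ 5 * M ^ (1 / 2 - β / 2) :=
      mul_le_mul (pow_le_pow_right₀ hQ1 (by norm_num))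
        (Real.rpow_le_rpow_of_exponent_le hM1 (by linarith)) (by positivity) (by positivity)
    have h1 := d.normal τ.2 e
      (σ := fun k => ((ψ (k 1) + ψ (k 3) - ψ (k 0) - ψ (k 2) : ℝ) : ℂ))
      (s := 2) (Φ := M ^ d.α / (4 * Q)) (by norm_num) (fun k _ _ => by
        rw [hsym, abs_le]
        constructor <;> linarith [hψ.nn (k 0), hψ.nn (k 1), hψ.nn (k 2), hψ.nn (k 3),
          hψ.le (k 0), hψ.le (k 1), hψ.le (k 2), hψ.le (k 3)])
      (by positivity) (fun k hk _ => by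
        rw [Ph, hp fun i => om d.α (k i)]
        exact (psi_phase hα H.a2 hQ1 hM0 (lo k hk _ hla) (lo k hk _ hlc) (hi k hk _ hb')
          (hi k hk _ hd')).trans (le_abs_self _))
      (by positivity) (by positivity) hΓ l0 l2 l1 l3 n0 n2 n1 n3
    have h2 := two (β + 5 / 10000) (by linarith) (by linarith)
    have h3 : M ^ (β + 5 / 10000) * (M ^ d.α)⁻¹ * (M ^ (45 / 1000 : ℝ)) ^ 2 * M ^ (-β / 2) *
        M ^ (1 / 2 - β / 2) * M ^ (3 / 100000 : ℝ) = M ^ (59053 / 100000 - d.α) := by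
      simp only [sq, ← Real.rpow_neg hM0.le, ← Real.rpow_add hM0]; congr 1; ring
    have h4 : 0 < M ^ d.α := by positivity
    calc _ ≤ 8 * M ^ (β + 5 / 10000) * (2 / (M ^ d.α / (4 * Q)) * (6 * Q) *
          (Q ^ 3 * M ^ (45 / 1000 : ℝ)) ^ 2 * (Q ^ 2 * M ^ (-β / 2)) *
          (Q ^ 5 * M ^ (1 / 2 - β / 2))) * (Q ^ 6 * M ^ (3 / 100000 : ℝ)) := by
          have h5 : 0 ≤ fl d ψ τ := norm_nonneg _
          gcongr
          exact h1.trans (by gcongr; linarith)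
      _ = 384 * Q ^ 21 * M ^ (59053 / 100000 - d.α) := by rw [← h3]; field_simp; ring
      _ ≤ _ := fin _ _ (by linarith) (by linarith)

end Pool.Agent.Lib.MMTW
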