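import Pool.Agent.Lib.MP_0dc93f_an.WBoot
import Pool.Agent.Lib.MP_0dc93f_an.WPsi

/-! The flux through frequency `N` and the a priori estimate (job D7). -/

namespace Pool.Agent.Lib.MMTW

open Finset

variable {d : Dat} {K : ℕ} {Q R β N : ℝ}

lemma fin_ex {x : ℝ} (h : 0 < x) : ∃ l : ℝ, x = Real.exp l := ⟨Real.log x, (Real.exp_log h).symm⟩

lemma fin_two : (2 : ℝ) ≤ Real.exp 1 := by linarith [Real.add_one_le_exp 1]

lemma fin_l2 {a b : ℝ} (h : Real.exp a ≤ 2 * Real.exp b) : a ≤ b + 1 := by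
  rw [← Real.exp_le_exp, Real.exp_add]
  nlinarith [fin_two, Real.exp_pos b]

lemma fin_l8 {a b : ℝ} (h : Real.exp a ≤ 8 * Real.exp b) : a ≤ b + 7 := by
  rw [← Real.exp_le_exp, Real.exp_add]
  nlinarith [Real.add_one_le_exp 7, Real.exp_pos b]

lemma fin_lq {q : ℝ} (h : 25000000 ≤ Real.exp q) : 15 ≤ q := by
  by_contra hq
  have h1 : Real.exp q ≤ Real.exp 1 ^ 15 := by
    rw [← Real.exp_nat_mul]; exact Real.exp_le_exp.2 (by push_cast; linarith)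
  have h2 : Real.exp 1 ^ 15 ≤ 3 ^ 15 :=
    pow_le_pow_left₀ (Real.exp_pos 1).le (by linarith [Real.exp_one_lt_d9]) _
  linarith

/-- small types -/
lemma fin_a {D M L : ℝ} (hQ : 25000000 ≤ Q) (hR : Q ^ 200 ≤ R) (b1 : 3 / 5 ≤ β) (b2 : β ≤ 2)
    (hN : 0 < N) (hD : 0 < D) (hM : 1 ≤ M) (h1 : N ≤ 2 * M) (h2 : M ≤ 8 * N)
    (h3 : D ≤ R * M ^ (801 / 1000 : ℝ)) (h4 : L ≤ Q ^ 11 * D ^ (5 / 100000 : ℝ)) :
    N ^ (β + 5 / 10000) * (Q ^ 2 * (D / N) ^ 2) * D * M ^ (-β) * L ≤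
      R ^ 18 * M ^ (5991 / 10000 : ℝ) := by
  have hQ0 : 0 < Q := by linarith
  have hR0 : 0 < R := lt_of_lt_of_le (by positivity) hR
  have hM0 : 0 < M := by linarith
  refine (mul_le_mul_of_nonneg_left h4 (by positivity)).trans ?_
  obtain ⟨q, rfl⟩ := fin_ex hQ0
  obtain ⟨r, rfl⟩ := fin_ex hR0
  obtain ⟨n, rfl⟩ := fin_ex hN
  obtain ⟨m, rfl⟩ := fin_ex hM0
  obtain ⟨e, rfl⟩ := fin_ex hD
  have g0 := fin_lq hQ
  have g1 := fin_l2 h1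
  have g2 := fin_l8 h2
  have g3 : 0 ≤ m := Real.one_le_exp_iff.1 hM
  simp only [← Real.exp_mul, ← Real.exp_nat_mul, ← Real.exp_add, ← Real.exp_sub,
    Real.exp_le_exp] at hR h3 ⊢
  push_cast at hR ⊢
  have g4 : (β + 5 / 10000 - 2) * (n - m) ≤ 20 := by
    nlinarith [mul_nonneg (sub_nonneg.2 b1) (sub_nonneg.2 g1),
      mul_nonneg (sub_nonneg.2 b2) (sub_nonneg.2 g2)]
  nlinarith

/-- charged types far from zero -/
lemma fin_b {α D M L x y : ℝ} (hQ : 25000000 ≤ Q) (a1 : 3 / 5 ≤ α) (a2 : α < 1) (b1 : α ≤ β)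
    (b2 : β ≤ 2) (hN : 0 < N) (hD : 0 < D) (hM : 1 ≤ M) (h1 : N ≤ 2 * M) (h2 : M ≤ 8 * N)
    (h3 : D ≤ M) (h4 : L ≤ Q ^ 11 * D ^ (5 / 100000 : ℝ)) (hx : M ≤ 2 * x) (hy : M ≤ 2 * y) :
    N ^ (β + 5 / 10000) * (Q ^ 2 * (D / N) ^ 2) *
      ((x * y) ^ ((1 - α - β) / 2) * M ^ (1 + 1003 / 1000 - β) / D ^ 2) * L ≤ Q ^ 15 := by
  have hQ0 : 0 < Q := by linarith
  have hM0 : 0 < M := by linarith
  have hx0 : 0 < x := by linarith
  have hy0 : 0 < y := by linarith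
  refine (mul_le_mul_of_nonneg_left h4 (by positivity)).trans ?_
  obtain ⟨q, rfl⟩ := fin_ex hQ0
  obtain ⟨n, rfl⟩ := fin_ex hN
  obtain ⟨m, rfl⟩ := fin_ex hM0
  obtain ⟨e, rfl⟩ := fin_ex hD
  obtain ⟨u, rfl⟩ := fin_ex hx0
  obtain ⟨v, rfl⟩ := fin_ex hy0
  have g0 := fin_lq hQ
  have g1 := fin_l2 h1
  have g2 := fin_l8 h2
  have g5 := fin_l2 hx
  have g6 := fin_l2 hy
  have g3 : 0 ≤ m := Real.one_le_exp_iff.1 hM
  simp only [← Real.exp_mul, ← Real.exp_nat_mul, ← Real.exp_add, ← Real.exp_sub,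
    Real.exp_le_exp] at h3 ⊢
  push_cast
  have g4 : (β + 5 / 10000 - 2) * (n - m) ≤ 20 := by
    nlinarith [mul_nonneg (sub_nonneg.2 (a1.trans b1)) (sub_nonneg.2 g1),
      mul_nonneg (sub_nonneg.2 b2) (sub_nonneg.2 g2)]
  have g7 : (u + v - 2 * m) * ((1 - α - β) / 2) ≤ 2 := by
    nlinarith [mul_nonneg (show 0 ≤ u + v - 2 * m + 2 by linarith)
      (show 0 ≤ α + β - 1 by linarith)]
  have g8 : 0 ≤ (α + β - 6 / 5) * m := mul_nonneg (by linarith) g3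
  nlinarith

/-- charged types near zero -/
lemma fin_c {α D M L x y : ℝ} (hQ : 25000000 ≤ Q) (a1 : 3 / 5 ≤ α) (b1 : α ≤ β)
    (b2 : β ≤ 2) (hN : 0 < N) (hD : 0 < D) (hM : 1 ≤ M) (h1 : N ≤ 2 * M) (h2 : M ≤ Q * D)
    (h3 : D ≤ M) (h4 : L ≤ Q ^ 11 * D ^ (5 / 100000 : ℝ)) (hx : 0 < x) (hy : 0 < y)
    (hxy : M ^ (45 / 1000 : ℝ) ≤ x * y) :
    N ^ (β + 5 / 10000) * Q *
      ((x * y) ^ ((1 - α - β) / 2) * M ^ (1 + 1003 / 1000 - β) / D ^ 2) * L ≤ Q ^ 15 := by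
  have hQ0 : 0 < Q := by linarith
  have hM0 : 0 < M := by linarith
  refine (mul_le_mul_of_nonneg_left h4 (by positivity)).trans ?_
  obtain ⟨q, rfl⟩ := fin_ex hQ0
  obtain ⟨n, rfl⟩ := fin_ex hN
  obtain ⟨m, rfl⟩ := fin_ex hM0
  obtain ⟨e, rfl⟩ := fin_ex hD
  obtain ⟨u, rfl⟩ := fin_ex hx
  obtain ⟨v, rfl⟩ := fin_ex hy
  have g0 := fin_lq hQ
  have g1 := fin_l2 h1
  have g3 : 0 ≤ m := Real.one_le_exp_iff.1 hM
  simp only [← Real.exp_mul, ← Real.exp_nat_mul, ← Real.exp_add, ← Real.exp_sub,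
    Real.exp_le_exp] at h2 h3 hxy ⊢
  push_cast
  have g4 : (β + 5 / 10000) * (n - m) ≤ 3 := by
    nlinarith [mul_nonneg (show 0 ≤ β + 5 / 10000 by linarith) (sub_nonneg.2 g1)]
  have g7 : (u + v) * ((1 - α - β) / 2) ≤ -(45 / 10000) * m := by
    nlinarith [mul_nonneg (show 0 ≤ u + v by linarith) (show 0 ≤ α + β - 6 / 5 by linarith)]
  nlinarith

lemma fin_nn (d : Dat) (ψ : ℤ → ℝ) (τ : Ty) : 0 ≤ fl d ψ τ := norm_nonneg _

/-- the flux identity, split in types -/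
lemma fin_flux {ψ : ℤ → ℝ} (K : ℕ) (hψ : Psi N ψ) :
    tail d.Kc (d.b d.T) (2 * N) ≤ tail d.Kc (d.b 0) N + ∑ τ ∈ TT K d.Kc, fl d ψ τ := by
  have h1 : tail d.Kc (d.b d.T) (2 * N) ≤ ∑ k ∈ FF d.Kc, ψ k * ‖d.b d.T k‖ ^ 2 := by
    rw [tail, sum_filter]
    refine sum_le_sum fun k _ => ?_
    split_ifs with h
    · rw [hψ.hi k h, one_mul]
    · exact mul_nonneg (hψ.nn k) (by positivity)
  have h2 : ∑ k ∈ FF d.Kc, ψ k * ‖d.b 0 k‖ ^ 2 ≤ tail d.Kc (d.b 0) N := by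
    rw [tail, sum_filter]
    refine sum_le_sum fun k _ => ?_
    split_ifs with h
    · exact mul_le_of_le_one_left (by positivity) (hψ.le k)
    · rw [hψ.lo k (not_le.1 h).le, zero_mul]
  have h3 := d.flux ψ
  have h4 : ‖∑ k ∈ F4 d.Kc, d.w0 k * ((ψ (k 1) + ψ (k 3) - ψ (k 0) - ψ (k 2) : ℝ) : ℂ)‖ ≤
      ∑ τ ∈ TT K d.Kc, fl d ψ τ := by
    rw [sum_types K]
    exact norm_sum_le _ _
  have h5 := (le_abs_self _).trans (Complex.abs_im_le_norm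
    (∑ k ∈ F4 d.Kc, d.w0 k * ((ψ (k 1) + ψ (k 3) - ψ (k 0) - ψ (k 2) : ℝ) : ℂ)))
  have h6 : 0 ≤ ∑ τ ∈ TT K d.Kc, fl d ψ τ := sum_nonneg fun τ _ => fin_nn _ _ _
  linarith

lemma fin_R (H : Hyp d K Q R β) : 25000000 ≤ R := by
  have h1 := H.Q_ge
  refine le_trans ?_ H.QR
  calc (25000000 : ℝ) ≤ Q ^ 1 := by simpa using h1
    _ ≤ Q ^ 200 := pow_le_pow_right₀ (by linarith) (by norm_num)

lemma fin_QR (H : Hyp d K Q R β) {n : ℕ} (hn : n ≤ 200) : Q ^ n ≤ R :=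
  (pow_le_pow_right₀ (by linarith [H.Q_ge]) hn).trans H.QR

lemma fin_small (H : Hyp d K Q R β) (hN : R ^ 12 ≤ N) (h4 : 4 ≤ N) {ψ : ℤ → ℝ} (hψ : Psi N ψ)
    {s : Finset Ty} (hs : s ⊆ TT K d.Kc) (h0 : ∀ τ ∈ s, fl d ψ τ ≠ 0) (h1 : ∀ τ ∈ s, Sm R τ) :
    ∑ τ ∈ s, N ^ (β + 5 / 10000) * fl d ψ τ ≤ R ^ 18 * R ^ 50 := by
  have hR := fin_R H
  have hQ := H.Q_ge
  have hN0 : 0 < N := by linarith
  refine le_trans (sum_le_sum fun τ hτ => ?_) (tot_small H hs (by positivity)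
    (Ω := fun τ => N ^ (β + 5 / 10000) * (Q ^ 2 * (DD τ / N) ^ 2) * Lg τ.2)
    (fun τ _ => ?_) h1 fun τ hτ => ?_)
  · refine (mul_le_mul_of_nonneg_left (fl_le_sq H (hs hτ) h4 hψ) (by positivity)).trans ?_
    exact le_of_eq (by ring)
  · have := Lg_pos τ.2
    positivity
  · obtain ⟨-, g1, i, g2⟩ := fl_ne H (hs hτ) hψ (h0 τ hτ)
    have g3 : MM τ ≤ 8 * N := by
      rcases dich H (hs hτ) with g | g
      · linarith [g i]
      · have g4 := Sm_near H (h1 τ hτ) g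
        have g5 : 0 < R ^ 11 := by positivity
        have g6 : R ^ 12 = R * R ^ 11 := by ring
        nlinarith
    have g7 : DD τ ≤ R * MM τ ^ (801 / 1000 : ℝ) :=
      (h1 τ hτ).trans (mul_le_mul_of_nonneg_left
        (Real.rpow_le_rpow (xx_pos _).le (xx_le_MM τ 3) (by norm_num)) (by linarith))
    refine le_trans (le_of_eq ?_) (fin_a hQ H.QR (H.a1.trans H.b1) H.b2 hN0 (DD_pos τ)
      (one_le_MM τ) g1 g3 g7 (logs H (hs hτ)))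
    ring

lemma fin_low (H : Hyp d K Q R β) (h4 : 4 ≤ N) {ψ : ℤ → ℝ} (hψ : Psi N ψ)
    {s : Finset Ty} (hs : s ⊆ TT K d.Kc) (h0 : ∀ τ ∈ s, fl d ψ τ ≠ 0) (h1 : ∀ τ ∈ s, ¬ Sm R τ)
    (h2 : ∀ τ ∈ s, LL (45 / 1000) K τ) :
    ∑ τ ∈ s, N ^ (β + 5 / 10000) * fl d ψ τ ≤ Q ^ 25 * Q ^ 10 := by
  have hQ := H.Q_ge
  refine tot_decay H hs (by positivity) (fun τ hτ => ?_) fun τ hτ => ?_
  · obtain ⟨g0, -⟩ := fl_ne H (hs hτ) hψ (h0 τ hτ)
    have g1 := LL_near H (hs hτ) (h1 τ hτ) (by norm_num) (h2 τ hτ)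
    have g2 := (pr_high H (hs hτ) (h1 τ hτ) g0).2.2.1
    have g3 := DD_pos τ
    refine ⟨pr K τ 1, g1.trans ?_⟩
    calc Q * DD τ ≤ Q * (15 * (mu (τ.2 (pr K τ 1)) : ℝ)) := by gcongr
      _ ≤ Q * (Q * (mu (τ.2 (pr K τ 1)) : ℝ)) := by
          gcongr
          · linarith
          · linarith
      _ = _ := by ring
  · obtain ⟨g0, g1, -⟩ := fl_ne H (hs hτ) hψ (h0 τ hτ)
    exact fl_low H (hs hτ) h4 hψ (h1 τ hτ) g0 (h2 τ hτ) g1

lemma fin_chg (H : Hyp d K Q R β) (h4 : 4 ≤ N) {ψ : ℤ → ℝ} (hψ : Psi N ψ)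
    {s : Finset Ty} (hs : s ⊆ TT K d.Kc) (h0 : ∀ τ ∈ s, fl d ψ τ ≠ 0) (h1 : ∀ τ ∈ s, ¬ Sm R τ)
    (h2 : ∀ τ ∈ s, ¬ LL (45 / 1000) K τ) :
    ∑ τ ∈ s, N ^ (β + 5 / 10000) * fl d ψ τ ≤ Q ^ 15 * Q ^ 8 * R ^ 101 := by
  have hQ := H.Q_ge
  have hN0 : 0 < N := by linarith
  obtain ⟨ν, hν, hB⟩ := boot H
  refine le_trans (sum_le_sum fun τ hτ => ?_) ((tot_charged H hν hs (A := Q ^ 15) (by positivity)
    (Ω := fun τ => N ^ (β + 5 / 10000) * min (Q ^ 2 * (DD τ / N) ^ 2) Q * Lg τ.2)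
    (fun τ _ => ?_) (fun τ hτ => ⟨h1 τ hτ, (fl_ne H (hs hτ) hψ (h0 τ hτ)).1⟩)
    fun τ hτ => ?_).trans (by gcongr))
  · have g : fl d ψ τ ≤ min (Q ^ 2 * (DD τ / N) ^ 2) Q * Lg τ.2 * ZZ d K τ := by
      rcases min_choice (Q ^ 2 * (DD τ / N) ^ 2) Q with g | g <;> rw [g]
      · exact fl_le_sq H (hs hτ) h4 hψ
      · exact fl_le_one H (hs hτ) h4 hψ
    refine (mul_le_mul_of_nonneg_left g (by positivity)).trans (le_of_eq (by ring))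
  · have := Lg_pos τ.2
    have : 0 ≤ min (Q ^ 2 * (DD τ / N) ^ 2) Q := le_min (by positivity) (by linarith)
    positivity
  · obtain ⟨-, g1, i, g2⟩ := fl_ne H (hs hτ) hψ (h0 τ hτ)
    have g3 := (not_Sm H (hs hτ) (h1 τ hτ)).2
    have g4 := logs H (hs hτ)
    have g5 := Lg_pos τ.2
    have g6 := DD_pos τ
    have g7 := one_le_MM τ
    have ha := one_le_xx (τ.2 (pr K τ 0))
    have hc := one_le_xx (τ.2 (pr K τ 2))
    have g8 : 0 ≤ Ga d.α β K τ := by unfold Ga; positivity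
    rcases dich H (hs hτ) with g | g
    · refine le_trans ?_ (fin_b hQ H.a1 H.a2 H.b1 H.b2 hN0 g6 g7 g1 (by linarith [g i]) g3 g4
        (g (pr K τ 0)) (g (pr K τ 2)))
      calc _ = N ^ (β + 5 / 10000) * min (Q ^ 2 * (DD τ / N) ^ 2) Q * Ga d.α β K τ *
            (Lg τ.2 * ((τ.1 : ℝ) + 2) ^ 6) := by ring
        _ ≤ N ^ (β + 5 / 10000) * (Q ^ 2 * (DD τ / N) ^ 2) * Ga d.α β K τ *
            (Lg τ.2 * ((τ.1 : ℝ) + 2) ^ 6) := by gcongr; exact min_le_left _ _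
        _ = _ := rfl
    · have g9 : MM τ ^ (45 / 1000 : ℝ) ≤ xx (τ.2 (pr K τ 0)) * xx (τ.2 (pr K τ 2)) := by
        have h := h2 τ hτ
        rw [LL, not_and_or, not_le, not_le] at h
        rcases h with h | h <;> nlinarith
      refine le_trans ?_ (fin_c hQ H.a1 H.b1 H.b2 hN0 g6 g7 g1 g g3 g4 (by linarith) (by linarith)
        g9)
      calc _ = N ^ (β + 5 / 10000) * min (Q ^ 2 * (DD τ / N) ^ 2) Q * Ga d.α β K τ *
            (Lg τ.2 * ((τ.1 : ℝ) + 2) ^ 6) := by ring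
        _ ≤ N ^ (β + 5 / 10000) * Q * Ga d.α β K τ *
            (Lg τ.2 * ((τ.1 : ℝ) + 2) ^ 6) := by gcongr; exact min_le_right _ _
        _ = _ := rfl

lemma fin_tot (H : Hyp d K Q R β) (hN : R ^ 12 ≤ N) (h4 : 4 ≤ N) {ψ : ℤ → ℝ} (hψ : Psi N ψ) :
    N ^ (β + 5 / 10000) * ∑ τ ∈ TT K d.Kc, fl d ψ τ ≤ R ^ 200 := by
  classical
  have hR := fin_R H
  have hQ := H.Q_ge
  rw [← sum_filter_ne_zero, mul_sum]
  set s := (TT K d.Kc).filter fun τ => fl d ψ τ ≠ 0 with hs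
  have s1 : s ⊆ TT K d.Kc := filter_subset _ _
  have s2 : ∀ τ ∈ s, fl d ψ τ ≠ 0 := fun τ hτ => (mem_filter.1 hτ).2
  rw [← sum_filter_add_sum_filter_not s (Sm R),
    ← sum_filter_add_sum_filter_not (s.filter fun τ => ¬ Sm R τ) (LL (45 / 1000) K)]
  have e1 := fin_small H hN h4 hψ (s := s.filter (Sm R)) ((filter_subset _ _).trans s1)
    (fun τ hτ => s2 τ (mem_filter.1 hτ).1) fun τ hτ => (mem_filter.1 hτ).2
  have e2 := fin_low H h4 hψ (s := (s.filter fun τ => ¬ Sm R τ).filter (LL (45 / 1000) K))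
    ((filter_subset _ _).trans ((filter_subset _ _).trans s1))
    (fun τ hτ => s2 τ (mem_filter.1 (mem_filter.1 hτ).1).1)
    (fun τ hτ => (mem_filter.1 (mem_filter.1 hτ).1).2) fun τ hτ => (mem_filter.1 hτ).2
  have e3 := fin_chg H h4 hψ
    (s := (s.filter fun τ => ¬ Sm R τ).filter fun τ => ¬ LL (45 / 1000) K τ)
    ((filter_subset _ _).trans ((filter_subset _ _).trans s1))
    (fun τ hτ => s2 τ (mem_filter.1 (mem_filter.1 hτ).1).1)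
    (fun τ hτ => (mem_filter.1 (mem_filter.1 hτ).1).2) fun τ hτ => (mem_filter.1 hτ).2
  have r1 : (1 : ℝ) ≤ R := by linarith
  have f1 : R ^ 18 * R ^ 50 ≤ R ^ 199 := by
    rw [← pow_add]; exact pow_le_pow_right₀ r1 (by norm_num)
  have f2 : Q ^ 25 * Q ^ 10 ≤ R ^ 199 := by
    rw [← pow_add]
    exact (fin_QR H (by norm_num)).trans (le_self_pow₀ r1 (by norm_num))
  have f3 : Q ^ 15 * Q ^ 8 * R ^ 101 ≤ R ^ 199 := by
    rw [← pow_add]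
    calc Q ^ (15 + 8) * R ^ 101 ≤ R * R ^ 101 :=
          mul_le_mul_of_nonneg_right (fin_QR H (by norm_num)) (by positivity)
      _ = R ^ 102 := by ring
      _ ≤ _ := pow_le_pow_right₀ r1 (by norm_num)
  have f4 : 3 * R ^ 199 ≤ R ^ 200 := by
    rw [pow_succ' R 199]
    exact mul_le_mul_of_nonneg_right (by linarith) (by positivity)
  linarith

theorem fin_est (H : Hyp d K Q R β) (hN : 1 ≤ N) :
    tail d.Kc (d.b d.T) (2 * N) ≤ tail d.Kc (d.b 0) N + R ^ 200 * N ^ (-β - 5 / 10000) := by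
  have hR := fin_R H
  have hQ := H.Q_ge
  have r1 : (1 : ℝ) ≤ R := by linarith
  have hN0 : 0 < N := by linarith
  have hb : 0 ≤ β := by linarith [H.a1, H.b1]
  rcases le_total N (R ^ 12) with h | h
  · have h1 := H.tl d.T ⟨d.hT, le_rfl⟩ (2 * N) (by linarith)
    have h2 := fx_tail_nonneg d.Kc (d.b 0) N
    have h3 : (2 * N) ^ (-β) ≤ N ^ (-β) :=
      Real.rpow_le_rpow_of_nonpos hN0 (by linarith) (by linarith)
    have h4 : N ^ (-β) ≤ N * N ^ (-β - 5 / 10000) := by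
      calc N ^ (-β) ≤ N ^ (1 + (-β - 5 / 10000)) :=
            Real.rpow_le_rpow_of_exponent_le hN (by linarith)
        _ = _ := by rw [Real.rpow_add hN0, Real.rpow_one]
    have h5 : Q * N ≤ R ^ 200 := by
      calc Q * N ≤ R * R ^ 12 :=
            mul_le_mul (by simpa using fin_QR H (n := 1) (by norm_num)) h hN0.le (by linarith)
        _ = R ^ 13 := by ring
        _ ≤ _ := pow_le_pow_right₀ r1 (by norm_num)
    have h6 : 0 ≤ N ^ (-β - 5 / 10000) := by positivity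
    calc _ ≤ Q * (2 * N) ^ (-β) := h1
      _ ≤ Q * (N * N ^ (-β - 5 / 10000)) :=
          mul_le_mul_of_nonneg_left (h3.trans h4) (by linarith)
      _ = Q * N * N ^ (-β - 5 / 10000) := by ring
      _ ≤ R ^ 200 * N ^ (-β - 5 / 10000) := mul_le_mul_of_nonneg_right h5 h6
      _ ≤ _ := by linarith
  · have h4 : 4 ≤ N := by
      have := le_self_pow₀ r1 (show 12 ≠ 0 by norm_num)
      linarith
    obtain ⟨ψ, p1, p2, p3, p4, p5, p6⟩ := exists_psi h4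
    have hψ : Psi N ψ := ⟨p1, p2, p3, p4, p5, p6⟩
    have h1 := fin_flux (d := d) K hψ
    have h2 := fin_tot H h h4 hψ
    have h3 : N ^ (-β - 5 / 10000) * N ^ (β + 5 / 10000) = 1 := by
      rw [← Real.rpow_add hN0, show -β - 5 / 10000 + (β + 5 / 10000) = 0 by ring, Real.rpow_zero]
    have h5 := mul_le_mul_of_nonneg_left h2 (show 0 ≤ N ^ (-β - 5 / 10000) by positivity)
    rw [← mul_assoc, h3, one_mul, mul_comm] at h5
    linarith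

lemma fin_prod {a b c e f g h : ℝ} (ha : 1 ≤ a) (hb : 1 ≤ b) (hc : 1 ≤ c) (he : 1 ≤ e)
    (hf : 1 ≤ f) (hg : 1 ≤ g) (hh : 1 ≤ h) : ∃ Q : ℝ, 1 ≤ Q ∧ 100 * a ≤ Q ∧ b ≤ Q ∧ c ≤ Q ∧
      e ≤ Q ∧ f ≤ Q ∧ g ≤ Q ∧ h ≤ Q :=
  ⟨100 * a + b + c + e + f + g + h, by linarith, by linarith, by linarith, by linarith,
    by linarith, by linarith, by linarith, by linarith⟩

theorem est {α : ℝ} (h1 : 3 / 5 ≤ α) (h2 : α < 1) : Est α (5 / 10000) := by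
  intro E T hE hT
  have ha : 0 < 1 - α := by linarith
  obtain ⟨K, hK⟩ := exists_nat_ge (100000 / (1 - α))
  have hK1 : 100000 ≤ (1 - α) * K := by rwa [div_le_iff₀' ha] at hK
  have hK2 : (1 : ℝ) ≤ K := by
    have : (0 : ℝ) ≤ K := Nat.cast_nonneg K
    nlinarith
  obtain ⟨Cl, l1, l2⟩ := exists_lg (show (0 : ℝ) < 5 / 1000000 by norm_num)
  obtain ⟨Cw, w1, w2⟩ := wsum (show (0 : ℝ) < 8 / 10000 by norm_num)
  obtain ⟨Cb, b1, b2⟩ := brsum (show (0 : ℝ) < 1 / 10000 by norm_num)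
  obtain ⟨Cn, n1, n2⟩ := NL_le (show (1 : ℝ) / 2 < 3 / 5 by norm_num)
  obtain ⟨Q, q0, qK, qE, qT, ql, qw, qb, qn⟩ := fin_prod hK2 hE hT l1 w1 b1 n1
  have q1 : 1 ≤ Q ^ 200 := one_le_pow₀ q0
  obtain ⟨R, r1, r2⟩ : ∃ R : ℝ, 1 ≤ R ∧ Q ^ 200 ≤ R ^ (1 / 10000 : ℝ) :=
    ⟨(Q ^ 200) ^ (10000 : ℝ), Real.one_le_rpow q1 (by norm_num), by
      rw [← Real.rpow_mul (by linarith)]; norm_num⟩
  refine ⟨R ^ 200, fun β hβ1 hβ2 Kc hKc b hb T' t0 t1 htl hhi N hN => ?_⟩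
  refine fin_est (d := ⟨α, Kc, b, T', t0, hb⟩) (K := K) (Q := Q)
    ⟨h1, h2, hβ1, hβ2, hK1, qK, r1, r2, hKc, t1.trans qT, fun l => ?_, fun t ht r hr => ?_,
      fun t ht σ hσ => ?_, fun s => (b2 s).trans qb, fun t ht k => ?_, hhi⟩ hN
  · exact (l2 l).trans (mul_le_mul_of_nonneg_right ql (by positivity))
  · exact (htl t ht r hr).trans (mul_le_mul_of_nonneg_right qE (by positivity))
  · refine (w2 Kc (b t) E β σ (by linarith) hσ (by linarith) (htl t ht)).trans ?_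
    rw [sq]
    exact mul_le_mul qw qE (by linarith) (by linarith)
  · refine (n2 Kc (b t) E β hE (h1.trans hβ1) hβ2 (htl t ht) k).trans
      (mul_le_mul_of_nonneg_right ?_ (Real.rpow_nonneg (br_pos k).le _))
    rw [pow_succ' Q 2]
    exact mul_le_mul qn (pow_le_pow_left₀ (by linarith) qE 2) (by positivity) (by linarith)

end Pool.Agent.Lib.MMTW
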