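import Pool.Agent.Lib.MP_0dc93f_an.WGal2

/-! Galerkin solutions and their uniform bounds (job A1). -/

namespace Pool.Agent.Lib.MMTW

open Finset Complex ComplexConjugate Filter Topology

namespace Gl

noncomputable section

lemma tail_le {Kc : ℕ} {a : ℤ → ℂ} {β E R : ℝ} (hβ : 0 ≤ β) (hR : 0 < R)
    (h : ∑ k ∈ FF Kc, br k ^ β * ‖a k‖ ^ 2 ≤ E) : tail Kc a R ≤ E * R ^ (-β) := by
  have hp : 0 < R ^ β := Real.rpow_pos_of_pos hR _
  rw [Real.rpow_neg hR.le, ← div_eq_mul_inv, le_div_iff₀ hp, tail, sum_mul]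
  refine le_trans (sum_le_sum fun k hk => ?_) ((sum_le_sum_of_subset_of_nonneg (filter_subset _ _)
    fun k _ _ => mul_nonneg (Real.rpow_nonneg (br_pos k).le _) (by positivity)).trans h)
  rw [mul_comm]
  exact mul_le_mul_of_nonneg_right (Real.rpow_le_rpow hR.le (mem_filter.1 hk).2 hβ) (by positivity)

lemma amgm (k : ℤ) (x s r : ℝ) :
    br k ^ r * x ≤ (br k ^ s * x ^ 2 + br k ^ (2 * r - s)) / 2 := by
  have hb := br_pos k
  have e1 : br k ^ s = (br k ^ (s / 2)) ^ 2 := by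
    rw [← Real.rpow_natCast, ← Real.rpow_mul hb.le]; congr 1; push_cast; ring
  have e2 : br k ^ (2 * r - s) = (br k ^ (r - s / 2)) ^ 2 := by
    rw [← Real.rpow_natCast, ← Real.rpow_mul hb.le]; congr 1; push_cast; ring
  have e3 : br k ^ r = br k ^ (s / 2) * br k ^ (r - s / 2) := by
    rw [← Real.rpow_add hb]; congr 1; ring
  rw [e1, e2, e3]
  nlinarith [sq_nonneg (br k ^ (s / 2) * x - br k ^ (r - s / 2))]

/-- solutions with trigonometric polynomial data -/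
def Sol (α H : ℝ) (n Kc : ℕ) (b : ℝ → ℤ → ℂ) : Prop :=
  Gal α Kc b ∧ (∀ k, k ∉ FF n → b 0 k = 0) ∧ ∑ k ∈ FF Kc, br k ^ α * ‖b 0 k‖ ^ 2 ≤ H

lemma Sol.rev {α H : ℝ} {n Kc : ℕ} {b : ℝ → ℤ → ℂ} (h : Sol α H n Kc b) :
    Sol α H n Kc fun t k => conj (b (-t) k) :=
  ⟨gal_rev h.1, fun k hk => by simp [h.2.1 k hk], by simpa using h.2.2⟩

lemma tail_conj (Kc : ℕ) (a : ℤ → ℂ) (R : ℝ) : tail Kc (fun k => conj (a k)) R = tail Kc a R := by
  simp [tail]

lemma energy_bound {α : ℝ} (h1 : 1 / 2 < α) (h2 : α < 1) (H : ℝ) : ∃ E : ℝ, 1 ≤ E ∧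
    ∀ n Kc b, Sol α H n Kc b → ∀ t, ∀ R : ℝ, 0 < R → tail Kc (b t) R ≤ E * R ^ (-α) := by
  obtain ⟨C, hC1, hC⟩ := NL_le h1
  obtain ⟨D, hD1, hD⟩ := brsum (δ := 2 * α - 1) (by linarith)
  refine ⟨max 1 (2 * H + C * max 1 H ^ 2 * ((H + D) / 2)), le_max_left _ _,
    fun n Kc b hb t R hR => tail_le (by linarith) hR (le_trans ?_ (le_max_right _ _))⟩
  have hone : ∀ k, 1 ≤ br k ^ α := fun k => Real.one_le_rpow (br_one k) (by linarith)
  have hm : ∑ k ∈ FF Kc, ‖b 0 k‖ ^ 2 ≤ H :=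
    (sum_le_sum fun k _ => le_mul_of_one_le_left (by positivity) (hone k)).trans hb.2.2
  have ho : ∑ k ∈ FF Kc, om α k * ‖b 0 k‖ ^ 2 ≤ H :=
    (sum_le_sum fun k _ => mul_le_mul_of_nonneg_right (Real.rpow_le_rpow (abs_nonneg _)
      (by unfold br; linarith) (by linarith)) (by positivity)).trans hb.2.2
  have hN := hC Kc (b 0) (max 1 H) α (le_max_left _ _) le_rfl (by linarith) fun R hR =>
    tail_le (by linarith) hR (hb.2.2.trans (le_max_right _ _))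
  have hq : (Q4 (FF Kc) (b 0) (b 0) (b 0) (b 0)).re ≤ C * max 1 H ^ 2 * ((H + D) / 2) := by
    rw [← Q4_NL]
    refine (re_le_norm _).trans ((norm_sum_le _ _).trans ?_)
    calc _ ≤ ∑ k ∈ FF Kc, C * max 1 H ^ 2 *
          ((br k ^ α * ‖b 0 k‖ ^ 2 + br k ^ (-1 - (2 * α - 1))) / 2) := by
          refine sum_le_sum fun k _ => ?_
          rw [norm_mul, Complex.norm_conj]
          refine (mul_le_mul_of_nonneg_right (hN k) (norm_nonneg _)).trans ?_
          rw [mul_assoc]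
          refine mul_le_mul_of_nonneg_left ?_ (by positivity)
          have := amgm k ‖b 0 k‖ α (-α / 2)
          rwa [show 2 * (-α / 2) - α = -1 - (2 * α - 1) by ring] at this
      _ ≤ _ := by
          rw [← mul_sum, ← sum_div, sum_add_distrib]
          have := hD (FF Kc)
          have := hb.2.2
          gcongr
  have e1 := energy_eq hb.1 t
  have e2 := mass_eq hb.1 t
  have e3 := Q4_nonneg Kc (b t)
  have e4 := Q4_nonneg Kc (b 0)
  have e5 : ∑ k ∈ FF Kc, br k ^ α * ‖b t k‖ ^ 2 ≤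
      ∑ k ∈ FF Kc, ‖b t k‖ ^ 2 + ∑ k ∈ FF Kc, om α k * ‖b t k‖ ^ 2 := by
    rw [← sum_add_distrib]
    refine sum_le_sum fun k _ => ?_
    have := Real.rpow_add_le_add_rpow (p := α) zero_le_one (abs_nonneg (k : ℝ)) (by linarith) h2.le
    rw [Real.one_rpow] at this
    have h3 : br k ^ α ≤ 1 + om α k := this
    nlinarith [sq_nonneg ‖b t k‖]
  linarith

lemma lip {α : ℝ} (h1 : 1 / 2 < α) (h2 : α < 1) {E : ℝ} (hE : 1 ≤ E) : ∃ Λ : ℤ → ℝ,
    (∀ k, 0 ≤ Λ k) ∧ ∀ Kc b, Gal α Kc b →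
    (∀ t, ∀ R : ℝ, 0 < R → tail Kc (b t) R ≤ E * R ^ (-α)) →
    ∀ k ∈ FF Kc, ∀ t s, ‖b t k - b s k‖ ≤ Λ k * |t - s| := by
  obtain ⟨C, hC1, hC⟩ := NL_le h1
  refine ⟨fun k => om α k * (1 + E) + C * E ^ 2, fun k => by
    have := om_nonneg α k; positivity, fun Kc b hb ht k hk t s => ?_⟩
  refine (convex_univ (𝕜 := ℝ) (E := ℝ)).norm_image_sub_le_of_norm_hasDerivWithin_le
    (fun u _ => (hb u k hk).hasDerivWithinAt) (fun u _ => ?_) (Set.mem_univ s) (Set.mem_univ t)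
  have a1 : ‖b u k‖ ^ 2 ≤ E := by
    have := ht u 1 one_pos
    rw [Real.one_rpow, mul_one] at this
    exact (single_le_sum (f := fun k => ‖b u k‖ ^ 2) (fun _ _ => by positivity)
      (mem_filter.2 ⟨hk, br_one k⟩)).trans this
  have a2 : ‖b u k‖ ≤ 1 + E := by nlinarith [sq_nonneg (‖b u k‖ - 1)]
  have a3 : ‖NL Kc (b u) k‖ ≤ C * E ^ 2 := (hC Kc (b u) E α hE le_rfl (by linarith) (ht u) k).trans
    (mul_le_of_le_one_right (by positivity)
      (Real.rpow_le_one_of_one_le_of_nonpos (br_one k) (by linarith)))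
  rw [norm_mul, norm_neg, norm_I, one_mul]
  refine (norm_add_le _ _).trans (add_le_add ?_ a3)
  rw [norm_mul, Complex.norm_real, Real.norm_eq_abs, abs_of_nonneg (om_nonneg α k)]
  exact mul_le_mul_of_nonneg_left a2 (om_nonneg α k)

/-- the smallness hypothesis at the truncation scale -/
def Hyp (Kc : ℕ) (b : ℝ → ℤ → ℂ) (T : ℝ) : Prop :=
  ∀ t ∈ Set.Icc 0 T, tail Kc (b t) (Kc / 16) ≤ 1 / (Kc : ℝ) ^ 4

/-- decay of order `β` under the smallness hypothesis -/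
def Dec (α H T β : ℝ) (n : ℕ) : Prop := ∃ E : ℝ, 1 ≤ E ∧ ∀ Kc : ℕ, 1 ≤ Kc → ∀ b, Sol α H n Kc b →
  ∀ T' ≤ T, Hyp Kc b T' → ∀ t ∈ Set.Icc 0 T', ∀ R : ℝ, 0 < R → tail Kc (b t) R ≤ E * R ^ (-β)

lemma tail_zero {n Kc : ℕ} {a : ℤ → ℂ} (h : ∀ k, k ∉ FF n → a k = 0) {R : ℝ} (hR : n + 1 < R) :
    tail Kc a R = 0 := by
  refine sum_eq_zero fun k hk => ?_
  rw [h k fun hn => ?_]
  · simp
  · have h1 := (mem_filter.1 hk).2
    have h2 : |k| ≤ n := abs_le.2 (mem_Icc.1 hn)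
    have h3 : |(k : ℝ)| ≤ n := by exact_mod_cast h2
    unfold br at h1
    linarith

variable {α κ H T : ℝ} {n : ℕ}

lemma dec_step (hκ : 0 < κ) (hκ1 : κ ≤ 1 / 2) (h : Est α κ) (hT : 1 ≤ T) {β : ℝ} (hβ : α ≤ β)
    (hβ2 : β ≤ 2) (hd : Dec α H T β n) : Dec α H T (β + κ) n := by
  obtain ⟨E, hE, hd⟩ := hd
  obtain ⟨C, hC⟩ := h E T hE hT
  have hn : (0 : ℝ) ≤ n := Nat.cast_nonneg n
  refine ⟨E * (2 * (n + 2)) + |C| * 8, by nlinarith [abs_nonneg C],
    fun Kc hK b hb T' hT' hy t ht R hR => ?_⟩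
  have hp : 0 < R ^ (-(β + κ)) := Real.rpow_pos_of_pos hR _
  rcases le_total R (2 * (n + 2)) with hr | hr
  · refine (hd Kc hK b hb T' hT' hy t ht R hR).trans ?_
    have e : R ^ (-β) = R ^ κ * R ^ (-(β + κ)) := by
      rw [← Real.rpow_add hR]; congr 1; ring
    have e2 : R ^ κ ≤ 2 * (n + 2) := (Real.rpow_le_rpow hR.le hr hκ.le).trans
      (Real.rpow_le_self_of_one_le (by linarith) (by linarith))
    rw [e, ← mul_assoc]
    refine mul_le_mul_of_nonneg_right ?_ hp.le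
    nlinarith [abs_nonneg C]
  · have := hC β hβ hβ2 Kc hK b hb.1 t ht.1 (ht.2.trans hT')
      (fun u hu => hd Kc hK b hb T' hT' hy u ⟨hu.1, hu.2.trans ht.2⟩)
      (fun u hu => hy u ⟨hu.1, hu.2.trans ht.2⟩) (R / 2) (by linarith)
    rw [tail_zero hb.2.1 (by linarith), zero_add, show 2 * (R / 2) = R by ring,
      show -β - κ = -(β + κ) by ring, Real.div_rpow hR.le zero_le_two,
      Real.rpow_neg zero_le_two, div_inv_eq_mul] at this
    refine this.trans ?_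
    have e2 : (2 : ℝ) ^ (β + κ) ≤ 8 := (Real.rpow_le_rpow_of_exponent_le one_le_two
      (by push_cast; linarith : β + κ ≤ (3 : ℕ))).trans (by rw [Real.rpow_natCast]; norm_num)
    have e3 : 0 < (2 : ℝ) ^ (β + κ) := by positivity
    calc C * (R ^ (-(β + κ)) * 2 ^ (β + κ)) ≤ |C| * (R ^ (-(β + κ)) * 8) := by
          refine (mul_le_mul_of_nonneg_right (le_abs_self C) (by positivity)).trans ?_
          gcongr
      _ ≤ _ := by nlinarith [mul_pos hp (show 0 < E * (2 * (n + 2)) by positivity)]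

lemma dec_big (h1 : 1 / 2 < α) (h2 : α < 1) (hκ : 0 < κ) (hκ1 : κ ≤ 1 / 2) (h : Est α κ)
    (hT : 1 ≤ T) : ∃ β : ℝ, 1 < β ∧ Dec α H T β n := by
  have key : ∀ j : ℕ, α + j * κ ≤ 3 / 2 → Dec α H T (α + j * κ) n := by
    intro j
    induction j with
    | zero =>
      intro _
      obtain ⟨E, hE, hb⟩ := energy_bound h1 h2 H
      exact ⟨E, hE, fun Kc _ b hs _ _ _ t _ R hR => by simpa using hb n Kc b hs t R hR⟩
    | succ j ih =>
      intro hj
      push_cast at hj ⊢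
      have := dec_step hκ hκ1 h hT (β := α + j * κ) (by nlinarith [Nat.cast_nonneg (α := ℝ) j])
        (by linarith) (ih (by linarith))
      rwa [show α + (j + 1) * κ = α + j * κ + κ by ring]
  have hq : 0 ≤ (3 / 2 - α) / κ := div_nonneg (by linarith) hκ.le
  have a1 := Nat.floor_le hq
  have a2 := Nat.lt_floor_add_one ((3 / 2 - α) / κ)
  rw [le_div_iff₀ hκ] at a1
  rw [div_lt_iff₀ hκ] at a2
  exact ⟨_, by linarith, key ⌊(3 / 2 - α) / κ⌋₊ (by linarith)⟩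

lemma br_pow_le (k l m : ℤ) (s : ℕ) :
    br (k - l + m) ^ s ≤ 3 ^ s * (br k ^ s + br l ^ s + br m ^ s) := by
  have hk := br_pos k
  have hl := br_pos l
  have hm := br_pos m
  have h1 : br (k - l + m) ≤ br k + br l + br m := by
    unfold br
    push_cast
    linarith [abs_add_le ((k : ℝ) - l) m, abs_sub (k : ℝ) l]
  have key : ∀ M : ℝ, br k ≤ M → br l ≤ M → br m ≤ M → br (k - l + m) ^ s ≤ 3 ^ s * M ^ s :=
    fun M a b c => by
      rw [← mul_pow]; exact pow_le_pow_left₀ (br_pos _).le (by linarith) s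
  have p1 := pow_pos hk s
  have p2 := pow_pos hl s
  have p3 := pow_pos hm s
  rcases le_total (br k) (br l) with a | a <;> rcases le_total (br l) (br m) with b | b <;>
    rcases le_total (br k) (br m) with c | c
  all_goals first
    | exact (key _ le_rfl a c).trans (by gcongr; linarith)
    | exact (key _ a le_rfl b).trans (by gcongr; linarith)
    | exact (key _ c b le_rfl).trans (by gcongr; linarith)
    | exact (key _ (a.trans b) b le_rfl).trans (by gcongr; linarith)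
    | exact (key _ le_rfl a (b.trans a)).trans (by gcongr; linarith)

lemma wNL (Kc s : ℕ) (a : ℤ → ℂ) : ∑ k ∈ FF Kc, br k ^ s * ‖NL Kc a k‖ ≤
    3 ^ (s + 1) * (∑ k ∈ FF Kc, ‖a k‖) ^ 2 * ∑ k ∈ FF Kc, br k ^ s * ‖a k‖ := by
  calc _ ≤ ∑ j ∈ FF Kc, ∑ k ∈ FF Kc, ∑ l ∈ FF Kc, ∑ m ∈ FF Kc, if k - l + m = j then
        3 ^ s * (br k ^ s + br l ^ s + br m ^ s) * (‖a k‖ * ‖a l‖ * ‖a m‖) else 0 := by
        refine sum_le_sum fun j _ => ?_
        have hj := pow_pos (br_pos j) s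
        rw [NL_eq]
        refine (mul_le_mul_of_nonneg_left (norm_sum_le_of_le _ fun k _ => norm_sum_le_of_le _
          fun l _ => norm_sum_le _ _) hj.le).trans ?_
        simp only [mul_sum]
        refine sum_le_sum fun k _ => sum_le_sum fun l _ => sum_le_sum fun m _ => ?_
        split_ifs with h
        · rw [norm_mul, norm_mul, Complex.norm_conj, ← h]
          exact mul_le_mul_of_nonneg_right (br_pow_le k l m s) (by positivity)
        · simp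
    _ ≤ ∑ k ∈ FF Kc, ∑ l ∈ FF Kc, ∑ m ∈ FF Kc,
        3 ^ s * (br k ^ s + br l ^ s + br m ^ s) * (‖a k‖ * ‖a l‖ * ‖a m‖) := by
        rw [sum_comm]
        refine sum_le_sum fun k _ => ?_
        rw [sum_comm]
        refine sum_le_sum fun l _ => ?_
        rw [sum_comm]
        refine sum_le_sum fun m _ => ?_
        rw [sum_ite_eq]
        have := br_pos k
        have := br_pos l
        have := br_pos m
        split_ifs
        · exact le_rfl
        · positivity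
    _ = _ := by
        have e : ∀ f g h : ℤ → ℝ, ∑ k ∈ FF Kc, ∑ l ∈ FF Kc, ∑ m ∈ FF Kc, f k * g l * h m =
            (∑ k ∈ FF Kc, f k) * (∑ k ∈ FF Kc, g k) * ∑ k ∈ FF Kc, h k := fun f g h => by
          simp only [sum_mul, mul_sum]
          exact (sum3_rev _ _).trans (sum_congr rfl fun _ _ => rfl)
        have e1 := e (fun k => br k ^ s * ‖a k‖) (fun k => ‖a k‖) fun k => ‖a k‖
        have e2 := e (fun k => ‖a k‖) (fun k => br k ^ s * ‖a k‖) fun k => ‖a k‖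
        have e3 := e (fun k => ‖a k‖) (fun k => ‖a k‖) fun k => br k ^ s * ‖a k‖
        calc _ = 3 ^ s * (∑ k ∈ FF Kc, ∑ l ∈ FF Kc, ∑ m ∈ FF Kc, br k ^ s * ‖a k‖ * ‖a l‖ * ‖a m‖ +
            ∑ k ∈ FF Kc, ∑ l ∈ FF Kc, ∑ m ∈ FF Kc, ‖a k‖ * (br l ^ s * ‖a l‖) * ‖a m‖ +
            ∑ k ∈ FF Kc, ∑ l ∈ FF Kc, ∑ m ∈ FF Kc, ‖a k‖ * ‖a l‖ * (br m ^ s * ‖a m‖)) := by
              simp only [← sum_add_distrib, mul_sum]
              exact sum_congr rfl fun _ _ => sum_congr rfl fun _ _ => sum_congr rfl fun _ _ => by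
                ring
          _ = _ := by rw [e1, e2, e3]; ring

lemma wbound (h1 : 1 / 2 < α) (h2 : α < 1) (hκ : 0 < κ) (hκ1 : κ ≤ 1 / 2) (h : Est α κ)
    (hT : 1 ≤ T) (H : ℝ) (n : ℕ) : ∃ A : ℕ → ℝ, ∀ Kc : ℕ, 1 ≤ Kc → ∀ b, Sol α H n Kc b →
    ∀ T' ≤ T, Hyp Kc b T' → ∀ s, ∀ t ∈ Set.Icc 0 T', ∑ k ∈ FF Kc, br k ^ s * ‖b t k‖ ≤ A s := by
  obtain ⟨β, hβ, E, hE, hd⟩ := dec_big (H := H) (n := n) h1 h2 hκ hκ1 h hT
  set δ : ℝ := min ((β - 1) / 2) 1 with hδ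
  have d0 : 0 < δ := lt_min (by linarith) one_pos
  have d1 : δ ≤ (β - 1) / 2 := min_le_left _ _
  have d2 : δ ≤ 1 := min_le_right _ _
  obtain ⟨C, hC1, hC⟩ := wsum d0
  obtain ⟨D, hD1, hD⟩ := brsum d0
  set A0 : ℝ := (C * E + D) / 2 with hA0
  refine ⟨fun s => (n + 1) ^ s * A0 * Real.exp (3 ^ (s + 1) * A0 ^ 2 * T),
    fun Kc hK b hb T' hT' hy s => ?_⟩
  have l1 : ∀ t ∈ Set.Icc 0 T', ∑ k ∈ FF Kc, ‖b t k‖ ≤ A0 := fun t ht => by
    have a1 := hC Kc (b t) E β (1 + δ) (by linarith) (by linarith) (by linarith)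
      (hd Kc hK b hb T' hT' hy t ht)
    have a2 := hD (FF Kc)
    calc _ ≤ ∑ k ∈ FF Kc, (br k ^ (1 + δ) * ‖b t k‖ ^ 2 + br k ^ (-1 - δ)) / 2 := by
          refine sum_le_sum fun k _ => ?_
          have := amgm k ‖b t k‖ (1 + δ) 0
          rwa [Real.rpow_zero, one_mul, show 2 * 0 - (1 + δ) = -1 - δ by ring] at this
      _ ≤ _ := by rw [← sum_div, sum_add_distrib]; linarith
  intro t ht
  have h0 : (0 : ℝ) ∈ Set.Icc 0 T' := ⟨le_rfl, ht.1.trans ht.2⟩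
  have hA : 0 ≤ A0 := (sum_nonneg fun _ _ => norm_nonneg _).trans (l1 0 h0)
  have cW : Continuous fun t => ∑ k ∈ FF Kc, br k ^ s * ‖b t k‖ :=
    continuous_finsetSum _ fun k hk => continuous_const.mul (cont hb.1 hk).norm
  have W0 : ∀ t, 0 ≤ ∑ k ∈ FF Kc, br k ^ s * ‖b t k‖ := fun t =>
    sum_nonneg fun k _ => mul_nonneg (pow_pos (br_pos k) s).le (norm_nonneg _)
  refine (MMT.gronwall_pos cW W0 (ε := (n + 1) ^ s * A0) (L := 3 ^ (s + 1) * A0 ^ 2) (T := T')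
    (by positivity) (fun u hu => ?_) t ht).trans (by dsimp only; gcongr)
  have i0 : ∑ k ∈ FF Kc, br k ^ s * ‖b 0 k‖ ≤ (n + 1) ^ s * A0 := by
    refine le_trans ?_ (mul_le_mul_of_nonneg_left (l1 0 h0) (by positivity))
    rw [mul_sum]
    refine sum_le_sum fun k _ => ?_
    by_cases hk : k ∈ FF n
    · have h2 : |k| ≤ n := abs_le.2 (mem_Icc.1 hk)
      have h3 : |(k : ℝ)| ≤ n := by exact_mod_cast h2
      exact mul_le_mul_of_nonneg_right
        (pow_le_pow_left₀ (br_pos k).le (by unfold br; linarith) s) (norm_nonneg _)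
    · simp [hb.2.1 k hk]
  have cN : ∀ k, Continuous fun v => br k ^ s * ‖NL Kc (b v) k‖ := fun k =>
    continuous_const.mul (cont_NL hb.1 k).norm
  have i1 : ∀ k ∈ FF Kc, br k ^ s * ‖b u k‖ ≤ br k ^ s * ‖b 0 k‖ +
      ∫ v in (0 : ℝ)..u, br k ^ s * ‖NL Kc (b v) k‖ := fun k hk => by
    have := MMT.phase_norm (z := fun t => b t k) (a := fun _ => om α k) (cont_NL hb.1 k)
      continuous_const (fun v => by rw [add_comm]; exact hb.1 v k hk) u
    rw [abs_of_nonneg (intervalIntegral.integral_nonneg hu.1 fun _ _ => norm_nonneg _)] at this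
    rw [intervalIntegral.integral_const_mul, ← mul_add]
    exact mul_le_mul_of_nonneg_left (by linarith [le_abs_self (‖b u k‖ - ‖b 0 k‖)])
      (pow_pos (br_pos k) s).le
  refine (sum_le_sum i1).trans ?_
  rw [sum_add_distrib, ← intervalIntegral.integral_finsetSum
    fun k _ => (cN k).intervalIntegrable _ _,
    abs_of_nonneg (intervalIntegral.integral_nonneg hu.1 fun v _ => W0 v),
    ← intervalIntegral.integral_const_mul]
  refine add_le_add i0 (intervalIntegral.integral_mono_on hu.1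
    ((continuous_finsetSum _ fun k _ => cN k).intervalIntegrable _ _)
    ((continuous_const.mul cW).intervalIntegrable _ _) fun v hv => (wNL Kc s (b v)).trans ?_)
  have := l1 v ⟨hv.1, hv.2.trans hu.2⟩
  have := W0 v
  gcongr

lemma boot {f : ℝ → ℝ} (hf : Continuous f) {θ T : ℝ} (h0 : f 0 < θ)
    (h : ∀ T' ∈ Set.Icc 0 T, (∀ t ∈ Set.Icc 0 T', f t ≤ θ) → f T' < θ) :
    ∀ t ∈ Set.Icc 0 T, f t ≤ θ := by
  by_contra hc
  push Not at hc
  obtain ⟨t, ht, hθ⟩ := hc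
  have hK : IsCompact (Set.Icc 0 T ∩ {t | θ ≤ f t}) :=
    isCompact_Icc.inter_right (isClosed_le continuous_const hf)
  obtain ⟨t0, ⟨h1, h2⟩, hm⟩ := hK.exists_isLeast ⟨t, ht, hθ.le⟩
  obtain ⟨u, hu, hfu⟩ := intermediate_value_Icc h1.1 hf.continuousOn ⟨h0.le, h2⟩
  have e : u = t0 := le_antisymm hu.2 (hm ⟨⟨hu.1, hu.2.trans h1.2⟩, hfu.ge⟩)
  refine absurd (h t0 h1 fun v hv => ?_) (not_lt.2 h2)
  rcases hv.2.eq_or_lt with rfl | hlt
  · rw [← e, hfu]
  · by_contra hv'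
    exact absurd (hm ⟨⟨hv.1, hv.2.trans h1.2⟩, (not_le.1 hv').le⟩) (not_le.2 hlt)

lemma hyp_ev (h1 : 1 / 2 < α) (h2 : α < 1) (hκ : 0 < κ) (hκ1 : κ ≤ 1 / 2) (h : Est α κ)
    (hT : 1 ≤ T) (H : ℝ) (n : ℕ) : ∀ᶠ Kc : ℕ in atTop, ∀ b, Sol α H n Kc b → Hyp Kc b T := by
  obtain ⟨A, hA⟩ := wbound h1 h2 hκ hκ1 h hT H n
  filter_upwards [tendsto_natCast_atTop_atTop.eventually_gt_atTop (16 * ((n : ℝ) + 1)),
    tendsto_natCast_atTop_atTop.eventually_gt_atTop (A 0 * 16 ^ 5 * A 5),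
    eventually_ge_atTop 1] with Kc k1 k2 k3 b hb
  have hK : (0 : ℝ) < Kc := by exact_mod_cast k3
  refine boot (f := fun t => tail Kc (b t) (Kc / 16)) (continuous_finsetSum _ fun k hk =>
    (cont hb.1 (mem_filter.1 hk).1).norm.pow 2) ?_ fun T' hT' hy => ?_
  · rw [tail_zero hb.2.1 (by linarith)]; positivity
  · have a0 := hA Kc k3 b hb T' hT'.2 hy 0 T' ⟨hT'.1, le_rfl⟩
    have a5 := hA Kc k3 b hb T' hT'.2 hy 5 T' ⟨hT'.1, le_rfl⟩
    simp only [pow_zero, one_mul] at a0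
    have hA0 : 0 ≤ A 0 := (sum_nonneg fun _ _ => norm_nonneg _).trans a0
    have e : tail Kc (b T') (Kc / 16) ≤ A 0 * 16 ^ 5 * A 5 / Kc ^ 5 := by
      rw [le_div_iff₀ (by positivity), tail, sum_mul]
      refine le_trans ?_ (mul_le_mul_of_nonneg_left a5 (by positivity))
      rw [mul_sum]
      refine le_trans (sum_le_sum fun k hk => ?_) (sum_le_sum_of_subset_of_nonneg
        (filter_subset _ _) fun k _ _ => by have := br_pos k; positivity)
      have b1 : ‖b T' k‖ ≤ A 0 := (single_le_sum (f := fun k => ‖b T' k‖)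
        (fun _ _ => norm_nonneg _) (mem_filter.1 hk).1).trans a0
      have b2 : (Kc : ℝ) ^ 5 ≤ (16 * br k) ^ 5 :=
        pow_le_pow_left₀ hK.le (by linarith [(mem_filter.1 hk).2]) 5
      calc ‖b T' k‖ ^ 2 * (Kc : ℝ) ^ 5 = ‖b T' k‖ * (Kc : ℝ) ^ 5 * ‖b T' k‖ := by ring
        _ ≤ A 0 * (16 * br k) ^ 5 * ‖b T' k‖ := by gcongr
        _ = _ := by ring
    refine e.trans_lt ?_
    rw [div_lt_div_iff₀ (by positivity) (by positivity)]
    calc A 0 * 16 ^ 5 * A 5 * (Kc : ℝ) ^ 4 < Kc * (Kc : ℝ) ^ 4 := by gcongr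
      _ = _ := by ring

lemma FF_mono {n Kc : ℕ} (h : n ≤ Kc) : FF n ⊆ FF Kc :=
  Icc_subset_Icc (by omega) (by omega)

end

end Gl

open Gl

theorem galFam_of_est {α κ : ℝ} (h1 : 1 / 2 < α) (h2 : α < 1) (hκ : 0 < κ) (hκ1 : κ ≤ 1 / 2)
    (h : Est α κ) : GalFam α κ := by
  intro H
  obtain ⟨E, hE, hEb⟩ := energy_bound h1 h2 H
  obtain ⟨Λ, hΛ0, hΛ⟩ := lip h1 h2 hE
  choose C hC using fun T : ℝ => h E (max T 1) hE (le_max_right _ _)
  refine ⟨C, Λ, fun n c hc hH => ?_⟩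
  choose b hb hz h0 using fun Kc => exists_gal α Kc c
  have e0 : ∀ Kc, n ≤ Kc → b Kc 0 = c := fun Kc hK => funext fun k => by
    by_cases hk : k ∈ FF Kc
    · exact h0 Kc k hk
    · rw [hz Kc 0 k hk, hc k fun hn => hk (FF_mono hK hn)]
  have hs : ∀ Kc, n ≤ Kc → Sol α H n Kc (b Kc) := fun Kc hK => by
    refine ⟨hb Kc, by rw [e0 Kc hK]; exact hc, ?_⟩
    rw [e0 Kc hK, ← sum_subset (FF_mono hK) fun k _ hk => by simp [hc k hk]]
    exact hH
  have et : ∀ Kc, n ≤ Kc → ∀ N, tail Kc c N = tail n c N := fun Kc hK N =>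
    (sum_subset (filter_subset_filter _ (FF_mono hK)) fun k h1 h2 => by
      rw [hc k fun hn => h2 (mem_filter.2 ⟨hn, (mem_filter.1 h1).2⟩)]; simp).symm
  refine ⟨b, hb, hz, e0, fun Kc hK k t s => ?_, fun T hT => ?_, fun T hT s => ?_⟩
  · by_cases hk : k ∈ FF Kc
    · exact hΛ Kc _ (hb Kc) (hEb n Kc _ (hs Kc hK)) k hk t s
    · rw [hz Kc t k hk, hz Kc s k hk, sub_zero, norm_zero]
      exact mul_nonneg (hΛ0 k) (abs_nonneg _)
  · filter_upwards [hyp_ev h1 h2 hκ hκ1 h (le_max_right T 1) H n, eventually_ge_atTop n,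
      eventually_ge_atTop 1] with Kc k1 k2 k3 t ht N hN
    have key : ∀ a, Sol α H n Kc a → ∀ u ∈ Set.Icc 0 T,
        tail Kc (a u) (2 * N) ≤ tail Kc (a 0) N + C T * N ^ (-α - κ) := fun a ha u hu =>
      hC T α le_rfl (by linarith) Kc k3 a ha.1 u hu.1 (hu.2.trans (le_max_left _ _))
        (fun v _ => hEb n Kc a ha v)
        (fun v hv => k1 a ha v ⟨hv.1, hv.2.trans (hu.2.trans (le_max_left _ _))⟩) N hN
    rw [← et Kc k2, ← e0 Kc k2]
    rcases le_total 0 t with h0 | h0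
    · exact key _ (hs Kc k2) t ⟨h0, (le_abs_self t).trans ht⟩
    · have := key _ (hs Kc k2).rev (-t) ⟨by linarith, (neg_le_abs t).trans ht⟩
      simpa only [tail_conj, neg_neg, neg_zero] using this
  · obtain ⟨A, hA⟩ := wbound h1 h2 hκ hκ1 h (le_max_right T 1) H n
    refine ⟨A s, ?_⟩
    filter_upwards [hyp_ev h1 h2 hκ hκ1 h (le_max_right T 1) H n, eventually_ge_atTop n,
      eventually_ge_atTop 1] with Kc k1 k2 k3 t ht
    rcases le_total 0 t with h0 | h0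
    · exact hA Kc k3 _ (hs Kc k2) _ le_rfl (k1 _ (hs Kc k2)) s t
        ⟨h0, (le_abs_self t).trans (ht.trans (le_max_left _ _))⟩
    · have := hA Kc k3 _ (hs Kc k2).rev _ le_rfl (k1 _ (hs Kc k2).rev) s (-t)
        ⟨by linarith, (neg_le_abs t).trans (ht.trans (le_max_left _ _))⟩
      simpa only [neg_neg, Complex.norm_conj] using this

end Pool.Agent.Lib.MMTW
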