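import Pool.Agent.Lib.MP_0dc93f_an.WSmooth

/-! Global solutions for all data in the energy space (job A4). -/

namespace Pool.Agent.Lib.MMTW

open Pool.Agent.Lib.MMT
open Finset Filter Topology

namespace Glob

lemma br_pos (k : ℤ) : 0 < br k := by unfold br; positivity

lemma two_rpow_lt {α : ℝ} (h : 0 < α) : (2 : ℝ) ^ (-α) < 1 :=
  Real.rpow_lt_one_of_one_lt_of_neg (by norm_num) (by linarith)

lemma geo {α R x : ℝ} (h0 : 0 < α) (hR : 0 < R) (hx : 0 ≤ x) (J : ℕ) :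
    ∑ j ∈ range J, (if 2 ^ j * R ≤ x then (2 ^ j * R) ^ α else 0)
      ≤ (1 - 2 ^ (-α))⁻¹ * x ^ α := by
  set q : ℝ := 2 ^ (-α) with hq
  have hq1 : q < 1 := two_rpow_lt h0
  have hq0 : 0 < q := by positivity
  set D := (1 - q)⁻¹ with hD
  have hD0 : 0 < D := inv_pos.2 (by linarith)
  have hDq : D * q + 1 = D := by
    have : 1 - q ≠ 0 := by linarith
    rw [hD]; field_simp; ring
  have key : ∀ J : ℕ, ∑ j ∈ range J, (if 2 ^ j * R ≤ x then (2 ^ j * R) ^ α else 0) ≤ D * x ^ α ∧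
      ∑ j ∈ range J, (if 2 ^ j * R ≤ x then (2 ^ j * R) ^ α else 0)
        ≤ D * q * (2 ^ J * R) ^ α := by
    intro J
    induction J with
    | zero => simp only [range_zero, sum_empty]; constructor <;> positivity
    | succ J ih =>
      have e : q * (2 ^ (J + 1) * R) ^ α = (2 ^ J * R) ^ α := by
        rw [show (2 : ℝ) ^ (J + 1) * R = 2 * (2 ^ J * R) by ring,
          Real.mul_rpow (by norm_num) (by positivity), hq, ← mul_assoc,
          ← Real.rpow_add (by norm_num)]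
        simp
      rw [sum_range_succ, mul_assoc D q, e]
      have hy : 0 ≤ ((2 : ℝ) ^ J * R) ^ α := by positivity
      split_ifs with h
      · have h1 : ((2 : ℝ) ^ J * R) ^ α ≤ x ^ α := Real.rpow_le_rpow (by positivity) h h0.le
        have h2 : D * q * (2 ^ J * R) ^ α + (2 ^ J * R) ^ α = D * (2 ^ J * R) ^ α := by
          conv_rhs => rw [← hDq]
          ring
        have h3 := mul_le_mul_of_nonneg_left h1 hD0.le
        constructor <;> linarith [ih.2]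
      · rw [add_zero]
        refine ⟨ih.1, ih.2.trans ?_⟩
        rw [mul_assoc]
        exact mul_le_mul_of_nonneg_left (mul_le_of_le_one_left hy hq1.le) hD0.le
  exact (key J).1

lemma geo2 {κ R : ℝ} (hκ : 0 < κ) (hR : 0 < R) (J : ℕ) :
    ∑ j ∈ range J, ((2 : ℝ) ^ j * R) ^ (-κ) ≤ (1 - 2 ^ (-κ))⁻¹ * R ^ (-κ) := by
  have e : ∀ j : ℕ, ((2 : ℝ) ^ j * R) ^ (-κ) = ((2 : ℝ) ^ (-κ)) ^ j * R ^ (-κ) := by
    intro j
    rw [Real.mul_rpow (by positivity) hR.le, ← Real.rpow_natCast, ← Real.rpow_natCast,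
      ← Real.rpow_mul (by norm_num), ← Real.rpow_mul (by norm_num), mul_comm (j : ℝ)]
  simp only [e]
  rw [← sum_mul]
  have h := hasSum_geometric_of_lt_one (r := (2 : ℝ) ^ (-κ)) (by positivity) (two_rpow_lt hκ)
  gcongr
  exact sum_le_hasSum _ (fun _ _ => by positivity) h

lemma tight {α κ R C : ℝ} (h0 : 0 < α) (hκ : 0 < κ) (hR : 1 ≤ R) {a c : ℤ → ℂ} {n : ℕ}
    (h : ∀ N : ℝ, 1 ≤ N → ∀ F : Finset ℤ,
      ∑ k ∈ F with 2 * N ≤ br k, ‖a k‖ ^ 2 ≤ tail n c N + C * N ^ (-α - κ))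
    (F : Finset ℤ) (hF : ∀ k ∈ F, 2 * R ≤ br k) :
    ∑ k ∈ F, br k ^ α * ‖a k‖ ^ 2
      ≤ 4 ^ α * (1 - 2 ^ (-α))⁻¹ * ∑ k ∈ FF n with R ≤ br k, br k ^ α * ‖c k‖ ^ 2
        + 4 ^ α * |C| * (1 - 2 ^ (-κ))⁻¹ * R ^ (-κ) := by
  have hR0 : 0 < R := by linarith
  have hj : ∀ k : ℤ, 2 * R ≤ br k →
      ∃ j : ℕ, 2 * (2 ^ j * R) ≤ br k ∧ br k ≤ 4 * (2 ^ j * R) := by
    intro k hk
    obtain ⟨j, h1, h2⟩ := exists_nat_pow_near (x := br k / (2 * R)) (y := 2)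
      (by rw [le_div_iff₀ (by positivity)]; linarith) (by norm_num)
    rw [le_div_iff₀ (by positivity)] at h1
    rw [div_lt_iff₀ (by positivity), pow_succ] at h2
    exact ⟨j, by linarith, by linarith⟩
  choose! jf h1 h2 using hj
  set J := F.sup jf + 1 with hJ
  have s1 : ∑ k ∈ F, br k ^ α * ‖a k‖ ^ 2 ≤ ∑ j ∈ range J, (4 * (2 ^ j * R)) ^ α
      * ∑ k ∈ F with 2 * (2 ^ j * R) ≤ br k, ‖a k‖ ^ 2 := by
    simp only [sum_filter, mul_sum]
    rw [sum_comm]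
    refine sum_le_sum fun k hk => ?_
    refine le_trans ?_ (single_le_sum (a := jf k) (f := fun j => (4 * (2 ^ j * R)) ^ α
      * if 2 * (2 ^ j * R) ≤ br k then ‖a k‖ ^ 2 else 0)
      (fun j _ => by split_ifs <;> positivity)
      (mem_range.2 (Nat.lt_succ_of_le (le_sup (f := jf) hk))))
    rw [if_pos (h1 k (hF k hk))]
    gcongr
    · exact (br_pos k).le
    · exact h2 k (hF k hk)
  have hone : ∀ j : ℕ, R ≤ 2 ^ j * R := fun j =>
    le_mul_of_one_le_left hR0.le (one_le_pow₀ (by norm_num))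
  have s2 : ∀ j ∈ range J, (4 * (2 ^ j * R)) ^ α
      * ∑ k ∈ F with 2 * (2 ^ j * R) ≤ br k, ‖a k‖ ^ 2
      ≤ 4 ^ α * ∑ k ∈ FF n with R ≤ br k,
          (if 2 ^ j * R ≤ br k then (2 ^ j * R) ^ α else 0) * ‖c k‖ ^ 2
        + 4 ^ α * |C| * (2 ^ j * R) ^ (-κ) := by
    intro j _
    have a0 := hone j
    set N : ℝ := 2 ^ j * R with hN
    have hN0 : 0 < N := by linarith
    have a1 := h N (by linarith) F
    have a2 : N ^ α * tail n c N = ∑ k ∈ FF n with R ≤ br k,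
        (if N ≤ br k then N ^ α else 0) * ‖c k‖ ^ 2 := by
      simp only [tail, sum_filter, mul_sum]
      refine sum_congr rfl fun k _ => ?_
      by_cases b : N ≤ br k
      · simp [b, a0.trans b]
      · simp [b]
    have a3 : N ^ α * N ^ (-α - κ) = N ^ (-κ) := by
      rw [← Real.rpow_add hN0]; congr 1; ring
    have a4 : C * N ^ (-α - κ) ≤ |C| * N ^ (-α - κ) := by gcongr; exact le_abs_self C
    rw [Real.mul_rpow (by norm_num) hN0.le, ← a2, ← a3]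
    calc _ ≤ 4 ^ α * N ^ α * (tail n c N + |C| * N ^ (-α - κ)) := by gcongr; linarith
      _ = _ := by ring
  refine s1.trans ((sum_le_sum s2).trans ?_)
  rw [sum_add_distrib, ← mul_sum, ← mul_sum, sum_comm, mul_assoc _ (1 - 2 ^ (-α))⁻¹,
    mul_assoc _ _ (R ^ (-κ))]
  refine add_le_add (mul_le_mul_of_nonneg_left ?_ (by positivity))
    (mul_le_mul_of_nonneg_left (geo2 hκ hR0 J) (by positivity))
  rw [mul_sum]
  refine sum_le_sum fun k _ => ?_
  rw [← sum_mul, ← mul_assoc]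
  gcongr
  exact geo h0 hR0 (br_pos k).le J

/-- The weighted mass outside `S` is at most `η`. -/
def Out (α : ℝ) (S : Finset ℤ) (η : ℝ) (a : ℤ → ℂ) : Prop :=
  ∀ F : Finset ℤ, Disjoint F S → ∑ k ∈ F, br k ^ α * ‖a k‖ ^ 2 ≤ η

lemma hs_le {α M : ℝ} {a : ℤ → ℂ} (h : ∀ F : Finset ℤ, ∑ k ∈ F, br k ^ α * ‖a k‖ ^ 2 ≤ M) :
    hsNormSq α a ≤ ENNReal.ofReal M := by
  rw [hsNormSq, ENNReal.tsum_eq_iSup_sum]
  refine iSup_le fun F => ?_
  rw [← ENNReal.ofReal_sum_of_nonneg fun k _ => by positivity]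
  exact ENNReal.ofReal_le_ofReal (h F)

lemma hs_out {α η : ℝ} {S : Finset ℤ} {a : ℤ → ℂ} (h : Out α S η a) :
    hsNormSq α a ≤ ENNReal.ofReal (∑ k ∈ S, br k ^ α * ‖a k‖ ^ 2 + η) := by
  refine hs_le fun F => ?_
  rw [← sum_inter_add_sum_sdiff F S]
  refine add_le_add (sum_le_sum_of_subset_of_nonneg inter_subset_right fun k _ _ => ?_)
    (h _ sdiff_disjoint)
  have := br_pos k
  positivity

lemma Out.sub {α η : ℝ} {S : Finset ℤ} {a b : ℤ → ℂ} (ha : Out α S η a) (hb : Out α S η b) :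
    Out α S (4 * η) (a - b) := by
  intro F hF
  have h : ∑ k ∈ F, br k ^ α * ‖(a - b) k‖ ^ 2
      ≤ ∑ k ∈ F, (2 * (br k ^ α * ‖a k‖ ^ 2) + 2 * (br k ^ α * ‖b k‖ ^ 2)) := by
    refine sum_le_sum fun k _ => ?_
    have h1 : ‖(a - b) k‖ ≤ ‖a k‖ + ‖b k‖ := norm_sub_le _ _
    have h3 : ‖(a - b) k‖ ^ 2 ≤ 2 * ‖a k‖ ^ 2 + 2 * ‖b k‖ ^ 2 := by
      have := norm_nonneg ((a - b) k)
      nlinarith [sq_nonneg (‖a k‖ - ‖b k‖)]
    have h4 : 0 ≤ br k ^ α := (Real.rpow_pos_of_pos (br_pos k) α).le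
    nlinarith
  rw [sum_add_distrib, ← mul_sum, ← mul_sum] at h
  linarith [ha F hF, hb F hF]

lemma close (α : ℝ) (S : Finset ℤ) {η : ℝ} (hη : 0 < η) : ∃ δ > 0, ∀ a b : ℤ → ℂ,
    Out α S η a → Out α S η b → (∀ k ∈ S, ‖a k - b k‖ ≤ δ) →
      hsNormSq α (a - b) ≤ ENNReal.ofReal (5 * η) := by
  set W := ∑ k ∈ S, br k ^ α with hW
  have hW0 : 0 ≤ W := sum_nonneg fun k _ => (Real.rpow_pos_of_pos (br_pos k) α).le
  refine ⟨√(η / (W + 1)), by positivity, fun a b ha hb h => ?_⟩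
  refine (hs_out (ha.sub hb)).trans (ENNReal.ofReal_le_ofReal ?_)
  have h1 : ∑ k ∈ S, br k ^ α * ‖(a - b) k‖ ^ 2 ≤ W * (η / (W + 1)) := by
    rw [hW, sum_mul]
    refine sum_le_sum fun k hk => mul_le_mul_of_nonneg_left ?_
      (Real.rpow_pos_of_pos (br_pos k) α).le
    have := pow_le_pow_left₀ (norm_nonneg _) (h k hk) 2
    rwa [Real.sq_sqrt (by positivity)] at this
  have h2 : W * (η / (W + 1)) ≤ η := by
    rw [← mul_div_assoc, div_le_iff₀ (by linarith)]; nlinarith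
  linarith

lemma tendsto_zero {ι : Type*} {l : Filter ι} {f : ι → ENNReal}
    (h : ∀ η > 0, ∀ᶠ x in l, f x ≤ ENNReal.ofReal (5 * η)) : Tendsto f l (𝓝 0) := by
  refine ENNReal.tendsto_nhds_zero.2 fun ε hε => ?_
  obtain ⟨r, -, h1, h2⟩ := ENNReal.lt_iff_exists_real_btwn.1 hε
  have h3 : 0 < r := ENNReal.ofReal_pos.1 h1
  filter_upwards [h (r / 5) (by linarith)] with x hx
  rw [show 5 * (r / 5) = r by ring] at hx
  exact hx.trans h2.le

/-- Uniform tightness. -/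
lemma tight_all {α κ : ℝ} (h0 : 0 < α) (hκ : 0 < κ) {c : ℤ → ℂ}
    (hs : Summable fun k => br k ^ α * ‖c k‖ ^ 2) (C : ℝ) {η : ℝ} (hη : 0 < η) :
    ∃ S : Finset ℤ, ∀ (n : ℕ) (a c' : ℤ → ℂ), (∀ k ∈ FF n, c' k = c k) →
      (∀ N : ℝ, 1 ≤ N → ∀ F : Finset ℤ,
        ∑ k ∈ F with 2 * N ≤ br k, ‖a k‖ ^ 2 ≤ tail n c' N + C * N ^ (-α - κ)) →
      Out α S η a := by
  set D1 : ℝ := 4 ^ α * (1 - 2 ^ (-α))⁻¹ with hD1
  set D2 : ℝ := 4 ^ α * |C| * (1 - 2 ^ (-κ))⁻¹ with hD2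
  have hD : 0 < D1 := mul_pos (by positivity) (inv_pos.2 (by linarith [two_rpow_lt h0]))
  obtain ⟨s, hs1⟩ := hs.vanishing (Iio_mem_nhds (show (0 : ℝ) < η / 2 / D1 by positivity))
  have t1 : Tendsto (fun R : ℝ => D2 * R ^ (-κ)) atTop (𝓝 0) := by
    simpa using (tendsto_rpow_neg_atTop hκ).const_mul D2
  have t2 : ∀ᶠ R : ℝ in atTop, ∀ k ∈ s, br k < R :=
    (eventually_all_finset s).2 fun k _ => eventually_gt_atTop _
  obtain ⟨R, ⟨r1, r2⟩, r3⟩ := (((t1.eventually (Iio_mem_nhds (half_pos hη))).and t2).and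
    (eventually_ge_atTop 1)).exists
  refine ⟨FF ⌈2 * R⌉₊, fun n a c' hc h F hF => ?_⟩
  have a1 := tight h0 hκ r3 h F fun k hk => by
    have b1 : k ∉ FF ⌈2 * R⌉₊ := disjoint_left.1 hF hk
    have b2 : (⌈2 * R⌉₊ : ℤ) ≤ |k| := by
      rw [FF, mem_Icc, ← abs_le] at b1
      exact (not_le.1 b1).le
    have b3 : (⌈2 * R⌉₊ : ℝ) ≤ |(k : ℝ)| := by exact_mod_cast b2
    have b4 := Nat.le_ceil (2 * R)
    unfold br; linarith
  have a2 : ∑ k ∈ FF n with R ≤ br k, br k ^ α * ‖c' k‖ ^ 2 < η / 2 / D1 := by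
    rw [sum_congr rfl (g := fun k => br k ^ α * ‖c k‖ ^ 2)
      fun k hk => by rw [hc k (mem_filter.1 hk).1]]
    refine hs1 _ (disjoint_left.2 fun k hk hk' => ?_)
    linarith [(mem_filter.1 hk).2, r2 k hk']
  rw [lt_div_iff₀ hD, mul_comm] at a2
  have a3 : D2 * R ^ (-κ) < η / 2 := r1
  linarith

lemma unif {l : Filter ℕ} {f : ℕ → ℝ → ℂ} {g : ℝ → ℂ} {L : ℝ}
    (hf : ∀ n t s, ‖f n t - f n s‖ ≤ L * |t - s|) (hg : ∀ t s, ‖g t - g s‖ ≤ L * |t - s|)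
    (h : ∀ t, Tendsto (fun n => f n t) l (𝓝 (g t))) (T : ℝ) {δ : ℝ} (hδ : 0 < δ) :
    ∀ᶠ n in l, ∀ t ∈ Set.Icc (-T) T, ‖f n t - g t‖ ≤ δ := by
  obtain ⟨A, -, hA, hc⟩ := finite_cover_balls_of_compact (isCompact_Icc (a := -T) (b := T))
    (e := δ / 3 / (|L| + 1)) (by positivity)
  have h1 : ∀ᶠ n in l, ∀ s ∈ A, ‖f n s - g s‖ ≤ δ / 3 := by
    refine (eventually_all_finite hA).2 fun s _ => ?_
    filter_upwards [Metric.tendsto_nhds.1 (h s) (δ / 3) (by positivity)] with n hn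
    rw [dist_eq_norm] at hn; exact hn.le
  filter_upwards [h1] with n hn t ht
  obtain ⟨s, hs, hts⟩ := Set.mem_iUnion₂.1 (hc ht)
  rw [Metric.mem_ball, Real.dist_eq, lt_div_iff₀ (by positivity)] at hts
  have a1 : L * |t - s| ≤ δ / 3 := by
    nlinarith [le_abs_self L, abs_nonneg (t - s)]
  have a2 := hf n t s
  have a3 := hg t s
  have a4 := hn s hs
  rw [norm_sub_rev] at a3
  have a5 := norm_sub_le_norm_sub_add_norm_sub (f n t) (f n s) (g t)
  have a6 := norm_sub_le_norm_sub_add_norm_sub (f n s) (g s) (g t)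
  linarith

end Glob

open Glob in
theorem hasGlobal_of_infFam {α κ : ℝ} (h0 : 0 < α) (h1 : α ≤ 1) (hκ : 0 < κ) (h : InfFam α κ)
    (c : ℤ → ℂ) (hc : hsNormSq α c < ⊤) : HasGlobalSol α c := by
  have hs : Summable fun k => br k ^ α * ‖c k‖ ^ 2 := summable_of_hs hc
  obtain ⟨C, Λ, h⟩ := h (∑' k, br k ^ α * ‖c k‖ ^ 2)
  set cn : ℕ → ℤ → ℂ := fun n k => if k ∈ FF n then c k else 0 with hcn
  have hcn1 : ∀ n, ∀ k ∈ FF n, cn n k = c k := fun n k hk => if_pos hk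
  choose a ha1 ha2 ha3 ha4 using fun n => h n (cn n) (fun k hk => if_neg hk) (by
    rw [sum_congr rfl (g := fun k => br k ^ α * ‖c k‖ ^ 2) fun k hk => by rw [hcn1 n k hk]]
    exact hs.sum_le_tsum _ fun k _ => by have := br_pos k; positivity)
  have hb : ∀ n t k, ‖a n t k‖ ≤ ‖c k‖ + Λ k * |t| := by
    intro n t k
    have b1 := ha3 n k t 0
    have b2 : ‖a n 0 k‖ ≤ ‖c k‖ := by
      rw [ha2]; simp only [hcn]; split_ifs <;> simp
    rw [sub_zero] at b1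
    linarith [norm_le_insert' (a n t k) (a n 0 k)]
  have hl : ∀ t k, ∃ x, Tendsto (fun n => a n t k) (hyperfilter ℕ : Filter ℕ) (𝓝 x) := by
    intro t k
    obtain ⟨x, -, hx⟩ := (isCompact_closedBall (0 : ℂ) (‖c k‖ + Λ k * |t|)).ultrafilter_le_nhds'
      ((hyperfilter ℕ).map fun n => a n t k) (by
        rw [Ultrafilter.mem_map]
        exact univ_mem' fun n => mem_closedBall_zero_iff.2 (hb n t k))
    exact ⟨x, hx⟩
  choose u hu using hl
  have hlip : ∀ k t s, ‖u t k - u s k‖ ≤ Λ k * |t - s| := fun k t s =>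
    le_of_tendsto' ((hu t k).sub (hu s k)).norm fun n => ha3 n k t s
  have ht : ∀ T > 0, ∀ η > 0, ∃ S : Finset ℤ, ∀ t, |t| ≤ T →
      (∀ n, Out α S η (a n t)) ∧ Out α S η (u t) := by
    intro T hT η hη
    obtain ⟨S, hS⟩ := tight_all h0 hκ hs (C T) hη
    refine ⟨S, fun t ht => ?_⟩
    have b : ∀ n, Out α S η (a n t) := fun n => hS n _ _ (hcn1 n) (ha4 n T hT t ht)
    refine ⟨b, fun F hF => ?_⟩
    exact le_of_tendsto' (tendsto_finsetSum F fun k _ =>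
      ((hu t k).norm.pow 2).const_mul (br k ^ α)) fun n => b n F hF
  refine ⟨u, ?_, fun t => ?_, fun t => ?_, fun T hT => ?_⟩
  · ext k
    refine tendsto_nhds_unique (hu 0 k) (tendsto_const_nhds.congr' ?_)
    refine Nat.hyperfilter_le_atTop ?_
    filter_upwards [eventually_ge_atTop k.natAbs] with n hn
    rw [ha2, hcn1 n k (by rw [FF, mem_Icc]; omega)]
  · obtain ⟨S, hS⟩ := ht (|t| + 1) (by positivity) 1 one_pos
    exact (hs_out (hS t (by linarith)).2).trans_lt ENNReal.ofReal_lt_top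
  · refine tendsto_zero fun η hη => ?_
    obtain ⟨S, hS⟩ := ht (|t| + 1) (by positivity) η hη
    obtain ⟨δ, hδ, hd⟩ := close α S hη
    have b1 : ∀ᶠ s in 𝓝 t, |s| ≤ |t| + 1 :=
      (continuous_abs.tendsto t).eventually (Iic_mem_nhds (lt_add_one _))
    have b2 : ∀ᶠ s in 𝓝 t, ∀ k ∈ S, ‖u s k - u t k‖ ≤ δ := by
      refine (eventually_all_finset S).2 fun k _ => ?_
      have b3 : Tendsto (fun s => Λ k * |s - t|) (𝓝 t) (𝓝 0) := by
        have : Continuous fun s => Λ k * |s - t| := by fun_prop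
        simpa using this.tendsto t
      filter_upwards [b3.eventually (Iic_mem_nhds hδ)] with s hs
      exact (hlip k s t).trans hs
    filter_upwards [b1, b2] with s c1 c2
    exact hd _ _ (hS s c1).2 (hS t (by linarith)).2 c2
  · have key : ∀ j : ℕ, ∃ n, ∀ t ∈ Set.Icc (-T) T,
        hsNormSq α (a n t - u t) ≤ ENNReal.ofReal (5 * (1 / ((j : ℝ) + 1))) := by
      intro j
      have hη : (0 : ℝ) < 1 / ((j : ℝ) + 1) := by positivity
      obtain ⟨S, hS⟩ := ht T hT _ hη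
      obtain ⟨δ, hδ, hd⟩ := close α S hη
      have b2 : ∀ᶠ n in (hyperfilter ℕ : Filter ℕ), ∀ k ∈ S, ∀ t ∈ Set.Icc (-T) T,
          ‖a n t k - u t k‖ ≤ δ :=
        (eventually_all_finset S).2 fun k _ => unif (f := fun n t => a n t k)
          (g := fun t => u t k) (fun n => ha3 n k) (hlip k) (fun t => hu t k) T hδ
      obtain ⟨n, hn⟩ := b2.exists
      exact ⟨n, fun t ht => hd _ _ ((hS t (abs_le.2 ht)).1 n) (hS t (abs_le.2 ht)).2
        fun k hk => hn k hk t ht⟩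
    choose nf hnf using key
    choose v hv1 hv2 using fun n => smooth_of_infSol h0 h1 (ha1 n)
    refine ⟨fun j => v (nf j), Eventually.of_forall fun j => hv1 _ T hT, ?_⟩
    refine tendsto_zero fun η hη => ?_
    filter_upwards [(tendsto_one_div_add_atTop_nhds_zero_nat (𝕜 := ℝ)).eventually
      (Iic_mem_nhds hη)] with j hj
    refine iSup₂_le fun t ht => ?_
    rw [hv2]
    exact (hnf j t ht).trans (ENNReal.ofReal_le_ofReal (by linarith))

end Pool.Agent.Lib.MMTW
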