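import Pool.Agent.Lib.MP_0dc93f_an.WDefA

/-! The limit of the Galerkin solutions (job A2). -/

namespace Pool.Agent.Lib.MMTW

open Finset Complex ComplexConjugate Filter Topology

theorem lim_br_pos (k : ℤ) : 0 < br k := by unfold br; positivity

theorem lim_one_le_br (k : ℤ) : 1 ≤ br k := by unfold br; linarith [abs_nonneg (k : ℝ)]

theorem lim_summable : Summable fun k : ℤ => 1 / br k ^ 2 := by
  have h : Summable fun n : ℕ => 1 / (1 + (n : ℝ)) ^ 2 := by
    simpa [add_comm] using (summable_nat_add_iff 1).2 (Real.summable_one_div_nat_pow.2 one_lt_two)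
  exact Summable.of_nat_of_neg (by simpa [br] using h) (by simpa [br] using h)

theorem NLi_tendsto {ι : Type*} {l : Filter ι} {u : ι → ℤ → ℂ} {v : ℤ → ℂ} {A : ℝ}
    (h : ∀ j, Tendsto (u · j) l (𝓝 (v j))) (hb : ∀ᶠ i in l, ∀ j, br j ^ 2 * ‖u i j‖ ≤ A) (k : ℤ) :
    Tendsto (fun i => NLi (u i) k) l (𝓝 (NLi v k)) := by
  refine tendsto_tsum_of_dominated_convergence
    (bound := fun p : ℤ × ℤ => A * A * A * (1 / br p.1 ^ 2 * (1 / br p.2 ^ 2)))
    ((lim_summable.mul_of_nonneg lim_summable (fun j => by positivity)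
      fun j => by positivity).mul_left _)
    (fun p => ((h _).mul ((continuous_conj.tendsto _).comp (h _))).mul (h _))
    (hb.mono fun i hi p => ?_)
  have a : ∀ j, ‖u i j‖ ≤ A * (1 / br j ^ 2) := fun j => by
    rw [mul_one_div, le_div_iff₀' (pow_pos (lim_br_pos j) 2)]; exact hi j
  have b : ∀ j, ‖u i j‖ ≤ A := fun j =>
    (le_mul_of_one_le_left (norm_nonneg _) (one_le_pow₀ (lim_one_le_br j))).trans (hi j)
  have := (norm_nonneg _).trans (b 0)
  rw [norm_mul, norm_mul, norm_conj]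
  calc _ ≤ A * (1 / br p.1 ^ 2) * (A * (1 / br p.2 ^ 2)) * A := by gcongr <;> apply_assumption
    _ = _ := by ring

theorem NL_eq_NLi {Kc : ℕ} {a : ℤ → ℂ} (h : ∀ k, k ∉ FF Kc → a k = 0) (k : ℤ) :
    NL Kc a k = NLi a k := by
  rw [NLi, tsum_eq_sum (s := FF Kc ×ˢ FF Kc) fun p hp => by
    rcases not_and_or.1 (mt mem_product.2 hp) with c | c <;> simp [h _ c], NL, sum_filter,
    sum_product, sum_product]
  refine sum_congr rfl fun x _ => ?_
  rw [sum_product]
  refine sum_congr rfl fun y _ => ?_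
  rw [sum_eq_single (k - x + y) (fun z _ c => if_neg fun e => c (by simp only at e; omega))
    fun c => by simp [h _ c], if_pos (by simp only; omega)]

theorem lim_sum_le {Kc : ℕ} {f : ℤ → ℝ} (h : ∀ k, k ∉ FF Kc → f k = 0) (h0 : ∀ k, 0 ≤ f k)
    (P : ℤ → Prop) [DecidablePred P] (F : Finset ℤ) :
    ∑ k ∈ F with P k, f k ≤ ∑ k ∈ FF Kc with P k, f k :=
  (sum_filter_ne_zero _).symm.le.trans (sum_le_sum_of_subset_of_nonneg (fun k a => mem_filter.2
    ⟨by_contra fun c => (mem_filter.1 a).2 (h k c), (mem_filter.1 (mem_filter.1 a).1).2⟩)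
    fun k _ _ => h0 k)

theorem infFam_of_galFam {α κ : ℝ} (h : GalFam α κ) : InfFam α κ := fun H => by
  obtain ⟨C, Λ, h⟩ := h H
  refine ⟨C, Λ, fun n c hc hH => ?_⟩
  obtain ⟨b, b1, b2, b3, b4, b5, b6⟩ := h n c hc hH
  have hl : (hyperfilter ℕ : Filter ℕ) ≤ atTop := Nat.hyperfilter_le_atTop
  have ev : ∀ᶠ Kc in (hyperfilter ℕ : Filter ℕ), n ≤ Kc := hl (eventually_ge_atTop n)
  have ex : ∀ t k, ∃ z, Tendsto (b · t k) (hyperfilter ℕ) (𝓝 z) := fun t k =>
    let ⟨z, _, hz⟩ := (isCompact_closedBall (c k) (Λ k * |t - 0|)).ultrafilter_le_nhds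
      ((hyperfilter ℕ).map (b · t k)) (le_principal_iff.2 (ev.mono fun Kc e => by
        rw [mem_closedBall_iff_norm, ← b3 Kc e]; exact b4 Kc e k t 0))
    ⟨z, hz⟩
  choose a ha using ex
  have lip : ∀ k t s, ‖a t k - a s k‖ ≤ Λ k * |t - s| := fun k t s =>
    le_of_tendsto ((ha t k).sub (ha s k)).norm (ev.mono fun Kc e => b4 Kc e k t s)
  have one : ∀ {Kc s t A}, ∑ k ∈ FF Kc, br k ^ s * ‖b Kc t k‖ ≤ A → ∀ F : Finset ℤ,
      ∑ k ∈ F, br k ^ (s : ℕ) * ‖b Kc t k‖ ≤ A := fun {Kc s t A} e F => le_trans (by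
    simpa using lim_sum_le (f := fun k => br k ^ s * ‖b Kc t k‖) (fun k c => by simp [b2 Kc t k c])
      (fun k => by have := lim_br_pos k; positivity) (fun _ => True) F) e
  have lim : ∀ {T s A}, (∀ᶠ Kc in atTop, ∀ t, |t| ≤ T → ∑ k ∈ FF Kc, br k ^ s * ‖b Kc t k‖ ≤ A) →
      ∀ t, |t| ≤ T → ∀ F : Finset ℤ, ∑ k ∈ F, br k ^ (s : ℕ) * ‖a t k‖ ≤ A := fun e t ht F =>
    le_of_tendsto (tendsto_finsetSum F fun k _ => (ha t k).norm.const_mul _)
      ((e.filter_mono hl).mono fun Kc e => one (e t ht) F)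
  refine ⟨a, ⟨fun T hT s => let ⟨A, e⟩ := b6 T hT s; ⟨A, lim e⟩, fun t k => ?_⟩, funext fun k =>
    tendsto_nhds_unique (ha 0 k) (tendsto_const_nhds.congr' (ev.mono fun Kc e => by simp [b3 Kc e])),
    lip, fun T hT t ht N hN F => le_of_tendsto (tendsto_finsetSum _ fun k _ => (ha t k).norm.pow 2)
      (((b5 T hT).filter_mono hl).mono fun Kc e => (lim_sum_le (f := fun k => ‖b Kc t k‖ ^ 2)
        (fun k c => by simp [b2 Kc t k c]) (fun k => by positivity) _ F).trans (e t ht N hN))⟩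
  obtain ⟨A, hA⟩ := b6 (|t| + 1) (by positivity) 2
  have nb : ∀ᶠ y in 𝓝 t, |y| ≤ |t| + 1 :=
    continuous_abs.continuousAt.eventually (eventually_le_nhds (lt_add_one _))
  have small : ∀ j, Tendsto (fun q : ℕ × ℝ => Λ j * |q.2 - t|) (hyperfilter ℕ ×ˢ 𝓝 t) (𝓝 0) :=
    fun j => by
      simpa using ((tendsto_snd (f := (hyperfilter ℕ : Filter ℕ)) (g := 𝓝 t)).sub_const t).abs.const_mul
        (Λ j)
  have c1 : ∀ j, Tendsto (fun q : ℕ × ℝ => b q.1 q.2 j) (hyperfilter ℕ ×ˢ 𝓝 t) (𝓝 (a t j)) :=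
    fun j => by
      simpa using (squeeze_zero_norm' ((tendsto_fst.eventually ev).mono fun q e =>
        b4 q.1 e j q.2 t) (small j)).add ((ha t j).comp tendsto_fst)
  have c2 : ∀ j, Tendsto (fun q : ℕ × ℝ => a q.2 j) (hyperfilter ℕ ×ˢ 𝓝 t) (𝓝 (a t j)) :=
    fun j => by
      simpa using (squeeze_zero_norm (fun q : ℕ × ℝ => lip j q.2 t) (small j)).add_const (a t j)
  have d1 := NLi_tendsto (A := A) c1 (((tendsto_fst.eventually (hA.filter_mono hl)).and
    (tendsto_snd.eventually nb)).mono fun q e j => by simpa using one (e.1 _ e.2) {j}) k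
  have d2 := NLi_tendsto (A := A) c2 ((tendsto_snd.eventually nb).mono fun q e j => by
    simpa using lim hA _ e {j}) k
  refine hasDerivAt_of_tendstoUniformlyOnFilter (l := (hyperfilter ℕ : Filter ℕ))
    (f := fun Kc s => b Kc s k) (f' := fun Kc s => -I * (om α k * b Kc s k + NLi (b Kc s) k))
    (g' := fun s => -I * (om α k * a s k + NLi (a s) k)) ?_ ?_ (.of_forall fun y => ha y k)
  · rw [Metric.tendstoUniformlyOnFilter_iff]
    intro ε hε
    exact (((((c2 k).const_mul _).add d2).const_mul (-I)).dist ((((c1 k).const_mul _).add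
      d1).const_mul (-I))).eventually (gt_mem_nhds (by simpa using hε))
  · filter_upwards [tendsto_fst.eventually (hl (eventually_ge_atTop k.natAbs))] with q e
    rw [← NL_eq_NLi (b2 q.1 q.2)]
    exact b1 q.1 q.2 k (by simp only [FF, mem_Icc]; omega)

end Pool.Agent.Lib.MMTW
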