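import Pool.Agent.Lib.MMT.Zero
import Pool.Agent.Lib.MP_0dc93f_an.WFin
import Pool.Agent.Lib.MP_0dc93f_an.WGal
import Pool.Agent.Lib.MP_0dc93f_an.WLim
import Pool.Agent.Lib.MP_0dc93f_an.WGlob

namespace Pool.Agent.Lib.MP_0dc93f_an.OldGap

open Pool.Agent.Lib.MMT Pool.Agent.Lib.MMTW

theorem result (α : ℝ) (hα : α < 1 / 2 ∨ (3 / 5 ≤ α ∧ α < 1)) :
    (∀ c : ℤ → ℂ, hsNormSq α c < ⊤ → HasGlobalSol α c) ↔ (α ≤ 0 ∨ 3 / 5 ≤ α) := by
  rcases hα with h | ⟨h1, h2⟩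
  · rw [main h]
    exact ⟨Or.inl, fun h' => h'.elim id fun h'' => absurd h'' (by linarith)⟩
  · exact ⟨fun _ => .inr h1, fun _ => hasGlobal_of_infFam (by linarith) h2.le (by norm_num)
      (infFam_of_galFam (galFam_of_est (by linarith) h2 (by norm_num) (by norm_num) (est h1 h2)))⟩

end Pool.Agent.Lib.MP_0dc93f_an.OldGap
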