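import Pool.Agent.Lib.MP_0dc93f_an.WDef

/-! Fourier algebra bounds (job B). -/

namespace Pool.Agent.Lib.MMTW

open Finset Complex ComplexConjugate Filter Topology

variable {G H : Type} [AddCommGroup G] [AddCommGroup H] {S S' : Set G} {σ σ' : G → ℂ} {C C' : ℝ}

lemma An.mono (h : An S σ C) (hC : C ≤ C') : An S σ C' := fun ι s κ w X h1 h2 =>
  (h ι s κ w X h1 h2).trans (mul_le_mul_of_nonneg_right hC ((norm_nonneg _).trans (h2 0)))

lemma An.subset (h : An S σ C) (hS : S' ⊆ S) : An S' σ C := fun ι s κ w X h1 h2 =>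
  h ι s κ w X (fun i hi => hS (h1 i hi)) h2

lemma An.congr (h : An S σ C) (e : ∀ k ∈ S, σ k = σ' k) : An S σ' C := fun ι s κ w X h1 h2 => by
  rw [← sum_congr rfl fun i hi => congrArg (w i * ·) (e _ (h1 i hi))]
  exact h ι s κ w X h1 h2

lemma An.const (S : Set G) (z : ℂ) : An S (fun _ => z) ‖z‖ := fun ι s κ w X _ h2 => by
  have := h2 0
  simp only [AddMonoidHom.zero_apply, ofReal_zero, mul_zero, exp_zero, mul_one] at this
  rw [← sum_mul, norm_mul, mul_comm]
  exact mul_le_mul_of_nonneg_left this (norm_nonneg _)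

lemma An.add (h : An S σ C) (h' : An S σ' C') : An S (fun k => σ k + σ' k) (C + C') :=
  fun ι s κ w X h1 h2 => by
    simp only [mul_add, sum_add_distrib, add_mul]
    exact (norm_add_le _ _).trans (add_le_add (h ι s κ w X h1 h2) (h' ι s κ w X h1 h2))

lemma An.sub (h : An S σ C) (h' : An S σ' C') : An S (fun k => σ k - σ' k) (C + C') :=
  fun ι s κ w X h1 h2 => by
    simp only [mul_sub, sum_sub_distrib, add_mul]
    exact (norm_sub_le _ _).trans (add_le_add (h ι s κ w X h1 h2) (h' ι s κ w X h1 h2))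

lemma An.mul (h : An S σ C) (h' : An S σ' C') : An S (fun k => σ k * σ' k) (C * C') :=
  fun ι s κ w X h1 h2 => by
    have := h' ι s κ (fun i => w i * σ (κ i)) (C * X) h1 fun y => by
      have := h ι s κ (fun i => w i * exp (I * (y (κ i) : ℝ))) X h1 fun y' => by
        refine le_of_eq_of_le (congrArg _ (sum_congr rfl fun i _ => ?_)) (h2 (y + y'))
        rw [mul_assoc, ← exp_add]
        simp [mul_add]
      refine le_of_eq_of_le (congrArg _ (sum_congr rfl fun i _ => ?_)) this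
      ring
    simp only [← mul_assoc]
    exact this.trans (le_of_eq (by ring))

lemma An.comap (h : An S σ C) (f : H →+ G) : An (f ⁻¹' S) (fun k => σ (f k)) C :=
  fun ι s κ w X h1 h2 => h ι s (fun i => f (κ i)) w X h1 fun y => h2 (y.comp f)

lemma An.lim {τ : ℕ → G → ℂ} (h : ∀ n, An S (τ n) C)
    (hl : ∀ k ∈ S, Tendsto (fun n => τ n k) atTop (𝓝 (σ k))) : An S σ C :=
  fun ι s κ w X h1 h2 =>
    le_of_tendsto' (tendsto_finsetSum s fun i hi => (hl _ (h1 i hi)).const_mul (w i)).norm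
      fun n => h n ι s κ w X h1 h2

lemma An.shift (h : An S σ C) (c : G) : An {k | k - c ∈ S} (fun k => σ (k - c)) C :=
  fun ι s κ w X h1 h2 => h ι s (fun i => κ i - c) w X h1 fun y => by
    have e : ∑ i ∈ s, w i * exp (I * (y (κ i - c) : ℝ)) =
        (∑ i ∈ s, w i * exp (I * (y (κ i) : ℝ))) * exp (I * (-y c : ℝ)) := by
      rw [sum_mul]
      refine sum_congr rfl fun i _ => ?_
      rw [mul_assoc, ← exp_add, map_sub]
      push_cast; ring_nf
    rw [e, norm_mul, norm_exp_I_mul_ofReal, mul_one]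
    exact h2 y

lemma An.smul (h : An S σ C) (z : ℂ) : An S (fun k => z * σ k) (‖z‖ * C) := (An.const S z).mul h

lemma An.sum {ι : Type} (s : Finset ι) {τ : ι → G → ℂ} {c : ι → ℝ}
    (h : ∀ i ∈ s, An S (τ i) (c i)) : An S (fun k => ∑ i ∈ s, τ i k) (∑ i ∈ s, c i) := by
  classical
  induction s using Finset.induction_on with
  | empty => simpa using An.const S 0
  | insert a s ha ih =>
    simp only [sum_insert ha]
    exact (h a (mem_insert_self _ _)).add (ih fun i hi => h i (mem_insert_of_mem hi))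

lemma An.pow (h : An S σ C) (n : ℕ) : An S (fun k => σ k ^ n) (C ^ n) := by
  induction n with
  | zero => simpa using An.const S 1
  | succ n ih => simpa only [pow_succ] using ih.mul h

lemma ex_addB (x : ℝ) (k l : ℤ) : ex x (k + l) = ex x k * ex x l := by
  rw [ex, ex, ex, ← exp_add]; push_cast; ring_nf

lemma ex_conjB (x : ℝ) (k : ℤ) : conj (ex x k) = ex x (-k) := by
  rw [ex, ex, ← exp_conj]; simp

lemma ex_contB (k : ℤ) : Continuous fun x => ex x k := by unfold ex; fun_prop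

lemma ex_intB (p : ℤ) :
    ∫ x in (0 : ℝ)..(2 * Real.pi), ex x p = if p = 0 then (2 * Real.pi : ℝ) else 0 := by
  split_ifs with h
  · simp [ex, h]
  · have h1 : (I * p : ℂ) ≠ 0 := mul_ne_zero I_ne_zero (by exact_mod_cast h)
    have := integral_exp_mul_complex (a := 0) (b := 2 * Real.pi) h1
    simp only [ex, ← mul_assoc]
    rw [this]
    have h2 : exp (I * p * (2 * Real.pi : ℝ)) = 1 := by
      rw [← exp_int_mul_two_pi_mul_I p]; push_cast; ring_nf
    rw [h2]; simp

lemma sum_ex_intB {ι : Type} (s : Finset ι) (a : ι → ℂ) (p : ι → ℤ) :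
    ∫ x in (0 : ℝ)..(2 * Real.pi), ∑ i ∈ s, a i * ex x (p i) =
      (2 * Real.pi : ℝ) * ∑ i ∈ s, if p i = 0 then a i else 0 := by
  rw [intervalIntegral.integral_finsetSum fun i _ =>
    ((ex_contB _).const_mul _).intervalIntegrable _ _, mul_sum]
  refine sum_congr rfl fun i _ => ?_
  rw [intervalIntegral.integral_const_mul, ex_intB]
  split_ifs <;> simp [mul_comm]

lemma parsevalB (A : Finset ℤ) (g : ℤ → ℂ) :
    ∫ x in (0 : ℝ)..(2 * Real.pi), ‖∑ j ∈ A, g j * ex x (-j)‖ ^ 2 =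
      2 * Real.pi * ∑ j ∈ A, ‖g j‖ ^ 2 := by
  have := sum_ex_intB (A ×ˢ A) (fun q => g q.1 * conj (g q.2)) (fun q => -q.1 + q.2)
  have e : ∀ x : ℝ, ∑ q ∈ A ×ˢ A, g q.1 * conj (g q.2) * ex x (-q.1 + q.2) =
      ((‖∑ j ∈ A, g j * ex x (-j)‖ ^ 2 : ℝ) : ℂ) := by
    intro x
    rw [ofReal_pow, ← mul_conj', map_sum, sum_mul_sum, sum_product]
    refine sum_congr rfl fun j _ => sum_congr rfl fun l _ => ?_
    rw [ex_addB, map_mul, ex_conjB, neg_neg]; ring
  simp only [e] at this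
  rw [intervalIntegral.integral_ofReal, sum_product] at this
  have e2 : ∀ j ∈ A, (∑ l ∈ A, if -j + l = 0 then g j * conj (g l) else 0) =
      ((‖g j‖ ^ 2 : ℝ) : ℂ) := by
    intro j hj
    simp only [neg_add_eq_zero, sum_ite_eq, hj, if_true]
    rw [mul_conj', ofReal_pow]
  rw [sum_congr rfl e2] at this
  exact_mod_cast this

/-- convolutions of two square summable sequences -/
lemma An.conv (A B : Finset ℤ) (g h : ℤ → ℂ) {t : ℝ} (ht : 0 < t) :
    An Set.univ (fun k => ∑ j ∈ A, ∑ l ∈ B, if j + l = k then g j * h l else 0)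
      ((t * ∑ j ∈ A, ‖g j‖ ^ 2 + (∑ l ∈ B, ‖h l‖ ^ 2) / t) / 2) := by
  intro ι s κ w X _ h2
  have hX : 0 ≤ X := (norm_nonneg _).trans (h2 0)
  have hW : ∀ x : ℝ, ‖∑ i ∈ s, w i * ex x (κ i)‖ ≤ X := fun x => by
    have := h2 ((AddMonoidHom.mulRight x).comp (Int.castAddHom ℝ))
    simpa [ex] using this
  have key := sum_ex_intB (s ×ˢ A ×ˢ B) (fun q => w q.1 * (g q.2.1 * h q.2.2))
    (fun q => κ q.1 + (-q.2.1 + -q.2.2))
  have e : ∀ x : ℝ, ∑ q ∈ s ×ˢ A ×ˢ B, w q.1 * (g q.2.1 * h q.2.2) *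
      ex x (κ q.1 + (-q.2.1 + -q.2.2)) = (∑ i ∈ s, w i * ex x (κ i)) *
        ((∑ j ∈ A, g j * ex x (-j)) * ∑ l ∈ B, h l * ex x (-l)) := by
    intro x
    rw [sum_mul_sum A B, sum_mul, sum_product]
    refine sum_congr rfl fun i _ => ?_
    rw [sum_product, mul_sum]
    refine sum_congr rfl fun j _ => ?_
    rw [mul_sum]
    refine sum_congr rfl fun l _ => ?_
    rw [ex_addB, ex_addB]; ring
  have e2 : (∑ q ∈ s ×ˢ A ×ˢ B, if κ q.1 + (-q.2.1 + -q.2.2) = 0 then
      w q.1 * (g q.2.1 * h q.2.2) else 0) =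
      ∑ i ∈ s, w i * ∑ j ∈ A, ∑ l ∈ B, if j + l = κ i then g j * h l else 0 := by
    rw [sum_product]
    refine sum_congr rfl fun i _ => ?_
    rw [sum_product, mul_sum]
    refine sum_congr rfl fun j _ => ?_
    rw [mul_sum]
    refine sum_congr rfl fun l _ => ?_
    rw [mul_ite, mul_zero]
    exact if_congr (by simp only; constructor <;> intro <;> omega) rfl rfl
  simp only [e] at key
  rw [e2] at key
  have cg : ∀ (A : Finset ℤ) (g : ℤ → ℂ), Continuous fun x : ℝ => ‖∑ j ∈ A, g j * ex x (-j)‖ ^ 2 :=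
    fun A g => (continuous_finsetSum _ fun j _ => continuous_const.mul (ex_contB _)).norm.pow 2
  have b := intervalIntegral.norm_integral_le_of_norm_le (a := 0) (b := 2 * Real.pi)
    (μ := MeasureTheory.volume)
    (f := fun x => (∑ i ∈ s, w i * ex x (κ i)) *
        ((∑ j ∈ A, g j * ex x (-j)) * ∑ l ∈ B, h l * ex x (-l)))
    (g := fun x => X * t / 2 * ‖∑ j ∈ A, g j * ex x (-j)‖ ^ 2 +
      X / t / 2 * ‖∑ l ∈ B, h l * ex x (-l)‖ ^ 2) Real.two_pi_pos.le
    (Eventually.of_forall fun x _ => ?_)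
    ((((cg A g).const_mul _).add ((cg B h).const_mul _)).intervalIntegrable _ _)
  · rw [key, intervalIntegral.integral_add
      (((cg A g).const_mul _).intervalIntegrable _ _)
      (((cg B h).const_mul _).intervalIntegrable _ _),
      intervalIntegral.integral_const_mul, intervalIntegral.integral_const_mul, parsevalB, parsevalB,
      norm_mul, norm_real, Real.norm_of_nonneg Real.two_pi_pos.le] at b
    refine le_of_mul_le_mul_left (b.trans (le_of_eq ?_)) Real.two_pi_pos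
    ring
  · rw [norm_mul, norm_mul]
    set a := ‖∑ j ∈ A, g j * ex x (-j)‖
    set c := ‖∑ l ∈ B, h l * ex x (-l)‖
    have h3 : a * c ≤ t / 2 * a ^ 2 + 1 / t / 2 * c ^ 2 := by
      have : t / 2 * a ^ 2 + 1 / t / 2 * c ^ 2 - a * c = (t * a - c) ^ 2 / (2 * t) := by
        field_simp; ring
      have h4 : 0 ≤ (t * a - c) ^ 2 / (2 * t) := by positivity
      linarith
    refine (mul_le_mul (hW x) h3 (by positivity) hX).trans (le_of_eq ?_)
    ring

lemma teleB (f : ℤ → ℂ) (a : ℤ) (m : ℕ) :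
    ∑ j ∈ Ico a (a + m), (f (j + 1) - f j) = f (a + m) - f a := by
  induction m with
  | zero => simp
  | succ m ih =>
    rw [Nat.cast_succ, ← add_assoc, ← Finset.insert_Ico_right_eq_Ico_add_one (by omega),
      sum_insert (by simp), ih]
    ring

/-- Lipschitz functions on an interval -/
lemma An.lip {f : ℤ → ℂ} {a : ℤ} {n : ℕ} {L : ℝ}
    (h : ∀ k, a ≤ k → k < a + n → ‖f (k + 1) - f k‖ ≤ L) :
    An (Set.Icc a (a + n)) f (‖f a‖ + n * L) := by
  have tl : ∀ k ∈ Set.Icc a (a + n), f k - f a = ∑ j ∈ Ico a k, (f (j + 1) - f j) := by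
    intro k hk
    obtain ⟨m, rfl⟩ := Int.le.dest hk.1
    rw [teleB]
  rcases le_or_gt L 0 with hL | hL
  · rcases Nat.eq_zero_or_pos n with rfl | hn
    · refine ((An.const _ (f a)).congr fun k hk => ?_).mono (by simp)
      have : k = a := by simpa using hk
      rw [this]
    · have h0 : 0 ≤ L := (norm_nonneg _).trans (h a le_rfl (by omega))
      refine ((An.const _ (f a)).congr fun k hk => ?_).mono (le_add_of_nonneg_right (by positivity))
      rw [eq_comm, ← sub_eq_zero, tl k hk]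
      refine sum_eq_zero fun j hj => norm_le_zero_iff.1 ((h j ?_ ?_).trans hL)
      · exact (mem_Ico.1 hj).1
      · exact (mem_Ico.1 hj).2.trans_le hk.2
  · have c := (An.conv (Ico a (a + n)) (Ico 1 (1 + n)) (fun j => f (j + 1) - f j) (fun _ => 1)
      (t := 1 / L) (by positivity)).subset (Set.subset_univ (Set.Icc a (a + n)))
    refine (((An.const _ (f a)).add c).congr fun k hk => ?_).mono (add_le_add le_rfl ?_)
    · rw [← eq_sub_iff_add_eq', tl k hk, ← sum_subset (Ico_subset_Ico_right hk.2)]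
      · refine sum_congr rfl fun j hj => ?_
        have := mem_Ico.1 hj
        have h2 := hk.2
        rw [sum_eq_single (k - j) (fun l _ hl => if_neg (by omega))
          (fun hl => absurd (mem_Ico.2 (by omega)) hl), if_pos (by omega), mul_one]
      · intro j hj hj'
        refine sum_eq_zero fun l hl => if_neg ?_
        simp only [mem_Ico] at hj hj' hl
        omega
    · have h1 : ∑ j ∈ Ico a (a + n), ‖f (j + 1) - f j‖ ^ 2 ≤ n * L ^ 2 := by
        refine (sum_le_card_nsmul _ _ (L ^ 2) fun j hj => ?_).trans (by simp)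
        exact pow_le_pow_left₀ (norm_nonneg _) (h j (mem_Ico.1 hj).1 (mem_Ico.1 hj).2) 2
      have h2 : 1 / L * ∑ j ∈ Ico a (a + n), ‖f (j + 1) - f j‖ ^ 2 ≤ n * L :=
        (mul_le_mul_of_nonneg_left h1 (by positivity)).trans (le_of_eq (by field_simp))
      simp only [norm_one, one_pow, sum_const, Int.card_Ico, add_sub_cancel_left, Int.toNat_natCast,
        nsmul_eq_mul, mul_one, div_div_eq_mul_div, div_one]
      linarith

lemma mu_pos (J : Cell) : 0 < mu J := by unfold mu; positivity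

lemma mu_posRB (J : Cell) : (0 : ℝ) < mu J := by exact_mod_cast mu_pos J

lemma hat_nonnegB (m : ℝ) (x : ℤ) : 0 ≤ hat m x := le_max_left _ _

lemma hat_zeroB {m : ℝ} (hm : 0 < m) {x : ℤ} (h : m ≤ |(x : ℝ)|) : hat m x = 0 :=
  max_eq_left (by rw [sub_nonpos, le_div_iff₀ hm]; linarith)

lemma hat_eqB {m : ℝ} (hm : 0 < m) {x : ℤ} (h : |(x : ℝ)| ≤ m) : hat m x = 1 - |(x : ℝ)| / m :=
  max_eq_right (by rw [sub_nonneg, div_le_one hm]; exact h)

lemma hat_mulB {m : ℝ} (hm : 0 < m) (x : ℤ) : hat m x = max 0 (m - |(x : ℝ)|) / m := by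
  rw [hat, ← max_div_div_right hm.le, zero_div, sub_div, div_self hm.ne']

lemma hat_lipB {m : ℝ} (hm : 0 < m) (x : ℤ) : |hat m (x + 1) - hat m x| ≤ 1 / m := by
  rw [hat_mulB hm, hat_mulB hm, ← sub_div, abs_div, abs_of_pos hm]
  refine div_le_div_of_nonneg_right ?_ hm.le
  refine (abs_max_sub_max_le_max _ _ _ _).trans (max_le (by simp) ?_)
  rw [sub_sub_sub_cancel_left]
  exact (abs_abs_sub_abs_le_abs_sub _ _).trans (by simp)

lemma phi_nonneg (J : Cell) (k : ℤ) : 0 ≤ phi J k := add_nonneg (hat_nonnegB _ _) (hat_nonnegB _ _)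

lemma phi_le_one (J : Cell) (k : ℤ) : phi J k ≤ 1 := by
  have hm := mu_posRB J
  rw [phi, hat_mulB hm, hat_mulB hm, ← add_div, div_le_one hm]
  push_cast
  rcases abs_cases ((k : ℝ) - cc J) with h | h <;>
    rcases abs_cases ((k : ℝ) - cc J - mu J) with h' | h' <;>
    simp only [max_def] <;> split_ifs <;> linarith [h.1, h.2, h'.1, h'.2]

lemma phi_cell {J : Cell} {k : ℤ} (h : k ∈ cell J) : phi J k = 1 := by
  have hm := mu_posRB J
  rw [cell, mem_Ico] at h
  have h1 : (cc J : ℝ) ≤ k := by exact_mod_cast h.1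
  have h2 : (k : ℝ) < cc J + mu J := by exact_mod_cast h.2
  rw [phi, hat_mulB hm, hat_mulB hm, ← add_div, div_eq_one_iff_eq hm.ne']
  push_cast
  rw [abs_of_nonneg (by linarith), abs_of_nonpos (by linarith), max_eq_right (by linarith),
    max_eq_right (by linarith)]
  ring

lemma phi_off {J : Cell} {k : ℤ} (h : k ∉ PP J) : phi J k = 0 := by
  have hm := mu_pos J
  rw [PP, mem_Ioo] at h
  rw [phi, hat_zeroB (mu_posRB J), hat_zeroB (mu_posRB J), add_zero]
  · exact_mod_cast (by rw [le_abs]; omega : mu J ≤ |k - cc J - mu J|)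
  · exact_mod_cast (by rw [le_abs]; omega : mu J ≤ |k - cc J|)

lemma phi_lip (J : Cell) (k : ℤ) : |phi J (k + 1) - phi J k| ≤ 2 / (mu J : ℝ) := by
  have h1 := hat_lipB (mu_posRB J) (k - cc J)
  have h2 := hat_lipB (mu_posRB J) (k - cc J - mu J)
  rw [phi, phi, add_sub_add_comm, add_sub_right_comm k, add_sub_right_comm (k - cc J)]
  exact (abs_add_le _ _).trans ((add_le_add h1 h2).trans (le_of_eq (by ring)))

lemma cell_sub (J : Cell) : cell J ⊆ PP J := fun k h => by
  have hm := mu_pos J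
  rw [cell, mem_Ico] at h
  rw [PP, mem_Ioo]; omega

lemma card_PP (J : Cell) : ((PP J).card : ℝ) ≤ 3 * (mu J : ℝ) := by
  have hm := mu_pos J
  have : ((PP J).card : ℤ) ≤ 3 * mu J := by rw [PP, Int.card_Ioo]; omega
  exact_mod_cast this

lemma An_hat {m : ℤ} (hm : 0 < m) : An Set.univ (fun k => (hat m k : ℂ)) 1 := by
  have hR : (0 : ℝ) < m := by exact_mod_cast hm
  have c := An.conv (Ico 0 m) (Ioc (-m) 0) (fun _ => ((1 / m : ℝ) : ℂ)) (fun _ => 1) hR
  refine (c.congr fun k _ => ?_).mono (le_of_eq ?_)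
  · have e : ∀ j ∈ Ico 0 m, (∑ l ∈ Ioc (-m) 0, if j + l = k then ((1 / m : ℝ) : ℂ) * 1 else 0) =
        if j ∈ Ico k (k + m) then ((1 / m : ℝ) : ℂ) else 0 := by
      intro j _
      split_ifs with h
      · rw [mem_Ico] at h
        rw [sum_eq_single (k - j) (fun l _ hl => if_neg (by omega))
          (fun hl => absurd (mem_Ioc.2 (by omega)) hl), if_pos (by omega), mul_one]
      · rw [mem_Ico] at h
        exact sum_eq_zero fun l hl => if_neg (by rw [mem_Ioc] at hl; omega)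
    rw [sum_congr rfl e, sum_ite_mem, sum_const, Ico_inter_Ico, Int.card_Ico, nsmul_eq_mul,
      hat_mulB hR]
    have : (((min m (k + m) - max 0 k).toNat : ℕ) : ℤ) = max 0 (m - |k|) := by
      rcases abs_cases k with h | h <;> omega
    have h2 : (((min m (k + m) - max 0 k).toNat : ℕ) : ℝ) = max 0 (m - |(k : ℝ)|) := by
      exact_mod_cast this
    rw [← h2]; push_cast; ring
  · have e : ((m.toNat : ℕ) : ℝ) = m := by exact_mod_cast Int.toNat_of_nonneg hm.le
    simp only [sum_const, Int.card_Ico, Int.card_Ioc, sub_zero, sub_neg_eq_add, zero_add,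
      nsmul_eq_mul, e, norm_real, Real.norm_eq_abs, sq_abs, norm_one]
    field_simp; ring

lemma An_hat' {m : ℤ} (hm : 0 < m) (c : ℤ) : An Set.univ (fun k => (hat m (k - c) : ℂ)) 1 :=
  (An_hat hm).shift c

lemma An_phi (J : Cell) : An Set.univ (fun k => (phi J k : ℂ)) 2 := by
  refine (((An_hat' (mu_pos J) (cc J)).add (An_hat' (mu_pos J) (cc J + mu J))).congr
    fun k _ => ?_).mono (by norm_num)
  rw [phi, sub_add_eq_sub_sub]; push_cast; rfl

/-- rampB of width `2 ^ i` -/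
noncomputable def rampB (i : ℕ) (x : ℤ) : ℝ := max 0 (min (2 ^ i) (x : ℝ)) / 2 ^ i

lemma ramp_succB (i : ℕ) (x : ℤ) :
    rampB i x - rampB (i + 1) x = 1 / 2 * hat ((2 ^ i : ℤ) : ℝ) (x - 2 ^ i) := by
  have hp : (0 : ℝ) < 2 ^ i := by positivity
  rw [hat_mulB (by positivity), rampB, rampB, pow_succ]
  push_cast
  generalize (2 : ℝ) ^ i = m at *
  field_simp
  rcases abs_cases ((x : ℝ) - m) with h | h <;> simp only [max_def, min_def] <;> split_ifs <;>
    linarith [h.1, h.2]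

lemma An_ramp (i : ℕ) : An Set.univ (fun k => ((rampB 0 k - rampB i k : ℝ) : ℂ)) (i / 2) := by
  induction i with
  | zero => simpa using An.const (Set.univ : Set ℤ) 0
  | succ i ih =>
    refine ((ih.add ((An_hat' (m := 2 ^ i) (by positivity) (2 ^ i)).smul ((1 / 2 : ℝ) : ℂ))).congr
      fun k _ => ?_).mono (le_of_eq ?_)
    · rw [← ofReal_mul, ← ramp_succB]; push_cast; ring
    · rw [norm_real, Real.norm_of_nonneg (by norm_num)]; push_cast; ring

lemma An_step (i : ℕ) :
    An (Set.Icc (-2 ^ i) (2 ^ i) : Set ℤ) (fun k => if 1 ≤ k then 1 else 0) (i / 2 + 2) := by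
  have hp : (0 : ℝ) < 2 ^ i := by positivity
  have l := An.lip (f := fun k => (rampB i k : ℂ)) (a := -2 ^ i) (n := 2 ^ (i + 1)) (L := 1 / 2 ^ i)
    fun k _ _ => by
      rw [← ofReal_sub, norm_real, Real.norm_eq_abs, rampB, rampB, ← sub_div, abs_div, abs_of_pos hp]
      refine div_le_div_of_nonneg_right ?_ hp.le
      refine (abs_max_sub_max_le_max _ _ _ _).trans (max_le (by simp) ?_)
      exact (abs_min_sub_min_le_max _ _ _ _).trans (max_le (by simp) (by simp))
  have e : (-2 ^ i + ((2 ^ (i + 1) : ℕ) : ℤ) : ℤ) = 2 ^ i := by push_cast; ring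
  rw [e] at l
  refine ((((An_ramp i).subset (Set.subset_univ _)).add l).congr fun k _ => ?_).mono (le_of_eq ?_)
  · rw [← ofReal_add, sub_add_cancel, rampB]
    split_ifs with h
    · have : (1 : ℝ) ≤ k := by exact_mod_cast h
      simp [this]
    · have : (k : ℝ) ≤ 0 := by exact_mod_cast (by omega : k ≤ 0)
      simp [this]
  · have : rampB i (-2 ^ i) = 0 := by
      rw [rampB, max_eq_left ((min_le_right _ _).trans (by push_cast; linarith)), zero_div]
    rw [this]; push_cast; field_simp; simp; ring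

lemma An_cell (J : Cell) :
    An (PP J : Set ℤ) (fun k => if k ∈ cell J then 1 else 0) (4 * (J.1 + 2)) := by
  have hm := mu_pos J
  have e : (2 : ℤ) ^ (J.1 + 1) = 2 * mu J := by rw [mu]; ring
  have h1 := ((An_step (J.1 + 1)).shift (cc J - 1)).subset (S' := (PP J : Set ℤ)) fun k hk => by
    simp only [PP, coe_Ioo, Set.mem_Ioo] at hk
    simp only [e, Set.mem_ofPred_eq, Set.mem_Icc]; omega
  have h2 := ((An_step (J.1 + 1)).shift (cc J + mu J - 1)).subset (S' := (PP J : Set ℤ))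
    fun k hk => by
      simp only [PP, coe_Ioo, Set.mem_Ioo] at hk
      simp only [e, Set.mem_ofPred_eq, Set.mem_Icc]; omega
  refine ((h1.sub h2).congr fun k _ => ?_).mono ?_
  · simp only [cell, mem_Ico]
    split_ifs <;> first | omega | simp
  · have : (0 : ℝ) ≤ J.1 := Nat.cast_nonneg _
    push_cast; linarith

lemma choose_leB {α : ℝ} (h0 : 0 < α) (h1 : α < 1) (j : ℕ) : |Ring.choose α j| ≤ 1 := by
  induction j with
  | zero => simp
  | succ j ih =>
    have := Ring.choose_smul_choose α (Nat.le_succ j)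
    simp only [Nat.succ_eq_add_one, Nat.choose_succ_self_right, nsmul_eq_mul,
      add_tsub_cancel_left, Ring.choose_one_right', pow_one] at this
    have hj : (0 : ℝ) ≤ j := Nat.cast_nonneg _
    have h2 : |α - j| ≤ j + 1 := abs_le.2 ⟨by linarith, by linarith⟩
    have h3 := congrArg abs this
    push_cast at h3
    rw [abs_mul, abs_mul, abs_of_pos (by linarith : (0 : ℝ) < j + 1)] at h3
    refine le_of_mul_le_mul_left (h3.le.trans ?_) (by linarith : (0 : ℝ) < j + 1)
    rw [mul_comm]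
    exact mul_le_mul h2 ih (abs_nonneg _) (by linarith)

lemma binomB (α : ℝ) {u : ℝ} (hu : |u| < 1) :
    HasSum (fun j => Ring.choose α j * u ^ j) ((1 + u) ^ α) := by
  have := (Real.one_add_rpow_hasFPowerSeriesOnBall_zero (a := α)).hasSum (y := u)
    (by simpa [← ofReal_norm, ENNReal.ofReal_lt_one] using hu)
  simpa [binomialSeries, mul_comm] using this

lemma geo_bdB {r : ℝ} (h0 : 0 ≤ r) (h1 : r ≤ 1 / 4) (n : ℕ) :
    ∑ j ∈ range n, ((j : ℝ) + 2) * r ^ (j + 1) ≤ 4 * r := by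
  have : ∑ j ∈ range n, ((j : ℝ) + 2) * r ^ (j + 1) ≤ 4 * r - 2 * (n + 2) * r ^ (n + 1) := by
    induction n with
    | zero => simp; linarith
    | succ n ih =>
      rw [sum_range_succ, pow_succ r (n + 1)]
      have hp : 0 ≤ r ^ (n + 1) := by positivity
      have hn : (0 : ℝ) ≤ n := Nat.cast_nonneg _
      have : 2 * ((n : ℝ) + 3) * r ≤ n + 2 := by nlinarith
      push_cast
      nlinarith [mul_le_mul_of_nonneg_right this hp]
  have hp : 0 ≤ 2 * ((n : ℝ) + 2) * r ^ (n + 1) := by positivity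
  linarith

lemma An_err {α : ℝ} (h0 : 0 < α) (h1 : α < 1) {J : Cell} (hJ : 16 ≤ |J.2|) :
    An {p : ℤ × ℤ | p.1 ∈ PP J ∧ p.2 ∈ PP J} (errS α (vel α (cc J)))
      (32 * (mu J * |(cc J : ℝ)| ^ (α - 2))) := by
  have hm := mu_posRB J
  set c : ℝ := ((cc J : ℤ) : ℝ) with hc
  have hcm : 16 * (mu J : ℝ) ≤ |c| := by
    have : 16 * mu J ≤ |cc J| := by
      rw [show cc J = J.2 * mu J from rfl, abs_mul, abs_of_pos (mu_pos J)]
      exact mul_le_mul_of_nonneg_right hJ (mu_pos J).le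
    rw [hc]; exact_mod_cast this
  have hc0 : 0 < |c| := by linarith
  have hc1 : c ≠ 0 := abs_pos.1 hc0
  set u : ℤ → ℝ := fun k => (k - c) / c with hu
  set r : ℝ := 4 * mu J / |c| with hr
  have r0 : 0 ≤ r := by positivity
  have r1 : r ≤ 1 / 4 := by rw [hr, div_le_iff₀ hc0]; linarith
  have au : An (PP J : Set ℤ) (fun k => (u k : ℂ)) r := by
    obtain ⟨n, hn⟩ := Int.eq_ofNat_of_zero_le (mu_pos J).le
    have hn' : (mu J : ℝ) = n := by exact_mod_cast hn
    refine ((An.lip (f := fun k => (u k : ℂ)) (a := cc J - mu J) (n := 3 * n) (L := 1 / |c|)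
      fun k _ _ => ?_).subset fun k hk => ?_).mono (le_of_eq ?_)
    · rw [← ofReal_sub, norm_real, Real.norm_eq_abs, hu]
      simp only
      rw [← sub_div, abs_div]; push_cast; simp
    · simp only [PP, coe_Ioo, Set.mem_Ioo] at hk
      simp only [Set.mem_Icc]; push_cast; omega
    · rw [norm_real, Real.norm_eq_abs, hu, hr]
      simp only
      rw [abs_div]; push_cast
      rw [← hc, sub_sub_cancel_left, abs_neg, abs_of_pos hm, ← hn']; ring
  have ub : ∀ k ∈ PP J, |u k| < 1 := by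
    intro k hk
    rw [PP, mem_Ioo] at hk
    have a1 : c - mu J < k := by rw [hc]; exact_mod_cast hk.1
    have a2 : (k : ℝ) < c + 2 * mu J := by rw [hc]; exact_mod_cast hk.2
    rw [hu]
    simp only
    rw [abs_div, div_lt_one hc0, abs_lt]
    constructor <;> linarith
  have om_eq : ∀ k ∈ PP J, om α k = |c| ^ α * (1 + u k) ^ α := by
    intro k hk
    have h2 : 0 < 1 + u k := by linarith [(abs_lt.1 (ub k hk)).1]
    have h3 : (k : ℝ) = c * (1 + u k) := by rw [hu]; field_simp; ring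
    rw [om, ← Real.mul_rpow hc0.le h2.le, h3, abs_mul, abs_of_pos h2]
  set S : Set (ℤ × ℤ) := {p : ℤ × ℤ | p.1 ∈ PP J ∧ p.2 ∈ PP J}
  have a1 : An S (fun p => (u p.1 : ℂ)) r :=
    (au.comap (AddMonoidHom.fst ℤ ℤ)).subset fun p hp => hp.1
  have a2 : An S (fun p => (u p.2 : ℂ)) r :=
    (au.comap (AddMonoidHom.snd ℤ ℤ)).subset fun p hp => hp.2
  have a3 : An S (fun p => 1 - (hat (1 : ℤ) (p.1 - p.2) : ℂ)) (‖(1 : ℂ)‖ + 1) :=
    (An.const S 1).sub (((An_hat one_pos).comap
      (AddMonoidHom.fst ℤ ℤ - AddMonoidHom.snd ℤ ℤ)).subset fun p _ => Set.mem_univ _)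
  have a4 : ∀ j : ℕ, An S (fun p => ((Ring.choose α (j + 2) : ℝ) : ℂ) *
      ∑ i ∈ range (j + 2), (u p.1 : ℂ) ^ i * (u p.2 : ℂ) ^ (j + 2 - 1 - i))
      ((j + 2) * r ^ (j + 1)) := by
    intro j
    refine ((An.sum _ fun i _ => (a1.pow i).mul (a2.pow (j + 2 - 1 - i))).smul _).mono ?_
    rw [sum_congr rfl (g := fun _ => r ^ (j + 1)) fun i hi => by
      rw [← pow_add]; congr 1; have := mem_range.1 hi; omega]
    rw [norm_real, Real.norm_eq_abs, sum_const, card_range, nsmul_eq_mul]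
    push_cast
    exact mul_le_of_le_one_left (by positivity) (choose_leB h0 h1 _)
  refine An.lim (τ := fun n p => (1 - (hat (1 : ℤ) (p.1 - p.2) : ℂ)) * (((|c| ^ α / c : ℝ) : ℂ) *
    ∑ j ∈ range n, ((Ring.choose α (j + 2) : ℝ) : ℂ) *
      ∑ i ∈ range (j + 2), (u p.1 : ℂ) ^ i * (u p.2 : ℂ) ^ (j + 2 - 1 - i))) (fun n => ?_) ?_
  · refine (a3.mul ((An.sum _ fun j _ => a4 j).smul _)).mono ?_
    rw [norm_one, norm_real, Real.norm_eq_abs, abs_div, abs_of_pos (by positivity)]
    refine (mul_le_mul_of_nonneg_left (mul_le_mul_of_nonneg_left (geo_bdB r0 r1 n) (by positivity))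
      (by norm_num)).trans (le_of_eq ?_)
    rw [Real.rpow_sub hc0, hr, Real.rpow_two]
    field_simp; ring
  · rintro ⟨k, l⟩ ⟨hk, hl⟩
    simp only at hk hl ⊢
    by_cases hkl : k = l
    · simp [errS, hkl, hat]
    have e1 : hat (1 : ℤ) (k - l) = 0 := hat_zeroB (by norm_num)
      (by exact_mod_cast Int.one_le_abs (sub_ne_zero.2 hkl))
    have hd : (k : ℝ) - l ≠ 0 := sub_ne_zero.2 (by exact_mod_cast hkl)
    have hd' : u k - u l = (k - l) / c := by rw [hu]; ring
    have hd2 : u k - u l ≠ 0 := by rw [hd']; positivity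
    have hs := ((binomB α (ub k hk)).sub (binomB α (ub l hl))).div_const (u k - u l)
    have hs2 := (hasSum_nat_add_iff' 2).2 hs
    have e2 : ∀ j : ℕ, (Ring.choose α j * u k ^ j - Ring.choose α j * u l ^ j) / (u k - u l) =
        Ring.choose α j * ∑ i ∈ range j, u k ^ i * u l ^ (j - 1 - i) := by
      intro j
      rw [← mul_sub, ← geom_sum₂_mul, ← mul_assoc, mul_div_cancel_right₀ _ hd2]
    simp only [e2] at hs2
    have t := ((continuous_ofReal.tendsto _).comp
      (hs2.tendsto_sum_nat.const_mul (|c| ^ α / c)))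
    simp only [e1, errS, if_neg hkl, ofReal_zero, sub_zero, one_mul]
    convert t using 2
    · simp
    · congr 1
      have sg : ((cc J).sign : ℝ) * |c| = c := by rw [hc]; exact_mod_cast Int.sign_mul_abs _
      have e3 : vel α (cc J) = α * (|c| ^ α / c) := by
        rw [vel, ← hc, Real.rpow_sub_one hc0.ne', mul_assoc]
        congr 1
        have : ((cc J).sign : ℝ) = |c| / c := by
          rw [eq_div_iff hc1]
          refine mul_right_cancel₀ hc0.ne' ?_
          rw [mul_right_comm, sg, abs_mul_abs_self]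
        rw [this]; field_simp
      rw [e3, om_eq k hk, om_eq l hl, hd']
      simp [sum_range_succ]
      field_simp

lemma sq_secondB (s h : ℝ) : 0 ≤ max 0 (s + h) ^ 2 - 2 * max 0 s ^ 2 + max 0 (s - h) ^ 2 ∧
    max 0 (s + h) ^ 2 - 2 * max 0 s ^ 2 + max 0 (s - h) ^ 2 ≤ 2 * h ^ 2 := by
  simp only [max_def]
  split_ifs <;> constructor <;> nlinarith [sq_nonneg h, sq_nonneg (s - h), sq_nonneg (s + h)]

/-- the profile of the step -/
noncomputable def PsB (s : ℝ) : ℝ :=
  2 * (max 0 (s - 1) ^ 2 - 2 * max 0 (s - 3 / 2) ^ 2 + max 0 (s - 2) ^ 2)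

lemma Ps_eqB (s : ℝ) : PsB s =
    2 * min (max 0 (s - 1)) (1 / 2) ^ 2 + 1 / 2 - 2 * min (max 0 (2 - s)) (1 / 2) ^ 2 := by
  simp only [PsB, max_def, min_def]
  split_ifs <;> nlinarith

lemma cl_bdB (x : ℝ) : 0 ≤ min (max 0 x) (1 / 2) ∧ min (max 0 x) (1 / 2) ≤ 1 / 2 :=
  ⟨le_min (le_max_left _ _) (by norm_num), min_le_right _ _⟩

lemma cl_lipB (x y : ℝ) : |min (max 0 x) (1 / 2) ^ 2 - min (max 0 y) (1 / 2) ^ 2| ≤ |x - y| := by
  rw [sq_sub_sq, abs_mul]
  have h1 := cl_bdB x
  have h2 := cl_bdB y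
  refine (mul_le_of_le_one_left (abs_nonneg _) (abs_le.2 ⟨by linarith, by linarith⟩)).trans ?_
  refine (abs_min_sub_min_le_max _ _ _ _).trans (max_le ?_ (by simp))
  exact (abs_max_sub_max_le_max _ _ _ _).trans (max_le (by simp) le_rfl)

lemma Ps_lipB (s t : ℝ) : |PsB s - PsB t| ≤ 4 * |s - t| := by
  have h1 := abs_le.1 (cl_lipB (s - 1) (t - 1))
  have h2 := abs_le.1 (cl_lipB (2 - s) (2 - t))
  rw [sub_sub_sub_cancel_right] at h1
  rw [sub_sub_sub_cancel_left, abs_sub_comm] at h2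
  rw [Ps_eqB, Ps_eqB, abs_le]
  constructor <;> linarith [h1.1, h1.2, h2.1, h2.2]

lemma Ps_secondB (s h : ℝ) : |PsB (s + h) - 2 * PsB s + PsB (s - h)| ≤ 8 * h ^ 2 := by
  have h1 := sq_secondB (s - 1) h
  have h2 := sq_secondB (s - 3 / 2) h
  have h3 := sq_secondB (s - 2) h
  simp only [PsB, add_sub_right_comm s h, sub_right_comm s h]
  rw [abs_le]
  constructor <;> linarith [h1.1, h1.2, h2.1, h2.2, h3.1, h3.2]

lemma Ps_zeroB {s : ℝ} (h : s ≤ 1) : PsB s = 0 := by
  rw [PsB, max_eq_left (by linarith), max_eq_left (by linarith), max_eq_left (by linarith)]; ring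

lemma Ps_oneB {s : ℝ} (h : 2 ≤ s) : PsB s = 1 := by
  rw [PsB, max_eq_right (by linarith), max_eq_right (by linarith), max_eq_right (by linarith)]; ring

/-- a discrete `C^{1,1}` step -/
lemma exists_psi {N : ℝ} (hN : 4 ≤ N) : ∃ ψ : ℤ → ℝ, (∀ k, 0 ≤ ψ k) ∧ (∀ k, ψ k ≤ 1) ∧
    (∀ k, br k ≤ N → ψ k = 0) ∧ (∀ k, 2 * N ≤ br k → ψ k = 1) ∧
    (∀ k, |ψ (k + 1) - ψ k| ≤ 8 / N) ∧
    (∀ k, |ψ (k + 2) - 2 * ψ (k + 1) + ψ k| ≤ 16 / N ^ 2) := by
  have h0 : 0 < N := by linarith
  have z : ∀ k, br k ≤ N → PsB (br k / N) = 0 := fun k h => Ps_zeroB ((div_le_one h0).2 h)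
  refine ⟨fun k => PsB (br k / N), fun k => ?_, fun k => ?_, z,
    fun k h => Ps_oneB ((le_div_iff₀ h0).2 h), fun k => ?_, fun k => ?_⟩
  · have h1 := cl_bdB (2 - br k / N)
    simp only [Ps_eqB]
    nlinarith [sq_nonneg (min (max 0 (br k / N - 1)) (1 / 2))]
  · have h1 := cl_bdB (br k / N - 1)
    simp only [Ps_eqB]
    nlinarith [sq_nonneg (min (max 0 (2 - br k / N)) (1 / 2))]
  · refine (Ps_lipB _ _).trans ?_
    rw [← sub_div, abs_div, abs_of_pos h0, ← mul_div_assoc]
    refine div_le_div_of_nonneg_right ?_ h0.le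
    have : |br (k + 1) - br k| ≤ 1 := by
      rw [br, br, add_sub_add_left_eq_sub]
      exact (abs_abs_sub_abs_le_abs_sub _ _).trans (by simp)
    linarith
  · have b : 8 * (1 / N) ^ 2 ≤ 16 / N ^ 2 := by
      rw [div_pow, ← mul_div_assoc]; gcongr; norm_num
    simp only
    rcases lt_trichotomy k (-1) with h | rfl | h
    · have hk : (k : ℝ) ≤ -2 := by exact_mod_cast (by omega : k ≤ -2)
      have := Ps_secondB (br (k + 1) / N) (-(1 / N))
      rw [neg_sq] at this
      refine le_trans (le_of_eq ?_) (this.trans b)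
      congr 3 <;> simp only [br] <;> push_cast <;>
        rw [abs_of_nonpos (by linarith), abs_of_nonpos (by linarith)] <;> ring_nf
    · rw [z _ (by norm_num [br]; linarith), z _ (by norm_num [br]; linarith),
        z _ (by norm_num [br]; linarith)]
      norm_num; positivity
    · have hk : (0 : ℝ) ≤ k := by exact_mod_cast (by omega : 0 ≤ k)
      refine le_trans (le_of_eq ?_) ((Ps_secondB (br (k + 1) / N) (1 / N)).trans b)
      congr 3 <;> simp only [br] <;> push_cast <;>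
        rw [abs_of_nonneg (by linarith), abs_of_nonneg (by linarith)] <;> ring_nf

end Pool.Agent.Lib.MMTW
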