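import Pool.Agent.Lib.MP_0dc93f_an.WZ

/-! The source of a regular window (job D4). -/

namespace Pool.Agent.Lib.MMTW

open Finset Complex

variable {d : Dat} {K : ℕ} {Q R β : ℝ} {J J' : Cell} {ν : Cell → ℝ} {τ : Ty}

/-- the source symbol with its symmetric part removed -/
noncomputable def sig (K : ℕ) (J : Cell) (l : ℕ) (k : Fin 4 → ℤ) : ℝ :=
  phi J (k 3) * (phi J (k 0 - k 1 + k 2) - if K * 2 ^ l ≤ 64 * mu J then phi J (k 2) else 0)

lemma tlev_swap (K Kc : ℕ) (k : Fin 4 → ℤ) : tlev K Kc ![k 1, k 0, k 3, k 2] = tlev K Kc k := by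
  have h : ∀ (k : Fin 4 → ℤ) l, close K l k → close K l ![k 1, k 0, k 3, k 2] := fun k l h i j => by
    fin_cases i <;> fin_cases j <;> exact h _ _
  have e : ∀ l, close K l ![k 1, k 0, k 3, k 2] ↔ close K l k := fun l =>
    ⟨fun h1 => by
      have := h _ l h1
      convert this using 1
      ext i; fin_cases i <;> rfl, h k l⟩
  unfold tlev
  exact fg_congr fun l _ => not_congr (e l).symm

lemma src_eq (d : Dat) (K : ℕ) (J J' : Cell) (h h' : ℝ) : d.src J J' h h' =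
    (∑ τ ∈ TT K d.Kc, ∑ k ∈ d.box τ.2, d.w1 J' h h' k * (sig K J τ.1 k : ℂ)).im := by
  have h0 := d.src_symm J' h h' (σ := fun k =>
    if K * 2 ^ tlev K d.Kc k ≤ 64 * mu J then phi J (k 3) * phi J (k 2) else 0) fun k => by
      simp only [tlev_swap]; split_ifs
      · exact mul_comm _ _
      · rfl
  have h1 : ∑ τ ∈ TT K d.Kc, ∑ k ∈ d.box τ.2, d.w1 J' h h' k * (sig K J τ.1 k : ℂ) =
      ∑ k ∈ F4 d.Kc, d.w1 J' h h' k * (sig K J (tlev K d.Kc k) k : ℂ) := by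
    rw [sum_types K]
    refine sum_congr rfl fun τ hτ => sum_congr rfl fun k hk => ?_
    obtain ⟨k0, -, rfl⟩ := mem_image.1 hτ
    rw [← ty_eq (mem_filter.1 hk).2]; rfl
  rw [h1, Dat.src, ← sub_zero (im _), ← h0, ← sub_im, ← sum_sub_distrib]
  congr 1
  refine sum_congr rfl fun k _ => ?_
  rw [sig]; split_ifs <;> push_cast <;> ring

/-- projection -/
def pj (i : Fin 4) : (Fin 4 → ℤ) →+ ℤ := Pi.evalAddMonoidHom (fun _ => ℤ) i

lemma pj_apply (i : Fin 4) (k : Fin 4 → ℤ) : pj i k = k i := rfl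

lemma cellS_bd (H : Hyp d K Q R β) (hτ : τ ∈ TT K d.Kc) {k : Fin 4 → ℤ} (hk : k ∈ cellS τ.2)
    (i : Fin 4) : cc (τ.2 i) ≤ k i ∧ k i < cc (τ.2 i) + 2 ^ τ.1 := by
  have h1 := mem_cell.1 (hk i)
  have h2 : mu (τ.2 i) ≤ 2 ^ τ.1 := pow_le_pow_right₀ (by norm_num) ((H.good hτ).lev i)
  omega

lemma An_sig (H : Hyp d K Q R β) (hτ : τ ∈ TT K d.Kc) (J : Cell) :
    An (cellS τ.2) (fun k => (sig K J τ.1 k : ℂ)) (coef K Q J τ) := by
  have h3 : An (cellS τ.2) (fun k => (phi J (k 3) : ℂ)) 2 :=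
    ((An_phi J).comap (pj 3)).subset fun _ _ => trivial
  unfold coef
  split_ifs with h1 h2
  · refine ((An.const _ 0).mono (by simp)).congr fun k hk => ?_
    rw [sig, phi_off fun h => notMem_empty _ (h1 ▸ mem_inter.2 ⟨h, hk 3⟩)]; simp
  · have hm : (0 : ℝ) < mu J := by exact_mod_cast mu_pos J
    set a := cc (τ.2 2) - (2 * K + 3) * 2 ^ τ.1 with ha
    have h4 := An.lip (f := fun k => (phi J k : ℂ) - phi J a) (a := a) (n := (4 * K + 7) * 2 ^ τ.1)
      (L := 2 / mu J) fun k _ _ => by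
        rw [sub_sub_sub_cancel_right, ← ofReal_sub, norm_real]; exact phi_lip J k
    have h5 := (h4.comap (pj 0 - pj 1 + pj 2)).subset (S' := cellS τ.2) fun k hk => by
      have := cellS_bd H hτ hk 0; have := cellS_bd H hτ hk 1; have := cellS_bd H hτ hk 2
      have := (H.good hτ).near 0 1; have := (H.good hτ).near 1 0
      simp only [Set.mem_preimage, AddMonoidHom.add_apply, AddMonoidHom.sub_apply, pj_apply,
        Set.mem_Icc]
      push_cast; constructor <;> linarith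
    have h6 := (h4.comap (pj 2)).subset (S' := cellS τ.2) fun k hk => by
      have := cellS_bd H hτ hk 2
      have : (0 : ℤ) ≤ K * 2 ^ τ.1 := by positivity
      have : (0 : ℤ) ≤ 2 ^ τ.1 := by positivity
      simp only [Set.mem_preimage, pj_apply, Set.mem_Icc]
      push_cast; constructor <;> linarith
    refine ((h3.mul (h5.sub h6)).mono ?_).congr fun k _ => ?_
    · have hK : (250000 : ℝ) ≤ K := by exact_mod_cast H.K_ge
      have := mul_le_mul_of_nonneg_right (by linarith [H.hQ] : 32 * (K : ℝ) + 56 ≤ Q)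
        (DD_pos τ).le
      rw [sub_self, norm_zero, le_div_iff₀ hm]
      unfold DD at this ⊢
      push_cast; field_simp; linarith
    · simp only [sig, if_pos h2, AddMonoidHom.add_apply, AddMonoidHom.sub_apply, pj_apply]
      push_cast; ring
  · refine ((h3.mul (((An_phi J).comap (pj 0 - pj 1 + pj 2)).subset fun _ _ => trivial)).mono
      (by norm_num)).congr fun k _ => ?_
    simp only [sig, if_neg h2, AddMonoidHom.add_apply, AddMonoidHom.sub_apply, pj_apply]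
    push_cast; ring

lemma An_inv (H : Hyp d K Q R β) (hτ : τ ∈ TT K d.Kc) (ho : Out K τ) :
    An (cellS τ.2) (fun k => (I * De k)⁻¹) (1 / DD τ) := by
  set c := De fun i => cc (τ.2 i) with hc
  have hK : (250000 : ℤ) ≤ K := by exact_mod_cast H.K_ge
  have hD : (0 : ℤ) < 2 ^ τ.1 := by positivity
  have hD' := DD_pos τ
  have lo : ∀ p : ℤ, c - 2 * 2 ^ τ.1 ≤ p → p ≤ c - 2 * 2 ^ τ.1 + 4 * 2 ^ τ.1 →
      4 * DD τ ≤ ‖(p : ℂ)‖ := fun p h1 h2 => by
    have h3 : 250000 * 2 ^ τ.1 < 10 * |c| := lt_of_le_of_lt (by nlinarith) ho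
    have h4 : 4 * 2 ^ τ.1 ≤ |p| := by simp only [abs_eq_max_neg] at h3 ⊢; omega
    rw [norm_intCast, DD]; exact_mod_cast h4
  have h4 := An.lip (f := fun p : ℤ => (I * p)⁻¹) (a := c - 2 * 2 ^ τ.1) (n := 4 * 2 ^ τ.1)
    (L := 1 / (4 * DD τ) ^ 2) fun p h1 h2 => by
      push_cast at h2
      have a1 := lo p h1 h2.le
      have a2 := lo (p + 1) (by omega) (by omega)
      have n1 : (p : ℂ) ≠ 0 := norm_pos_iff.1 (by linarith)
      have n2 : ((p + 1 : ℤ) : ℂ) ≠ 0 := norm_pos_iff.1 (by linarith)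
      have e : (I * ((p + 1 : ℤ) : ℂ))⁻¹ - (I * p)⁻¹ = I * (((p + 1 : ℤ) : ℂ) * p)⁻¹ := by
        field_simp; push_cast; ring_nf; simp
      rw [e, norm_mul, norm_I, one_mul, norm_inv, norm_mul, one_div, sq]
      gcongr
  refine (((h4.comap (pj 0 - pj 1 + pj 2 - pj 3)).subset fun k hk => ?_).mono ?_).congr
    fun k _ => rfl
  · have := cellS_bd H hτ hk 0; have := cellS_bd H hτ hk 1; have := cellS_bd H hτ hk 2
    have := cellS_bd H hτ hk 3
    simp only [Set.mem_preimage, AddMonoidHom.add_apply, AddMonoidHom.sub_apply, pj_apply,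
      Set.mem_Icc, hc, De]
    push_cast; constructor <;> linarith
  · have a1 := lo (c - 2 * 2 ^ τ.1) le_rfl (by omega)
    have a2 : ‖(I * ((c - 2 * 2 ^ τ.1 : ℤ) : ℂ))⁻¹‖ ≤ (4 * DD τ)⁻¹ := by
      rw [norm_inv, norm_mul, norm_I, one_mul]; gcongr
    have a3 : ((4 * 2 ^ τ.1 : ℕ) : ℝ) = 4 * DD τ := by simp [DD]
    rw [a3]
    refine (add_le_add_left a2 _).trans ?_
    field_simp; norm_num

lemma gg_near (H : Hyp d K Q R β) {A : Cell} (h : xx J ≤ 2 * xx A) : gg Q β A ≤ 4 * gg Q β J := by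
  have hβ : 0 ≤ β := by linarith [H.a1, H.b1]
  have h1 : xx A ^ (-β) ≤ (xx J / 2) ^ (-β) :=
    Real.rpow_le_rpow_of_nonpos (half_pos (xx_pos J)) (by linarith) (by linarith)
  have h2 : (xx J / 2) ^ (-β) = 2 ^ β * xx J ^ (-β) := by
    rw [Real.div_rpow (xx_pos J).le (by norm_num), Real.rpow_neg (by norm_num : (0 : ℝ) ≤ 2)]
    field_simp
  have h3 : (2 : ℝ) ^ β ≤ 4 :=
    (Real.rpow_le_rpow_of_exponent_le (by norm_num) H.b2).trans (by norm_num)
  have h4 := Real.rpow_pos_of_pos (xx_pos J) (-β)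
  have h5 : xx A ^ (-β) ≤ 4 * xx J ^ (-β) := by nlinarith
  unfold gg; nlinarith [sq_nonneg Q]

lemma gg_eps (H : Hyp d K Q R β) (hr : reg K d.Kc J) :
    gg Q β J / eps d.α J ≤ Q ^ 2 * xx J ^ (2 - d.α - β) / mu J := by
  have h1 := mul_le_mul_of_nonneg_left (inv_eps_le H hr) (gg_pos H J).le
  rw [mul_one_div] at h1
  refine h1.trans (le_of_eq ?_)
  rw [gg, show 2 - d.α - β = -β + (2 - d.α) by ring, Real.rpow_add (xx_pos J)]; ring

lemma mu_le_loc (H : Hyp d K Q R β) (hl : K * 2 ^ τ.1 ≤ 64 * mu J) : DD τ ≤ mu J := by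
  have hK : (250000 : ℤ) ≤ K := by exact_mod_cast H.K_ge
  have hD : (0 : ℤ) < 2 ^ τ.1 := by positivity
  have : 2 ^ τ.1 ≤ mu J := by nlinarith
  unfold DD; exact_mod_cast this

/-- the outlier term -/
lemma src_out (H : Hyp d K Q R β) (hν : Pn d K Q β ν) (hJ' : J' ∈ AA K d.Kc)
    (hr : reg K d.Kc J) (hr' : reg K d.Kc J') (hok : Ok d.α K d.Kc J J') (h h' : ℝ)
    (hτ : τ ∈ TT K d.Kc) (ho : Out K τ) (hm : PP J ∩ cell (τ.2 3) ≠ ∅)
    (hl : K * 2 ^ τ.1 ≤ 64 * mu J) :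
    ‖∑ k ∈ d.box τ.2, d.w1 J' h h' k * (sig K J τ.1 k : ℂ)‖ ≤
      gg Q β J' * (coef K Q J τ * (Lg τ.2 * Q ^ 3 * xx (τ.2 3) ^ (2 - d.α - β) / DD τ *
        (ν (τ.2 0) + ν (τ.2 1)))) +
      coef K Q J τ * Lg τ.2 * (gg Q β J / eps d.α J) * (gg Q β J * ν J') := by
  obtain ⟨hf, hn⟩ := local_far H hτ hr hm hl
  have hg := H.good hτ
  have hD := DD_pos τ
  have hc := coef_nonneg H J τ
  have hL := Lg_pos τ.2
  have he := eps_pos H hr
  have g0 := gg_pos H J
  have g1 := gg_pos H J'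
  have h1 := d.master2 τ.2 ((An_sig H hτ J).mul (An_inv H hτ ho)) (by positivity) J' h h'
    (m_le H (hg.mem 2)) (m_le H (hg.mem 3))
  have e1 : ∑ k ∈ d.box τ.2, d.w1 J' h h' k * (sig K J τ.1 k : ℂ) =
      ∑ k ∈ d.box τ.2, d.w2 J' h h' k * ((sig K J τ.1 k : ℂ) * (I * De k)⁻¹) :=
    sum_congr rfl fun k _ => by rw [Dat.w1]; ring
  have hX : ∀ i, d.X J' (τ.2 i) ≤
      (4 * (gg Q β J * ν J') + gg Q β J' * ν (τ.2 i)) / (1000 * eps d.α J) := fun i => by
    have h2 : K * mu (τ.2 i) ≤ 64 * mu J := le_trans (mul_le_mul_of_nonneg_left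
      (pow_le_pow_right₀ (by norm_num) (hg.lev i)) (by positivity)) hl
    obtain ⟨h3, h4⟩ := closure_ok H hr hr' hok h2 (hn i).1
    have h5 := hν.2 J' hJ' _ (hg.mem i) h3
    have h6 := mul_le_mul_of_nonneg_right h4 (d.X_nonneg J' (τ.2 i))
    have h7 := mul_le_mul_of_nonneg_left (gg_near H (hn i).2.1) (hν.1 J')
    rw [le_div_iff₀ (by positivity)]; linarith
  have hs : ∀ i, √(3 * (mu (τ.2 i) : ℝ) * (gg Q β (τ.2 i) / 13)) ≤ √(DD τ * gg Q β J) :=
    fun i => Real.sqrt_le_sqrt (by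
      rw [(hf i).2]; nlinarith [mul_le_mul_of_nonneg_left (gg_near H (hn i).2.1) hD.le])
  have hs2 := mul_le_mul (hs 2) (hs 3) (Real.sqrt_nonneg _) (Real.sqrt_nonneg _)
  rw [Real.mul_self_sqrt (by positivity)] at hs2
  have hx : √(d.X J' (τ.2 0)) * √(d.X J' (τ.2 1)) ≤ (d.X J' (τ.2 0) + d.X J' (τ.2 1)) / 2 := by
    nlinarith [sq_nonneg (√(d.X J' (τ.2 0)) - √(d.X J' (τ.2 1))),
      Real.sq_sqrt (d.X_nonneg J' (τ.2 0)), Real.sq_sqrt (d.X_nonneg J' (τ.2 1))]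
  have hν0 := hν.1 (τ.2 0)
  have hν1 := hν.1 (τ.2 1)
  have hν2 := hν.1 J'
  have hq : gg Q β J / eps d.α J ≤ Q ^ 3 * xx (τ.2 3) ^ (2 - d.α - β) / DD τ := by
    have h2 := rpow_near (e := 2 - d.α - β) (xx_pos J) (xx_pos (τ.2 3)) (hn 3).2.1 (hn 3).2.2
      (by linarith [H.a2, H.b2]) (by linarith [H.a1, H.b1])
    have h3 := Real.rpow_pos_of_pos (xx_pos (τ.2 3)) (2 - d.α - β)
    have h4 := H.Q_ge
    calc _ ≤ _ := gg_eps H hr
      _ ≤ Q ^ 2 * (Q * xx (τ.2 3) ^ (2 - d.α - β)) / DD τ := by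
          gcongr
          · nlinarith
          · exact mu_le_loc H hl
      _ = _ := by ring
  rw [e1]
  calc _ ≤ _ := h1
    _ ≤ coef K Q J τ * (1 / DD τ) * Lg τ.2 * (DD τ * gg Q β J) *
        ((4 * (gg Q β J * ν J') + gg Q β J' * (ν (τ.2 0) + ν (τ.2 1)) / 2) /
          (1000 * eps d.α J)) := by
        gcongr
        refine hx.trans ?_
        have := add_le_add (hX 0) (hX 1)
        refine (div_le_div_of_nonneg_right this (by norm_num)).trans (le_of_eq ?_)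
        ring
    _ = gg Q β J' * (coef K Q J τ * (Lg τ.2 * (gg Q β J / eps d.α J / 2000) *
          (ν (τ.2 0) + ν (τ.2 1)))) +
        coef K Q J τ * Lg τ.2 * (gg Q β J / eps d.α J / 250) * (gg Q β J * ν J') := by
        field_simp; ring
    _ ≤ _ := by
        have h2 : 0 ≤ gg Q β J / eps d.α J := by positivity
        rw [mul_assoc (Lg τ.2) (Q ^ 3), mul_div_assoc (Lg τ.2)]
        generalize Q ^ 3 * xx (τ.2 3) ^ (2 - d.α - β) / DD τ = z at *
        generalize gg Q β J / eps d.α J = z' at *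
        have h3 : z' / 2000 ≤ z := by linarith
        have h4 : z' / 250 ≤ z' := by linarith
        gcongr

open Classical in
lemma src_sum (H : Hyp d K Q R β) (hJ : J ∈ AA K d.Kc) (hr : reg K d.Kc J) :
    ∑ τ ∈ TT K d.Kc with ¬ Sm R τ ∧ PP J ∩ cell (τ.2 3) ≠ ∅ ∧ K * 2 ^ τ.1 ≤ 64 * mu J,
      coef K Q J τ * Lg τ.2 * (gg Q β J / eps d.α J) ≤ 1 / 32 := by
  have hK := H.K_ge
  have hQ := H.Q_ge
  have hR := H.hR1
  have hx := xx_pos J
  have hm : (0 : ℝ) < mu J := by exact_mod_cast mu_pos J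
  have hδ : 0 ≤ 2 * Q ^ 14 * xx J ^ (-(5 / 1000000) : ℝ) / (R * mu J) := by positivity
  refine (sum_schur (by omega) (filter_subset _ _)
    (y := fun J' => (((PP J).filter fun k => k ∈ PP J').card : ℝ)) (fun _ _ => by positivity) hδ
    fun τ hτ => ?_).trans ?_
  · obtain ⟨hτ, hs, hme, hl⟩ := mem_filter.1 hτ
    obtain ⟨hf, hn⟩ := local_far H hτ hr hme hl
    have hD := DD_pos τ
    have h1 := mu_le_loc H hl
    have h2 := mu_le_xx (by omega) hJ
    have h3 : DD τ ≤ ∑ i, (((PP J).filter fun k => k ∈ PP (τ.2 i)).card : ℝ) := by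
      have := overlap hme
      rw [(hf 3).2, min_eq_right h1] at this
      exact this.trans (single_le_sum (f := fun i => (((PP J).filter fun k =>
        k ∈ PP (τ.2 i)).card : ℝ)) (fun _ _ => by positivity) (mem_univ 3))
    have h4 : R * (xx J ^ (801 / 1000 : ℝ) / 2) ≤ mu J := by
      refine le_trans ?_ ((not_le.1 hs).le.trans h1)
      gcongr
      calc _ ≤ (2 * xx (τ.2 3)) ^ (801 / 1000 : ℝ) / 2 := by gcongr; exact (hn 3).2.1
        _ = 2 ^ (801 / 1000 : ℝ) / 2 * xx (τ.2 3) ^ (801 / 1000 : ℝ) := by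
            rw [Real.mul_rpow (by norm_num) (xx_pos _).le]; ring
        _ ≤ _ := mul_le_of_le_one_left (Real.rpow_nonneg (xx_pos _).le _) (by
            rw [div_le_one (by norm_num)]
            exact (Real.rpow_le_rpow_of_exponent_le (by norm_num) (by norm_num)).trans
              (Real.rpow_one 2).le)
    have h5 : xx J ^ (5 / 100000 : ℝ) * xx J ^ (2 - d.α - β) ≤
        xx J ^ (-(5 / 1000000) : ℝ) * xx J ^ (801 / 1000 : ℝ) := by
      rw [← Real.rpow_add hx, ← Real.rpow_add hx]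
      exact Real.rpow_le_rpow_of_exponent_le (one_le_xx J) (by linarith [H.a1, H.b1])
    have h6 : Lg τ.2 * ((τ.1 : ℝ) + 2) ^ 6 ≤ Q ^ 11 * xx J ^ (5 / 100000 : ℝ) :=
      (logs H hτ).trans (by gcongr; linarith)
    have h7 := gg_eps H hr
    have h8 := gg_pos H J
    have h9 := eps_pos H hr
    rw [coef, if_neg hme, if_pos hl]
    calc _ = Q * DD τ / mu J * (Lg τ.2 * ((τ.1 : ℝ) + 2) ^ 6) * (gg Q β J / eps d.α J) := by ring
      _ ≤ Q * DD τ / mu J * (Q ^ 11 * xx J ^ (5 / 100000 : ℝ)) *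
          (Q ^ 2 * xx J ^ (2 - d.α - β) / (R * (xx J ^ (801 / 1000 : ℝ) / 2))) := by
          gcongr _ * ?_ * ?_
          exact h7.trans (by gcongr)
      _ = Q ^ 14 * DD τ / mu J * (xx J ^ (5 / 100000 : ℝ) * xx J ^ (2 - d.α - β)) /
          (R * (xx J ^ (801 / 1000 : ℝ) / 2)) := by ring
      _ ≤ Q ^ 14 * DD τ / mu J * (xx J ^ (-(5 / 1000000) : ℝ) * xx J ^ (801 / 1000 : ℝ)) /
          (R * (xx J ^ (801 / 1000 : ℝ) / 2)) := by gcongr
      _ = 2 * Q ^ 14 * xx J ^ (-(5 / 1000000) : ℝ) / (R * mu J) * DD τ := by field_simp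
      _ ≤ _ := by gcongr
  · have h1 : 4 * (4 * (K : ℝ) + 5) ^ 4 ≤ Q ^ 4 := by
      have hK' : (250000 : ℝ) ≤ K := by exact_mod_cast hK
      calc _ ≤ (2 * (4 * (K : ℝ) + 5)) ^ 4 := by
            rw [mul_pow]; gcongr; norm_num
        _ ≤ _ := by gcongr; linarith [H.hQ]
    have h2 : 64 * Q ^ 20 ≤ R := by
      refine le_trans ?_ H.QR
      calc 64 * Q ^ 20 ≤ Q * Q ^ 20 := by gcongr; linarith
        _ = Q ^ 21 := by ring
        _ ≤ _ := pow_le_pow_right₀ (by linarith) (by norm_num)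
    calc _ ≤ Q ^ 4 * (2 * Q ^ 14 * xx J ^ (-(5 / 1000000) : ℝ) / (R * mu J)) *
          (Q ^ 2 * mu J * xx J ^ (5 / 1000000 : ℝ)) := by
          gcongr
          exact sum_overlap H hJ
      _ = 2 * Q ^ 20 / R := by rw [Real.rpow_neg hx.le]; field_simp
      _ ≤ _ := by rw [div_le_iff₀ (by linarith)]; linarith

theorem src_le (H : Hyp d K Q R β) (hν : Pn d K Q β ν) (hJ : J ∈ AA K d.Kc)
    (hJ' : J' ∈ AA K d.Kc) (hr : reg K d.Kc J) (hr' : reg K d.Kc J') (hok : Ok d.α K d.Kc J J')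
    (h h' : ℝ) :
    |d.src J J' h h'| ≤ gg Q β J' * ∑ τ ∈ TT K d.Kc, coef K Q J τ * Yt d K Q R β ν τ +
      1 / 32 * (gg Q β J * ν J') := by
  classical
  have g0 := gg_pos H J
  have g1 := gg_pos H J'
  have he := eps_pos H hr
  have hν' := hν.1 J'
  rw [src_eq d K]
  refine (abs_im_le_norm _).trans ((norm_sum_le _ _).trans ?_)
  refine le_trans ?_ (add_le_add_right (mul_le_mul_of_nonneg_right (src_sum H hJ hr)
    (by positivity)) _)
  rw [mul_sum, sum_mul, sum_filter, ← sum_add_distrib]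
  refine sum_le_sum fun τ hτ => ?_
  have hc := coef_nonneg H J τ
  have hL := Lg_pos τ.2
  have hY := Yt_nonneg (R := R) H hν.1 τ
  by_cases h1 : ¬ Sm R τ ∧ Out K τ
  · by_cases h2 : PP J ∩ cell (τ.2 3) ≠ ∅ ∧ K * 2 ^ τ.1 ≤ 64 * mu J
    · rw [if_pos ⟨h1.1, h2⟩, Yt, if_pos h1, if_pos (local_far H hτ hr h2.1 h2.2).1]
      exact src_out H hν hJ' hr hr' hok h h' hτ h1.2 h2.1 h2.2
    · rw [if_neg fun h3 => h2 h3.2, sum_eq_zero fun k hk => ?_, norm_zero]
      · positivity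
      have hk' : k ∈ cellS τ.2 := (mem_filter.1 hk).2
      by_cases h3 : k 3 ∈ PP J
      · have h4 : ¬ K * 2 ^ τ.1 ≤ 64 * mu J := fun h4 =>
          h2 ⟨ne_empty_of_mem (mem_inter.2 ⟨h3, hk' 3⟩), h4⟩
        rw [sig, if_neg h4, phi_off (k := k 0 - k 1 + k 2) fun h5 => ?_]
        · simp
        have a0 := cellS_bd H hτ hk' 0; have a1 := cellS_bd H hτ hk' 1
        have a2 := cellS_bd H hτ hk' 2; have a3 := cellS_bd H hτ hk' 3
        have a4 := mem_PP.1 h3; have a5 := mem_PP.1 h5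
        have a6 := h1.2
        have hK : (250000 : ℤ) ≤ K := by exact_mod_cast H.K_ge
        have hD : (0 : ℤ) < 2 ^ τ.1 := by positivity
        have a7 : 250000 * 2 ^ τ.1 ≤ (K : ℤ) * 2 ^ τ.1 := by gcongr
        simp only [Out, De, abs_eq_max_neg] at a6
        omega
      · rw [sig, phi_off h3]; simp
  · have h2 := d.master1 τ.2 (pr K τ) (An_sig H hτ J) hc J' h h' (m_le H hJ')
    rw [Yt, if_neg h1]
    refine le_add_of_le_of_nonneg (h2.trans (le_of_eq ?_)) (by split_ifs <;> positivity)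
    rw [ZZ]; ring

end Pool.Agent.Lib.MMTW
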