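import Pool.Agent.Lib.MP_0dc93f_an.WTot
import Pool.Agent.Lib.MP_0dc93f_an.WSrc

/-! The bootstrap (job D5). -/

namespace Pool.Agent.Lib.MMTW

open Finset

variable {d : Dat} {K : ℕ} {Q R β : ℝ} {ν : Cell → ℝ}

lemma bt_exp {x : ℝ} (h : 1 ≤ x) : ∃ l, 0 ≤ l ∧ x = Real.exp l :=
  ⟨Real.log x, Real.log_nonneg h, (Real.exp_log (by linarith)).symm⟩

lemma bt_r1 {Q R D M β : ℝ} (hQ : 1 ≤ Q) (hR : 1 ≤ R) (hQR : Q ^ 200 ≤ R) (hD : 1 ≤ D) (hM : 1 ≤ M)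
    (h : D ≤ R * M ^ (801 / 1000 : ℝ)) :
    Q * D * M ^ (β - 1003 / 1000 + 5 / 1000000) * (Q ^ 11 * D ^ (5 / 100000 : ℝ)) *
      (D * M ^ (-β)) ≤ R ^ 25 * M ^ (5991 / 10000 : ℝ) := by
  obtain ⟨q, hq, rfl⟩ := bt_exp hQ
  obtain ⟨r, hr, rfl⟩ := bt_exp hR
  obtain ⟨a, ha, rfl⟩ := bt_exp hD
  obtain ⟨m, hm, rfl⟩ := bt_exp hM
  simp only [← Real.exp_mul, ← Real.exp_nat_mul, ← Real.exp_add, Real.exp_le_exp] at hQR h ⊢
  push_cast at hQR ⊢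
  linarith

lemma bt_r2 {Q R D M x y α β : ℝ} (hQ : 1 ≤ Q) (hR : 1 ≤ R) (hQR : Q ^ 200 ≤ R) (hD : 1 ≤ D)
    (hM : 1 ≤ M) (hx : 1 ≤ x) (hy : 1 ≤ y) (hα : 3 / 5 ≤ α) (hβ : 3 / 5 ≤ β) (h1 : M ≤ Q * x)
    (h2 : y ≤ M) (h : R * x ^ (801 / 1000 : ℝ) ≤ D) :
    D * x ^ (β - 1003 / 1000 + 5 / 1000000) * (Q ^ 11 * D ^ (5 / 100000 : ℝ)) *
      (Q ^ 3 * x ^ (2 - α - β) / D) ≤ 1 / Q ^ 13 * (D * y ^ (β - 1003 / 1000)) := by
  obtain ⟨q, hq, rfl⟩ := bt_exp hQ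
  obtain ⟨r, hr, rfl⟩ := bt_exp hR
  obtain ⟨a, ha, rfl⟩ := bt_exp hD
  obtain ⟨m, hm, rfl⟩ := bt_exp hM
  obtain ⟨z, hz, rfl⟩ := bt_exp hx
  obtain ⟨w, hw, rfl⟩ := bt_exp hy
  have e1 := mul_le_mul_of_nonneg_left hα hz
  have e2 := mul_le_mul_of_nonneg_left hβ hw
  simp only [one_div, ← Real.exp_mul, ← Real.exp_nat_mul, ← Real.exp_neg, ← Real.exp_add,
    ← Real.exp_sub, Real.exp_le_exp] at hQR h h1 h2 ⊢
  push_cast at hQR ⊢
  linarith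

lemma bt_r3 {Q D M β : ℝ} (hQ : 1 ≤ Q) (hD : 1 ≤ D) (hM : 1 ≤ M) (h : D ≤ M) :
    Q * D * M ^ (β - 1003 / 1000 + 5 / 1000000) * (Q ^ 11 * D ^ (5 / 100000 : ℝ)) *
      (Q ^ 9 * M ^ (2 / 1000 - β)) ≤ Q ^ 21 * M ^ (-(2 / 10000) : ℝ) := by
  obtain ⟨q, hq, rfl⟩ := bt_exp hQ
  obtain ⟨a, ha, rfl⟩ := bt_exp hD
  obtain ⟨m, hm, rfl⟩ := bt_exp hM
  simp only [← Real.exp_mul, ← Real.exp_nat_mul, ← Real.exp_add, Real.exp_le_exp] at h ⊢
  push_cast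
  linarith

lemma bt_r4 {Q R D M P x α β : ℝ} (hQ : 1 ≤ Q) (hR : 1 ≤ R) (hQR : Q ^ 200 ≤ R ^ (1 / 10000 : ℝ))
    (hD : 1 ≤ D) (hM : 1 ≤ M) (hP : 1 ≤ P) (hx : 1 ≤ x) (hα : 3 / 5 ≤ α) (hβ : 3 / 5 ≤ β)
    (hRM : R ≤ M) (h : (M * M ≤ Q * Q * P ∧ M ≤ Q * x ∧ R * x ^ (801 / 1000 : ℝ) ≤ D) ∨
      (M ≤ Q * D ∧ M ^ (2 / 1000 : ℝ) ≤ P)) :
    Q * D * M ^ (β - 1003 / 1000 + 5 / 1000000) * (Q ^ 11 * D ^ (5 / 100000 : ℝ)) *
      (P ^ ((1 - α - β) / 2) * M ^ (1 + 1003 / 1000 - β) / D ^ 2) ≤ 1 / Q ^ 17 := by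
  obtain ⟨q, hq, rfl⟩ := bt_exp hQ
  obtain ⟨r, hr, rfl⟩ := bt_exp hR
  obtain ⟨a, ha, rfl⟩ := bt_exp hD
  obtain ⟨m, hm, rfl⟩ := bt_exp hM
  obtain ⟨p, hp, rfl⟩ := bt_exp hP
  obtain ⟨z, hz, rfl⟩ := bt_exp hx
  have e1 := mul_le_mul_of_nonneg_left hα hp
  have e2 := mul_le_mul_of_nonneg_left hβ hp
  rw [one_div (Real.exp q ^ 17)]
  simp only [← Real.exp_mul, ← Real.exp_nat_mul, ← Real.exp_neg, ← Real.exp_add,
    ← Real.exp_sub, Real.exp_le_exp] at hQR h hRM ⊢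
  push_cast at hQR ⊢
  rcases h with ⟨h1, h2, h3⟩ | ⟨h1, h2⟩ <;> linarith

lemma bt_one_le_DD (τ : Ty) : 1 ≤ DD τ := one_le_pow₀ (by norm_num)

lemma bt_Om_nonneg (β : ℝ) (τ : Ty) : 0 ≤ Om β τ :=
  mul_nonneg (by exact_mod_cast (mu_pos _).le) (Real.rpow_nonneg (xx_pos _).le _)

lemma bt_BB_nonneg (hν : ∀ J, 0 ≤ ν J) (K Kc : ℕ) (β : ℝ) : 0 ≤ BB K Kc β ν :=
  sum_nonneg fun J _ => mul_nonneg (WW_pos β J).le (hν J)

/-- the common factor of all classes -/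
lemma bt_fac (H : Hyp d K Q R β) {τ : Ty} (hτ : τ ∈ TT K d.Kc) {Z Z' : ℝ} (h0 : 0 ≤ Z)
    (h : Z ≤ Z') : Om β τ * Lg τ.2 * Z * ((τ.1 : ℝ) + 2) ^ 6 ≤
      Q * DD τ * MM τ ^ (β - 1003 / 1000 + 5 / 1000000) * (Q ^ 11 * DD τ ^ (5 / 100000 : ℝ)) *
        Z' := by
  have h1 := Om_le H hτ
  have h2 := logs H hτ
  have h3 := bt_Om_nonneg β τ
  have h4 := Lg_pos τ.2
  calc Om β τ * Lg τ.2 * Z * ((τ.1 : ℝ) + 2) ^ 6
      = Om β τ * (Lg τ.2 * ((τ.1 : ℝ) + 2) ^ 6) * Z := by ring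
    _ ≤ _ := mul_le_mul (mul_le_mul h1 h2 (by positivity) (h3.trans h1)) h h0
        (mul_nonneg (h3.trans h1) (le_trans (by positivity) h2))

lemma bt_c1 (H : Hyp d K Q R β) {s : Finset Ty} (hs : s ⊆ TT K d.Kc) (h : ∀ τ ∈ s, Sm R τ) :
    ∑ τ ∈ s, Om β τ * Yt d K Q R β ν τ ≤ R ^ 75 := by
  have hQ : 1 ≤ Q := le_trans (by norm_num) H.Q_ge
  have hR := H.hR1
  have := tot_small H hs (A := R ^ 25) (by positivity) (Ω := fun τ => Om β τ * Lg τ.2)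
    (fun τ _ => mul_nonneg (bt_Om_nonneg β τ) (Lg_pos _).le) h fun τ hτ => by
      have hM := one_le_MM τ
      have hD := DD_pos τ
      rw [mul_assoc (Om β τ * Lg τ.2)]
      refine (bt_fac H (hs hτ) (by positivity) le_rfl).trans
        (bt_r1 hQ hR H.QR (bt_one_le_DD τ) hM ((h τ hτ).trans ?_))
      exact mul_le_mul_of_nonneg_left (Real.rpow_le_rpow (xx_pos _).le (xx_le_MM τ 3)
        (by norm_num)) (by linarith)
  refine le_trans (le_of_eq (sum_congr rfl fun τ hτ => ?_)) (this.trans (le_of_eq (by ring)))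
  rw [Yt, if_neg fun a => a.1 (h τ hτ), mul_assoc]

lemma bt_c2 (H : Hyp d K Q R β) (hν : Pn d K Q β ν) {s : Finset Ty} (hs : s ⊆ TT K d.Kc)
    (h : ∀ τ ∈ s, ¬ Sm R τ ∧ Out K τ) :
    ∑ τ ∈ s, Om β τ * Yt d K Q R β ν τ ≤ BB K d.Kc β ν / Q ^ 9 := by
  have hQ2 : 2 ≤ Q := le_trans (by norm_num) H.Q_ge
  have hQ : 1 ≤ Q := by linarith
  have hK := H.K_ge
  have hy : ∀ J, 0 ≤ WW β J * ν J := fun J => mul_nonneg (WW_pos β J).le (hν.1 J)
  have key := sum_schur (K := K) (by omega) hs (F := fun τ => Om β τ * Yt d K Q R β ν τ)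
    (y := fun J => WW β J * ν J) (fun J _ => hy J) (δ := 1 / Q ^ 13) (by positivity)
    fun τ hτ => by
      rw [Yt, if_pos (h τ hτ)]
      split_ifs with hf
      · have hD := DD_pos τ
        have hx := xx_pos (τ.2 3)
        have one : ∀ i, Om β τ * (Lg τ.2 * Q ^ 3 * xx (τ.2 3) ^ (2 - d.α - β) / DD τ) *
            ((τ.1 : ℝ) + 2) ^ 6 ≤ 1 / Q ^ 13 * WW β (τ.2 i) := fun i => by
          rw [WW, (hf i).2]
          refine le_trans ?_ (bt_r2 hQ H.hR1 H.QR (bt_one_le_DD τ) (one_le_MM τ)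
            (one_le_xx (τ.2 3)) (one_le_xx (τ.2 i)) H.a1 (H.a1.trans H.b1)
            ((hf 3).1.trans (mul_le_mul_of_nonneg_right hQ2 hx.le)) (xx_le_MM τ i)
            (not_le.1 (h τ hτ).1).le)
          rw [Om, (hf 3).2]
          calc _ = DD τ * xx (τ.2 3) ^ (β - 1003 / 1000 + 5 / 1000000) *
                (Lg τ.2 * ((τ.1 : ℝ) + 2) ^ 6) * (Q ^ 3 * xx (τ.2 3) ^ (2 - d.α - β) / DD τ) := by
                ring
            _ ≤ _ := by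
                have := logs H (hs hτ)
                gcongr
        have a0 := mul_le_mul_of_nonneg_right (one 0) (hν.1 (τ.2 0))
        have a1 := mul_le_mul_of_nonneg_right (one 1) (hν.1 (τ.2 1))
        have a2 := mul_nonneg (by positivity : 0 ≤ 1 / Q ^ 13) (add_nonneg (hy (τ.2 2)) (hy (τ.2 3)))
        rw [Fin.sum_univ_four]
        nlinarith
      · rw [mul_zero, zero_mul]
        exact mul_nonneg (by positivity) (sum_nonneg fun i _ => hy _)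
  refine key.trans ?_
  have hB := bt_BB_nonneg hν.1 K d.Kc β
  have hK' : (250000 : ℝ) ≤ K := by exact_mod_cast hK
  have h1 : 4 * (4 * (K : ℝ) + 5) ^ 4 ≤ Q ^ 4 := by
    have := H.hQ
    calc 4 * (4 * (K : ℝ) + 5) ^ 4 ≤ 2 ^ 4 * (4 * (K : ℝ) + 5) ^ 4 := by gcongr; norm_num
      _ = (2 * (4 * (K : ℝ) + 5)) ^ 4 := by ring
      _ ≤ Q ^ 4 := by gcongr; linarith
  calc 4 * (4 * (K : ℝ) + 5) ^ 4 * (1 / Q ^ 13) * BB K d.Kc β ν
      ≤ Q ^ 4 * (1 / Q ^ 13) * BB K d.Kc β ν := by gcongr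
    _ = _ := by field_simp

lemma bt_c3 (H : Hyp d K Q R β) {s : Finset Ty} (hs : s ⊆ TT K d.Kc)
    (h : ∀ τ ∈ s, ¬ Sm R τ ∧ ¬ Out K τ ∧ LL (2 / 1000) K τ) :
    ∑ τ ∈ s, Om β τ * Yt d K Q R β ν τ ≤ Q ^ 31 := by
  have hQ2 : 15 ≤ Q := le_trans (by norm_num) H.Q_ge
  have hQ : 1 ≤ Q := by linarith
  refine (tot_decay H hs (A := Q ^ 21) (by positivity) (fun τ hτ => ?_) fun τ hτ => ?_).trans
    (le_of_eq (by ring))
  · obtain ⟨h1, h2, h3⟩ := h τ hτ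
    have a1 := LL_near H (hs hτ) h1 (by norm_num) h3
    have a2 := (pr_high H (hs hτ) h1 h2).2.2.1
    have a3 : (0 : ℝ) < mu (τ.2 (pr K τ 1)) := by exact_mod_cast mu_pos _
    refine ⟨pr K τ 1, a1.trans ?_⟩
    rw [sq, mul_assoc]
    exact mul_le_mul_of_nonneg_left (a2.trans (mul_le_mul_of_nonneg_right hQ2 a3.le)) (by linarith)
  · obtain ⟨h1, h2, h3⟩ := h τ hτ
    rw [Yt, if_neg fun a => h2 a.2, ← mul_assoc]
    exact (bt_fac H (hs hτ) (ZZ_nonneg d K τ) (Z_low H (hs hτ) h1 h2 (by norm_num) h3)).trans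
      (bt_r3 hQ (bt_one_le_DD τ) (one_le_MM τ) (not_Sm H (hs hτ) h1).2)

lemma bt_c4 (H : Hyp d K Q R β) (hν : Pn d K Q β ν) {s : Finset Ty} (hs : s ⊆ TT K d.Kc)
    (h : ∀ τ ∈ s, ¬ Sm R τ ∧ ¬ Out K τ ∧ ¬ LL (2 / 1000) K τ) :
    ∑ τ ∈ s, Om β τ * Yt d K Q R β ν τ ≤ BB K d.Kc β ν / Q ^ 9 := by
  have hQ2 : 2 ≤ Q := le_trans (by norm_num) H.Q_ge
  have hQ : 1 ≤ Q := by linarith
  have := tot_charged H hν hs (A := 1 / Q ^ 17) (by positivity) (Ω := fun τ => Om β τ * Lg τ.2)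
    (fun τ _ => mul_nonneg (bt_Om_nonneg β τ) (Lg_pos _).le)
    (fun τ hτ => ⟨(h τ hτ).1, (h τ hτ).2.1⟩) fun τ hτ => by
      obtain ⟨h1, -, h3⟩ := h τ hτ
      have hM := one_le_MM τ
      have hD := DD_pos τ
      have xa := one_le_xx (τ.2 (pr K τ 0))
      have xc := one_le_xx (τ.2 (pr K τ 2))
      have hn := not_Sm H (hs hτ) h1
      refine (bt_fac H (hs hτ) (by unfold Ga; positivity) le_rfl).trans
        (bt_r4 hQ H.hR1 H.hR (bt_one_le_DD τ) hM (one_le_mul_of_one_le_of_one_le xa xc)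
          (one_le_xx (τ.2 3)) H.a1 (H.a1.trans H.b1) (hn.1.trans hn.2) ?_)
      rcases dich H (hs hτ) with hf | hf
      · have b : ∀ i, MM τ ≤ Q * xx (τ.2 i) := fun i =>
          (hf i).trans (mul_le_mul_of_nonneg_right hQ2 (xx_pos _).le)
        refine Or.inl ⟨?_, b 3, (not_le.1 h1).le⟩
        calc MM τ * MM τ ≤ (Q * xx (τ.2 (pr K τ 0))) * (Q * xx (τ.2 (pr K τ 2))) :=
              mul_le_mul (b _) (b _) (by linarith) (by positivity)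
          _ = _ := by ring
      · refine Or.inr ⟨hf, ?_⟩
        rcases not_and_or.1 h3 with a | a
        · exact (not_le.1 a).le.trans (le_mul_of_one_le_right (by linarith) xc)
        · exact (not_le.1 a).le.trans (le_mul_of_one_le_left (by linarith) xa)
  refine le_trans (le_of_eq (sum_congr rfl fun τ hτ => ?_)) (this.trans (le_of_eq ?_))
  · rw [Yt, if_neg fun a => (h τ hτ).2.1 a.2, mul_assoc]
  · field_simp

lemma tot_src (H : Hyp d K Q R β) (hν : Pn d K Q β ν) :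
    ∑ τ ∈ TT K d.Kc, Om β τ * Yt d K Q R β ν τ ≤ R ^ 80 + BB K d.Kc β ν / Q ^ 8 := by
  classical
  rw [← sum_filter_add_sum_filter_not (TT K d.Kc) (Sm R),
    ← sum_filter_add_sum_filter_not ((TT K d.Kc).filter fun τ => ¬ Sm R τ) (Out K),
    ← sum_filter_add_sum_filter_not (((TT K d.Kc).filter fun τ => ¬ Sm R τ).filter
      fun τ => ¬ Out K τ) (LL (2 / 1000) K)]
  have c1 := bt_c1 (ν := ν) H (filter_subset (Sm R) _) fun τ hτ => (mem_filter.1 hτ).2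
  have c2 := bt_c2 H hν ((filter_subset (Out K) _).trans (filter_subset (fun τ => ¬ Sm R τ) _))
    fun τ hτ => ⟨(mem_filter.1 (mem_filter.1 hτ).1).2, (mem_filter.1 hτ).2⟩
  have c3 := bt_c3 (ν := ν) H ((filter_subset (LL (2 / 1000) K) _).trans
    ((filter_subset (fun τ => ¬ Out K τ) _).trans (filter_subset (fun τ => ¬ Sm R τ) _)))
    fun τ hτ => ⟨(mem_filter.1 (mem_filter.1 (mem_filter.1 hτ).1).1).2,
      (mem_filter.1 (mem_filter.1 hτ).1).2, (mem_filter.1 hτ).2⟩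
  have c4 := bt_c4 H hν ((filter_subset (fun τ => ¬ LL (2 / 1000) K τ) _).trans
    ((filter_subset (fun τ => ¬ Out K τ) _).trans (filter_subset (fun τ => ¬ Sm R τ) _)))
    fun τ hτ => ⟨(mem_filter.1 (mem_filter.1 (mem_filter.1 hτ).1).1).2,
      (mem_filter.1 (mem_filter.1 hτ).1).2, (mem_filter.1 hτ).2⟩
  have hQ2 : 2 ≤ Q := le_trans (by norm_num) H.Q_ge
  have hB := bt_BB_nonneg hν.1 K d.Kc β
  have hR := H.hR1
  have r1 : Q ^ 31 ≤ R := (pow_le_pow_right₀ (by linarith) (by norm_num)).trans H.QR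
  have r2 : 2 ≤ R := hQ2.trans ((le_self_pow₀ (by linarith) (by norm_num)).trans r1)
  have r3 : R ≤ R ^ 75 := le_self_pow₀ hR (by norm_num)
  have r4 : 2 * R ^ 75 ≤ R ^ 80 :=
    calc 2 * R ^ 75 ≤ R * R ^ 75 := by gcongr
      _ = R ^ 76 := by ring
      _ ≤ R ^ 80 := pow_le_pow_right₀ hR (by norm_num)
  have r5 : 2 * (BB K d.Kc β ν / Q ^ 9) ≤ BB K d.Kc β ν / Q ^ 8 :=
    calc 2 * (BB K d.Kc β ν / Q ^ 9) ≤ Q * (BB K d.Kc β ν / Q ^ 9) := by gcongr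
      _ = _ := by field_simp
  linarith

lemma bt_PP (H : Hyp d K Q R β) {J : Cell} (h : reg K d.Kc J) : PP J ⊆ FF d.Kc := fun k hk => by
  have h1 := mem_PP.1 hk
  have h2 := mu_pos J
  have hK := H.K_ge
  have h3 : 2 * mu J ≤ |cc J| := by
    rw [abs_cc]
    exact mul_le_mul_of_nonneg_right (le_trans (by omega) h.1) h2.le
  have h4 := h.2
  rw [mem_FF]
  simp only [abs_eq_max_neg] at h3 h4 ⊢
  omega

lemma bt_triv (H : Hyp d K Q R β) (J : Cell) {J' : Cell} (hJ' : J' ∈ AA K d.Kc) :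
    2 * d.X J J' ≤ mu J * d.im J * gg Q β J' := by
  have h1 := d.X_triv J J' (m_le H hJ')
  have h2 : 0 ≤ (mu J : ℝ) * d.im J * gg Q β J' :=
    mul_nonneg (mul_nonneg (by exact_mod_cast (mu_pos J).le) (d.im_nonneg J)) (gg_pos H J').le
  linarith

lemma bt_reg (H : Hyp d K Q R β) (hν : Pn d K Q β ν) {J J' : Cell} (hJ : J ∈ AA K d.Kc)
    (hJ' : J' ∈ AA K d.Kc) (hr : reg K d.Kc J) (hr' : reg K d.Kc J') (hok : Ok d.α K d.Kc J J') :
    gam d.α K d.Kc J J' * d.X J J' ≤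
      (2 * (d.m J 0 + d.m J d.T + d.im J) +
        4 * ∑ τ ∈ TT K d.Kc, coef K Q J τ * Yt d K Q R β ν τ + ν J / 8) * gg Q β J' +
      gg Q β J * (4 * ∑ τ ∈ TT K d.Kc, coef K Q J' τ * Yt d K Q R β ν τ + ν J' / 8) := by
  have hg := gam_le_two H J J'
  rw [gam, if_pos ⟨hr, hr'⟩] at hg ⊢
  have hok' : Ok d.α K d.Kc J' J := fun a b => by
    rw [abs_sub_comm, add_comm]; exact hok b a
  have e1 := eps_pos H hr
  have e2 := eps_pos H hr'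
  have g1 := hok hr hr'
  have hK := H.K_ge
  have a0 : 0 < d.α := lt_of_lt_of_le (by norm_num) H.a1
  have hX := d.X_nonneg J J'
  obtain ⟨γ, hγ⟩ : ∃ γ, γ = |vel d.α (cc J) - vel d.α (cc J')| := ⟨_, rfl⟩
  have gp : 0 < γ := by rw [hγ]; linarith
  have key : d.X J J' ≤ (gg Q β J' * (d.m J 0 + d.m J d.T + d.im J) + γ / 2 * d.X J J' +
      2 * (gg Q β J' * ∑ τ ∈ TT K d.Kc, coef K Q J τ * Yt d K Q R β ν τ +
        1 / 32 * (gg Q β J * ν J')) +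
      2 * (gg Q β J * ∑ τ ∈ TT K d.Kc, coef K Q J' τ * Yt d K Q R β ν τ +
        1 / 32 * (gg Q β J' * ν J))) / γ := by
    refine d.X_le fun h h' => ?_
    have m1 := d.morawetz (bt_PP H hr) (bt_PP H hr') hg
      (An_err a0 H.a2 (le_trans (by omega) hr.1)) (An_err a0 H.a2 (le_trans (by omega) hr'.1))
      (m_le H hJ') h h'
    have s1 := src_le H hν hJ hJ' hr hr' hok h h'
    have s2 := src_le H hν hJ' hJ hr' hr hok' h' h
    have ab : (32 * eps d.α J + 32 * eps d.α J') * d.X J J' ≤ γ / 2 * d.X J J' :=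
      mul_le_mul_of_nonneg_right (by rw [hγ]; linarith) hX
    rw [le_div_iff₀' gp]
    rw [← hγ] at m1
    unfold eps at ab
    linarith
  rw [le_div_iff₀' gp] at key
  rw [← hγ]
  linarith

lemma boot_step (H : Hyp d K Q R β) (hν : Pn d K Q β ν) :
    ∃ ν', Pn d K Q β ν' ∧ BB K d.Kc β ν' ≤ R ^ 100 + BB K d.Kc β ν / 2 := by
  have b0 : ∀ J, 0 ≤ d.m J 0 + d.m J d.T + d.im J := fun J =>
    add_nonneg (add_nonneg (d.m_nonneg J _) (d.m_nonneg J _)) (d.im_nonneg J)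
  have s0 : ∀ J, 0 ≤ ∑ τ ∈ TT K d.Kc, coef K Q J τ * Yt d K Q R β ν τ := fun J =>
    sum_nonneg fun τ _ => mul_nonneg (coef_nonneg H J τ) (Yt_nonneg H hν.1 τ)
  obtain ⟨ν', hν'⟩ : ∃ ν' : Cell → ℝ, ∀ J, ν' J = if reg K d.Kc J then
      2 * (d.m J 0 + d.m J d.T + d.im J) +
        4 * ∑ τ ∈ TT K d.Kc, coef K Q J τ * Yt d K Q R β ν τ + ν J / 8 else mu J * d.im J :=
    ⟨_, fun _ => rfl⟩
  have n0 : ∀ J, 0 ≤ ν' J := fun J => by
    rw [hν']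
    split_ifs
    · have := b0 J; have := s0 J; have := hν.1 J; linarith
    · exact mul_nonneg (by exact_mod_cast (mu_pos J).le) (d.im_nonneg J)
  refine ⟨ν', ⟨n0, fun J hJ J' hJ' hok => ?_⟩, ?_⟩
  · have g1 := gg_pos H J
    have g2 := gg_pos H J'
    by_cases hr : reg K d.Kc J
    · by_cases hr' : reg K d.Kc J'
      · refine (bt_reg H hν hJ hJ' hr hr' hok).trans ?_
        rw [hν' J, hν' J', if_pos hr, if_pos hr']
        have := mul_nonneg g1.le (b0 J')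
        linarith
      · have := bt_triv H J' hJ
        have := mul_nonneg (n0 J) g2.le
        rw [gam, if_neg fun a => hr' a.2, hν' J', if_neg hr', d.X_symm]
        linarith
    · have := bt_triv H J hJ'
      have := mul_nonneg g1.le (n0 J')
      rw [gam, if_neg fun a => hr a.1, hν' J, if_neg hr]
      linarith
  · have w0 : ∀ J, 0 ≤ WW β J := fun J => (WW_pos β J).le
    have hQ2 : 7 ≤ Q := le_trans (by norm_num) H.Q_ge
    have hB := bt_BB_nonneg hν.1 K d.Kc β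
    have hR := H.hR1
    have t1 : ∑ J ∈ AA K d.Kc with reg K d.Kc J, WW β J * (d.m J 0 + d.m J d.T + d.im J) ≤ Q ^ 6 :=
      (sum_le_sum_of_subset_of_nonneg (filter_subset _ _) fun J _ _ =>
        mul_nonneg (w0 J) (b0 J)).trans (sum_base H)
    have t2 : ∑ J ∈ AA K d.Kc with reg K d.Kc J, WW β J * ν J ≤ BB K d.Kc β ν :=
      sum_le_sum_of_subset_of_nonneg (filter_subset _ _) fun J _ _ => mul_nonneg (w0 J) (hν.1 J)
    have t3 : ∑ J ∈ AA K d.Kc with reg K d.Kc J,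
        WW β J * ∑ τ ∈ TT K d.Kc, coef K Q J τ * Yt d K Q R β ν τ ≤
        Q ^ 6 * (R ^ 80 + BB K d.Kc β ν / Q ^ 8) := by
      refine le_trans ?_ (mul_le_mul_of_nonneg_left (tot_src H hν) (by positivity))
      simp only [mul_sum]
      rw [sum_comm]
      refine sum_le_sum fun τ hτ => ?_
      have := mul_le_mul_of_nonneg_right (sum_coef H hτ) (Yt_nonneg H hν.1 τ)
      rw [sum_mul] at this
      simpa only [mul_assoc] using this
    have t4 := sum_exc H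
    have e : BB K d.Kc β ν' =
        2 * ∑ J ∈ AA K d.Kc with reg K d.Kc J, WW β J * (d.m J 0 + d.m J d.T + d.im J) +
        4 * ∑ J ∈ AA K d.Kc with reg K d.Kc J,
          WW β J * ∑ τ ∈ TT K d.Kc, coef K Q J τ * Yt d K Q R β ν τ +
        (∑ J ∈ AA K d.Kc with reg K d.Kc J, WW β J * ν J) / 8 +
        ∑ J ∈ AA K d.Kc with ¬ reg K d.Kc J, WW β J * (mu J * d.im J) := by
      rw [BB, ← sum_filter_add_sum_filter_not (AA K d.Kc) (reg K d.Kc), mul_sum, mul_sum, sum_div,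
        ← sum_add_distrib, ← sum_add_distrib]
      congr 1
      · refine sum_congr rfl fun J hJ => ?_
        rw [hν', if_pos (mem_filter.1 hJ).2]
        ring
      · exact sum_congr rfl fun J hJ => by rw [hν', if_neg (mem_filter.1 hJ).2]
    have r1 : Q ^ 7 ≤ R := (pow_le_pow_right₀ (by linarith) (by norm_num)).trans H.QR
    have r2 : 7 * (Q ^ 6 * R ^ 80) ≤ R ^ 100 :=
      calc 7 * (Q ^ 6 * R ^ 80) ≤ Q * (Q ^ 6 * R ^ 80) := by gcongr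
        _ = Q ^ 7 * R ^ 80 := by ring
        _ ≤ R * R ^ 80 := by gcongr
        _ = R ^ 81 := by ring
        _ ≤ R ^ 100 := pow_le_pow_right₀ hR (by norm_num)
    have r3 : Q ^ 6 ≤ Q ^ 6 * R ^ 80 := le_mul_of_one_le_right (by positivity) (one_le_pow₀ hR)
    have r4 : Q ^ 6 * (BB K d.Kc β ν / Q ^ 8) ≤ BB K d.Kc β ν / 49 := by
      rw [show Q ^ 6 * (BB K d.Kc β ν / Q ^ 8) = BB K d.Kc β ν / Q ^ 2 by field_simp]
      exact div_le_div_of_nonneg_left hB (by norm_num) (by nlinarith)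
    rw [e]
    rw [mul_add] at t3
    linarith

theorem boot (H : Hyp d K Q R β) : ∃ ν, Pn d K Q β ν ∧ BB K d.Kc β ν ≤ R ^ 101 := by
  have n0 : ∀ J, 0 ≤ (mu J : ℝ) * d.im J := fun J =>
    mul_nonneg (by exact_mod_cast (mu_pos J).le) (d.im_nonneg J)
  have p0 : Pn d K Q β fun J => mu J * d.im J := ⟨n0, fun J _ J' hJ' _ => by
    have a1 := bt_triv H J hJ'
    have a2 := mul_le_mul_of_nonneg_right (gam_le_two H J J') (d.X_nonneg J J')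
    have a3 := mul_nonneg (gg_pos H J).le (n0 J')
    simp only
    linarith⟩
  obtain ⟨B, hB⟩ : ∃ B, B = BB K d.Kc β fun J => mu J * d.im J := ⟨_, rfl⟩
  have B0 : 0 ≤ B := hB ▸ bt_BB_nonneg n0 K d.Kc β
  have hR := H.hR1
  have r0 : 1 ≤ R ^ 100 := one_le_pow₀ hR
  have it : ∀ j : ℕ, ∃ ν, Pn d K Q β ν ∧ BB K d.Kc β ν ≤ 2 * R ^ 100 + B * (1 / 2) ^ j := by
    intro j
    induction j with
    | zero => exact ⟨_, p0, by rw [← hB]; linarith⟩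
    | succ j ih =>
      obtain ⟨ν, h1, h2⟩ := ih
      obtain ⟨ν', h3, h4⟩ := boot_step H h1
      exact ⟨ν', h3, by rw [pow_succ (1 / 2 : ℝ)]; linarith⟩
  obtain ⟨j, hj⟩ := exists_pow_lt_of_lt_one (x := 1 / (B + 1)) (y := (1 / 2 : ℝ))
    (by positivity) (by norm_num)
  obtain ⟨ν, h1, h2⟩ := it j
  refine ⟨ν, h1, h2.trans ?_⟩
  have a1 : B * (1 / 2) ^ j ≤ 1 := by
    rw [lt_div_iff₀ (by positivity)] at hj
    have : 0 ≤ (1 / 2 : ℝ) ^ j := by positivity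
    linarith
  have hQ : 3 ≤ Q := le_trans (by norm_num) H.Q_ge
  have r1 : 3 ≤ R := hQ.trans ((le_self_pow₀ (by linarith) (by norm_num)).trans H.QR)
  calc 2 * R ^ 100 + B * (1 / 2) ^ j ≤ 3 * R ^ 100 := by linarith
    _ ≤ R * R ^ 100 := by gcongr
    _ = R ^ 101 := by ring

end Pool.Agent.Lib.MMTW
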