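import Pool.Agent.Lib.MP_0dc93f_an.WDef

/-! Flux identity, direct bounds, normal form, weighted sums (job C3). -/

namespace Pool.Agent.Lib.MMTW

open Finset Complex ComplexConjugate

lemma fx_one_le_br (k : ℤ) : 1 ≤ br k := by
  unfold br; linarith [abs_nonneg (k : ℝ)]

lemma fx_br_pos (k : ℤ) : 0 < br k := lt_of_lt_of_le one_pos (fx_one_le_br k)

lemma fx_tail_nonneg (Kc : ℕ) (a : ℤ → ℂ) (R : ℝ) : 0 ≤ tail Kc a R :=
  Finset.sum_nonneg fun _ _ => by positivity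

lemma fx_dyadic (k : ℤ) : ∃ j : ℕ, j ≤ k.natAbs + 1 ∧ (2 : ℝ) ^ j ≤ br k ∧ br k ≤ 2 ^ (j + 1) := by
  have hb : br k = ((k.natAbs + 1 : ℕ) : ℝ) := by
    unfold br; push_cast; rw [Nat.cast_natAbs]; push_cast; ring
  refine ⟨Nat.log 2 (k.natAbs + 1), Nat.log_le_self _ _, ?_, ?_⟩
  · rw [hb]; exact_mod_cast Nat.pow_log_le_self 2 (Nat.succ_ne_zero _)
  · rw [hb]; exact_mod_cast (Nat.lt_pow_succ_log_self (by norm_num) _).le

/-- weighted sums from tail bounds -/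
lemma wsum {δ : ℝ} (hδ : 0 < δ) : ∃ C : ℝ, 1 ≤ C ∧ ∀ (Kc : ℕ) (a : ℤ → ℂ) (E β σ : ℝ),
    σ ≤ 2 → σ + δ ≤ β → δ ≤ β → (∀ R : ℝ, 0 < R → tail Kc a R ≤ E * R ^ (-β)) →
    ∑ k ∈ FF Kc, br k ^ σ * ‖a k‖ ^ 2 ≤ C * E := by
  set r : ℝ := (2 : ℝ) ^ (-δ) with hr
  have hr0 : 0 < r := Real.rpow_pos_of_pos two_pos _
  have hr1 : r < 1 := Real.rpow_lt_one_of_one_lt_of_neg one_lt_two (by linarith)
  have hinv : 1 ≤ (1 - r)⁻¹ := by
    rw [one_le_inv₀ (by linarith)]; linarith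
  refine ⟨4 * (1 - r)⁻¹, by linarith, ?_⟩
  intro Kc a E β σ hσ2 hσβ hδβ ht
  have hE : 0 ≤ E := by
    have := ht 1 one_pos
    rw [Real.one_rpow, mul_one] at this
    exact (fx_tail_nonneg _ _ _).trans this
  set τ : ℝ := max σ 0 with hτ
  have hτ0 : 0 ≤ τ := le_max_right _ _
  have hτ2 : τ ≤ 2 := max_le hσ2 (by norm_num)
  have hτβ : τ + δ ≤ β := by
    rcases le_total σ 0 with h | h
    · rw [hτ, max_eq_right h]; linarith
    · rw [hτ, max_eq_left h]; linarith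
  have h1 : ∀ k ∈ FF Kc, br k ^ σ * ‖a k‖ ^ 2 ≤
      ∑ j ∈ range (Kc + 2), if (2 : ℝ) ^ j ≤ br k then ((2 : ℝ) ^ (j + 1)) ^ τ * ‖a k‖ ^ 2
        else 0 := by
    intro k hk
    obtain ⟨j, hj, hj1, hj2⟩ := fx_dyadic k
    have hjK : j ∈ range (Kc + 2) := by
      simp only [FF, mem_Icc] at hk
      rw [mem_range]; omega
    refine le_trans ?_ (Finset.single_le_sum (f := fun j : ℕ => if (2 : ℝ) ^ j ≤ br k then
      ((2 : ℝ) ^ (j + 1)) ^ τ * ‖a k‖ ^ 2 else 0) (fun i _ => ?_) hjK)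
    · simp only [if_pos hj1]
      refine mul_le_mul_of_nonneg_right ?_ (by positivity)
      calc br k ^ σ ≤ br k ^ τ :=
            Real.rpow_le_rpow_of_exponent_le (fx_one_le_br k) (le_max_left _ _)
        _ ≤ _ := Real.rpow_le_rpow (fx_br_pos k).le hj2 hτ0
    · split_ifs <;> positivity
  refine (Finset.sum_le_sum h1).trans ?_
  rw [Finset.sum_comm]
  have h2 : ∀ j ∈ range (Kc + 2), (∑ k ∈ FF Kc, if (2 : ℝ) ^ j ≤ br k then
      ((2 : ℝ) ^ (j + 1)) ^ τ * ‖a k‖ ^ 2 else 0) ≤ 4 * E * r ^ j := by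
    intro j _
    rw [← Finset.sum_filter, ← Finset.mul_sum]
    have h3 := ht (2 ^ j) (by positivity)
    have h4 : ((2 : ℝ) ^ (j + 1)) ^ τ * ((2 : ℝ) ^ j) ^ (-β) ≤ 4 * r ^ j := by
      rw [hr, ← Real.rpow_natCast, ← Real.rpow_natCast, ← Real.rpow_natCast,
        ← Real.rpow_mul (by norm_num), ← Real.rpow_mul (by norm_num),
        ← Real.rpow_mul (by norm_num), ← Real.rpow_add two_pos]
      have : (4 : ℝ) = 2 ^ (2 : ℝ) := by norm_num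
      rw [this, ← Real.rpow_add two_pos]
      refine Real.rpow_le_rpow_of_exponent_le one_le_two ?_
      have hj : (0 : ℝ) ≤ j := Nat.cast_nonneg j
      push_cast
      nlinarith [mul_nonneg hj (sub_nonneg.2 hτβ)]
    calc ((2 : ℝ) ^ (j + 1)) ^ τ * tail Kc a (2 ^ j)
        ≤ ((2 : ℝ) ^ (j + 1)) ^ τ * (E * ((2 : ℝ) ^ j) ^ (-β)) :=
          mul_le_mul_of_nonneg_left h3 (by positivity)
      _ = E * (((2 : ℝ) ^ (j + 1)) ^ τ * ((2 : ℝ) ^ j) ^ (-β)) := by ring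
      _ ≤ E * (4 * r ^ j) := mul_le_mul_of_nonneg_left h4 hE
      _ = _ := by ring
  refine (Finset.sum_le_sum h2).trans ?_
  rw [← Finset.mul_sum]
  have h5 : ∑ j ∈ range (Kc + 2), r ^ j ≤ (1 - r)⁻¹ := by
    rw [← tsum_geometric_of_lt_one hr0.le hr1]
    exact (summable_geometric_of_lt_one hr0.le hr1).sum_le_tsum _ fun i _ => by positivity
  calc 4 * E * ∑ j ∈ range (Kc + 2), r ^ j ≤ 4 * E * (1 - r)⁻¹ :=
        mul_le_mul_of_nonneg_left h5 (by positivity)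
    _ = _ := by ring

/-- negative powers of the bracket are summable -/
lemma brsum {δ : ℝ} (hδ : 0 < δ) :
    ∃ C : ℝ, 1 ≤ C ∧ ∀ s : Finset ℤ, ∑ k ∈ s, br k ^ (-1 - δ) ≤ C := by
  have hn : Summable fun n : ℕ => (1 + (n : ℝ)) ^ (-1 - δ) := by
    have := (summable_nat_add_iff 1).2 (Real.summable_nat_rpow.2 (show -1 - δ < -1 by linarith))
    refine this.congr fun n => ?_
    push_cast; rw [add_comm]
  have hs : Summable fun k : ℤ => br k ^ (-1 - δ) := by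
    apply Summable.of_nat_of_neg
    · refine hn.congr fun n => ?_
      simp [br]
    · refine hn.congr fun n => ?_
      simp [br]
  refine ⟨max 1 (∑' k : ℤ, br k ^ (-1 - δ)), le_max_left _ _, fun s => ?_⟩
  exact (hs.sum_le_tsum s fun k _ => Real.rpow_nonneg (fx_br_pos k).le _).trans (le_max_right _ _)

/-- Cauchy-Schwarz on the fibres of a map -/
lemma fx_fib {ι κ : Type} [DecidableEq κ] (S : Finset ι) (K : Finset κ) (x : ι → κ)
    (y z : ι → ℤ) (Y Z : κ → Finset ℤ) (f G H : κ → ℝ) (g h : ℤ → ℝ)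
    (hx : ∀ i ∈ S, x i ∈ K) (hy : ∀ i ∈ S, y i ∈ Y (x i)) (hz : ∀ i ∈ S, z i ∈ Z (x i))
    (iy : ∀ i ∈ S, ∀ j ∈ S, x i = x j → y i = y j → i = j)
    (iz : ∀ i ∈ S, ∀ j ∈ S, x i = x j → z i = z j → i = j)
    (hf : ∀ c ∈ K, 0 ≤ f c) (hG0 : ∀ c ∈ K, 0 ≤ G c) (hH0 : ∀ c ∈ K, 0 ≤ H c)
    (hG : ∀ c ∈ K, ∑ l ∈ Y c, g l ^ 2 ≤ G c ^ 2) (hH : ∀ c ∈ K, ∑ l ∈ Z c, h l ^ 2 ≤ H c ^ 2) :
    ∑ i ∈ S, f (x i) * (g (y i) * h (z i)) ≤ ∑ c ∈ K, f c * (G c * H c) := by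
  rw [← Finset.sum_fiberwise_of_maps_to hx]
  refine Finset.sum_le_sum fun c hc => ?_
  have e1 : ∑ i ∈ S with x i = c, f (x i) * (g (y i) * h (z i)) =
      f c * ∑ i ∈ S with x i = c, g (y i) * h (z i) := by
    rw [Finset.mul_sum]
    refine Finset.sum_congr rfl fun i hi => ?_
    rw [(mem_filter.1 hi).2]
  rw [e1]
  refine mul_le_mul_of_nonneg_left ?_ (hf c hc)
  have key : ∀ (w : ι → ℤ) (W : κ → Finset ℤ) (u : ℤ → ℝ) (U : ℝ), 0 ≤ U →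
      (∀ i ∈ S, w i ∈ W (x i)) → (∀ i ∈ S, ∀ j ∈ S, x i = x j → w i = w j → i = j) →
      ∑ l ∈ W c, u l ^ 2 ≤ U ^ 2 → √(∑ i ∈ S with x i = c, u (w i) ^ 2) ≤ U := by
    intro w W u U hU hw iw hu
    rw [Real.sqrt_le_left hU]
    refine le_trans ?_ hu
    rw [← Finset.sum_image (f := fun l => u l ^ 2) (g := w)]
    · refine Finset.sum_le_sum_of_subset_of_nonneg ?_ fun _ _ _ => by positivity
      intro l hl
      obtain ⟨i, hi, rfl⟩ := mem_image.1 hl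
      have := hw i (mem_filter.1 hi).1
      rwa [(mem_filter.1 hi).2] at this
    · intro i hi j hj hij
      have hi' := mem_filter.1 (Finset.mem_coe.1 hi)
      have hj' := mem_filter.1 (Finset.mem_coe.1 hj)
      exact iw i hi'.1 j hj'.1 (hi'.2.trans hj'.2.symm) hij
  refine (Real.sum_mul_le_sqrt_mul_sqrt _ _ _).trans ?_
  exact mul_le_mul (key y Y g _ (hG0 c hc) hy iy (hG c hc))
    (key z Z h _ (hH0 c hc) hz iz (hH c hc)) (Real.sqrt_nonneg _) (hG0 c hc)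

lemma fx_br_tri {a b c k : ℤ} (h : a - b + c = k) : br k ≤ br a + br b + br c := by
  unfold br
  have : (k : ℝ) = a - b + c := by rw [← h]; push_cast; ring
  rw [this]
  have h1 := abs_add_le ((a : ℝ) - b) c
  have h2 := abs_sub (a : ℝ) b
  linarith

/-- pointwise bound of the cubic term -/
lemma NL_le {β0 : ℝ} (h0 : 1 / 2 < β0) : ∃ C : ℝ, 1 ≤ C ∧ ∀ (Kc : ℕ) (a : ℤ → ℂ) (E β : ℝ),
    1 ≤ E → β0 ≤ β → β ≤ 2 → (∀ R : ℝ, 0 < R → tail Kc a R ≤ E * R ^ (-β)) →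
    ∀ k, ‖NL Kc a k‖ ≤ C * E ^ 2 * br k ^ (-β / 2) := by
  have hδ : 0 < β0 - 1 / 2 := by linarith
  obtain ⟨C1, hC1, hw⟩ := wsum hδ
  obtain ⟨C2, hC2, hb⟩ := brsum hδ
  refine ⟨18 * (C1 * C2), by nlinarith, ?_⟩
  intro Kc a E β hE hβ0 hβ2 ht k
  have hE0 : 0 ≤ E := by linarith
  have hsE : √E * √E = E := Real.mul_self_sqrt hE0
  have hG : ∀ R : ℝ, 0 < R → ∑ l ∈ (FF Kc).filter (fun l => R ≤ br l), ‖a l‖ ^ 2 ≤
      (√E * R ^ (-β / 2)) ^ 2 := by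
    intro R hR
    refine (ht R hR).trans_eq ?_
    rw [mul_pow, Real.sq_sqrt hE0, ← Real.rpow_natCast, ← Real.rpow_mul hR.le]
    congr 2; push_cast; ring
  have hl1 : ∑ c ∈ FF Kc, ‖a c‖ * br c ^ (-β / 2) ≤ C1 * C2 * E := by
    have e1 : ∀ c ∈ FF Kc, ‖a c‖ * br c ^ (-β / 2) =
        (br c ^ (1 / 4 : ℝ) * ‖a c‖) * br c ^ (-β / 2 - 1 / 4) := by
      intro c _
      have : br c ^ (-β / 2) = br c ^ (1 / 4 : ℝ) * br c ^ (-β / 2 - 1 / 4) := by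
        rw [← Real.rpow_add (fx_br_pos c)]; congr 1; ring
      rw [this]; ring
    rw [Finset.sum_congr rfl e1]
    refine (Real.sum_mul_le_sqrt_mul_sqrt _ _ _).trans ?_
    have b1 : ∑ c ∈ FF Kc, (br c ^ (1 / 4 : ℝ) * ‖a c‖) ^ 2 ≤ C1 * E := by
      refine le_trans (le_of_eq ?_) (hw Kc a E β (1 / 2) (by norm_num) (by linarith)
        (by linarith) ht)
      refine Finset.sum_congr rfl fun c _ => ?_
      rw [mul_pow, ← Real.rpow_natCast, ← Real.rpow_mul (fx_br_pos c).le]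
      norm_num
    have b2 : ∑ c ∈ FF Kc, (br c ^ (-β / 2 - 1 / 4)) ^ 2 ≤ C2 := by
      refine le_trans (Finset.sum_le_sum fun c _ => ?_) (hb (FF Kc))
      rw [← Real.rpow_natCast, ← Real.rpow_mul (fx_br_pos c).le]
      refine Real.rpow_le_rpow_of_exponent_le (fx_one_le_br c) ?_
      push_cast; linarith
    have c1 : √(∑ c ∈ FF Kc, (br c ^ (1 / 4 : ℝ) * ‖a c‖) ^ 2) ≤ C1 * E := by
      rw [Real.sqrt_le_left (by positivity)]
      have : 1 ≤ C1 * E := by nlinarith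
      nlinarith
    have c2 : √(∑ c ∈ FF Kc, (br c ^ (-β / 2 - 1 / 4)) ^ 2) ≤ C2 := by
      rw [Real.sqrt_le_left (by positivity)]
      nlinarith
    calc _ ≤ (C1 * E) * C2 := mul_le_mul c1 c2 (Real.sqrt_nonneg _) (by positivity)
      _ = _ := by ring
  have hk3 : 0 < br k / 3 := by linarith [fx_br_pos k]
  have h3 : (br k / 3) ^ (-β / 2) ≤ 3 * br k ^ (-β / 2) := by
    rw [Real.div_rpow (fx_br_pos k).le (by norm_num), div_le_iff₀ (by positivity)]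
    have h4 : (3 : ℝ) ^ (-1 : ℝ) ≤ 3 ^ (-β / 2) :=
      Real.rpow_le_rpow_of_exponent_le (by norm_num) (by linarith)
    rw [Real.rpow_neg_one] at h4
    have h5 : 0 < br k ^ (-β / 2) := Real.rpow_pos_of_pos (fx_br_pos k) _
    nlinarith
  set T := (FF Kc ×ˢ FF Kc ×ˢ FF Kc).filter fun p : ℤ × ℤ × ℤ => p.1 - p.2.1 + p.2.2 = k with hT
  set w : ℤ × ℤ × ℤ → ℝ := fun p => ‖a p.1‖ * ‖a p.2.1‖ * ‖a p.2.2‖ with hw'
  set D : ℝ := 3 * (C1 * C2) * E ^ 2 * br k ^ (-β / 2) with hD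
  have key : ∀ x y z : ℤ × ℤ × ℤ → ℤ, (∀ p ∈ T, x p ∈ FF Kc ∧ y p ∈ FF Kc ∧ z p ∈ FF Kc) →
      (∀ p ∈ T, ∀ q ∈ T, x p = x q → y p = y q → p = q) →
      (∀ p ∈ T, ∀ q ∈ T, x p = x q → z p = z q → p = q) →
      (∀ p, w p = ‖a (x p)‖ * (‖a (y p)‖ * ‖a (z p)‖)) →
      (∑ p ∈ T, if br (x p) ≤ br (y p) ∧ br k / 3 ≤ br (z p) then w p else 0) ≤ D := by
    intro x y z hm iy iz hwp
    rw [← Finset.sum_filter, Finset.sum_congr rfl fun p _ => hwp p]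
    refine (fx_fib _ (FF Kc) x y z (fun c => (FF Kc).filter fun l => br c ≤ br l)
      (fun _ => (FF Kc).filter fun l => br k / 3 ≤ br l) (fun c => ‖a c‖)
      (fun c => √E * br c ^ (-β / 2)) (fun _ => √E * (br k / 3) ^ (-β / 2))
      (fun l => ‖a l‖) (fun l => ‖a l‖) ?_ ?_ ?_ ?_ ?_ ?_ ?_ ?_ ?_ ?_).trans ?_
    · exact fun p hp => (hm p (mem_filter.1 hp).1).1
    · exact fun p hp => mem_filter.2 ⟨(hm p (mem_filter.1 hp).1).2.1, (mem_filter.1 hp).2.1⟩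
    · exact fun p hp => mem_filter.2 ⟨(hm p (mem_filter.1 hp).1).2.2, (mem_filter.1 hp).2.2⟩
    · exact fun p hp q hq => iy p (mem_filter.1 hp).1 q (mem_filter.1 hq).1
    · exact fun p hp q hq => iz p (mem_filter.1 hp).1 q (mem_filter.1 hq).1
    · exact fun c _ => norm_nonneg _
    · exact fun c _ => mul_nonneg (Real.sqrt_nonneg _) (Real.rpow_nonneg (fx_br_pos c).le _)
    · exact fun c _ => mul_nonneg (Real.sqrt_nonneg _) (Real.rpow_nonneg hk3.le _)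
    · exact fun c _ => hG _ (fx_br_pos c)
    · exact fun c _ => hG _ hk3
    · have e1 : ∀ c ∈ FF Kc, ‖a c‖ * (√E * br c ^ (-β / 2) * (√E * (br k / 3) ^ (-β / 2))) =
          (E * (br k / 3) ^ (-β / 2)) * (‖a c‖ * br c ^ (-β / 2)) := by
        intro c _
        calc _ = (√E * √E * (br k / 3) ^ (-β / 2)) * (‖a c‖ * br c ^ (-β / 2)) := by ring
          _ = _ := by rw [hsE]
      rw [Finset.sum_congr rfl e1, ← Finset.mul_sum]
      have h5 : 0 < br k ^ (-β / 2) := Real.rpow_pos_of_pos (fx_br_pos k) _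
      calc _ ≤ (E * (3 * br k ^ (-β / 2))) * (C1 * C2 * E) :=
            mul_le_mul (mul_le_mul_of_nonneg_left h3 hE0) hl1
              (Finset.sum_nonneg fun c _ => mul_nonneg (norm_nonneg _)
                (Real.rpow_nonneg (fx_br_pos c).le _)) (by positivity)
        _ = D := by rw [hD]; ring
  have hm : ∀ p ∈ T, p.1 ∈ FF Kc ∧ p.2.1 ∈ FF Kc ∧ p.2.2 ∈ FF Kc ∧ p.1 - p.2.1 + p.2.2 = k := by
    intro p hp
    simp only [hT, mem_filter, mem_product] at hp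
    exact ⟨hp.1.1, hp.1.2.1, hp.1.2.2, hp.2⟩
  have i12 : ∀ p ∈ T, ∀ q ∈ T, p.1 = q.1 → p.2.1 = q.2.1 → p = q := fun p hp q hq h1 h2 => by
    have := (hm p hp).2.2.2; have := (hm q hq).2.2.2
    exact Prod.ext h1 (Prod.ext h2 (by omega))
  have i13 : ∀ p ∈ T, ∀ q ∈ T, p.1 = q.1 → p.2.2 = q.2.2 → p = q := fun p hp q hq h1 h2 => by
    have := (hm p hp).2.2.2; have := (hm q hq).2.2.2
    exact Prod.ext h1 (Prod.ext (by omega) h2)
  have i23 : ∀ p ∈ T, ∀ q ∈ T, p.2.1 = q.2.1 → p.2.2 = q.2.2 → p = q := fun p hp q hq h1 h2 => by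
    have := (hm p hp).2.2.2; have := (hm q hq).2.2.2
    exact Prod.ext (by omega) (Prod.ext h1 h2)
  have k1 := key (fun p => p.1) (fun p => p.2.1) (fun p => p.2.2)
    (fun p hp => ⟨(hm p hp).1, (hm p hp).2.1, (hm p hp).2.2.1⟩) i12 i13
    (fun p => by simp only [hw']; ring)
  have k2 := key (fun p => p.1) (fun p => p.2.2) (fun p => p.2.1)
    (fun p hp => ⟨(hm p hp).1, (hm p hp).2.2.1, (hm p hp).2.1⟩) i13 i12
    (fun p => by simp only [hw']; ring)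
  have k3 := key (fun p => p.2.1) (fun p => p.1) (fun p => p.2.2)
    (fun p hp => ⟨(hm p hp).2.1, (hm p hp).1, (hm p hp).2.2.1⟩)
    (fun p hp q hq h1 h2 => i12 p hp q hq h2 h1) i23 (fun p => by simp only [hw']; ring)
  have k4 := key (fun p => p.2.1) (fun p => p.2.2) (fun p => p.1)
    (fun p hp => ⟨(hm p hp).2.1, (hm p hp).2.2.1, (hm p hp).1⟩) i23
    (fun p hp q hq h1 h2 => i12 p hp q hq h2 h1) (fun p => by simp only [hw']; ring)
  have k5 := key (fun p => p.2.2) (fun p => p.1) (fun p => p.2.1)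
    (fun p hp => ⟨(hm p hp).2.2.1, (hm p hp).1, (hm p hp).2.1⟩)
    (fun p hp q hq h1 h2 => i13 p hp q hq h2 h1) (fun p hp q hq h1 h2 => i23 p hp q hq h2 h1)
    (fun p => by simp only [hw']; ring)
  have k6 := key (fun p => p.2.2) (fun p => p.2.1) (fun p => p.1)
    (fun p hp => ⟨(hm p hp).2.2.1, (hm p hp).2.1, (hm p hp).1⟩)
    (fun p hp q hq h1 h2 => i23 p hp q hq h2 h1) (fun p hp q hq h1 h2 => i13 p hp q hq h2 h1)
    (fun p => by simp only [hw']; ring)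
  have hn : ‖NL Kc a k‖ ≤ ∑ p ∈ T, w p := by
    refine (norm_sum_le _ _).trans (le_of_eq (Finset.sum_congr rfl fun p _ => ?_))
    simp only [hw', norm_mul, Complex.norm_conj]
  have hsum := add_le_add (add_le_add (add_le_add k1 k2) (add_le_add k3 k4)) (add_le_add k5 k6)
  simp only [← Finset.sum_add_distrib] at hsum
  refine hn.trans (le_trans (Finset.sum_le_sum fun p hp => ?_) (hsum.trans_eq ?_))
  · have ht3 := fx_br_tri (hm p hp).2.2.2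
    have hw0 : 0 ≤ w p := by simp only [hw']; positivity
    have hi : ∀ (P : Prop) [Decidable P], 0 ≤ if P then w p else 0 := by
      intro P _; split_ifs; exacts [hw0, le_rfl]
    have hi' : ∀ (P : Prop) [Decidable P], P → w p ≤ if P then w p else 0 := by
      intro P _ h; rw [if_pos h]
    have a1 := hi (br p.1 ≤ br p.2.1 ∧ br k / 3 ≤ br p.2.2)
    have a2 := hi (br p.1 ≤ br p.2.2 ∧ br k / 3 ≤ br p.2.1)
    have a3 := hi (br p.2.1 ≤ br p.1 ∧ br k / 3 ≤ br p.2.2)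
    have a4 := hi (br p.2.1 ≤ br p.2.2 ∧ br k / 3 ≤ br p.1)
    have a5 := hi (br p.2.2 ≤ br p.1 ∧ br k / 3 ≤ br p.2.1)
    have a6 := hi (br p.2.2 ≤ br p.2.1 ∧ br k / 3 ≤ br p.1)
    by_cases c1 : br k / 3 ≤ br p.1
    · rcases le_total (br p.2.1) (br p.2.2) with c | c
      · have := hi' (br p.2.1 ≤ br p.2.2 ∧ br k / 3 ≤ br p.1) ⟨c, c1⟩; linarith
      · have := hi' (br p.2.2 ≤ br p.2.1 ∧ br k / 3 ≤ br p.1) ⟨c, c1⟩; linarith
    by_cases c2 : br k / 3 ≤ br p.2.1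
    · rcases le_total (br p.1) (br p.2.2) with c | c
      · have := hi' (br p.1 ≤ br p.2.2 ∧ br k / 3 ≤ br p.2.1) ⟨c, c2⟩; linarith
      · have := hi' (br p.2.2 ≤ br p.1 ∧ br k / 3 ≤ br p.2.1) ⟨c, c2⟩; linarith
    have c3 : br k / 3 ≤ br p.2.2 := by
      rw [not_le] at c1 c2; linarith
    rcases le_total (br p.1) (br p.2.1) with c | c
    · have := hi' (br p.1 ≤ br p.2.1 ∧ br k / 3 ≤ br p.2.2) ⟨c, c3⟩; linarith
    · have := hi' (br p.2.1 ≤ br p.1 ∧ br k / 3 ≤ br p.2.2) ⟨c, c3⟩; linarith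
  · rw [hD]; ring

lemma fx_mem_F4 {Kc : ℕ} {k : Fin 4 → ℤ} : k ∈ F4 Kc ↔ ∀ i, k i ∈ FF Kc := by
  simp [F4, Fintype.mem_piFinset]

lemma fx_De_inj {k k' : Fin 4 → ℤ} (i0 : Fin 4) (h : ∀ i, i ≠ i0 → k i = k' i)
    (hD : De k = De k') : k = k' := by
  have : k i0 = k' i0 := by
    unfold De at hD
    fin_cases i0
    · have := h 1 (by decide); have := h 2 (by decide); have := h 3 (by decide)
      show k 0 = k' 0; omega
    · have := h 0 (by decide); have := h 2 (by decide); have := h 3 (by decide)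
      show k 1 = k' 1; omega
    · have := h 0 (by decide); have := h 1 (by decide); have := h 3 (by decide)
      show k 2 = k' 2; omega
    · have := h 0 (by decide); have := h 1 (by decide); have := h 2 (by decide)
      show k 3 = k' 3; omega
  funext i
  by_cases hi : i = i0
  · rw [hi]; exact this
  · exact h i hi

lemma fx_De_inj' (e : Equiv.Perm (Fin 4)) {k k' : Fin 4 → ℤ} (j0 : Fin 4)
    (h : ∀ j, j ≠ j0 → k (e j) = k' (e j)) (hD : De k = De k') : k = k' := by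
  refine fx_De_inj (e j0) (fun i hi => ?_) hD
  have := h (e.symm i) (fun hj => hi (by rw [← hj]; simp))
  simpa using this

lemma fx_sum_perm (Kc : ℕ) (e : Equiv.Perm (Fin 4)) (f : (Fin 4 → ℤ) → ℂ) :
    ∑ k ∈ F4 Kc, f (k ∘ e) = ∑ k ∈ F4 Kc, f k := by
  refine Finset.sum_bij' (fun k _ => k ∘ e) (fun k _ => k ∘ e.symm) ?_ ?_ ?_ ?_ ?_
  · intro k hk; exact fx_mem_F4.2 fun i => fx_mem_F4.1 hk _
  · intro k hk; exact fx_mem_F4.2 fun i => fx_mem_F4.1 hk _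
  · intro k _; funext i; simp
  · intro k _; funext i; simp
  · intro k _; rfl

namespace Dat

variable (d : Dat)

lemma fx_cont {k : ℤ} (hk : k ∈ FF d.Kc) : Continuous fun t => d.b t k :=
  continuous_iff_continuousAt.2 fun t => (d.gal t k hk).continuousAt

lemma fx_cont_NL (k : ℤ) : Continuous fun t => NL d.Kc (d.b t) k := by
  unfold NL
  refine continuous_finsetSum _ fun p hp => ?_
  simp only [mem_filter, mem_product] at hp
  exact ((d.fx_cont hp.1.1).mul (continuous_conj.comp (d.fx_cont hp.1.2.1))).mul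
    (d.fx_cont hp.1.2.2)

lemma fx_cont_B {k : Fin 4 → ℤ} (hk : k ∈ F4 d.Kc) : Continuous fun t => d.B t k := by
  have h := fx_mem_F4.1 hk
  exact (((d.fx_cont (h 0)).mul (continuous_conj.comp (d.fx_cont (h 1)))).mul
    (d.fx_cont (h 2))).mul (continuous_conj.comp (d.fx_cont (h 3)))

/-- the flux through the last frequency -/
lemma fx_NL_sum (t : ℝ) (ψ : ℤ → ℝ) :
    ∑ k ∈ F4 d.Kc, (if De k = 0 then d.B t k else 0) * (ψ (k 3) : ℂ) =
      ∑ l ∈ FF d.Kc, (ψ l : ℂ) * (NL d.Kc (d.b t) l * conj (d.b t l)) := by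
  rw [← Finset.sum_fiberwise_of_maps_to (s := F4 d.Kc) (t := FF d.Kc) (g := fun k => k 3)
    (fun k hk => fx_mem_F4.1 hk 3)]
  refine Finset.sum_congr rfl fun l hl => ?_
  simp only [ite_mul, zero_mul]
  rw [← Finset.sum_filter, NL, Finset.sum_mul, Finset.mul_sum]
  refine Finset.sum_bij' (fun k _ => (k 0, k 1, k 2)) (fun p _ => ![p.1, p.2.1, p.2.2, l])
    ?_ ?_ ?_ ?_ ?_
  · intro k hk
    simp only [mem_filter, fx_mem_F4, De] at hk
    simp only [mem_filter, mem_product]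
    exact ⟨⟨hk.1.1 0, hk.1.1 1, hk.1.1 2⟩, by omega⟩
  · intro p hp
    simp only [mem_filter, mem_product] at hp
    simp only [mem_filter, fx_mem_F4, De]
    refine ⟨⟨fun i => ?_, rfl⟩, ?_⟩
    · fin_cases i
      exacts [hp.1.1, hp.1.2.1, hp.1.2.2, hl]
    · show p.1 - p.2.1 + p.2.2 - l = 0
      omega
  · intro k hk
    simp only [mem_filter] at hk
    funext i
    fin_cases i
    exacts [rfl, rfl, rfl, hk.1.2.symm]
  · intro p _; rfl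
  · intro k hk
    simp only [mem_filter] at hk
    rw [B, hk.1.2]; ring

lemma fx_sym (t : ℝ) (ψ : ℤ → ℝ) :
    (∑ k ∈ F4 d.Kc, (if De k = 0 then d.B t k else 0) *
      ((ψ (k 1) + ψ (k 3) - ψ (k 0) - ψ (k 2) : ℝ) : ℂ)).im =
      4 * (∑ l ∈ FF d.Kc, (ψ l : ℂ) * (NL d.Kc (d.b t) l * conj (d.b t l))).im := by
  rw [← d.fx_NL_sum t ψ]
  set Q : Fin 4 → ℂ := fun i => ∑ k ∈ F4 d.Kc, (if De k = 0 then d.B t k else 0) * (ψ (k i) : ℂ)
    with hQ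
  have e0 : ∑ k ∈ F4 d.Kc, (if De k = 0 then d.B t k else 0) *
      ((ψ (k 1) + ψ (k 3) - ψ (k 0) - ψ (k 2) : ℝ) : ℂ) = Q 1 + Q 3 - Q 0 - Q 2 := by
    simp only [hQ, ← Finset.sum_add_distrib, ← Finset.sum_sub_distrib]
    refine Finset.sum_congr rfl fun k _ => ?_
    push_cast; ring
  have e1 : Q 1 = Q 3 := by
    simp only [hQ]
    rw [← fx_sum_perm d.Kc (Equiv.swap 1 3)]
    refine Finset.sum_congr rfl fun k _ => ?_
    have h0 : (k ∘ Equiv.swap (1 : Fin 4) 3) 0 = k 0 := rfl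
    have h1 : (k ∘ Equiv.swap (1 : Fin 4) 3) 1 = k 3 := rfl
    have h2 : (k ∘ Equiv.swap (1 : Fin 4) 3) 2 = k 2 := rfl
    have h3 : (k ∘ Equiv.swap (1 : Fin 4) 3) 3 = k 1 := rfl
    have hD : De (k ∘ Equiv.swap (1 : Fin 4) 3) = De k := by
      simp only [De, h0, h1, h2, h3]; ring
    have hB : d.B t (k ∘ Equiv.swap (1 : Fin 4) 3) = d.B t k := by
      simp only [B, h0, h1, h2, h3]; ring
    rw [hD, hB, h1]
  have e2 : ∀ i : Fin 4, Q i = conj (Q (((Equiv.swap (0 : Fin 4) 1).trans (Equiv.swap 2 3)) i)) := by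
    intro i
    simp only [hQ]
    rw [← fx_sum_perm d.Kc ((Equiv.swap (0 : Fin 4) 1).trans (Equiv.swap 2 3)), map_sum]
    refine Finset.sum_congr rfl fun k _ => ?_
    set e := (Equiv.swap (0 : Fin 4) 1).trans (Equiv.swap 2 3) with he
    have h0 : (k ∘ e) 0 = k 1 := rfl
    have h1 : (k ∘ e) 1 = k 0 := rfl
    have h2 : (k ∘ e) 2 = k 3 := rfl
    have h3 : (k ∘ e) 3 = k 2 := rfl
    have hD : De (k ∘ e) = 0 ↔ De k = 0 := by
      simp only [De, h0, h1, h2, h3]; omega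
    have hB : d.B t (k ∘ e) = conj (d.B t k) := by
      simp only [B, h0, h1, h2, h3, map_mul, conj_conj]; ring
    rw [map_mul, conj_ofReal, hB]
    by_cases h : De k = 0
    · rw [if_pos h, if_pos (hD.2 h)]; rfl
    · rw [if_neg h, if_neg (mt hD.1 h), map_zero]; rfl
  have e3 : Q 0 = conj (Q 1) := e2 0
  have e4 : Q 2 = conj (Q 3) := e2 2
  rw [e0, e3, e4, e1]
  show _ = 4 * (Q 3).im
  simp only [sub_im, add_im, conj_im]; ring

lemma fx_w0_sum (S : Finset (Fin 4 → ℤ)) (hS : S ⊆ F4 d.Kc) (c : (Fin 4 → ℤ) → ℂ) :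
    ∑ k ∈ S, d.w0 k * c k =
      ∫ t in (0 : ℝ)..d.T, ∑ k ∈ S, (if De k = 0 then d.B t k else 0) * c k := by
  rw [intervalIntegral.integral_finsetSum]
  · refine Finset.sum_congr rfl fun k _ => ?_
    rw [intervalIntegral.integral_mul_const, w0]
    split_ifs <;> simp
  · intro k hk
    refine Continuous.intervalIntegrable ?_ _ _
    split_ifs
    · exact (d.fx_cont_B (hS hk)).mul continuous_const
    · exact continuous_const

/-- flux identity -/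
lemma flux (ψ : ℤ → ℝ) :
    ∑ k ∈ FF d.Kc, ψ k * ‖d.b d.T k‖ ^ 2 - ∑ k ∈ FF d.Kc, ψ k * ‖d.b 0 k‖ ^ 2 =
      1 / 2 * (∑ k ∈ F4 d.Kc,
        d.w0 k * ((ψ (k 1) + ψ (k 3) - ψ (k 0) - ψ (k 2) : ℝ) : ℂ)).im := by
  set G : ℝ → ℂ := fun t => ∑ k ∈ F4 d.Kc, (if De k = 0 then d.B t k else 0) *
      ((ψ (k 1) + ψ (k 3) - ψ (k 0) - ψ (k 2) : ℝ) : ℂ) with hG
  have hGc : Continuous G := by
    refine continuous_finsetSum _ fun k hk => ?_
    split_ifs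
    · exact (d.fx_cont_B hk).mul continuous_const
    · exact continuous_const
  have hder : ∀ t, HasDerivAt (fun s => ∑ k ∈ FF d.Kc, ψ k * ‖d.b s k‖ ^ 2)
      (1 / 2 * (G t).im) t := by
    intro t
    have h1 := HasDerivAt.fun_sum (u := FF d.Kc)
      fun k hk => ((d.gal t k hk).norm_sq).const_mul (ψ k)
    refine h1.congr_deriv ?_
    simp only [hG]
    rw [d.fx_sym t ψ, Complex.im_sum, Finset.mul_sum, Finset.mul_sum]
    refine Finset.sum_congr rfl fun k _ => ?_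
    rw [Complex.inner]
    simp only [mul_re, mul_im, neg_re, neg_im, I_re, I_im, add_re, add_im, ofReal_re, ofReal_im,
      conj_re, conj_im]
    ring
  rw [d.fx_w0_sum _ (fun _ h => h)]
  have h2 := intervalIntegral.intervalIntegral_im (μ := MeasureTheory.volume)
    (hGc.intervalIntegrable 0 d.T)
  have h3 := intervalIntegral.integral_eq_sub_of_hasDerivAt (a := 0) (b := d.T)
    (fun t _ => hder t) ((continuous_const.mul (continuous_im.comp hGc)).intervalIntegrable _ _)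
  rw [← h3, intervalIntegral.integral_const_mul]
  congr 1

lemma fx_box_sub (A : Fin 4 → Cell) : d.box A ⊆ F4 d.Kc := filter_subset _ _

/-- two factors in `ℓ¹`, two in `ℓ²` -/
lemma fx_quad (A : Fin 4 → Cell) (e : Equiv.Perm (Fin 4)) (F : Fin 4 → ℤ → ℝ)
    (hF : ∀ i k, 0 ≤ F i k) {L0 L2 G1 G3 : ℝ} (hL : 0 ≤ L0) (hG1 : 0 ≤ G1) (hG3 : 0 ≤ G3)
    (h0 : ∑ k ∈ FF d.Kc ∩ cell (A (e 0)), F 0 k ≤ L0)
    (h2 : ∑ k ∈ FF d.Kc ∩ cell (A (e 2)), F 2 k ≤ L2)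
    (h1 : ∑ k ∈ FF d.Kc ∩ cell (A (e 1)), F 1 k ^ 2 ≤ G1 ^ 2)
    (h3 : ∑ k ∈ FF d.Kc ∩ cell (A (e 3)), F 3 k ^ 2 ≤ G3 ^ 2) :
    ∑ k ∈ d.box A with De k = 0, ∏ i, F i (k (e i)) ≤ L0 * L2 * (G1 * G3) := by
  have hm : ∀ k ∈ (d.box A).filter fun k => De k = 0, ∀ i, k i ∈ FF d.Kc ∩ cell (A i) := by
    intro k hk i
    simp only [box, mem_filter] at hk
    exact mem_inter.2 ⟨fx_mem_F4.1 hk.1.1 i, hk.1.2 i⟩
  have e1 : ∀ k ∈ (d.box A).filter fun k => De k = 0, ∏ i, F i (k (e i)) =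
      (F 0 (k (e 0)) * F 2 (k (e 2))) * (F 1 (k (e 1)) * F 3 (k (e 3))) := by
    intro k _
    rw [Fin.prod_univ_four]; ring
  rw [Finset.sum_congr rfl e1]
  refine (fx_fib _ ((FF d.Kc ∩ cell (A (e 0))) ×ˢ (FF d.Kc ∩ cell (A (e 2))))
    (fun k : Fin 4 → ℤ => (k (e 0), k (e 2))) (fun k => k (e 1)) (fun k => k (e 3))
    (fun _ => FF d.Kc ∩ cell (A (e 1))) (fun _ => FF d.Kc ∩ cell (A (e 3)))
    (fun c => F 0 c.1 * F 2 c.2) (fun _ => G1) (fun _ => G3) (F 1) (F 3)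
    (fun k hk => mem_product.2 ⟨hm k hk _, hm k hk _⟩) (fun k hk => hm k hk _)
    (fun k hk => hm k hk _) ?_ ?_ (fun c _ => mul_nonneg (hF _ _) (hF _ _)) (fun _ _ => hG1)
    (fun _ _ => hG3) (fun _ _ => h1) (fun _ _ => h3)).trans ?_
  · intro k hk k' hk' hx hy
    refine fx_De_inj' e 3 (fun j hj => ?_) ((mem_filter.1 hk).2.trans (mem_filter.1 hk').2.symm)
    fin_cases j
    exacts [congrArg Prod.fst hx, hy, congrArg Prod.snd hx, absurd rfl hj]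
  · intro k hk k' hk' hx hy
    refine fx_De_inj' e 1 (fun j hj => ?_) ((mem_filter.1 hk).2.trans (mem_filter.1 hk').2.symm)
    fin_cases j
    exacts [congrArg Prod.fst hx, absurd rfl hj, congrArg Prod.snd hx, hy]
  · rw [← Finset.sum_mul, Finset.sum_product, ← Finset.sum_mul_sum]
    refine mul_le_mul_of_nonneg_right ?_ (mul_nonneg hG1 hG3)
    exact mul_le_mul h0 h2 (Finset.sum_nonneg fun _ _ => hF _ _) hL

lemma fx_norm_B (e : Equiv.Perm (Fin 4)) (t : ℝ) (k : Fin 4 → ℤ) :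
    ‖d.B t k‖ = ∏ i, ‖d.b t (k (e i))‖ := by
  rw [Equiv.prod_comp e fun i => ‖d.b t (k i)‖, Fin.prod_univ_four, B]
  simp only [norm_mul, Complex.norm_conj]

/-- direct bound: two factors in `ℓ¹`, two in `ℓ²` -/
lemma direct (A : Fin 4 → Cell) (e : Equiv.Perm (Fin 4)) {σ : (Fin 4 → ℤ) → ℂ} {s Λ Γ : ℝ}
    (hs0 : 0 ≤ s) (hs : ∀ k ∈ d.box A, De k = 0 → ‖σ k‖ ≤ s) (hΛ : 0 ≤ Λ) (hΓ : 0 ≤ Γ)
    (h0 : ∀ t ∈ Set.Icc 0 d.T, ∑ k ∈ FF d.Kc ∩ cell (A (e 0)), ‖d.b t k‖ ≤ Λ)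
    (h2 : ∀ t ∈ Set.Icc 0 d.T, ∑ k ∈ FF d.Kc ∩ cell (A (e 2)), ‖d.b t k‖ ≤ Λ)
    (h1 : ∀ t ∈ Set.Icc 0 d.T, ∑ k ∈ FF d.Kc ∩ cell (A (e 1)), ‖d.b t k‖ ^ 2 ≤ Γ ^ 2)
    (h3 : ∀ t ∈ Set.Icc 0 d.T, ∑ k ∈ FF d.Kc ∩ cell (A (e 3)), ‖d.b t k‖ ^ 2 ≤ Γ ^ 2) :
    ‖∑ k ∈ d.box A, d.w0 k * σ k‖ ≤ s * d.T * Λ ^ 2 * Γ ^ 2 := by
  rw [d.fx_w0_sum _ (d.fx_box_sub A)]
  refine (intervalIntegral.norm_integral_le_of_norm_le_const (C := s * (Λ * Λ * (Γ * Γ)))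
    fun t ht => ?_).trans_eq ?_
  · rw [Set.uIoc_of_le d.hT] at ht
    have ht' : t ∈ Set.Icc 0 d.T := Set.Ioc_subset_Icc_self ht
    simp only [ite_mul, zero_mul]
    rw [← Finset.sum_filter]
    refine (norm_sum_le _ _).trans (le_trans ?_ (mul_le_mul_of_nonneg_left
      (d.fx_quad A e (fun _ k => ‖d.b t k‖) (fun _ _ => norm_nonneg _) hΛ hΓ hΓ
        (h0 t ht') (h2 t ht') (h1 t ht') (h3 t ht')) hs0))
    rw [Finset.mul_sum]
    refine Finset.sum_le_sum fun k hk => ?_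
    rw [norm_mul, d.fx_norm_B e, mul_comm]
    exact mul_le_mul_of_nonneg_right (hs k (mem_filter.1 hk).1 (mem_filter.1 hk).2)
      (Finset.prod_nonneg fun _ _ => norm_nonneg _)
  · rw [sub_zero, abs_of_nonneg d.hT]; ring

/-- the sextic part of the time derivative of the quartic monomial -/
noncomputable def fxS (t : ℝ) (k : Fin 4 → ℤ) : ℂ :=
  -I * (NL d.Kc (d.b t) (k 0) * conj (d.b t (k 1)) * d.b t (k 2) * conj (d.b t (k 3))) +
  I * (d.b t (k 0) * conj (NL d.Kc (d.b t) (k 1)) * d.b t (k 2) * conj (d.b t (k 3))) +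
  -I * (d.b t (k 0) * conj (d.b t (k 1)) * NL d.Kc (d.b t) (k 2) * conj (d.b t (k 3))) +
  I * (d.b t (k 0) * conj (d.b t (k 1)) * d.b t (k 2) * conj (NL d.Kc (d.b t) (k 3)))

lemma fx_cont_S {k : Fin 4 → ℤ} (hk : k ∈ F4 d.Kc) : Continuous fun t => d.fxS t k := by
  have h := fx_mem_F4.1 hk
  have b0 := d.fx_cont (h 0)
  have b1 := continuous_conj.comp (d.fx_cont (h 1))
  have b2 := d.fx_cont (h 2)
  have b3 := continuous_conj.comp (d.fx_cont (h 3))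
  have n0 := d.fx_cont_NL (k 0)
  have n1 := continuous_conj.comp (d.fx_cont_NL (k 1))
  have n2 := d.fx_cont_NL (k 2)
  have n3 := continuous_conj.comp (d.fx_cont_NL (k 3))
  exact (((continuous_const.mul (((n0.mul b1).mul b2).mul b3)).add
    (continuous_const.mul (((b0.mul n1).mul b2).mul b3))).add
    (continuous_const.mul (((b0.mul b1).mul n2).mul b3))).add
    (continuous_const.mul (((b0.mul b1).mul b2).mul n3))

lemma fx_deriv_B {k : Fin 4 → ℤ} (hk : k ∈ F4 d.Kc) (t : ℝ) :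
    HasDerivAt (fun s => d.B s k) (-I * Ph d.α k * d.B t k + d.fxS t k) t := by
  have h := fx_mem_F4.1 hk
  have b0 := d.gal t _ (h 0)
  have b1 := (d.gal t _ (h 1)).star
  have b2 := d.gal t _ (h 2)
  have b3 := (d.gal t _ (h 3)).star
  refine (((b0.fun_mul b1).fun_mul b2).fun_mul b3).congr_deriv ?_
  simp only [B, fxS, Ph, RCLike.star_def, map_mul, map_neg, map_add, conj_I, conj_ofReal]
  push_cast
  ring

lemma fx_int_B {k : Fin 4 → ℤ} (hk : k ∈ F4 d.Kc) (hP : Ph d.α k ≠ 0) :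
    ∫ t in (0 : ℝ)..d.T, d.B t k =
      (d.B 0 k - d.B d.T k + ∫ t in (0 : ℝ)..d.T, d.fxS t k) / (I * Ph d.α k) := by
  have hB : Continuous fun t => -I * (Ph d.α k : ℂ) * d.B t k :=
    continuous_const.mul (d.fx_cont_B hk)
  have h1 := intervalIntegral.integral_eq_sub_of_hasDerivAt (a := 0) (b := d.T)
    (fun t _ => d.fx_deriv_B hk t) ((hB.add (d.fx_cont_S hk)).intervalIntegrable _ _)
  rw [intervalIntegral.integral_add (hB.intervalIntegrable _ _)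
    ((d.fx_cont_S hk).intervalIntegrable _ _), intervalIntegral.integral_const_mul] at h1
  have hP' : I * (Ph d.α k : ℂ) ≠ 0 := mul_ne_zero I_ne_zero (ofReal_ne_zero.2 hP)
  rw [eq_div_iff hP']
  linear_combination -h1

lemma fx_norm_S (e : Equiv.Perm (Fin 4)) (t : ℝ) (k : Fin 4 → ℤ) :
    ‖d.fxS t k‖ ≤ ∑ j : Fin 4, ∏ i : Fin 4,
      if i = j then ‖NL d.Kc (d.b t) (k (e i))‖ else ‖d.b t (k (e i))‖ := by
  have e1 : (∑ j : Fin 4, ∏ i : Fin 4,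
      if i = j then ‖NL d.Kc (d.b t) (k (e i))‖ else ‖d.b t (k (e i))‖) =
      ∑ j : Fin 4, ∏ i : Fin 4, if i = j then ‖NL d.Kc (d.b t) (k i)‖ else ‖d.b t (k i)‖ := by
    rw [← Equiv.sum_comp e fun j => ∏ i : Fin 4,
      if i = j then ‖NL d.Kc (d.b t) (k i)‖ else ‖d.b t (k i)‖]
    refine Finset.sum_congr rfl fun j _ => ?_
    rw [← Equiv.prod_comp e fun i =>
      if i = e j then ‖NL d.Kc (d.b t) (k i)‖ else ‖d.b t (k i)‖]
    simp only [EmbeddingLike.apply_eq_iff_eq]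
  rw [e1]
  refine (norm_add_le_of_le (norm_add_le_of_le (norm_add_le _ _) le_rfl) le_rfl).trans_eq ?_
  simp [Fin.sum_univ_four, Fin.prod_univ_four]

/-- normal form bound in the non resonant region -/
lemma normal (A : Fin 4 → Cell) (e : Equiv.Perm (Fin 4)) {σ : (Fin 4 → ℤ) → ℂ}
    {s Φ Λ Γ Γ' : ℝ} (hs0 : 0 ≤ s) (hs : ∀ k ∈ d.box A, De k = 0 → ‖σ k‖ ≤ s) (hΦ0 : 0 < Φ)
    (hΦ : ∀ k ∈ d.box A, De k = 0 → Φ ≤ |Ph d.α k|) (hΛ : 0 ≤ Λ) (hΓ : 0 ≤ Γ) (hΓ' : Γ ≤ Γ')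
    (h0 : ∀ t ∈ Set.Icc 0 d.T, ∑ k ∈ FF d.Kc ∩ cell (A (e 0)), ‖d.b t k‖ ≤ Λ)
    (h2 : ∀ t ∈ Set.Icc 0 d.T, ∑ k ∈ FF d.Kc ∩ cell (A (e 2)), ‖d.b t k‖ ≤ Λ)
    (h1 : ∀ t ∈ Set.Icc 0 d.T, ∑ k ∈ FF d.Kc ∩ cell (A (e 1)), ‖d.b t k‖ ^ 2 ≤ Γ ^ 2)
    (h3 : ∀ t ∈ Set.Icc 0 d.T, ∑ k ∈ FF d.Kc ∩ cell (A (e 3)), ‖d.b t k‖ ^ 2 ≤ Γ ^ 2)
    (n0 : ∀ t ∈ Set.Icc 0 d.T, ∑ k ∈ FF d.Kc ∩ cell (A (e 0)), ‖NL d.Kc (d.b t) k‖ ≤ Λ)
    (n2 : ∀ t ∈ Set.Icc 0 d.T, ∑ k ∈ FF d.Kc ∩ cell (A (e 2)), ‖NL d.Kc (d.b t) k‖ ≤ Λ)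
    (n1 : ∀ t ∈ Set.Icc 0 d.T, ∑ k ∈ FF d.Kc ∩ cell (A (e 1)), ‖NL d.Kc (d.b t) k‖ ^ 2 ≤ Γ' ^ 2)
    (n3 : ∀ t ∈ Set.Icc 0 d.T, ∑ k ∈ FF d.Kc ∩ cell (A (e 3)), ‖NL d.Kc (d.b t) k‖ ^ 2 ≤ Γ' ^ 2) :
    ‖∑ k ∈ d.box A, d.w0 k * σ k‖ ≤ s / Φ * (2 + 4 * d.T) * Λ ^ 2 * Γ * Γ' := by
  have hΓ0 : 0 ≤ Γ' := hΓ.trans hΓ'
  set S := (d.box A).filter fun k => De k = 0 with hS
  have hSF : ∀ k ∈ S, k ∈ F4 d.Kc := fun k hk => d.fx_box_sub A (mem_filter.1 hk).1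
  set W : ℝ := Λ * Λ * (Γ * Γ') with hW
  have hWW : Λ * Λ * (Γ * Γ) ≤ W :=
    mul_le_mul_of_nonneg_left (mul_le_mul_of_nonneg_left hΓ' hΓ) (mul_nonneg hΛ hΛ)
  have qB : ∀ t ∈ Set.Icc 0 d.T, ∑ k ∈ S, ‖d.B t k‖ ≤ W := by
    intro t ht
    rw [Finset.sum_congr rfl fun k _ => d.fx_norm_B e t k]
    exact (d.fx_quad A e (fun _ k => ‖d.b t k‖) (fun _ _ => norm_nonneg _) hΛ hΓ hΓ
      (h0 t ht) (h2 t ht) (h1 t ht) (h3 t ht)).trans hWW
  have qS : ∀ t ∈ Set.Icc 0 d.T, ∑ k ∈ S, ‖d.fxS t k‖ ≤ 4 * W := by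
    intro t ht
    refine (Finset.sum_le_sum fun k _ => d.fx_norm_S e t k).trans ?_
    rw [Finset.sum_comm, Fin.sum_univ_four]
    have hF : ∀ j i : Fin 4, ∀ k : ℤ,
        0 ≤ if i = j then ‖NL d.Kc (d.b t) k‖ else ‖d.b t k‖ := by
      intro j i k; split_ifs <;> exact norm_nonneg _
    have q0 := d.fx_quad A e (fun i k => if i = 0 then ‖NL d.Kc (d.b t) k‖ else ‖d.b t k‖)
      (hF 0) hΛ hΓ hΓ (n0 t ht) (h2 t ht) (h1 t ht) (h3 t ht)
    have q1 := d.fx_quad A e (fun i k => if i = 1 then ‖NL d.Kc (d.b t) k‖ else ‖d.b t k‖)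
      (hF 1) hΛ hΓ0 hΓ (h0 t ht) (h2 t ht) (n1 t ht) (h3 t ht)
    have q2 := d.fx_quad A e (fun i k => if i = 2 then ‖NL d.Kc (d.b t) k‖ else ‖d.b t k‖)
      (hF 2) hΛ hΓ hΓ (h0 t ht) (n2 t ht) (h1 t ht) (h3 t ht)
    have q3 := d.fx_quad A e (fun i k => if i = 3 then ‖NL d.Kc (d.b t) k‖ else ‖d.b t k‖)
      (hF 3) hΛ hΓ hΓ0 (h0 t ht) (h2 t ht) (h1 t ht) (n3 t ht)
    rw [mul_comm Γ' Γ] at q1
    linarith
  have hsΦ : 0 ≤ s / Φ := div_nonneg hs0 hΦ0.le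
  have e1 : ∑ k ∈ d.box A, d.w0 k * σ k = ∑ k ∈ S, (∫ t in (0 : ℝ)..d.T, d.B t k) * σ k := by
    simp only [w0, ite_mul, zero_mul]
    rw [← Finset.sum_filter]
  have b1 : ∀ k ∈ S, ‖(∫ t in (0 : ℝ)..d.T, d.B t k) * σ k‖ ≤
      s / Φ * (‖d.B 0 k‖ + ‖d.B d.T k‖ + ∫ t in (0 : ℝ)..d.T, ‖d.fxS t k‖) := by
    intro k hk
    have hk' := mem_filter.1 hk
    have hP := hΦ k hk'.1 hk'.2
    have hP0 : Ph d.α k ≠ 0 := fun h => by rw [h, abs_zero] at hP; linarith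
    rw [d.fx_int_B (hSF k hk) hP0, norm_mul, norm_div, norm_mul, norm_I, one_mul, norm_real,
      Real.norm_eq_abs]
    have c1 : ‖d.B 0 k - d.B d.T k + ∫ t in (0 : ℝ)..d.T, d.fxS t k‖ ≤
        ‖d.B 0 k‖ + ‖d.B d.T k‖ + ∫ t in (0 : ℝ)..d.T, ‖d.fxS t k‖ :=
      norm_add_le_of_le (norm_sub_le _ _) (intervalIntegral.norm_integral_le_integral_norm d.hT)
    have c0 := (norm_nonneg _).trans c1
    calc _ ≤ (‖d.B 0 k‖ + ‖d.B d.T k‖ + ∫ t in (0 : ℝ)..d.T, ‖d.fxS t k‖) / Φ * s :=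
          mul_le_mul (div_le_div₀ c0 c1 hΦ0 hP) (hs k hk'.1 hk'.2) (norm_nonneg _)
            (div_nonneg c0 hΦ0.le)
      _ = _ := by ring
  rw [e1]
  refine (norm_sum_le _ _).trans ((Finset.sum_le_sum b1).trans ?_)
  rw [← Finset.mul_sum, Finset.sum_add_distrib, Finset.sum_add_distrib,
    ← intervalIntegral.integral_finsetSum
      fun k hk => (d.fx_cont_S (hSF k hk)).norm.intervalIntegrable _ _]
  have c2 : ∫ t in (0 : ℝ)..d.T, ∑ k ∈ S, ‖d.fxS t k‖ ≤ 4 * W * d.T := by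
    have := intervalIntegral.norm_integral_le_of_norm_le_const (a := 0) (b := d.T) (C := 4 * W)
      (f := fun t => ∑ k ∈ S, ‖d.fxS t k‖) fun t ht => by
        rw [Set.uIoc_of_le d.hT] at ht
        rw [Real.norm_of_nonneg (Finset.sum_nonneg fun _ _ => norm_nonneg _)]
        exact qS t (Set.Ioc_subset_Icc_self ht)
    rw [sub_zero, abs_of_nonneg d.hT] at this
    exact (le_abs_self _).trans this
  have c3 := qB 0 ⟨le_rfl, d.hT⟩
  have c4 := qB d.T ⟨d.hT, le_rfl⟩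
  calc _ ≤ s / Φ * (W + W + 4 * W * d.T) := mul_le_mul_of_nonneg_left (by linarith) hsΦ
    _ = _ := by rw [hW]; ring

end Dat

end Pool.Agent.Lib.MMTW
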