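import Pool.Agent.Lib.MP_0dc93f_an.WFour

/-! Multilinear forms with symbols are bounded by bilinear space time norms (job C1, part 2). -/

namespace Pool.Agent.Lib.MMTW

open Finset Complex ComplexConjugate

lemma De_add (k : Fin 4 → ℤ) (x : ℝ) :
    ex x (De k) = ex x (k 0) * ex x (-(k 1)) * ex x (k 2) * ex x (-(k 3)) := by
  rw [← ex_add, ← ex_add, ← ex_add]; congr 1

lemma exp_add_hom (y : (Fin 4 → ℤ) →+ ℝ) (k : Fin 4 → ℤ) :
    exp (I * (y k : ℝ)) = ex (y (Pi.single 0 1)) (k 0) * ex (y (Pi.single 1 1)) (k 1) *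
      ex (y (Pi.single 2 1)) (k 2) * ex (y (Pi.single 3 1)) (k 3) := by
  have hk : k = k 0 • Pi.single 0 1 + k 1 • Pi.single 1 1 + k 2 • Pi.single 2 1 +
      k 3 • Pi.single 3 1 := by
    ext i
    fin_cases i <;> simp
  have hy : y k = k 0 * y (Pi.single 0 1) + k 1 * y (Pi.single 1 1) + k 2 * y (Pi.single 2 1) +
      k 3 * y (Pi.single 3 1) := by
    conv_lhs => rw [hk]
    simp only [map_add, map_zsmul]
    simp only [zsmul_eq_mul]
  unfold ex
  rw [← Complex.exp_add, ← Complex.exp_add, ← Complex.exp_add, hy]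
  congr 1
  push_cast
  ring

/-- the sharp cut off to a product of cells -/
lemma An_box (A : Fin 4 → Cell) : An {k : Fin 4 → ℤ | ∀ i, k i ∈ PP (A i)}
    (fun k => if ∀ i, k i ∈ cell (A i) then 1 else 0) (Lg A) := by
  have h : ∀ i : Fin 4, An {k : Fin 4 → ℤ | ∀ i, k i ∈ PP (A i)}
      (fun k => if k i ∈ cell (A i) then 1 else 0) (4 * ((A i).1 + 2)) := fun i =>
    ((An_cell (A i)).comap (Pi.evalAddMonoidHom (fun _ : Fin 4 => ℤ) i)).subset
      fun k hk => hk i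
  have h2 := (((h 0).mul (h 1)).mul (h 2)).mul (h 3)
  unfold Lg
  rw [Fin.prod_univ_four]
  refine h2.congr fun k _ => ?_
  simp only [Fin.forall_fin_succ, Fin.succ_zero_eq_one, Fin.succ_one_eq_two, IsEmpty.forall_iff,
    and_true]
  have e3 : (Fin.succ (2 : Fin 3) : Fin 4) = 3 := rfl
  simp only [e3]
  by_cases h0 : k 0 ∈ cell (A 0) <;> by_cases h1 : k 1 ∈ cell (A 1) <;>
    by_cases h2 : k 2 ∈ cell (A 2) <;> by_cases h3 : k 3 ∈ cell (A 3) <;> simp [h0, h1, h2, h3]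

/-- product of the window functions -/
noncomputable def phiP (A : Fin 4 → Cell) (k : Fin 4 → ℤ) : ℂ :=
  (phi (A 0) (k 0) : ℂ) * phi (A 1) (k 1) * phi (A 2) (k 2) * phi (A 3) (k 3)

namespace Dat

variable (d : Dat)

/-- reduction of a form with a symbol to modulated windowed forms -/
lemma reduce (A : Fin 4 → Cell) {σ : (Fin 4 → ℤ) → ℂ} {C : ℝ}
    (hσ : An (cellS A) σ C) (w : (Fin 4 → ℤ) → ℂ) {X0 : ℝ}
    (hw : ∀ y : (Fin 4 → ℤ) →+ ℝ,
      ‖∑ k ∈ F4 d.Kc, phiP A k * w k * exp (I * (y k : ℝ))‖ ≤ X0) :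
    ‖∑ k ∈ d.box A, w k * σ k‖ ≤ C * (Lg A * X0) := by
  classical
  refine hσ _ (d.box A) id w _ (fun k hk => (Finset.mem_filter.1 hk).2) fun y => ?_
  have h1 := An_box A _ ((F4 d.Kc).filter fun k => ∀ i, k i ∈ PP (A i)) id
    (fun k => phiP A k * w k * exp (I * (y k : ℝ))) X0
    (fun k hk => (Finset.mem_filter.1 hk).2) (fun y' => by
      refine le_trans (le_of_eq ?_) (hw (y + y'))
      congr 1
      rw [Finset.sum_filter]
      refine Finset.sum_congr rfl fun k _ => ?_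
      split_ifs with hk
      · simp only [id, AddMonoidHom.add_apply, ofReal_add, mul_add, Complex.exp_add]
        ring
      · obtain ⟨i, hi⟩ := not_forall.1 hk
        have h0 := phi_off hi
        have : phiP A k = 0 := by
          unfold phiP
          fin_cases i <;> simp only [Fin.zero_eta, Fin.mk_one, Fin.reduceFinMk] at h0 <;>
            simp [h0]
        rw [this]; simp)
  refine le_trans (le_of_eq ?_) h1
  congr 1
  unfold box
  rw [Finset.sum_filter, Finset.sum_filter]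
  refine Finset.sum_congr rfl fun k _ => ?_
  by_cases hk : ∀ i, k i ∈ cell (A i)
  · have hk' : ∀ i, k i ∈ PP (A i) := fun i => cell_sub _ (hk i)
    have : phiP A k = 1 := by
      unfold phiP
      rw [phi_cell (hk 0), phi_cell (hk 1), phi_cell (hk 2), phi_cell (hk 3)]
      simp
    simp only [id, if_pos hk, if_pos hk', this, one_mul, mul_one]
  · simp only [id, if_neg hk, mul_zero, ite_self]

/-- product of four windowed solutions -/
lemma prod_U (A : Fin 4 → Cell) (t x : ℝ) (y : (Fin 4 → ℤ) →+ ℝ) :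
    d.U (A 0) t (x + y (Pi.single 0 1)) * conj (d.U (A 1) t (x + -y (Pi.single 1 1))) *
      d.U (A 2) t (x + y (Pi.single 2 1)) * conj (d.U (A 3) t (x + -y (Pi.single 3 1))) =
    ∑ k ∈ F4 d.Kc, (phiP A k * d.B t k * exp (I * (y k : ℝ))) * ex x (De k) := by
  have h := Finset.prod_univ_sum (fun _ : Fin 4 => FF d.Kc)
    (![fun j => (phi (A 0) j : ℂ) * d.b t j * ex (x + y (Pi.single 0 1)) j,
      fun j => conj ((phi (A 1) j : ℂ) * d.b t j * ex (x + -y (Pi.single 1 1)) j),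
      fun j => (phi (A 2) j : ℂ) * d.b t j * ex (x + y (Pi.single 2 1)) j,
      fun j => conj ((phi (A 3) j : ℂ) * d.b t j * ex (x + -y (Pi.single 3 1)) j)] :
        Fin 4 → ℤ → ℂ)
  simp only [Fin.prod_univ_four, Matrix.cons_val_zero, Matrix.cons_val_one,
    Matrix.cons_val] at h
  unfold U F4
  rw [map_sum, map_sum, h]
  refine Finset.sum_congr rfl fun k _ => ?_
  rw [exp_add_hom, De_add]
  unfold phiP B
  simp only [map_mul, conj_ofReal, conj_ex, ex_add_left, ex_neg_left, neg_neg]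
  ring

lemma cont_B {k : Fin 4 → ℤ} (hk : k ∈ F4 d.Kc) : Continuous fun t => d.B t k := by
  have h : ∀ i, Continuous fun t => d.b t (k i) := fun i =>
    d.cont_b (Fintype.mem_piFinset.1 hk i)
  have h0 := h 0
  have h1 := h 1
  have h2 := h 2
  have h3 := h 3
  unfold B
  fun_prop

/-- modulated windowed forms as space time integrals -/
lemma modulated (A : Fin 4 → Cell) (c : ℝ → ℤ → ℂ) (hc : ∀ p, Continuous fun t => c t p)
    (hoff : ∀ t p, p ∉ FF (2 * d.Kc) → c t p = 0) (y : (Fin 4 → ℤ) →+ ℝ) :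
    ‖∑ k ∈ F4 d.Kc, phiP A k * (∫ t in (0 : ℝ)..d.T, c t (De k) * d.B t k) *
        exp (I * (y k : ℝ))‖ ≤
      d.L fun t x => ‖∑ p ∈ FF (2 * d.Kc), c t p * ex x (-p)‖ *
        (‖d.U (A 0) t (x + y (Pi.single 0 1))‖ * ‖d.U (A 1) t (x + -y (Pi.single 1 1))‖ *
          ‖d.U (A 2) t (x + y (Pi.single 2 1))‖ * ‖d.U (A 3) t (x + -y (Pi.single 3 1))‖) := by
  set F : ℝ → ℝ → ℂ := fun t x => (∑ p ∈ FF (2 * d.Kc), c t p * ex x (-p)) *
    (d.U (A 0) t (x + y (Pi.single 0 1)) * conj (d.U (A 1) t (x + -y (Pi.single 1 1))) *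
      d.U (A 2) t (x + y (Pi.single 2 1)) * conj (d.U (A 3) t (x + -y (Pi.single 3 1)))) with hF
  have hFc : Continuous fun q : ℝ × ℝ => F q.1 q.2 := by
    have h0 := d.cont_Ush (A 0) (y (Pi.single 0 1))
    have h1 := d.cont_Ush (A 1) (-y (Pi.single 1 1))
    have h2 := d.cont_Ush (A 2) (y (Pi.single 2 1))
    have h3 := d.cont_Ush (A 3) (-y (Pi.single 3 1))
    have h4 : Continuous fun q : ℝ × ℝ => ∑ p ∈ FF (2 * d.Kc), c q.1 p * ex q.2 (-p) :=
      continuous_finsetSum _ fun p _ =>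
        ((hc p).comp continuous_fst).mul ((cont_ex (-p)).comp continuous_snd)
    exact h4.mul (((h0.mul (Complex.continuous_conj.comp h1)).mul h2).mul
      (Complex.continuous_conj.comp h3))
  have e1 : ∀ t, ((2 * Real.pi : ℝ) : ℂ)⁻¹ * ∫ x in (0 : ℝ)..(2 * Real.pi), F t x =
      ∑ k ∈ F4 d.Kc, phiP A k * (c t (De k) * d.B t k) * exp (I * (y k : ℝ)) := by
    intro t
    have e2 : ∀ x, F t x = ∑ k ∈ F4 d.Kc, (phiP A k * d.B t k * exp (I * (y k : ℝ))) *
        ((1 : ℂ) * ∑ p ∈ FF (2 * d.Kc), c t p * ex x (De k - p)) := by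
      intro x
      simp only [hF]
      rw [d.prod_U, Finset.mul_sum]
      refine Finset.sum_congr rfl fun k _ => ?_
      rw [one_mul, Finset.sum_mul, Finset.mul_sum]
      refine Finset.sum_congr rfl fun p _ => ?_
      rw [sub_eq_add_neg, ex_add]
      ring
    simp only [e2]
    rw [intervalIntegral.integral_finsetSum, Finset.mul_sum]
    · refine Finset.sum_congr rfl fun k _ => ?_
      rw [intervalIntegral.integral_const_mul, mul_left_comm]
      have e3 : ((2 * Real.pi : ℝ) : ℂ)⁻¹ * ∫ x in (0 : ℝ)..(2 * Real.pi),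
          (1 : ℂ) * ∑ p ∈ FF (2 * d.Kc), c t p * ex x (De k - p) = c t (De k) := by
        simp only [one_mul]
        rw [intervalIntegral.integral_finsetSum, Finset.mul_sum]
        · have e4 : ∀ p : ℤ, ((2 * Real.pi : ℝ) : ℂ)⁻¹ * ∫ x in (0 : ℝ)..(2 * Real.pi),
              c t p * ex x (De k - p) = if De k = p then c t p else 0 := by
            intro p
            rw [intervalIntegral.integral_const_mul, mul_left_comm, avg_ex]
            simp only [sub_eq_zero, mul_ite, mul_one, mul_zero]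
          simp only [e4, Finset.sum_ite_eq]
          split_ifs with hp
          · rfl
          · exact (hoff t _ hp).symm
        · intro p _
          exact (continuous_const.mul (cont_ex _)).intervalIntegrable _ _
      rw [e3]
      ring
    · intro k _
      refine Continuous.intervalIntegrable ?_ _ _
      exact continuous_const.mul (continuous_const.mul
        (continuous_finsetSum _ fun p _ => continuous_const.mul (cont_ex _)))
  have e5 : ∑ k ∈ F4 d.Kc, phiP A k * (∫ t in (0 : ℝ)..d.T, c t (De k) * d.B t k) *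
        exp (I * (y k : ℝ)) = ∫ t in (0 : ℝ)..d.T,
        ((2 * Real.pi : ℝ) : ℂ)⁻¹ * ∫ x in (0 : ℝ)..(2 * Real.pi), F t x := by
    simp only [e1]
    rw [intervalIntegral.integral_finsetSum]
    · refine Finset.sum_congr rfl fun k _ => ?_
      rw [intervalIntegral.integral_mul_const, intervalIntegral.integral_const_mul]
    · intro k hk
      exact ((continuous_const.mul ((hc _).mul (d.cont_B hk))).mul
        continuous_const).intervalIntegrable _ _
  rw [e5]
  refine (intervalIntegral.norm_integral_le_integral_norm d.hT).trans ?_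
  unfold L
  have hn : Continuous fun q : ℝ × ℝ => ‖F q.1 q.2‖ := hFc.norm
  have e6 : ∀ t x, ‖∑ p ∈ FF (2 * d.Kc), c t p * ex x (-p)‖ *
        (‖d.U (A 0) t (x + y (Pi.single 0 1))‖ * ‖d.U (A 1) t (x + -y (Pi.single 1 1))‖ *
          ‖d.U (A 2) t (x + y (Pi.single 2 1))‖ * ‖d.U (A 3) t (x + -y (Pi.single 3 1))‖) =
        ‖F t x‖ := by
    intro t x
    simp only [hF, norm_mul, Complex.norm_conj]
  simp only [e6]
  refine intervalIntegral.integral_mono_on d.hT
    ((continuous_const.mul (cont_inner hFc)).norm.intervalIntegrable _ _)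
    ((continuous_const.mul (cont_inner (f := fun t x => ‖F t x‖) hn)).intervalIntegrable _ _)
    fun t _ => ?_
  rw [norm_mul, norm_inv, Complex.norm_real, Real.norm_eq_abs, abs_of_pos Real.two_pi_pos]
  exact mul_le_mul_of_nonneg_left
    (intervalIntegral.norm_integral_le_integral_norm Real.two_pi_pos.le) (by positivity)

/-- the quartic space time integral against a bounded weight -/
lemma quartic (A : Fin 4 → Cell) (e : Equiv.Perm (Fin 4)) (s : Fin 4 → ℝ) :
    (d.L fun t x => ‖d.U (A 0) t (x + s 0)‖ * ‖d.U (A 1) t (x + s 1)‖ *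
      ‖d.U (A 2) t (x + s 2)‖ * ‖d.U (A 3) t (x + s 3)‖) ≤
      √(d.X (A (e 0)) (A (e 1))) * √(d.X (A (e 2)) (A (e 3))) := by
  have h : ∀ t x, ‖d.U (A 0) t (x + s 0)‖ * ‖d.U (A 1) t (x + s 1)‖ *
      ‖d.U (A 2) t (x + s 2)‖ * ‖d.U (A 3) t (x + s 3)‖ =
      (‖d.U (A (e 0)) t (x + s (e 0))‖ * ‖d.U (A (e 1)) t (x + s (e 1))‖) *
      (‖d.U (A (e 2)) t (x + s (e 2))‖ * ‖d.U (A (e 3)) t (x + s (e 3))‖) := by
    intro t x
    have := Equiv.prod_comp e fun i => ‖d.U (A i) t (x + s i)‖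
    simp only [Fin.prod_univ_four] at this
    rw [← this]; ring
  simp only [h]
  have hc : ∀ i, Continuous fun q : ℝ × ℝ => ‖d.U (A i) q.1 (q.2 + s i)‖ := fun i =>
    (d.cont_Ush (A i) (s i)).norm
  refine (d.L_cs (f := fun t x => ‖d.U (A (e 0)) t (x + s (e 0))‖ * ‖d.U (A (e 1)) t (x + s (e 1))‖)
    (g := fun t x => ‖d.U (A (e 2)) t (x + s (e 2))‖ * ‖d.U (A (e 3)) t (x + s (e 3))‖)
    ((hc _).mul (hc _)) ((hc _).mul (hc _))).trans ?_
  simp only [mul_pow]
  exact mul_le_mul (Real.sqrt_le_sqrt (d.Y_le_X _ _ _ _)) (Real.sqrt_le_sqrt (d.Y_le_X _ _ _ _))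
    (Real.sqrt_nonneg _) (Real.sqrt_nonneg _)

lemma cont_four (A : Fin 4 → Cell) (s : Fin 4 → ℝ) :
    Continuous fun q : ℝ × ℝ => ‖d.U (A 0) q.1 (q.2 + s 0)‖ * ‖d.U (A 1) q.1 (q.2 + s 1)‖ *
      ‖d.U (A 2) q.1 (q.2 + s 2)‖ * ‖d.U (A 3) q.1 (q.2 + s 3)‖ :=
  (((d.cont_Ush _ _).norm.mul (d.cont_Ush _ _).norm).mul (d.cont_Ush _ _).norm).mul
    (d.cont_Ush _ _).norm

lemma cont_theta (c : ℝ → ℤ → ℂ) (hc : ∀ p, Continuous fun t => c t p) :
    Continuous fun q : ℝ × ℝ => ‖∑ p ∈ FF (2 * d.Kc), c q.1 p * ex q.2 (-p)‖ :=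
  (continuous_finsetSum _ fun p _ =>
    ((hc p).comp continuous_fst).mul ((cont_ex (-p)).comp continuous_snd)).norm

/-- modulated windowed forms against a bounded weight -/
lemma modulated_le (A : Fin 4 → Cell) (e : Equiv.Perm (Fin 4)) (c : ℝ → ℤ → ℂ)
    (hc : ∀ p, Continuous fun t => c t p)
    (hoff : ∀ t p, p ∉ FF (2 * d.Kc) → c t p = 0) {M : ℝ} (hM0 : 0 ≤ M)
    (hM : ∀ t ∈ Set.Icc 0 d.T, ∀ x, ‖∑ p ∈ FF (2 * d.Kc), c t p * ex x (-p)‖ ≤ M)
    (y : (Fin 4 → ℤ) →+ ℝ) :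
    ‖∑ k ∈ F4 d.Kc, phiP A k * (∫ t in (0 : ℝ)..d.T, c t (De k) * d.B t k) *
        exp (I * (y k : ℝ))‖ ≤
      M * (√(d.X (A (e 0)) (A (e 1))) * √(d.X (A (e 2)) (A (e 3)))) := by
  refine (d.modulated A c hc hoff y).trans ?_
  set s : Fin 4 → ℝ := ![y (Pi.single 0 1), -y (Pi.single 1 1), y (Pi.single 2 1),
    -y (Pi.single 3 1)] with hs
  have h4 := d.cont_four A s
  have hq := d.quartic A e s
  refine (d.L_mono (g := fun t x => M * (‖d.U (A 0) t (x + s 0)‖ * ‖d.U (A 1) t (x + s 1)‖ *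
      ‖d.U (A 2) t (x + s 2)‖ * ‖d.U (A 3) t (x + s 3)‖)) ((d.cont_theta c hc).mul h4)
      (continuous_const.mul h4) fun t ht x =>
        mul_le_mul_of_nonneg_right (hM t ht x) (by positivity)).trans ?_
  rw [d.L_smul]
  exact mul_le_mul_of_nonneg_left hq hM0

lemma master0 (A : Fin 4 → Cell) (e : Equiv.Perm (Fin 4)) {σ : (Fin 4 → ℤ) → ℂ} {C : ℝ}
    (hσ : An (cellS A) σ C) (hC : 0 ≤ C) :
    ‖∑ k ∈ d.box A, d.w0 k * σ k‖ ≤
      C * Lg A * (√(d.X (A (e 0)) (A (e 1))) * √(d.X (A (e 2)) (A (e 3)))) := by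
  rw [mul_assoc]
  refine d.reduce A hσ _ fun y => ?_
  have h := d.modulated_le A e (fun _ p => if p = 0 then 1 else 0) (fun _ => continuous_const)
    (fun _ p hp => if_neg fun (h0 : p = 0) => hp (h0 ▸ zero_mem_FF _)) zero_le_one
    (fun t _ x => by
      simp only [ite_mul, one_mul, zero_mul, Finset.sum_ite_eq', zero_mem_FF, if_true, norm_ex,
        le_refl]) y
  rw [one_mul] at h
  refine le_trans (le_of_eq ?_) h
  congr 1
  refine Finset.sum_congr rfl fun k _ => ?_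
  unfold w0
  split_ifs <;> simp

lemma master1 (A : Fin 4 → Cell) (e : Equiv.Perm (Fin 4)) {σ : (Fin 4 → ℤ) → ℂ} {C : ℝ}
    (hσ : An (cellS A) σ C) (hC : 0 ≤ C) (J : Cell) (h h' : ℝ) {G : ℝ}
    (hG : ∀ t ∈ Set.Icc 0 d.T, d.m J t ≤ G) :
    ‖∑ k ∈ d.box A, d.w1 J h h' k * σ k‖ ≤
      C * Lg A * (13 * G) * (√(d.X (A (e 0)) (A (e 1))) * √(d.X (A (e 2)) (A (e 3)))) := by
  rw [mul_assoc, mul_assoc]
  refine d.reduce A hσ _ fun y => ?_
  have hG0 : 0 ≤ G := (d.m_nonneg J 0).trans (hG 0 ⟨le_rfl, d.hT⟩)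
  have h1 := d.modulated_le A e (fun t p => conj (d.rho J h' t p) * ex h p / (I * p))
    (fun p => by have := d.cont_rho J h' p; fun_prop)
    (fun t p hp => by simp only [d.rho_off J h' t hp, map_zero, zero_mul, zero_div])
    (M := 13 * G) (by positivity)
    (fun t ht x => by
      have h2 := d.theta_le J h' t (x - h)
      refine le_trans (le_of_eq ?_) (h2.trans (by linarith [hG t ht]))
      congr 1
      refine Finset.sum_congr rfl fun p _ => ?_
      rw [sub_eq_add_neg, ex_add_left, ex_neg_left, neg_neg]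
      ring) y
  refine le_trans (le_of_eq ?_) h1
  congr 1
  refine Finset.sum_congr rfl fun k _ => ?_
  unfold w1 w2
  congr 2
  rw [← intervalIntegral.integral_div]
  congr 1
  ext t
  ring

lemma master2 (A : Fin 4 → Cell) {σ : (Fin 4 → ℤ) → ℂ} {C : ℝ}
    (hσ : An (cellS A) σ C) (hC : 0 ≤ C) (J : Cell) (h h' : ℝ) {G2 G3 : ℝ}
    (hG2 : ∀ t ∈ Set.Icc 0 d.T, d.m (A 2) t ≤ G2) (hG3 : ∀ t ∈ Set.Icc 0 d.T, d.m (A 3) t ≤ G3) :
    ‖∑ k ∈ d.box A, d.w2 J h h' k * σ k‖ ≤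
      C * Lg A * (√(3 * (mu (A 2) : ℝ) * G2) * √(3 * (mu (A 3) : ℝ) * G3)) *
        (√(d.X J (A 0)) * √(d.X J (A 1))) := by
  rw [mul_assoc, mul_assoc]
  refine d.reduce A hσ _ fun y => ?_
  have hc : ∀ p, Continuous fun t => conj (d.rho J h' t p) * ex h p := fun p => by
    have := d.cont_rho J h' p; fun_prop
  refine (d.modulated A (fun t p => conj (d.rho J h' t p) * ex h p) hc
    (fun t p hp => by simp only [d.rho_off J h' t hp, map_zero, zero_mul]) y).trans ?_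
  set s : Fin 4 → ℝ := ![y (Pi.single 0 1), -y (Pi.single 1 1), y (Pi.single 2 1),
    -y (Pi.single 3 1)] with hs
  have h4 := d.cont_four A s
  have hth : ∀ t x, ‖∑ p ∈ FF (2 * d.Kc), conj (d.rho J h' t p) * ex h p * ex x (-p)‖ =
      ‖d.U J t (x + (h' - h))‖ ^ 2 := by
    intro t x
    have h1 : ∑ p ∈ FF (2 * d.Kc), conj (d.rho J h' t p) * ex h p * ex x (-p) =
        conj (∑ p ∈ FF (2 * d.Kc), d.rho J h' t p * ex (x - h) p) := by
      rw [map_sum]
      refine Finset.sum_congr rfl fun p _ => ?_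
      rw [map_mul, conj_ex, sub_eq_add_neg, ex_add_left, ex_neg_left, neg_neg]
      ring
    rw [h1, ← d.normSq_U, conj_ofReal, Complex.norm_real, Real.norm_eq_abs,
      abs_of_nonneg (by positivity)]
    congr 3
    ring
  have hU : ∀ (J' : Cell) (G : ℝ) (t : ℝ), d.m J' t ≤ G → ∀ x,
      ‖d.U J' t x‖ ≤ √(3 * (mu J' : ℝ) * G) := by
    intro J' G t hG x
    refine Real.le_sqrt_of_sq_le ((d.U_sq_le J' t x).trans ?_)
    have := mu_pos J'
    exact mul_le_mul_of_nonneg_left hG (by positivity)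
  have hJ := (d.cont_Ush J (h' - h)).norm
  have h0 := (d.cont_Ush (A 0) (s 0)).norm
  have h1 := (d.cont_Ush (A 1) (s 1)).norm
  refine (d.L_mono (g := fun t x => (√(3 * (mu (A 2) : ℝ) * G2) * √(3 * (mu (A 3) : ℝ) * G3)) *
      ((‖d.U J t (x + (h' - h))‖ * ‖d.U (A 0) t (x + s 0)‖) *
        (‖d.U J t (x + (h' - h))‖ * ‖d.U (A 1) t (x + s 1)‖))) ((d.cont_theta _ hc).mul h4)
      (continuous_const.mul ((hJ.mul h0).mul (hJ.mul h1))) fun t ht x => ?_).trans ?_
  · rw [hth]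
    have h2 := hU (A 2) G2 t (hG2 t ht) (x + s 2)
    have h3 := hU (A 3) G3 t (hG3 t ht) (x + s 3)
    have h23 := mul_le_mul h2 h3 (norm_nonneg _) (Real.sqrt_nonneg _)
    have h5 := mul_le_mul_of_nonneg_right h23 (by positivity :
      0 ≤ (‖d.U J t (x + (h' - h))‖ * ‖d.U (A 0) t (x + s 0)‖) *
        (‖d.U J t (x + (h' - h))‖ * ‖d.U (A 1) t (x + s 1)‖))
    refine le_trans (le_of_eq ?_) h5
    simp only [hs, Matrix.cons_val_zero, Matrix.cons_val_one, Matrix.cons_val]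
    ring
  · rw [d.L_smul]
    refine mul_le_mul_of_nonneg_left ?_ (by positivity)
    refine (d.L_cs (f := fun t x => ‖d.U J t (x + (h' - h))‖ * ‖d.U (A 0) t (x + s 0)‖)
      (g := fun t x => ‖d.U J t (x + (h' - h))‖ * ‖d.U (A 1) t (x + s 1)‖)
      (hJ.mul h0) (hJ.mul h1)).trans ?_
    simp only [mul_pow]
    exact mul_le_mul (Real.sqrt_le_sqrt (d.Y_le_X _ _ _ _)) (Real.sqrt_le_sqrt (d.Y_le_X _ _ _ _))
      (Real.sqrt_nonneg _) (Real.sqrt_nonneg _)

end Dat

end Pool.Agent.Lib.MMTW
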