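import Pool.Agent.Lib.MP_0dc93f_an.WFour

/-! The window Morawetz inequality (job C2). -/

namespace Pool.Agent.Lib.MMTW

open Finset Complex ComplexConjugate

lemma mo_ex_add (x : ℝ) (p q : ℤ) : ex x (p + q) = ex x p * ex x q := by
  unfold ex
  rw [← exp_add]
  congr 1
  push_cast
  ring

lemma mo_ex_shift (x y : ℝ) (p : ℤ) : ex (x + y) p = ex x p * ex y p := by
  unfold ex
  rw [← exp_add]
  congr 1
  push_cast
  ring

lemma mo_ex_conj (x : ℝ) (p : ℤ) : conj (ex x p) = ex x (-p) := by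
  unfold ex
  rw [← exp_conj]
  congr 1
  simp

lemma mo_ex_cont (p : ℤ) : Continuous fun x : ℝ => ex x p := by
  unfold ex
  fun_prop

lemma mo_mem_FF {K : ℕ} {k : ℤ} : k ∈ FF K ↔ -(K : ℤ) ≤ k ∧ k ≤ K := Finset.mem_Icc

lemma mo_sub_mem {K : ℕ} {q : ℤ × ℤ} (hq : q ∈ FF K ×ˢ FF K) : q.1 - q.2 ∈ FF (2 * K) := by
  rw [Finset.mem_product, mo_mem_FF, mo_mem_FF] at hq
  rw [mo_mem_FF]
  push_cast
  omega

/-- the mean of a product of two trigonometric polynomials -/
lemma mo_avg {ι : Type} (s : Finset ι) (c : ι → ℂ) (n : ι → ℤ) (P : Finset ℤ) (g : ℤ → ℂ)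
    (hn : ∀ i ∈ s, n i ∈ P) :
    ((2 * Real.pi : ℝ) : ℂ)⁻¹ * ∫ x in (0 : ℝ)..(2 * Real.pi),
      (∑ i ∈ s, c i * ex x (n i)) * ∑ p ∈ P, g p * ex x (-p) = ∑ i ∈ s, c i * g (n i) := by
  have e : ∀ x : ℝ, (∑ i ∈ s, c i * ex x (n i)) * ∑ p ∈ P, g p * ex x (-p) =
      ∑ i ∈ s, ∑ p ∈ P, c i * g p * ex x (n i - p) := by
    intro x
    rw [Finset.sum_mul_sum]
    refine Finset.sum_congr rfl fun i _ => Finset.sum_congr rfl fun p _ => ?_
    rw [sub_eq_add_neg, mo_ex_add]
    ring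
  simp only [e]
  have hc : ∀ (i : ι) (p : ℤ), Continuous fun x : ℝ => c i * g p * ex x (n i - p) :=
    fun i p => continuous_const.mul (mo_ex_cont _)
  rw [intervalIntegral.integral_finsetSum fun i _ =>
    (continuous_finsetSum _ fun p _ => hc i p).intervalIntegrable _ _, Finset.mul_sum]
  refine Finset.sum_congr rfl fun i hi => ?_
  rw [intervalIntegral.integral_finsetSum fun p _ => (hc i p).intervalIntegrable _ _,
    Finset.mul_sum]
  have e2 : ∀ p ∈ P, ((2 * Real.pi : ℝ) : ℂ)⁻¹ *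
      ∫ x in (0 : ℝ)..(2 * Real.pi), c i * g p * ex x (n i - p) =
      if n i = p then c i * g p else 0 := by
    intro p _
    rw [intervalIntegral.integral_const_mul, mul_left_comm, avg_ex]
    by_cases h : n i = p
    · simp [h]
    · simp [h, sub_eq_zero]
  rw [Finset.sum_congr rfl e2, Finset.sum_ite_eq, if_pos (hn i hi)]

lemma mo_avg_norm {f : ℝ → ℂ} {g : ℝ → ℝ} (hg : Continuous g) (h : ∀ x, ‖f x‖ ≤ g x) :
    ‖((2 * Real.pi : ℝ) : ℂ)⁻¹ * ∫ x in (0 : ℝ)..(2 * Real.pi), f x‖ ≤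
      (2 * Real.pi)⁻¹ * ∫ x in (0 : ℝ)..(2 * Real.pi), g x := by
  have hp : (0 : ℝ) < 2 * Real.pi := by positivity
  rw [norm_mul, norm_inv, Complex.norm_real, Real.norm_of_nonneg hp.le]
  refine mul_le_mul_of_nonneg_left ?_ (by positivity)
  exact intervalIntegral.norm_integral_le_of_norm_le hp.le (Filter.Eventually.of_forall
    fun x _ => h x) (hg.intervalIntegrable _ _)

namespace Dat

variable (d : Dat)

/-- symbols that are symmetric under the swap do not contribute to the source -/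
lemma src_symm (J : Cell) (h h' : ℝ) {σ : (Fin 4 → ℤ) → ℝ}
    (hσ : ∀ k : Fin 4 → ℤ, σ ![k 1, k 0, k 3, k 2] = σ k) :
    (∑ k ∈ F4 d.Kc, d.w1 J h h' k * (σ k : ℂ)).im = 0 := by
  rw [← Complex.conj_eq_iff_im, map_sum]
  have hw : ∀ k : Fin 4 → ℤ, d.w1 J h h' ![k 1, k 0, k 3, k 2] = conj (d.w1 J h h' k) := by
    intro k
    have e : De ![k 1, k 0, k 3, k 2] = -De k := by
      simp [De]
      ring
    have eB : ∀ t, d.B t ![k 1, k 0, k 3, k 2] = conj (d.B t k) := by
      intro t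
      simp [B]
      ring
    unfold w1 w2
    rw [map_div₀, ← intervalIntegral.intervalIntegral_conj, e]
    congr 1
    · refine intervalIntegral.integral_congr fun t _ => ?_
      simp only [map_mul, eB, d.rho_neg, mo_ex_conj]
    · simp
  refine Finset.sum_nbij' (fun k => ![k 1, k 0, k 3, k 2]) (fun k => ![k 1, k 0, k 3, k 2])
    ?_ ?_ ?_ ?_ ?_
  · intro k hk
    simp only [F4, Fintype.mem_piFinset] at hk ⊢
    intro i
    fin_cases i <;> simp [hk]
  · intro k hk
    simp only [F4, Fintype.mem_piFinset] at hk ⊢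
    intro i
    fin_cases i <;> simp [hk]
  · intro k _
    funext i
    fin_cases i <;> simp
  · intro k _
    funext i
    fin_cases i <;> simp
  · intro k _
    rw [hw, hσ]
    simp

/-- one term of the windowed density -/
noncomputable def moR (J : Cell) (h t : ℝ) (q : ℤ × ℤ) : ℂ :=
  (phi J q.1 : ℂ) * phi J q.2 * d.b t q.1 * conj (d.b t q.2) * ex h (q.1 - q.2)

/-- the time derivative of the solution -/
noncomputable def moB (t : ℝ) (k : ℤ) : ℂ := -I * (om d.α k * d.b t k + NL d.Kc (d.b t) k)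

/-- the time derivative of one term -/
noncomputable def moR' (J : Cell) (h t : ℝ) (q : ℤ × ℤ) : ℂ :=
  (phi J q.1 : ℂ) * phi J q.2 *
    (d.moB t q.1 * conj (d.b t q.2) + d.b t q.1 * conj (d.moB t q.2)) * ex h (q.1 - q.2)

/-- the time derivative of the density -/
noncomputable def moRho' (J : Cell) (h t : ℝ) (p : ℤ) : ℂ :=
  ∑ q ∈ (FF d.Kc ×ˢ FF d.Kc) with q.1 - q.2 = p, d.moR' J h t q

lemma mo_rho (J : Cell) (h t : ℝ) (p : ℤ) :
    d.rho J h t p = ∑ q ∈ (FF d.Kc ×ˢ FF d.Kc) with q.1 - q.2 = p, d.moR J h t q := by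
  refine Finset.sum_congr rfl fun q hq => ?_
  rw [← (Finset.mem_filter.1 hq).2]
  rfl

lemma mo_fib (r : ℤ × ℤ → ℂ) (g : ℤ → ℂ) :
    ∑ p ∈ FF (2 * d.Kc), (∑ q ∈ (FF d.Kc ×ˢ FF d.Kc) with q.1 - q.2 = p, r q) * g p =
      ∑ q ∈ FF d.Kc ×ˢ FF d.Kc, r q * g (q.1 - q.2) := by
  rw [← Finset.sum_fiberwise_of_maps_to (s := FF d.Kc ×ˢ FF d.Kc) (t := FF (2 * d.Kc))
    (g := fun q => q.1 - q.2) (fun q hq => mo_sub_mem hq)]
  refine Finset.sum_congr rfl fun p _ => ?_
  rw [Finset.sum_mul]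
  refine Finset.sum_congr rfl fun q hq => ?_
  rw [(Finset.mem_filter.1 hq).2]

lemma mo_contR (J : Cell) (h : ℝ) {q : ℤ × ℤ} (hq : q ∈ FF d.Kc ×ˢ FF d.Kc) :
    Continuous fun t => d.moR J h t q := by
  have h1 := d.cont_b (Finset.mem_product.1 hq).1
  have h2 := d.cont_b (Finset.mem_product.1 hq).2
  unfold moR
  fun_prop

lemma mo_cont_rho (J : Cell) (h : ℝ) (p : ℤ) : Continuous fun t => d.rho J h t p := by
  simp only [mo_rho]
  exact continuous_finsetSum _ fun q hq => d.mo_contR J h (Finset.mem_filter.1 hq).1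

lemma mo_contB {k : Fin 4 → ℤ} (hk : k ∈ F4 d.Kc) : Continuous fun t => d.B t k := by
  simp only [F4, Fintype.mem_piFinset] at hk
  have h0 := d.cont_b (hk 0)
  have h1 := d.cont_b (hk 1)
  have h2 := d.cont_b (hk 2)
  have h3 := d.cont_b (hk 3)
  unfold B
  fun_prop

lemma mo_deriv_rho (J : Cell) (h t : ℝ) (p : ℤ) :
    HasDerivAt (fun s => d.rho J h s p) (d.moRho' J h t p) t := by
  simp only [mo_rho]
  refine HasDerivAt.fun_sum fun q hq => ?_
  have hq' := Finset.mem_product.1 (Finset.mem_filter.1 hq).1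
  have h1 : HasDerivAt (fun s => d.b s q.1) (d.moB t q.1) t := d.gal t _ hq'.1
  have h2 : HasDerivAt (fun s => conj (d.b s q.2)) (conj (d.moB t q.2)) t :=
    (d.gal t _ hq'.2).star
  have := ((h1.fun_mul h2).const_mul ((phi J q.1 : ℂ) * phi J q.2)).mul_const (ex h (q.1 - q.2))
  refine this.congr_of_eventuallyEq (Filter.Eventually.of_forall fun s => ?_)
  simp only [moR]
  ring

lemma mo_cont_U (J : Cell) (t y : ℝ) : Continuous fun x => d.U J t (x + y) := by
  unfold U
  exact continuous_finsetSum _ fun k _ =>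
    continuous_const.mul ((mo_ex_cont k).comp (continuous_add_const y))

lemma mo_normSq_conj (J : Cell) (h t x : ℝ) : ((‖d.U J t (x + h)‖ ^ 2 : ℝ) : ℂ) =
    ∑ p ∈ FF (2 * d.Kc), conj (d.rho J h t p) * ex x (-p) := by
  rw [← Complex.conj_ofReal, d.normSq_U, map_sum]
  simp only [map_mul, mo_ex_conj]

/-- the interaction functional -/
noncomputable def moI (J J' : Cell) (h h' t : ℝ) : ℂ :=
  ∑ p ∈ FF (2 * d.Kc), d.rho J h t p * (conj (d.rho J' h' t p) / (I * p))

/-- half of its derivative -/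
noncomputable def moD (J J' : Cell) (h h' t : ℝ) : ℂ :=
  ∑ p ∈ FF (2 * d.Kc), d.moRho' J h t p * (conj (d.rho J' h' t p) / (I * p))

/-- the mean of the product of the densities -/
noncomputable def moA (J J' : Cell) (h h' t : ℝ) : ℂ :=
  ∑ p ∈ FF (2 * d.Kc), d.rho J h t p * conj (d.rho J' h' t p)

/-- the dispersive error -/
noncomputable def moE (J J' : Cell) (h h' v t : ℝ) : ℂ :=
  ∑ q ∈ FF d.Kc ×ˢ FF d.Kc, d.moR J h t q * conj (d.rho J' h' t (q.1 - q.2)) * errS d.α v q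

/-- the source at a fixed time -/
noncomputable def moS (J J' : Cell) (h h' t : ℝ) : ℂ :=
  ∑ k ∈ F4 d.Kc, conj (d.rho J' h' t (De k)) * ex h (De k) * d.B t k / (I * De k) *
    ((phi J (k 0 - k 1 + k 2) * phi J (k 3) : ℝ) : ℂ)

lemma mo_deriv_I (J J' : Cell) (h h' t : ℝ) :
    HasDerivAt (d.moI J J' h h') (d.moD J J' h h' t - conj (d.moD J' J h' h t)) t := by
  have e : d.moD J J' h h' t - conj (d.moD J' J h' h t) = ∑ p ∈ FF (2 * d.Kc),
      (d.moRho' J h t p * (conj (d.rho J' h' t p) / (I * p)) +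
        d.rho J h t p * (conj (d.moRho' J' h' t p) / (I * p))) := by
    unfold moD
    rw [map_sum, ← Finset.sum_sub_distrib]
    refine Finset.sum_congr rfl fun p _ => ?_
    simp only [map_mul, map_div₀, conj_conj, conj_I, map_intCast]
    ring
  rw [e]
  refine HasDerivAt.fun_sum fun p _ => ?_
  have h2 : HasDerivAt (fun s => conj (d.rho J' h' s p)) (conj (d.moRho' J' h' t p)) t :=
    (d.mo_deriv_rho J' h' t p).star
  exact (d.mo_deriv_rho J h t p).fun_mul (h2.div_const _)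

lemma mo_I_le (J J' : Cell) (h h' t : ℝ) : ‖d.moI J J' h h' t‖ ≤ 13 * d.m J' t * d.m J t := by
  have e := mo_avg (FF (2 * d.Kc)) (d.rho J h t) id (FF (2 * d.Kc))
    (fun p => conj (d.rho J' h' t p) / (I * p)) (fun _ hp => hp)
  have h0 : (0 : ℤ) ∈ FF (2 * d.Kc) := by
    rw [mo_mem_FF]
    omega
  have e1 := mo_avg (FF (2 * d.Kc)) (d.rho J h t) id (FF (2 * d.Kc))
    (fun p => if p = 0 then 1 else 0) (fun _ hp => hp)
  simp only [id, ite_mul, one_mul, zero_mul, mul_ite, mul_one, mul_zero, Finset.sum_ite_eq',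
    if_pos h0, neg_zero, ← d.normSq_U, d.rho_zero] at e e1
  have e2 : (2 * Real.pi)⁻¹ * ∫ x in (0 : ℝ)..(2 * Real.pi), ‖d.U J t (x + h)‖ ^ 2 = d.m J t := by
    have : ∀ x : ℝ, ex x 0 = 1 := fun x => by simp [ex]
    simp only [this, mul_one] at e1
    rw [intervalIntegral.integral_ofReal] at e1
    exact_mod_cast e1
  have hc := d.mo_cont_U J t h
  unfold moI
  rw [← e]
  refine (mo_avg_norm (g := fun x => 13 * d.m J' t * ‖d.U J t (x + h)‖ ^ 2) (by fun_prop)
    fun x => ?_).trans (le_of_eq ?_)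
  · rw [norm_mul, Complex.norm_real, Real.norm_of_nonneg (by positivity), mul_comm]
    exact mul_le_mul_of_nonneg_right (d.theta_le J' h' t x) (by positivity)
  · rw [intervalIntegral.integral_const_mul, mul_left_comm, e2]

lemma mo_A_eq (J J' : Cell) (h h' t : ℝ) : d.moA J J' h h' t = (((2 * Real.pi)⁻¹ *
    ∫ x in (0 : ℝ)..(2 * Real.pi), ‖d.U J t (x + h)‖ ^ 2 * ‖d.U J' t (x + h')‖ ^ 2 : ℝ) : ℂ) := by
  have e := mo_avg (FF (2 * d.Kc)) (d.rho J h t) id (FF (2 * d.Kc))
    (fun p => conj (d.rho J' h' t p)) (fun _ hp => hp)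
  simp only [id, ← d.normSq_U, ← d.mo_normSq_conj, ← Complex.ofReal_mul] at e
  rw [intervalIntegral.integral_ofReal] at e
  unfold moA
  rw [← e, Complex.ofReal_mul (2 * Real.pi)⁻¹, Complex.ofReal_inv]

lemma mo_cont_A (J J' : Cell) (h h' : ℝ) : Continuous (d.moA J J' h h') := by
  have h1 := d.mo_cont_rho J h
  have h2 := d.mo_cont_rho J' h'
  unfold moA
  refine continuous_finsetSum _ fun p _ => ?_
  have := h1 p
  have := h2 p
  fun_prop

lemma mo_Y (J J' : Cell) (h h' : ℝ) :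
    d.Y J J' h h' = ∫ t in (0 : ℝ)..d.T, (d.moA J J' h h' t).re := by
  simp only [mo_A_eq, Complex.ofReal_re, Y]

lemma mo_NL (t : ℝ) {g : ℤ → ℤ → ℂ} (hg : ∀ k l, k ∉ FF d.Kc → g k l = 0) :
    ∑ q ∈ FF d.Kc ×ˢ FF d.Kc, g q.1 q.2 * (NL d.Kc (d.b t) q.1 * conj (d.b t q.2)) =
      ∑ k ∈ F4 d.Kc, g (k 0 - k 1 + k 2) (k 3) * d.B t k := by
  have e1 : ∑ k ∈ F4 d.Kc, g (k 0 - k 1 + k 2) (k 3) * d.B t k =
      ∑ z ∈ FF d.Kc ×ˢ (FF d.Kc ×ˢ FF d.Kc ×ˢ FF d.Kc), g (z.2.1 - z.2.2.1 + z.2.2.2) z.1 *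
        (d.b t z.2.1 * conj (d.b t z.2.2.1) * d.b t z.2.2.2 * conj (d.b t z.1)) := by
    refine Finset.sum_nbij' (fun k => (k 3, k 0, k 1, k 2))
      (fun z => ![z.2.1, z.2.2.1, z.2.2.2, z.1]) ?_ ?_ ?_ ?_ ?_
    · intro k hk
      simp only [F4, Fintype.mem_piFinset] at hk
      simp [hk]
    · intro z hz
      simp only [Finset.mem_product] at hz
      simp only [F4, Fintype.mem_piFinset]
      intro i
      fin_cases i <;> simp [hz]
    · intro k _
      funext i
      fin_cases i <;> simp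
    · intro z _
      simp
    · intro k _
      rfl
  rw [e1, Finset.sum_product, Finset.sum_product, Finset.sum_comm]
  refine Finset.sum_congr rfl fun l _ => ?_
  rw [← Finset.sum_filter_of_ne (p := fun p : ℤ × ℤ × ℤ => p.1 - p.2.1 + p.2.2 ∈ FF d.Kc)
    (fun p _ hp => by
      by_contra hc
      exact hp (by rw [hg _ _ hc, zero_mul])),
    ← Finset.sum_fiberwise_eq_sum_filter]
  refine Finset.sum_congr rfl fun k _ => ?_
  unfold NL
  rw [Finset.sum_mul, Finset.mul_sum]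
  refine Finset.sum_congr rfl fun p hp => ?_
  rw [(Finset.mem_filter.1 hp).2]

lemma mo_D {J : Cell} (hJ : PP J ⊆ FF d.Kc) (J' : Cell) (h h' v t : ℝ) :
    (d.moD J J' h h' t).re = -(d.moE J J' h h' v t).re -
      v * ((d.moA J J' h h' t).re - d.m J t * d.m J' t) + 2 * (d.moS J J' h h' t).im := by
  set n1 : ℤ × ℤ → ℂ := fun q => (phi J q.1 : ℂ) * phi J q.2 * ex h (q.1 - q.2) *
    (conj (d.rho J' h' t (q.1 - q.2)) / (I * (q.1 - q.2 : ℤ))) *
    (NL d.Kc (d.b t) q.1 * conj (d.b t q.2)) with hn1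
  have eS : ∑ q ∈ FF d.Kc ×ˢ FF d.Kc, n1 q = d.moS J J' h h' t := by
    rw [hn1, d.mo_NL t (g := fun k l => (phi J k : ℂ) * phi J l * ex h (k - l) *
      (conj (d.rho J' h' t (k - l)) / (I * (k - l : ℤ))))
      (fun k l hk => by simp [phi_off fun hc => hk (hJ hc)])]
    refine Finset.sum_congr rfl fun k _ => ?_
    simp only [De]
    push_cast
    ring
  have eA : d.moA J J' h h' t = ∑ q ∈ FF d.Kc ×ˢ FF d.Kc,
      d.moR J h t q * conj (d.rho J' h' t (q.1 - q.2)) := by
    rw [← d.mo_fib (d.moR J h t) fun p => conj (d.rho J' h' t p)]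
    simp only [moA, ← mo_rho]
  have em : ((d.m J t * d.m J' t : ℝ) : ℂ) = ∑ q ∈ FF d.Kc ×ˢ FF d.Kc,
      if q.1 - q.2 = 0 then d.moR J h t q * conj (d.rho J' h' t (q.1 - q.2)) else 0 := by
    rw [← Finset.sum_filter, Complex.ofReal_mul, ← d.rho_zero J h, d.mo_rho, Finset.sum_mul]
    refine Finset.sum_congr rfl fun q hq => ?_
    rw [(Finset.mem_filter.1 hq).2, d.rho_zero, Complex.conj_ofReal]
  have eD : d.moD J J' h h' t = -d.moE J J' h h' v t -
      v * (d.moA J J' h h' t - ((d.m J t * d.m J' t : ℝ) : ℂ)) +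
      (-I * d.moS J J' h h' t + conj (-I * d.moS J J' h h' t)) := by
    have esw : conj (-I * d.moS J J' h h' t) =
        ∑ q ∈ FF d.Kc ×ˢ FF d.Kc, conj (-I * n1 q.swap) := by
      rw [← eS, Finset.mul_sum, map_sum]
      refine Finset.sum_nbij' Prod.swap Prod.swap ?_ ?_ ?_ ?_ ?_
      · intro q hq
        simp only [Finset.mem_product] at hq ⊢
        exact ⟨hq.2, hq.1⟩
      · intro q hq
        simp only [Finset.mem_product] at hq ⊢
        exact ⟨hq.2, hq.1⟩
      all_goals simp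
    rw [esw, ← eS, eA, em]
    unfold moD moRho' moE
    rw [d.mo_fib (d.moR' J h t) fun p => conj (d.rho J' h' t p) / (I * p), Finset.mul_sum,
      ← Finset.sum_sub_distrib, Finset.mul_sum, ← Finset.sum_neg_distrib,
      ← Finset.sum_sub_distrib, ← Finset.sum_add_distrib, ← Finset.sum_add_distrib]
    refine Finset.sum_congr rfl fun q _ => ?_
    obtain ⟨k, l⟩ := q
    have e1 : d.rho J' h' t (l - k) = conj (d.rho J' h' t (k - l)) := by
      rw [← d.rho_neg, neg_sub]
    have e2 : conj (ex h (l - k)) = ex h (k - l) := by rw [mo_ex_conj, neg_sub]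
    simp only [hn1, moR', moR, moB, errS, Prod.fst_swap, Prod.snd_swap, map_mul, map_neg,
      map_add, map_div₀, conj_conj, conj_I, conj_ofReal, map_intCast, e1, e2, sub_eq_zero]
    by_cases hkl : k = l
    · subst hkl
      simp
    · have h1 : ((k : ℂ) - l) ≠ 0 := sub_ne_zero.2 (by exact_mod_cast hkl)
      have h2 : ((l : ℂ) - k) ≠ 0 := sub_ne_zero.2 (by exact_mod_cast Ne.symm hkl)
      simp only [if_neg hkl]
      push_cast
      field_simp
      ring
  rw [eD]
  simp only [add_re, sub_re, neg_re, conj_re, ofReal_re, neg_mul, mul_re, I_re,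
    I_im, ofReal_im]
  ring

lemma mo_cont_E (J J' : Cell) (h h' v : ℝ) : Continuous (d.moE J J' h h' v) := by
  unfold moE
  refine continuous_finsetSum _ fun q hq => ?_
  have := d.mo_contR J h hq
  have := d.mo_cont_rho J' h' (q.1 - q.2)
  fun_prop

lemma mo_cont_S (J J' : Cell) (h h' : ℝ) : Continuous (d.moS J J' h h') := by
  unfold moS
  refine continuous_finsetSum _ fun k hk => ?_
  have := d.mo_contB hk
  have := d.mo_cont_rho J' h' (De k)
  fun_prop

lemma mo_src (J J' : Cell) (h h' : ℝ) :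
    ∫ t in (0 : ℝ)..d.T, (d.moS J J' h h' t).im = d.src J J' h h' := by
  have e := Complex.imCLM.intervalIntegral_comp_comm
    ((d.mo_cont_S J J' h h').intervalIntegrable (μ := MeasureTheory.volume) 0 d.T)
  simp only [imCLM_apply] at e
  rw [e]
  unfold src moS w1 w2
  congr 1
  rw [intervalIntegral.integral_finsetSum fun k hk => ?_]
  · refine Finset.sum_congr rfl fun k _ => ?_
    rw [intervalIntegral.integral_mul_const, intervalIntegral.integral_div]
  · have := d.mo_contB hk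
    have := d.mo_cont_rho J' h' (De k)
    exact Continuous.intervalIntegrable (by fun_prop) _ _

lemma mo_mod (J J' : Cell) (h h' y1 y2 t : ℝ) :
    ‖∑ q ∈ FF d.Kc ×ˢ FF d.Kc, d.moR J h t q * conj (d.rho J' h' t (q.1 - q.2)) *
      (ex y1 q.1 * ex y2 q.2)‖ ≤
      ((d.moA J J' (h + y1) h' t).re + (d.moA J J' (h - y2) h' t).re) / 2 := by
  have e := mo_avg (FF d.Kc ×ˢ FF d.Kc) (fun q => d.moR J h t q * (ex y1 q.1 * ex y2 q.2))
    (fun q => q.1 - q.2) (FF (2 * d.Kc)) (fun p => conj (d.rho J' h' t p))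
    (fun _ hq => mo_sub_mem hq)
  have e1 : ∀ x : ℝ, ∑ q ∈ FF d.Kc ×ˢ FF d.Kc,
      d.moR J h t q * (ex y1 q.1 * ex y2 q.2) * ex x (q.1 - q.2) =
      d.U J t (x + (h + y1)) * conj (d.U J t (x + (h - y2))) := by
    intro x
    unfold U
    rw [map_sum, Finset.sum_mul_sum, Finset.sum_product]
    refine Finset.sum_congr rfl fun k _ => Finset.sum_congr rfl fun l _ => ?_
    have e2 : ex h (k - l) * (ex y1 k * ex y2 l) * ex x (k - l) =
        ex (x + (h + y1)) k * ex (x + (h - y2)) (-l) := by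
      unfold ex
      simp only [← exp_add]
      congr 1
      push_cast
      ring
    simp only [moR, map_mul, conj_ofReal, mo_ex_conj]
    linear_combination ((phi J k : ℂ) * phi J l * d.b t k * conj (d.b t l)) * e2
  simp only [e1, ← d.mo_normSq_conj] at e
  have c1 := d.mo_cont_U J t (h + y1)
  have c2 := d.mo_cont_U J t (h - y2)
  have c3 := d.mo_cont_U J' t h'
  simp only [mul_right_comm _ (conj (d.rho J' h' t _))]
  rw [← e]
  refine (mo_avg_norm (g := fun x => (‖d.U J t (x + (h + y1))‖ ^ 2 * ‖d.U J' t (x + h')‖ ^ 2 +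
    ‖d.U J t (x + (h - y2))‖ ^ 2 * ‖d.U J' t (x + h')‖ ^ 2) / 2) (by fun_prop)
    fun x => ?_).trans (le_of_eq ?_)
  · rw [norm_mul, norm_mul, Complex.norm_conj, Complex.norm_real,
      Real.norm_of_nonneg (by positivity)]
    nlinarith [mul_nonneg (sq_nonneg (‖d.U J t (x + (h + y1))‖ - ‖d.U J t (x + (h - y2))‖))
      (sq_nonneg ‖d.U J' t (x + h')‖)]
  · rw [intervalIntegral.integral_div, intervalIntegral.integral_add
      (Continuous.intervalIntegrable (by fun_prop) _ _)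
      (Continuous.intervalIntegrable (by fun_prop) _ _), mo_A_eq, mo_A_eq, ofReal_re, ofReal_re]
    ring

lemma mo_E_le {J : Cell} (J' : Cell) (h h' : ℝ) {v e : ℝ}
    (he : An {p : ℤ × ℤ | p.1 ∈ PP J ∧ p.2 ∈ PP J} (errS d.α v) e) :
    |∫ t in (0 : ℝ)..d.T, (d.moE J J' h h' v t).re| ≤ e * d.X J J' := by
  have e0 := Complex.reCLM.intervalIntegral_comp_comm
    ((d.mo_cont_E J J' h h' v).intervalIntegrable (μ := MeasureTheory.volume) 0 d.T)
  simp only [reCLM_apply] at e0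
  rw [e0]
  refine (abs_re_le_norm _).trans ?_
  have hc : ∀ q ∈ FF d.Kc ×ˢ FF d.Kc,
      Continuous fun t => d.moR J h t q * conj (d.rho J' h' t (q.1 - q.2)) := fun q hq => by
    have := d.mo_contR J h hq
    have := d.mo_cont_rho J' h' (q.1 - q.2)
    fun_prop
  have key : ∀ σ : ℤ × ℤ → ℂ, ∑ q ∈ (FF d.Kc ×ˢ FF d.Kc) with (q.1 ∈ PP J ∧ q.2 ∈ PP J),
      (∫ t in (0 : ℝ)..d.T, d.moR J h t q * conj (d.rho J' h' t (q.1 - q.2))) * σ q =
      ∫ t in (0 : ℝ)..d.T, ∑ q ∈ FF d.Kc ×ˢ FF d.Kc,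
        d.moR J h t q * conj (d.rho J' h' t (q.1 - q.2)) * σ q := by
    intro σ
    rw [intervalIntegral.integral_finsetSum fun q hq =>
      ((hc q hq).mul_const (σ q)).intervalIntegrable _ _, Finset.sum_filter_of_ne]
    · refine Finset.sum_congr rfl fun q _ => ?_
      rw [intervalIntegral.integral_mul_const]
    · intro q _ hq
      by_contra hn
      apply hq
      rcases not_and_or.1 hn with h1 | h1 <;> simp [moR, phi_off h1]
  unfold moE
  rw [← key]
  refine he _ _ id _ _ (fun q hq => (Finset.mem_filter.1 hq).2) fun y => ?_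
  have ey : ∀ q : ℤ × ℤ, exp (I * (y (id q) : ℝ)) = ex (y (1, 0)) q.1 * ex (y (0, 1)) q.2 := by
    intro q
    have : y q = q.1 * y (1, 0) + q.2 * y (0, 1) := by
      rw [← zsmul_eq_mul, ← zsmul_eq_mul, ← map_zsmul, ← map_zsmul, ← map_add]
      simp
    unfold ex
    rw [← exp_add, id, this]
    congr 1
    push_cast
    ring
  simp only [ey]
  rw [key fun q => ex (y (1, 0)) q.1 * ex (y (0, 1)) q.2]
  have c1 := d.mo_cont_A J J' (h + y (1, 0)) h'
  have c2 := d.mo_cont_A J J' (h - y (0, 1)) h'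
  refine (intervalIntegral.norm_integral_le_of_norm_le d.hT (Filter.Eventually.of_forall
    fun t _ => d.mo_mod J J' h h' _ _ t) (Continuous.intervalIntegrable (by fun_prop) _ _)).trans ?_
  rw [intervalIntegral.integral_div, intervalIntegral.integral_add
    (Continuous.intervalIntegrable (by fun_prop) _ _)
    (Continuous.intervalIntegrable (by fun_prop) _ _), ← mo_Y, ← mo_Y]
  linarith [d.Y_le_X J J' (h + y (1, 0)) h', d.Y_le_X J J' (h - y (0, 1)) h']

theorem morawetz {J J' : Cell} (hJ : PP J ⊆ FF d.Kc) (hJ' : PP J' ⊆ FF d.Kc)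
    {v v' e e' G : ℝ} (hv : |v - v'| ≤ 2)
    (he : An {p : ℤ × ℤ | p.1 ∈ PP J ∧ p.2 ∈ PP J} (errS d.α v) e)
    (he' : An {p : ℤ × ℤ | p.1 ∈ PP J' ∧ p.2 ∈ PP J'} (errS d.α v') e')
    (hG : ∀ t ∈ Set.Icc 0 d.T, d.m J' t ≤ G) (h h' : ℝ) :
    |v - v'| * d.Y J J' h h' ≤ 13 * G * (d.m J 0 + d.m J d.T + d.im J) + (e + e') * d.X J J' +
      2 * |d.src J J' h h'| + 2 * |d.src J' J h' h| := by
  have cA := d.mo_cont_A J J' h h'
  have cE := d.mo_cont_E J J' h h' v
  have cE' := d.mo_cont_E J' J h' h v'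
  have cS := d.mo_cont_S J J' h h'
  have cS' := d.mo_cont_S J' J h' h
  have cm := d.cont_m J
  have cm' := d.cont_m J'
  have hd : ∀ t ∈ Set.uIcc 0 d.T, HasDerivAt (fun s => (d.moI J J' h h' s).re)
      ((v - v') * (d.m J t * d.m J' t) - (v - v') * (d.moA J J' h h' t).re -
        (d.moE J J' h h' v t).re + (d.moE J' J h' h v' t).re +
        2 * (d.moS J J' h h' t).im - 2 * (d.moS J' J h' h t).im) t := by
    intro t _
    have h1 := Complex.reCLM.hasFDerivAt.comp_hasDerivAt t (d.mo_deriv_I J J' h h' t)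
    have eA : (d.moA J' J h' h t).re = (d.moA J J' h h' t).re := by
      simp only [mo_A_eq, ofReal_re, mul_comm]
    refine HasDerivAt.congr_deriv (f' := reCLM _) h1 ?_
    rw [reCLM_apply, sub_re, conj_re, d.mo_D hJ J' h h' v, d.mo_D hJ' J h' h v', eA]
    ring
  have i1 : Continuous fun t => (v - v') * (d.m J t * d.m J' t) := continuous_const.mul (cm.mul cm')
  have i2 : Continuous fun t => (v - v') * (d.moA J J' h h' t).re :=
    continuous_const.mul (continuous_re.comp cA)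
  have i3 : Continuous fun t => (d.moE J J' h h' v t).re := continuous_re.comp cE
  have i4 : Continuous fun t => (d.moE J' J h' h v' t).re := continuous_re.comp cE'
  have i5 : Continuous fun t => 2 * (d.moS J J' h h' t).im :=
    continuous_const.mul (continuous_im.comp cS)
  have i6 : Continuous fun t => 2 * (d.moS J' J h' h t).im :=
    continuous_const.mul (continuous_im.comp cS')
  have j2 := i1.fun_sub i2
  have j3 := j2.fun_sub i3
  have j4 := j3.fun_add i4
  have j5 := j4.fun_add i5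
  have hf := intervalIntegral.integral_eq_sub_of_hasDerivAt hd
    ((j5.fun_sub i6).intervalIntegrable _ _)
  rw [intervalIntegral.integral_sub (j5.intervalIntegrable _ _) (i6.intervalIntegrable _ _),
    intervalIntegral.integral_add (j4.intervalIntegrable _ _) (i5.intervalIntegrable _ _),
    intervalIntegral.integral_add (j3.intervalIntegrable _ _) (i4.intervalIntegrable _ _),
    intervalIntegral.integral_sub (j2.intervalIntegrable _ _) (i3.intervalIntegrable _ _),
    intervalIntegral.integral_sub (i1.intervalIntegrable _ _) (i2.intervalIntegrable _ _)] at hf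
  simp only [intervalIntegral.integral_const_mul] at hf
  rw [← mo_Y, mo_src, mo_src] at hf
  have hG0 : 0 ≤ G := (d.m_nonneg J' 0).trans (hG 0 ⟨le_rfl, d.hT⟩)
  have hI : ∀ t ∈ Set.Icc 0 d.T, |(d.moI J J' h h' t).re| ≤ 13 * G * d.m J t := fun t ht =>
    (abs_re_le_norm _).trans ((d.mo_I_le J J' h h' t).trans (by
      gcongr
      · exact d.m_nonneg J t
      · exact hG t ht))
  have h0 := abs_le.1 (hI 0 ⟨le_rfl, d.hT⟩)
  have hT := abs_le.1 (hI d.T ⟨d.hT, le_rfl⟩)
  have hm0 : 0 ≤ ∫ t in (0 : ℝ)..d.T, d.m J t * d.m J' t :=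
    intervalIntegral.integral_nonneg d.hT fun t _ => mul_nonneg (d.m_nonneg J t) (d.m_nonneg J' t)
  have hm : ∫ t in (0 : ℝ)..d.T, d.m J t * d.m J' t ≤ d.im J * G := by
    unfold im
    rw [← intervalIntegral.integral_mul_const]
    exact intervalIntegral.integral_mono_on d.hT (Continuous.intervalIntegrable (by fun_prop) _ _)
      (Continuous.intervalIntegrable (by fun_prop) _ _) fun t ht =>
      mul_le_mul_of_nonneg_left (hG t ht) (d.m_nonneg J t)
  have hmm : |(v - v') * ∫ t in (0 : ℝ)..d.T, d.m J t * d.m J' t| ≤ 13 * G * d.im J := by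
    rw [abs_mul, abs_of_nonneg hm0]
    nlinarith [mul_nonneg (d.im_nonneg J) hG0, mul_le_mul hv hm hm0 zero_le_two]
  have hE := abs_le.1 (d.mo_E_le J' h h' he)
  have hE' := abs_le.1 (d.mo_E_le J h' h he')
  rw [d.X_symm J' J] at hE'
  rw [← abs_of_nonneg (d.Y_nonneg J J' h h'), ← abs_mul, abs_le]
  have h1 := abs_le.1 hmm
  have h2 := le_abs_self (d.src J J' h h')
  have h3 := neg_abs_le (d.src J J' h h')
  have h4 := le_abs_self (d.src J' J h' h)
  have h5 := neg_abs_le (d.src J' J h' h)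
  constructor <;> linarith [h0.1, h0.2, hT.1, hT.2, hE.1, hE.2, hE'.1, hE'.2, h1.1, h1.2]

end Dat

end Pool.Agent.Lib.MMTW
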