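import Pool.Agent.Lib.MP_0dc93f_an.WCount
import Pool.Agent.Lib.MP_0dc93f_an.WMaster
import Pool.Agent.Lib.MP_0dc93f_an.WMor
import Pool.Agent.Lib.MP_0dc93f_an.WFlux

/-! The bootstrap: definitions. -/

namespace Pool.Agent.Lib.MMTW

open Finset

noncomputable section

/-- standing assumptions; `Q` dominates all constants, `R` is a huge power of `Q` -/
structure Hyp (d : Dat) (K : ℕ) (Q R β : ℝ) : Prop where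
  a1 : 3 / 5 ≤ d.α
  a2 : d.α < 1
  b1 : d.α ≤ β
  b2 : β ≤ 2
  hK : 100000 ≤ (1 - d.α) * K
  hQ : 100 * (K : ℝ) ≤ Q
  hR1 : 1 ≤ R
  hR : Q ^ 200 ≤ R ^ (1 / 10000 : ℝ)
  hKc : 1 ≤ d.Kc
  hT : d.T ≤ Q
  lg : ∀ l : ℕ, (l : ℝ) + 2 ≤ Q * ((2 : ℝ) ^ l) ^ (5 / 1000000 : ℝ)
  tl : ∀ t ∈ Set.Icc 0 d.T, ∀ r : ℝ, 0 < r → tail d.Kc (d.b t) r ≤ Q * r ^ (-β)
  ws : ∀ t ∈ Set.Icc 0 d.T, ∀ σ : ℝ, σ + 8 / 10000 ≤ β →
    ∑ k ∈ FF d.Kc, br k ^ σ * ‖d.b t k‖ ^ 2 ≤ Q ^ 2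
  bs : ∀ s : Finset ℤ, ∑ k ∈ s, br k ^ (-1 - 1 / 10000 : ℝ) ≤ Q
  nl : ∀ t ∈ Set.Icc 0 d.T, ∀ k, ‖NL d.Kc (d.b t) k‖ ≤ Q ^ 3 * br k ^ (-β / 2)
  hi : ∀ t ∈ Set.Icc 0 d.T, tail d.Kc (d.b t) (d.Kc / 16) ≤ 1 / (d.Kc : ℝ) ^ 4

/-- bound for the mass of a window -/
def gg (Q β : ℝ) (J : Cell) : ℝ := Q ^ 2 * xx J ^ (-β)

/-- weight of the charge of a window -/
def WW (β : ℝ) (J : Cell) : ℝ := mu J * xx J ^ (β - 1003 / 1000)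

/-- regular windows -/
abbrev reg (K Kc : ℕ) (J : Cell) : Prop := (K : ℤ) ≤ |J.2| ∧ 8 * |cc J| ≤ Kc

/-- spread of the group velocity in a window -/
def eps (α : ℝ) (J : Cell) : ℝ := mu J * |(cc J : ℝ)| ^ (α - 2)

/-- the velocity gap -/
def gam (α : ℝ) (K Kc : ℕ) (J J' : Cell) : ℝ :=
  if reg K Kc J ∧ reg K Kc J' then |vel α (cc J) - vel α (cc J')| else 2

/-- transversal pairs -/
def Ok (α : ℝ) (K Kc : ℕ) (J J' : Cell) : Prop :=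
  reg K Kc J → reg K Kc J' → 2000 * (eps α J + eps α J') ≤ |vel α (cc J) - vel α (cc J')|

/-- the bootstrap property of the charges `ν` -/
def Pn (d : Dat) (K : ℕ) (Q β : ℝ) (ν : Cell → ℝ) : Prop :=
  (∀ J, 0 ≤ ν J) ∧ ∀ J ∈ AA K d.Kc, ∀ J' ∈ AA K d.Kc, Ok d.α K d.Kc J J' →
    gam d.α K d.Kc J J' * d.X J J' ≤ ν J * gg Q β J' + gg Q β J * ν J'

/-- total weighted charge -/
def BB (K Kc : ℕ) (β : ℝ) (ν : Cell → ℝ) : ℝ := ∑ J ∈ AA K Kc, WW β J * ν J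

/-- scale of a type -/
def DD (τ : Ty) : ℝ := 2 ^ τ.1

/-- largest frequency of a type -/
def MM (τ : Ty) : ℝ := ⨆ i, xx (τ.2 i)

/-- small types -/
def Sm (R : ℝ) (τ : Ty) : Prop := DD τ ≤ R * xx (τ.2 3) ^ (801 / 1000 : ℝ)

/-- outliers -/
def Out (K : ℕ) (τ : Ty) : Prop := K * 2 ^ τ.1 < 10 * |De fun i => cc (τ.2 i)|

/-- clusters far from zero -/
def Far (τ : Ty) : Prop := ∀ i, MM τ ≤ 2 * xx (τ.2 i) ∧ (mu (τ.2 i) : ℝ) = DD τ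

open Classical in
/-- the chosen pairing -/
def pr (K : ℕ) (τ : Ty) : Equiv.Perm (Fin 4) :=
  if h : ∃ e, Pair (K * 2 ^ τ.1) (fun i => cc (τ.2 i)) e then h.choose else 1

/-- two low frequencies -/
def LL (θ : ℝ) (K : ℕ) (τ : Ty) : Prop :=
  xx (τ.2 (pr K τ 0)) ≤ MM τ ^ θ ∧ xx (τ.2 (pr K τ 2)) ≤ MM τ ^ θ

/-- product of the bilinear norms of the chosen pairs -/
def ZZ (d : Dat) (K : ℕ) (τ : Ty) : ℝ :=
  √(d.X (τ.2 (pr K τ 0)) (τ.2 (pr K τ 1))) * √(d.X (τ.2 (pr K τ 2)) (τ.2 (pr K τ 3)))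

/-- the gain of the charged class -/
def Ga (α β : ℝ) (K : ℕ) (τ : Ty) : ℝ :=
  (xx (τ.2 (pr K τ 0)) * xx (τ.2 (pr K τ 2))) ^ ((1 - α - β) / 2) *
    MM τ ^ (1 + 1003 / 1000 - β) / DD τ ^ 2

/-- size of the source symbol of the window `J` on a type -/
def coef (K : ℕ) (Q : ℝ) (J : Cell) (τ : Ty) : ℝ :=
  if PP J ∩ cell (τ.2 3) = ∅ then 0 else if K * 2 ^ τ.1 ≤ 64 * mu J then Q * DD τ / mu J else 4

/-- total weight of the windows that see a type -/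
def Om (β : ℝ) (τ : Ty) : ℝ := mu (τ.2 3) * xx (τ.2 3) ^ (β - 1003 / 1000 + 5 / 1000000)

open Classical in
/-- contribution of a type to the sources -/
def Yt (d : Dat) (K : ℕ) (Q R β : ℝ) (ν : Cell → ℝ) (τ : Ty) : ℝ :=
  if ¬ Sm R τ ∧ Out K τ then
    (if Far τ then Lg τ.2 * Q ^ 3 * xx (τ.2 3) ^ (2 - d.α - β) / DD τ * (ν (τ.2 0) + ν (τ.2 1))
      else 0)
  else Lg τ.2 * ZZ d K τ

end

end Pool.Agent.Lib.MMTW
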