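import Pool.Agent.Lib.MP_0dc93f_an.WGeo

/-! Counting types and cells. -/

namespace Pool.Agent.Lib.MMTW

open Finset

noncomputable section

/-- bracket of the position of a cell -/
def xx (J : Cell) : ℝ := br (cc J)

lemma one_le_br (k : ℤ) : 1 ≤ br k := by unfold br; linarith [abs_nonneg (k : ℝ)]

lemma br_pos (k : ℤ) : 0 < br k := one_pos.trans_le (one_le_br k)

lemma one_le_xx (J : Cell) : 1 ≤ xx J := one_le_br _

lemma xx_pos (J : Cell) : 0 < xx J := br_pos _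

lemma br_eq (k : ℤ) : br k = ((1 + |k| : ℤ) : ℝ) := by simp [br]

lemma mem_AA {K Kc : ℕ} {J : Cell} (h : J ∈ AA K Kc) :
    (J.1 = 0 ∨ (K : ℤ) ≤ |J.2|) ∧ |cc J| ≤ 2 * Kc := (mem_filter.1 h).2

/-- candidates for the cells of a type -/
def cand (K l : ℕ) (J : Cell) : Finset Cell :=
  {l} ×ˢ Icc (cc J / 2 ^ l - (2 * K + 2)) (cc J / 2 ^ l + (2 * K + 2)) ∪
    range l ×ˢ Icc (-(2 * K : ℤ)) (2 * K)

lemma card_cand (K l : ℕ) (J : Cell) : (cand K l J).card ≤ (4 * K + 5) * (l + 1) := by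
  refine (card_union_le _ _).trans ?_
  simp only [card_product, card_singleton, Int.card_Icc, card_range]
  have h1 : (cc J / 2 ^ l + (2 * K + 2) + 1 - (cc J / 2 ^ l - (2 * K + 2))).toNat = 4 * K + 5 := by
    omega
  have h2 : ((2 * K : ℤ) + 1 - -(2 * K)).toNat = 4 * K + 1 := by omega
  rw [h1, h2]; nlinarith

lemma Good.cand {K Kc : ℕ} {τ : Ty} (h : Good K Kc τ) (i j : Fin 4) :
    τ.2 j ∈ cand K τ.1 (τ.2 i) := by
  rcases (h.lev j).lt_or_eq with h1 | h1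
  · exact mem_union_right _ (mem_product.2 ⟨mem_range.2 h1, mem_Icc.2 (abs_le.1 (h.shell j h1))⟩)
  · refine mem_union_left _ (mem_product.2 ⟨mem_singleton.2 h1, mem_Icc.2 ?_⟩)
    have h2 := h.near i j
    have h3 := h.near j i
    have h4 : cc (τ.2 j) = (τ.2 j).2 * 2 ^ τ.1 := by rw [cc, h1]
    have h5 := lt_cc (cc (τ.2 i)) τ.1
    have h6 := Int.ediv_mul_le (cc (τ.2 i)) (by positivity : (2 : ℤ) ^ τ.1 ≠ 0)
    have h7 : (0 : ℤ) < 2 ^ τ.1 := by positivity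
    generalize cc (τ.2 i) / 2 ^ τ.1 = a at *
    constructor
    · exact le_of_mul_le_mul_right (by nlinarith) h7
    · exact Int.lt_add_one_iff.1 (lt_of_mul_lt_mul_right (by nlinarith) h7.le)

lemma sum_inv_sq (n : ℕ) : ∑ l ∈ range n, 1 / ((l : ℝ) + 2) ^ 2 ≤ 1 - 1 / ((n : ℝ) + 1) := by
  induction n with
  | zero => simp
  | succ n ih =>
    rw [sum_range_succ]
    have : 1 / ((n : ℝ) + 2) ^ 2 ≤ 1 / (n + 1) - 1 / (n + 2) := by
      rw [div_sub_div _ _ (by positivity) (by positivity), div_le_div_iff₀ (by positivity)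
        (by positivity)]
      nlinarith [(Nat.cast_nonneg n : (0 : ℝ) ≤ n)]
    push_cast
    rw [show (n : ℝ) + 1 + 1 = n + 2 by ring]; linarith

/-- the Schur test -/
lemma sum_schur {K Kc : ℕ} (hK : 2 ≤ K) {s : Finset Ty} (hs : s ⊆ TT K Kc) {F : Ty → ℝ}
    {y : Cell → ℝ} (hy : ∀ J ∈ AA K Kc, 0 ≤ y J) {δ : ℝ} (hδ : 0 ≤ δ)
    (h : ∀ τ ∈ s, F τ * ((τ.1 : ℝ) + 2) ^ 6 ≤ δ * ∑ i, y (τ.2 i)) :
    ∑ τ ∈ s, F τ ≤ 4 * (4 * K + 5) ^ 4 * δ * ∑ J ∈ AA K Kc, y J := by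
  have hg : ∀ τ ∈ s, Good K Kc τ := fun τ hτ => good_ty hK (hs hτ)
  have hY : 0 ≤ ∑ J ∈ AA K Kc, y J := sum_nonneg hy
  have key : ∀ i : Fin 4, ∑ τ ∈ s, y (τ.2 i) / ((τ.1 : ℝ) + 2) ^ 6 ≤
      (4 * K + 5) ^ 4 * ∑ J ∈ AA K Kc, y J := fun i => by
    have hm : ∀ τ ∈ s, (τ.1, τ.2 i) ∈ range (Kc + 1) ×ˢ AA K Kc := fun τ hτ => by
      refine mem_product.2 ⟨mem_range.2 ?_, (hg τ hτ).mem i⟩
      obtain ⟨k, -, rfl⟩ := mem_image.1 (hs hτ)
      exact Nat.lt_succ_of_le (Nat.findGreatest_le _)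
    rw [← sum_fiberwise_of_maps_to hm, sum_product]
    calc _ ≤ ∑ l ∈ range (Kc + 1), ∑ J ∈ AA K Kc,
          (4 * K + 5) ^ 4 * (1 / ((l : ℝ) + 2) ^ 2) * y J := by
          refine sum_le_sum fun l _ => sum_le_sum fun J hJ => ?_
          have hc : (s.filter fun τ => (τ.1, τ.2 i) = (l, J)).card ≤
              ((4 * K + 5) * (l + 1)) ^ 4 := by
            refine (card_le_card (t := {l} ×ˢ Fintype.piFinset fun _ => cand K l J)
              fun τ hτ => ?_).trans ?_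
            · obtain ⟨h1, h2⟩ := mem_filter.1 hτ
              obtain ⟨rfl, rfl⟩ := Prod.mk.inj h2
              exact mem_product.2 ⟨mem_singleton_self _,
                Fintype.mem_piFinset.2 ((hg τ h1).cand i)⟩
            · rw [card_product, card_singleton, one_mul, Fintype.card_piFinset_const]
              exact Nat.pow_le_pow_left (card_cand _ _ _) _
          have hc' : ((s.filter fun τ => (τ.1, τ.2 i) = (l, J)).card : ℝ) ≤
              ((4 * K + 5) * (l + 2)) ^ 4 := by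
            refine (Nat.cast_le.2 hc).trans ?_
            push_cast; gcongr; norm_num
          rw [sum_congr rfl (g := fun _ => y J / ((l : ℝ) + 2) ^ 6) fun τ hτ => by
            obtain ⟨h1, h2⟩ := Prod.mk.inj (mem_filter.1 hτ).2
            rw [h1, h2], sum_const, nsmul_eq_mul]
          have := hy J hJ
          refine (mul_le_mul_of_nonneg_right hc' (by positivity)).trans (le_of_eq ?_)
          field_simp
      _ = (4 * K + 5) ^ 4 * (∑ l ∈ range (Kc + 1), 1 / ((l : ℝ) + 2) ^ 2) *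
          ∑ J ∈ AA K Kc, y J := by
          simp only [← mul_sum, ← sum_mul]
      _ ≤ _ := by
          have h1 := sum_inv_sq (Kc + 1)
          have h2 : (0 : ℝ) ≤ 1 / (((Kc + 1 : ℕ) : ℝ) + 1) := by positivity
          gcongr
          exact mul_le_of_le_one_right (by positivity) (by linarith)
  calc ∑ τ ∈ s, F τ ≤ ∑ τ ∈ s, δ * ∑ i, y (τ.2 i) / ((τ.1 : ℝ) + 2) ^ 6 := by
        refine sum_le_sum fun τ hτ => ?_
        rw [← sum_div, ← mul_div_assoc, le_div_iff₀ (by positivity)]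
        exact h τ hτ
    _ = δ * ∑ i : Fin 4, ∑ τ ∈ s, y (τ.2 i) / ((τ.1 : ℝ) + 2) ^ 6 := by
        rw [← mul_sum, sum_comm]
    _ ≤ δ * ∑ _i : Fin 4, (4 * K + 5) ^ 4 * ∑ J ∈ AA K Kc, y J := by
        gcongr with i; exact key i
    _ = _ := by simp; ring

lemma AA_mu {K Kc : ℕ} {J : Cell} (h : J ∈ AA K Kc) : mu J = 1 ∨ K * mu J ≤ |cc J| := by
  rcases (mem_AA h).1 with h1 | h1
  · left; rw [mu, h1]; rfl
  · right; rw [abs_cc]; exact mul_le_mul_of_nonneg_right h1 (mu_pos J).le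

lemma br_PP {K Kc : ℕ} (hK : 4 ≤ K) {J : Cell} (h : J ∈ AA K Kc) {k : ℤ} (hk : k ∈ PP J) :
    xx J ≤ 2 * br k ∧ br k ≤ 2 * xx J := by
  have h1 := mem_PP.1 hk
  have h2 := mu_pos J
  have h3 : mu J = 1 ∨ 4 * mu J ≤ |cc J| := (AA_mu h).imp_right fun h3 =>
    le_trans (mul_le_mul_of_nonneg_right (by exact_mod_cast hK) h2.le) h3
  rw [xx, br_eq, br_eq]
  norm_cast
  simp only [abs_eq_max_neg] at h3 ⊢
  omega

lemma mu_le_xx {K Kc : ℕ} (hK : 1 ≤ K) {J : Cell} (h : J ∈ AA K Kc) : (mu J : ℝ) ≤ xx J := by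
  have h2 := mu_pos J
  have h3 : mu J = 1 ∨ 1 * mu J ≤ |cc J| := (AA_mu h).imp_right fun h3 =>
    le_trans (mul_le_mul_of_nonneg_right (by exact_mod_cast hK) h2.le) h3
  rw [xx, br_eq]
  norm_cast
  simp only [abs_eq_max_neg] at h3 ⊢
  omega

lemma exists_lg {u : ℝ} (hu : 0 < u) :
    ∃ C : ℝ, 1 ≤ C ∧ ∀ l : ℕ, (l : ℝ) + 2 ≤ C * ((2 : ℝ) ^ l) ^ u := by
  refine ⟨2 + 2 / u, by have : 0 < 2 / u := by positivity
                        linarith, fun l => ?_⟩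
  have h1 : 1 + l * u / 2 ≤ ((2 : ℝ) ^ l) ^ u := by
    rw [← Real.rpow_natCast, ← Real.rpow_mul (by norm_num), Real.rpow_def_of_pos (by norm_num)]
    refine le_trans ?_ (Real.add_one_le_exp _)
    have := Real.log_two_gt_d9
    have : 0 ≤ (l : ℝ) * u := by positivity
    nlinarith
  refine le_trans ?_ (mul_le_mul_of_nonneg_left h1 (by positivity))
  have : (2 + 2 / u) * (1 + l * u / 2) = 2 + l + (2 / u + l * u) := by field_simp; ring
  have : 0 ≤ 2 / u + l * u := by positivity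
  linarith

lemma card_over {K Kc : ℕ} (hK : 4 ≤ K) {Q u : ℝ} (hQ : 0 ≤ Q) (hu : 0 ≤ u)
    (hlg : ∀ l : ℕ, (l : ℝ) + 2 ≤ Q * ((2 : ℝ) ^ l) ^ u) (k : ℤ) :
    (((AA K Kc).filter fun J => k ∈ PP J).card : ℝ) ≤ 3 * Q * br k ^ u := by
  set L := Nat.log 2 (k.natAbs + 1) with hL
  have h1 : ((AA K Kc).filter fun J => k ∈ PP J) ⊆ (range (L + 1)).biUnion fun j =>
      {j} ×ˢ Icc (k / 2 ^ j - 1) (k / 2 ^ j + 1) := fun J hJ => by
    obtain ⟨hJ, hk⟩ := mem_filter.1 hJ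
    have h2 := mem_PP.1 hk
    have h3 := mu_pos J
    refine mem_biUnion.2 ⟨J.1, mem_range.2 (Nat.lt_succ_of_le ?_),
      mem_product.2 ⟨mem_singleton_self _, mem_Icc.2 ?_⟩⟩
    · refine Nat.le_log_of_pow_le (by norm_num) ?_
      have h4 : mu J = 1 ∨ 4 * mu J ≤ |cc J| := (AA_mu hJ).imp_right fun h4 =>
        le_trans (mul_le_mul_of_nonneg_right (by exact_mod_cast hK) h3.le) h4
      have h5 : mu J ≤ k.natAbs + 1 := by simp only [abs_eq_max_neg] at h4; omega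
      rw [mu] at h5; exact_mod_cast h5
    · have h5 := lt_cc k J.1
      have h6 := Int.ediv_mul_le k (by positivity : (2 : ℤ) ^ J.1 ≠ 0)
      rw [cc, mu] at h2; rw [mu] at h3
      generalize k / 2 ^ J.1 = a at *
      constructor
      · exact Int.lt_add_one_iff.1 (lt_of_mul_lt_mul_right (by nlinarith) h3.le)
      · exact Int.lt_add_one_iff.1 (lt_of_mul_lt_mul_right (by nlinarith) h3.le)
  have h2 : ((AA K Kc).filter fun J => k ∈ PP J).card ≤ (L + 1) * 3 := by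
    refine (card_le_card h1).trans ((card_biUnion_le_card_mul _ _ 3 fun j _ => ?_).trans
      (by simp))
    simp only [card_product, card_singleton, Int.card_Icc]; omega
  have h3 : (2 : ℝ) ^ L ≤ br k := by
    have := Nat.pow_log_le_self 2 (x := k.natAbs + 1) (by omega)
    rw [br, add_comm, ← Int.cast_abs, ← Nat.cast_natAbs]; exact_mod_cast this
  have h4 := hlg L
  have h5 : ((2 : ℝ) ^ L) ^ u ≤ br k ^ u := by gcongr
  have h6 : (((AA K Kc).filter fun J => k ∈ PP J).card : ℝ) ≤ (L + 1) * 3 := by exact_mod_cast h2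
  nlinarith [mul_le_mul_of_nonneg_left h5 hQ]

lemma rpow_near {x y e : ℝ} (hx : 0 < x) (hy : 0 < y) (h1 : x ≤ 2 * y) (h2 : y ≤ 2 * x)
    (he1 : -4 ≤ e) (he2 : e ≤ 4) : x ^ e ≤ 16 * y ^ e := by
  have h16 : ∀ a : ℝ, a ≤ 4 → (2 : ℝ) ^ a ≤ 16 := fun a ha =>
    (Real.rpow_le_rpow_of_exponent_le (by norm_num) ha).trans (by norm_num)
  rcases le_total 0 e with h | h
  · calc x ^ e ≤ (2 * y) ^ e := by gcongr
      _ = 2 ^ e * y ^ e := Real.mul_rpow (by norm_num) hy.le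
      _ ≤ _ := by gcongr; exact h16 e he2
  · calc x ^ e ≤ (y / 2) ^ e := Real.rpow_le_rpow_of_nonpos (by positivity) (by linarith) h
      _ = 2 ^ (-e) * y ^ e := by
          rw [Real.div_rpow hy.le (by norm_num), Real.rpow_neg (by norm_num)]; ring
      _ ≤ _ := by gcongr; exact h16 _ (by linarith)

/-- from cells to points -/
lemma sum_cells {K Kc : ℕ} (hK : 4 ≤ K) {Q u : ℝ} (hQ : 0 ≤ Q) (hu : 0 ≤ u)
    (hlg : ∀ l : ℕ, (l : ℝ) + 2 ≤ Q * ((2 : ℝ) ^ l) ^ u) {e : ℝ} (he1 : -4 ≤ e) (he2 : e ≤ 4)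
    (s : Finset ℤ) {f : ℤ → ℝ} (hf : ∀ k, 0 ≤ f k) :
    ∑ J ∈ AA K Kc, xx J ^ e * ∑ k ∈ s with k ∈ PP J, f k ≤
      48 * Q * ∑ k ∈ s, br k ^ (e + u) * f k := by
  simp only [mul_sum, sum_filter]
  rw [sum_comm]
  refine sum_le_sum fun k _ => ?_
  have hb := br_pos k
  calc _ ≤ ∑ J ∈ AA K Kc with k ∈ PP J, 16 * br k ^ e * f k := by
        rw [sum_filter]
        refine sum_le_sum fun J hJ => ?_
        split_ifs with h
        · have h1 := br_PP hK hJ h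
          exact mul_le_mul_of_nonneg_right (rpow_near (xx_pos J) hb h1.1 h1.2 he1 he2) (hf k)
        · simp
    _ ≤ 3 * Q * br k ^ u * (16 * br k ^ e * f k) := by
        rw [sum_const, nsmul_eq_mul]
        have := hf k
        exact mul_le_mul_of_nonneg_right (card_over hK hQ hu hlg k) (by positivity)
    _ = _ := by rw [Real.rpow_add hb]; ring

lemma exists_perm : ∀ a b c d : Fin 4, [a, b, c, d].Nodup →
    ∃ e : Equiv.Perm (Fin 4), e 0 = a ∧ e 1 = b ∧ e 2 = c ∧ e 3 = d := by decide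

lemma nodup_swap : ∀ a b c d : Fin 4, [a, b, c, d].Nodup →
    [b, a, c, d].Nodup ∧ [a, b, d, c].Nodup ∧ [b, a, d, c].Nodup := by decide

/-- two separated pairs, the smaller member first -/
def Pair (P : ℤ) (c : Fin 4 → ℤ) (e : Equiv.Perm (Fin 4)) : Prop :=
  9 * P ≤ 20 * |c (e 0) - c (e 1)| ∧ 9 * P ≤ 20 * |c (e 2) - c (e 3)| ∧
    |c (e 0)| ≤ |c (e 1)| ∧ |c (e 2)| ≤ |c (e 3)|

lemma exists_pair {P : ℤ} {c : Fin 4 → ℤ} (h1 : ∃ i j, P ≤ c i - c j) (h2 : 10 * |De c| ≤ P) :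
    ∃ e, Pair P c e := by
  have key : ∀ a b a' b' : Fin 4, [a, b, a', b'].Nodup → 9 * P ≤ 20 * |c a - c b| →
      9 * P ≤ 20 * |c a' - c b'| → ∃ e, Pair P c e := by
    intro a b a' b' hn h3 h4
    have aux : ∀ a b a' b' : Fin 4, [a, b, a', b'].Nodup → 9 * P ≤ 20 * |c a - c b| →
        9 * P ≤ 20 * |c a' - c b'| → |c a| ≤ |c b| → |c a'| ≤ |c b'| → ∃ e, Pair P c e := by
      intro a b a' b' hn h3 h4 h5 h6
      obtain ⟨e, rfl, rfl, rfl, rfl⟩ := exists_perm a b a' b' hn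
      exact ⟨e, h3, h4, h5, h6⟩
    obtain ⟨n1, n2, n3⟩ := nodup_swap a b a' b' hn
    rcases le_total |c a| |c b| with h5 | h5 <;> rcases le_total |c a'| |c b'| with h6 | h6
    · exact aux _ _ _ _ hn h3 h4 h5 h6
    · exact aux _ _ _ _ n2 h3 (by rwa [abs_sub_comm]) h5 h6
    · exact aux _ _ _ _ n1 (by rwa [abs_sub_comm]) h4 h5 h6
    · exact aux _ _ _ _ n3 (by rwa [abs_sub_comm]) (by rwa [abs_sub_comm]) h5 h6
  have h3 : (9 * P ≤ 20 * |c 0 - c 1| ∧ 9 * P ≤ 20 * |c 2 - c 3|) ∨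
      (9 * P ≤ 20 * |c 0 - c 2| ∧ 9 * P ≤ 20 * |c 1 - c 3|) ∨
      (9 * P ≤ 20 * |c 0 - c 3| ∧ 9 * P ≤ 20 * |c 1 - c 2|) := by
    obtain ⟨i, j, h1⟩ := h1
    simp only [De, abs_eq_max_neg] at h2 ⊢
    fin_cases i <;> fin_cases j <;> simp only [Fin.zero_eta, Fin.mk_one, Fin.reduceFinMk] at h1 <;>
      omega
  rcases h3 with h | h | h
  · exact key 0 1 2 3 (by decide) h.1 h.2
  · exact key 0 2 1 3 (by decide) h.1 h.2
  · exact key 0 3 1 2 (by decide) h.1 h.2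

end

end Pool.Agent.Lib.MMTW
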