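import Pool.Agent.Lib.MMT.Defs

/-! Window Morawetz estimates for the Galerkin MMT system: definitions. -/

namespace Pool.Agent.Lib.MMTW

open Finset Complex ComplexConjugate

noncomputable section

/-- frequencies of the Galerkin system -/
def FF (Kc : ℕ) : Finset ℤ := Finset.Icc (-(Kc : ℤ)) Kc

/-- quadruples of frequencies -/
def F4 (Kc : ℕ) : Finset (Fin 4 → ℤ) := Fintype.piFinset fun _ => FF Kc

/-- the dispersion relation -/
def om (α : ℝ) (k : ℤ) : ℝ := |(k : ℝ)| ^ α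

/-- the bracket `1 + |k|` -/
def br (k : ℤ) : ℝ := 1 + |(k : ℝ)|

/-- the truncated cubic term -/
def NL (Kc : ℕ) (a : ℤ → ℂ) (k : ℤ) : ℂ :=
  ∑ p ∈ (FF Kc ×ˢ FF Kc ×ˢ FF Kc) with p.1 - p.2.1 + p.2.2 = k,
    a p.1 * conj (a p.2.1) * a p.2.2

/-- the Galerkin system -/
def Gal (α : ℝ) (Kc : ℕ) (b : ℝ → ℤ → ℂ) : Prop :=
  ∀ t, ∀ k ∈ FF Kc, HasDerivAt (fun s => b s k) (-I * (om α k * b t k + NL Kc (b t) k)) t

/-- mass at frequencies with bracket at least `R` -/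
def tail (Kc : ℕ) (a : ℤ → ℂ) (R : ℝ) : ℝ := ∑ k ∈ FF Kc with R ≤ br k, ‖a k‖ ^ 2

/-- the a priori estimate -/
def Est (α κ : ℝ) : Prop :=
  ∀ E T : ℝ, 1 ≤ E → 1 ≤ T → ∃ C : ℝ, ∀ β : ℝ, α ≤ β → β ≤ 2 → ∀ Kc : ℕ, 1 ≤ Kc →
    ∀ b : ℝ → ℤ → ℂ, Gal α Kc b → ∀ T' : ℝ, 0 ≤ T' → T' ≤ T →
    (∀ t ∈ Set.Icc 0 T', ∀ R : ℝ, 0 < R → tail Kc (b t) R ≤ E * R ^ (-β)) →
    (∀ t ∈ Set.Icc 0 T', tail Kc (b t) (Kc / 16) ≤ 1 / (Kc : ℝ) ^ 4) →
    ∀ N : ℝ, 1 ≤ N → tail Kc (b T') (2 * N) ≤ tail Kc (b 0) N + C * N ^ (-β - κ)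

/-- `σ` has Fourier algebra norm at most `C` on `S` (dual form) -/
def An {G : Type} [AddCommGroup G] (S : Set G) (σ : G → ℂ) (C : ℝ) : Prop :=
  ∀ (ι : Type) (s : Finset ι) (κ : ι → G) (w : ι → ℂ) (X : ℝ), (∀ i ∈ s, κ i ∈ S) →
    (∀ y : G →+ ℝ, ‖∑ i ∈ s, w i * exp (I * (y (κ i) : ℝ))‖ ≤ X) →
    ‖∑ i ∈ s, w i * σ (κ i)‖ ≤ C * X

/-- a dyadic cell: level and index -/
abbrev Cell := ℕ × ℤ

/-- size of a cell -/
def mu (J : Cell) : ℤ := 2 ^ J.1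

/-- left end point of a cell -/
def cc (J : Cell) : ℤ := J.2 * 2 ^ J.1

/-- the points of a cell -/
def cell (J : Cell) : Finset ℤ := Finset.Ico (cc J) (cc J + mu J)

/-- the enlarged cell, which carries the window function -/
def PP (J : Cell) : Finset ℤ := Finset.Ioo (cc J - mu J) (cc J + 2 * mu J)

/-- hat function -/
def hat (m : ℝ) (x : ℤ) : ℝ := max 0 (1 - |(x : ℝ)| / m)

/-- the window function: one on the cell, zero off the enlarged cell -/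
def phi (J : Cell) (k : ℤ) : ℝ := hat (mu J) (k - cc J) + hat (mu J) (k - cc J - mu J)

/-- group velocity -/
def vel (α : ℝ) (c : ℤ) : ℝ := α * (c.sign : ℝ) * |(c : ℝ)| ^ (α - 1)

/-- dispersive error symbol -/
def errS (α v : ℝ) (p : ℤ × ℤ) : ℂ :=
  if p.1 = p.2 then 0 else (((om α p.1 - om α p.2) / ((p.1 : ℝ) - p.2) - v : ℝ) : ℂ)

/-- `e^{ikx}` -/
def ex (x : ℝ) (k : ℤ) : ℂ := exp (I * (k * x))

/-- momentum defect of a quadruple -/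
def De (k : Fin 4 → ℤ) : ℤ := k 0 - k 1 + k 2 - k 3

/-- frequency defect of a quadruple -/
def Ph (α : ℝ) (k : Fin 4 → ℤ) : ℝ := om α (k 0) - om α (k 1) + om α (k 2) - om α (k 3)

/-- the set of quadruples in a product of cells -/
def cellS (A : Fin 4 → Cell) : Set (Fin 4 → ℤ) := {k | ∀ i, k i ∈ cell (A i)}

/-- logarithmic cost of the sharp cut off to a product of cells -/
def Lg (A : Fin 4 → Cell) : ℝ := ∏ i, (4 * ((A i).1 + 2) : ℝ)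

/-- a Galerkin solution and a time interval -/
structure Dat where
  α : ℝ
  Kc : ℕ
  b : ℝ → ℤ → ℂ
  T : ℝ
  hT : 0 ≤ T
  gal : Gal α Kc b

namespace Dat

variable (d : Dat)

/-- Galerkin quadruples in a product of cells -/
def box (A : Fin 4 → Cell) : Finset (Fin 4 → ℤ) := (F4 d.Kc).filter fun k => ∀ i, k i ∈ cell (A i)

/-- windowed solution -/
def U (J : Cell) (t x : ℝ) : ℂ := ∑ k ∈ FF d.Kc, (phi J k : ℂ) * d.b t k * ex x k

/-- windowed mass -/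
def m (J : Cell) (t : ℝ) : ℝ := ∑ k ∈ FF d.Kc, phi J k ^ 2 * ‖d.b t k‖ ^ 2

/-- time integral of the windowed mass -/
def im (J : Cell) : ℝ := ∫ t in (0 : ℝ)..d.T, d.m J t

/-- bilinear space time integral with shifts -/
def Y (J J' : Cell) (h h' : ℝ) : ℝ :=
  ∫ t in (0 : ℝ)..d.T, (2 * Real.pi)⁻¹ *
    ∫ x in (0 : ℝ)..(2 * Real.pi), ‖d.U J t (x + h)‖ ^ 2 * ‖d.U J' t (x + h')‖ ^ 2

/-- supremum over the shifts -/
def X (J J' : Cell) : ℝ := ⨆ p : ℝ × ℝ, d.Y J J' p.1 p.2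

/-- quartic monomial -/
def B (t : ℝ) (k : Fin 4 → ℤ) : ℂ :=
  d.b t (k 0) * conj (d.b t (k 1)) * d.b t (k 2) * conj (d.b t (k 3))

/-- Fourier coefficients of the shifted windowed density -/
def rho (J : Cell) (h t : ℝ) (p : ℤ) : ℂ :=
  ∑ q ∈ (FF d.Kc ×ˢ FF d.Kc) with q.1 - q.2 = p,
    (phi J q.1 : ℂ) * phi J q.2 * d.b t q.1 * conj (d.b t q.2) * ex h p

/-- weight of the flux identity -/
def w0 (k : Fin 4 → ℤ) : ℂ := if De k = 0 then ∫ t in (0 : ℝ)..d.T, d.B t k else 0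

/-- sextic weight -/
def w2 (J : Cell) (h h' : ℝ) (k : Fin 4 → ℤ) : ℂ :=
  ∫ t in (0 : ℝ)..d.T, conj (d.rho J h' t (De k)) * ex h (De k) * d.B t k

/-- weight of the Morawetz source -/
def w1 (J : Cell) (h h' : ℝ) (k : Fin 4 → ℤ) : ℂ := d.w2 J h h' k / (I * De k)

/-- the Morawetz source of the window `J` against the window `J'` -/
def src (J J' : Cell) (h h' : ℝ) : ℝ :=
  (∑ k ∈ F4 d.Kc, d.w1 J' h h' k * ((phi J (k 0 - k 1 + k 2) * phi J (k 3) : ℝ) : ℂ)).im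

end Dat

end

end Pool.Agent.Lib.MMTW
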