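import Pool.Agent.Lib.MP_0dc93f_an.WDef

/-! From the a priori estimate to global solutions: interfaces. -/

namespace Pool.Agent.Lib.MMTW

open Finset Complex ComplexConjugate Filter Topology

noncomputable section

/-- Galerkin solutions with trigonometric polynomial data and uniform bounds -/
def GalFam (α κ : ℝ) : Prop :=
  ∀ H : ℝ, ∃ (C : ℝ → ℝ) (Λ : ℤ → ℝ), ∀ (n : ℕ) (c : ℤ → ℂ), (∀ k, k ∉ FF n → c k = 0) →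
    ∑ k ∈ FF n, br k ^ α * ‖c k‖ ^ 2 ≤ H →
    ∃ b : ℕ → ℝ → ℤ → ℂ, (∀ Kc, Gal α Kc (b Kc)) ∧ (∀ Kc t k, k ∉ FF Kc → b Kc t k = 0) ∧
      (∀ Kc, n ≤ Kc → b Kc 0 = c) ∧
      (∀ Kc, n ≤ Kc → ∀ k t s, ‖b Kc t k - b Kc s k‖ ≤ Λ k * |t - s|) ∧
      (∀ T > 0, ∀ᶠ Kc in atTop, ∀ t, |t| ≤ T → ∀ N : ℝ, 1 ≤ N →
        tail Kc (b Kc t) (2 * N) ≤ tail n c N + C T * N ^ (-α - κ)) ∧
      (∀ T > 0, ∀ s : ℕ, ∃ A : ℝ, ∀ᶠ Kc in atTop, ∀ t, |t| ≤ T →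
        ∑ k ∈ FF Kc, br k ^ s * ‖b Kc t k‖ ≤ A)

/-- the cubic term of the full system -/
def NLi (a : ℤ → ℂ) (k : ℤ) : ℂ := ∑' p : ℤ × ℤ, a p.1 * conj (a p.2) * a (k - p.1 + p.2)

/-- rapidly decaying solutions of the full system -/
def InfSol (α : ℝ) (a : ℝ → ℤ → ℂ) : Prop :=
  (∀ T > 0, ∀ s : ℕ, ∃ A : ℝ, ∀ t, |t| ≤ T → ∀ F : Finset ℤ,
    ∑ k ∈ F, br k ^ s * ‖a t k‖ ≤ A) ∧
  ∀ t k, HasDerivAt (fun s => a s k) (-I * (om α k * a t k + NLi (a t) k)) t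

/-- solutions of the full system with trigonometric polynomial data and uniform bounds -/
def InfFam (α κ : ℝ) : Prop :=
  ∀ H : ℝ, ∃ (C : ℝ → ℝ) (Λ : ℤ → ℝ), ∀ (n : ℕ) (c : ℤ → ℂ), (∀ k, k ∉ FF n → c k = 0) →
    ∑ k ∈ FF n, br k ^ α * ‖c k‖ ^ 2 ≤ H →
    ∃ a : ℝ → ℤ → ℂ, InfSol α a ∧ a 0 = c ∧
      (∀ k t s, ‖a t k - a s k‖ ≤ Λ k * |t - s|) ∧
      (∀ T > 0, ∀ t, |t| ≤ T → ∀ N : ℝ, 1 ≤ N → ∀ F : Finset ℤ,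
        ∑ k ∈ F with 2 * N ≤ br k, ‖a t k‖ ^ 2 ≤ tail n c N + C T * N ^ (-α - κ))

end

end Pool.Agent.Lib.MMTW
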