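import Pool.Agent.Lib.MP_0dc93f_an.WAn

/-! Trigonometric polynomials, the Morawetz weight, trivial bilinear bounds (job C1, part 1). -/

namespace Pool.Agent.Lib.MMTW

open Finset Complex ComplexConjugate

lemma ex_zero (x : ℝ) : ex x 0 = 1 := by simp [ex]

lemma ex_add (x : ℝ) (k l : ℤ) : ex x (k + l) = ex x k * ex x l := by
  unfold ex; rw [← Complex.exp_add]; congr 1; push_cast; ring

lemma ex_add_left (x y : ℝ) (k : ℤ) : ex (x + y) k = ex x k * ex y k := by
  unfold ex; rw [← Complex.exp_add]; congr 1; push_cast; ring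

lemma conj_ex (x : ℝ) (k : ℤ) : conj (ex x k) = ex x (-k) := by
  unfold ex; rw [← Complex.exp_conj]; congr 1; simp

lemma ex_neg_left (x : ℝ) (k : ℤ) : ex (-x) k = ex x (-k) := by
  unfold ex; congr 1; push_cast; ring

lemma norm_ex (x : ℝ) (k : ℤ) : ‖ex x k‖ = 1 := by
  unfold ex
  have : I * ((k : ℂ) * x) = ((k * x : ℝ) : ℂ) * I := by push_cast; ring
  rw [this, Complex.norm_exp_ofReal_mul_I]

@[fun_prop]
lemma cont_ex (k : ℤ) : Continuous fun x : ℝ => ex x k := by
  unfold ex; fun_prop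

lemma ex_two_pi (k : ℤ) : ex (2 * Real.pi) k = 1 := by
  unfold ex
  have : I * ((k : ℂ) * ((2 * Real.pi : ℝ) : ℂ)) = k * (2 * Real.pi * I) := by push_cast; ring
  rw [this, Complex.exp_int_mul_two_pi_mul_I]

lemma hasDerivAt_ex (k : ℤ) (x : ℝ) : HasDerivAt (fun y : ℝ => ex y k) (I * k * ex x k) x := by
  unfold ex
  have h1 : HasDerivAt (fun y : ℝ => I * ((k : ℂ) * (y : ℂ))) (I * (k * 1)) x :=
    ((Complex.ofRealCLM.hasDerivAt (x := x)).const_mul (k : ℂ)).const_mul I
  have h2 := h1.cexp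
  convert h2 using 1
  ring

lemma two_pi_ne : ((2 * Real.pi : ℝ) : ℂ) ≠ 0 := by
  exact_mod_cast Real.two_pi_pos.ne'

lemma avg_ex (p : ℤ) :
    ((2 * Real.pi : ℝ) : ℂ)⁻¹ * ∫ x in (0 : ℝ)..(2 * Real.pi), ex x p = if p = 0 then 1 else 0 := by
  split_ifs with hp
  · subst hp
    simp only [ex_zero, intervalIntegral.integral_const, sub_zero, Complex.real_smul, mul_one]
    exact inv_mul_cancel₀ two_pi_ne
  · have hp' : (I * p : ℂ) ≠ 0 := mul_ne_zero I_ne_zero (by exact_mod_cast hp)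
    have hd : ∀ x ∈ Set.uIcc (0 : ℝ) (2 * Real.pi),
        HasDerivAt (fun y : ℝ => ex y p / (I * p)) (ex x p) x := by
      intro x _
      have := (hasDerivAt_ex p x).div_const (I * p)
      rwa [mul_div_cancel_left₀ _ hp'] at this
    rw [intervalIntegral.integral_eq_sub_of_hasDerivAt hd ((cont_ex p).intervalIntegrable _ _),
      ex_two_pi]
    simp [ex]

lemma avg_mul_ex (p : ℤ) :
    ((2 * Real.pi : ℝ) : ℂ)⁻¹ * ∫ x in (0 : ℝ)..(2 * Real.pi), (x : ℂ) * ex x p =
      if p = 0 then (Real.pi : ℂ) else 1 / (I * p) := by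
  split_ifs with hp
  · subst hp
    simp only [ex_zero, mul_one]
    rw [intervalIntegral.integral_ofReal, integral_id]
    have := two_pi_ne
    push_cast at this ⊢
    have h2 : (Real.pi : ℂ) ≠ 0 := by exact_mod_cast Real.pi_pos.ne'
    field_simp
    ring
  · have hp0 : (p : ℂ) ≠ 0 := by exact_mod_cast hp
    have hp' : (I * p : ℂ) ≠ 0 := mul_ne_zero I_ne_zero hp0
    have hd : ∀ x ∈ Set.uIcc (0 : ℝ) (2 * Real.pi),
        HasDerivAt (fun y : ℝ => ((y : ℂ) / (I * p) + 1 / (p : ℂ) ^ 2) * ex y p)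
          ((x : ℂ) * ex x p) x := by
      intro x _
      have h1 : HasDerivAt (fun y : ℝ => (y : ℂ) / (I * p) + 1 / (p : ℂ) ^ 2) (1 / (I * p)) x :=
        ((Complex.ofRealCLM.hasDerivAt (x := x)).div_const (I * p)).add_const _
      have := h1.mul (hasDerivAt_ex p x)
      have e : 1 / (I * p) * ex x p + ((x : ℂ) / (I * p) + 1 / (p : ℂ) ^ 2) * (I * p * ex x p) =
          (x : ℂ) * ex x p := by
        field_simp
        ring_nf
        simp only [I_sq]
        ring
      rw [e] at this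
      exact this
    have hc : Continuous fun x : ℝ => (x : ℂ) * ex x p := by fun_prop
    rw [intervalIntegral.integral_eq_sub_of_hasDerivAt hd (hc.intervalIntegrable _ _),
      ex_two_pi]
    have h0 : ex 0 p = 1 := by simp [ex]
    rw [h0]
    have := two_pi_ne
    simp only [ofReal_zero, zero_div, zero_add, mul_one]
    field_simp
    ring

/-- average of a trigonometric polynomial -/
lemma avg_sum (s : Finset ℤ) (c : ℤ → ℂ) (g : ℝ → ℂ) (hg : Continuous g) :
    ((2 * Real.pi : ℝ) : ℂ)⁻¹ * ∫ x in (0 : ℝ)..(2 * Real.pi), g x * ∑ p ∈ s, c p * ex x p =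
      ∑ p ∈ s, c p * (((2 * Real.pi : ℝ) : ℂ)⁻¹ *
        ∫ x in (0 : ℝ)..(2 * Real.pi), g x * ex x p) := by
  simp only [Finset.mul_sum]
  rw [intervalIntegral.integral_finsetSum, Finset.mul_sum]
  · refine Finset.sum_congr rfl fun p _ => ?_
    have : ∀ x : ℝ, g x * (c p * ex x p) = c p * (g x * ex x p) := fun x => by ring
    simp only [this]
    rw [intervalIntegral.integral_const_mul]
    ring
  · intro p _
    exact (by fun_prop : Continuous fun x : ℝ => g x * (c p * ex x p)).intervalIntegrable _ _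

lemma zero_mem_FF (n : ℕ) : (0 : ℤ) ∈ FF n := by simp [FF]

namespace Dat

variable (d : Dat)

lemma cont_b {k : ℤ} (hk : k ∈ FF d.Kc) : Continuous fun t => d.b t k :=
  continuous_iff_continuousAt.2 fun t => (d.gal t k hk).continuousAt

lemma m_nonneg (J : Cell) (t : ℝ) : 0 ≤ d.m J t :=
  Finset.sum_nonneg fun _ _ => by positivity

lemma cont_m (J : Cell) : Continuous (d.m J) := by
  unfold m
  refine continuous_finsetSum _ fun k hk => ?_
  have := d.cont_b hk
  fun_prop

lemma im_nonneg (J : Cell) : 0 ≤ d.im J :=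
  intervalIntegral.integral_nonneg d.hT fun t _ => d.m_nonneg J t

lemma cont_U (J : Cell) : Continuous fun q : ℝ × ℝ => d.U J q.1 q.2 := by
  unfold U
  refine continuous_finsetSum _ fun k hk => ?_
  have h1 := (d.cont_b hk).comp (continuous_fst : Continuous fun q : ℝ × ℝ => q.1)
  have h2 := (cont_ex k).comp (continuous_snd : Continuous fun q : ℝ × ℝ => q.2)
  exact (continuous_const.mul h1).mul h2

lemma cont_rho (J : Cell) (h : ℝ) (p : ℤ) : Continuous fun t => d.rho J h t p := by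
  unfold rho
  refine continuous_finsetSum _ fun q hq => ?_
  have hq' := Finset.mem_product.1 (Finset.mem_filter.1 hq).1
  have h1 := d.cont_b hq'.1
  have h2 := d.cont_b hq'.2
  fun_prop

lemma sub_mem_FF {k l : ℤ} {n : ℕ} (hk : k ∈ FF n) (hl : l ∈ FF n) : k - l ∈ FF (2 * n) := by
  simp only [FF, Finset.mem_Icc] at *
  push_cast
  omega

lemma normSq_U (J : Cell) (h t x : ℝ) : ((‖d.U J t (x + h)‖ ^ 2 : ℝ) : ℂ) =
    ∑ p ∈ FF (2 * d.Kc), d.rho J h t p * ex x p := by
  have e1 : ((‖d.U J t (x + h)‖ ^ 2 : ℝ) : ℂ) = d.U J t (x + h) * conj (d.U J t (x + h)) := by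
    rw [Complex.mul_conj, Complex.normSq_eq_norm_sq]
  rw [e1]
  unfold U rho
  rw [map_sum, Finset.sum_mul_sum, ← Finset.sum_product']
  rw [← Finset.sum_fiberwise_of_maps_to (t := FF (2 * d.Kc)) (g := fun q : ℤ × ℤ => q.1 - q.2)]
  · refine Finset.sum_congr rfl fun p _ => ?_
    rw [Finset.sum_mul]
    refine Finset.sum_congr rfl fun q hq => ?_
    have hq' := (Finset.mem_filter.1 hq).2
    simp only [map_mul, conj_ofReal, conj_ex]
    have : ex (x + h) q.1 * ex (x + h) (-q.2) = ex h p * ex x p := by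
      rw [← ex_add, ← sub_eq_add_neg, hq', ex_add_left, mul_comm]
    linear_combination (phi J q.1 : ℂ) * phi J q.2 * d.b t q.1 * conj (d.b t q.2) * this
  · intro q hq
    have hq' := Finset.mem_product.1 hq
    exact sub_mem_FF hq'.1 hq'.2

lemma rho_zero (J : Cell) (h t : ℝ) : d.rho J h t 0 = d.m J t := by
  unfold rho m
  rw [ofReal_sum]
  symm
  refine Finset.sum_bij (fun k _ => (k, k)) ?_ ?_ ?_ ?_
  · intro k hk
    simp [hk]
  · intro k _ l _ e
    exact (Prod.ext_iff.1 e).1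
  · intro q hq
    have h1 := Finset.mem_product.1 (Finset.mem_filter.1 hq).1
    have h2 := (Finset.mem_filter.1 hq).2
    exact ⟨q.1, h1.1, Prod.ext rfl (by simp only; omega)⟩
  · intro k _
    simp only [ex_zero, mul_one]
    have := Complex.mul_conj (d.b t k)
    rw [Complex.normSq_eq_norm_sq] at this
    push_cast at this ⊢
    linear_combination -(phi J k : ℂ) ^ 2 * this

lemma rho_neg (J : Cell) (h t : ℝ) (p : ℤ) : d.rho J h t (-p) = conj (d.rho J h t p) := by
  unfold rho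
  rw [map_sum]
  refine Finset.sum_bij (fun q _ => (q.2, q.1)) ?_ ?_ ?_ ?_
  · intro q hq
    have h1 := Finset.mem_product.1 (Finset.mem_filter.1 hq).1
    have h2 := (Finset.mem_filter.1 hq).2
    refine Finset.mem_filter.2 ⟨Finset.mem_product.2 ⟨h1.2, h1.1⟩, ?_⟩
    simp only; omega
  · intro q _ q' _ e
    exact Prod.ext (Prod.ext_iff.1 e).2 (Prod.ext_iff.1 e).1
  · intro q hq
    have h1 := Finset.mem_product.1 (Finset.mem_filter.1 hq).1
    have h2 := (Finset.mem_filter.1 hq).2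
    refine ⟨(q.2, q.1), Finset.mem_filter.2 ⟨Finset.mem_product.2 ⟨h1.2, h1.1⟩, ?_⟩, rfl⟩
    simp only; omega
  · intro q _
    simp only [map_mul, conj_ofReal, conj_ex, Complex.conj_conj]
    ring

lemma rho_off (J : Cell) (h t : ℝ) {p : ℤ} (hp : p ∉ FF (2 * d.Kc)) : d.rho J h t p = 0 := by
  unfold rho
  refine Finset.sum_eq_zero fun q hq => ?_
  have h1 := Finset.mem_product.1 (Finset.mem_filter.1 hq).1
  have h2 := (Finset.mem_filter.1 hq).2
  exact absurd (h2 ▸ sub_mem_FF h1.1 h1.2) hp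

lemma cont_U' (J : Cell) (t h : ℝ) : Continuous fun x : ℝ => d.U J t (x + h) :=
  (d.cont_U J).comp (by fun_prop : Continuous fun x : ℝ => (t, x + h))

/-- the average of the windowed density is the windowed mass -/
lemma avg_normSq (J : Cell) (h t : ℝ) :
    (2 * Real.pi)⁻¹ * ∫ x in (0 : ℝ)..(2 * Real.pi), ‖d.U J t (x + h)‖ ^ 2 = d.m J t := by
  apply Complex.ofReal_injective
  rw [ofReal_mul, ofReal_inv, ← intervalIntegral.integral_ofReal]
  simp only [d.normSq_U]
  have := avg_sum (FF (2 * d.Kc)) (d.rho J h t) (fun _ => 1) continuous_const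
  simp only [one_mul] at this
  rw [this]
  simp only [avg_ex, mul_ite, mul_one, mul_zero, Finset.sum_ite_eq', zero_mem_FF, if_true]
  exact d.rho_zero J h t

/-- the Morawetz weight is bounded by the mass -/
lemma theta_le (J : Cell) (h t x : ℝ) :
    ‖∑ p ∈ FF (2 * d.Kc), conj (d.rho J h t p) / (I * p) * ex x (-p)‖ ≤ 13 * d.m J t := by
  have hm := d.m_nonneg J t
  set Z : ℝ := (2 * Real.pi)⁻¹ *
    ∫ y in (0 : ℝ)..(2 * Real.pi), y * ‖d.U J t (y + (x + h))‖ ^ 2 with hZ
  have hc : Continuous fun y : ℝ => ‖d.U J t (y + (x + h))‖ ^ 2 := by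
    have := d.cont_U' J t (x + h)
    fun_prop
  have hZ0 : 0 ≤ Z := by
    refine mul_nonneg (by positivity) (intervalIntegral.integral_nonneg (by positivity) ?_)
    intro y hy
    have := hy.1
    positivity
  have hZ1 : Z ≤ 2 * Real.pi * d.m J t := by
    rw [← d.avg_normSq J (x + h) t, mul_left_comm, hZ]
    refine mul_le_mul_of_nonneg_left ?_ (by positivity)
    rw [← intervalIntegral.integral_const_mul]
    refine intervalIntegral.integral_mono_on (by positivity) ?_ ?_ ?_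
    · exact (continuous_id.mul hc).intervalIntegrable _ _
    · exact (continuous_const.mul hc).intervalIntegrable _ _
    · intro y hy
      exact mul_le_mul_of_nonneg_right hy.2 (by positivity)
  have key : (Z : ℂ) = Real.pi * d.m J t +
      ∑ p ∈ FF (2 * d.Kc), d.rho J h t p / (I * p) * ex x p := by
    rw [hZ, ofReal_mul, ofReal_inv, ← intervalIntegral.integral_ofReal]
    have e : ∀ y : ℝ, ((y * ‖d.U J t (y + (x + h))‖ ^ 2 : ℝ) : ℂ) =
        (y : ℂ) * ∑ p ∈ FF (2 * d.Kc), (d.rho J h t p * ex x p) * ex y p := by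
      intro y
      rw [ofReal_mul, ← add_assoc, d.normSq_U]
      congr 1
      refine Finset.sum_congr rfl fun p _ => ?_
      rw [ex_add_left]; ring
    simp only [e]
    rw [avg_sum _ _ _ Complex.continuous_ofReal]
    simp only [avg_mul_ex]
    have e2 : ∀ p : ℤ, d.rho J h t p * ex x p * (if p = 0 then (Real.pi : ℂ) else 1 / (I * p)) =
        (if p = 0 then (Real.pi : ℂ) * d.m J t else 0) + d.rho J h t p / (I * p) * ex x p := by
      intro p
      split_ifs with hp
      · subst hp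
        simp [ex_zero, d.rho_zero, mul_comm]
      · ring
    simp only [e2, Finset.sum_add_distrib, Finset.sum_ite_eq', zero_mem_FF, if_true]
  have e3 : ∑ p ∈ FF (2 * d.Kc), conj (d.rho J h t p) / (I * p) * ex x (-p) =
      ((Real.pi * d.m J t - Z : ℝ) : ℂ) := by
    have h1 : ∑ p ∈ FF (2 * d.Kc), conj (d.rho J h t p) / (I * p) * ex x (-p) =
        -conj (∑ p ∈ FF (2 * d.Kc), d.rho J h t p / (I * p) * ex x p) := by
      rw [map_sum, ← Finset.sum_neg_distrib]
      refine Finset.sum_congr rfl fun p _ => ?_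
      simp only [map_mul, map_div₀, conj_ex, conj_I, map_intCast]
      rw [neg_mul, div_neg]
      ring
    have h2 : ∑ p ∈ FF (2 * d.Kc), d.rho J h t p / (I * p) * ex x p =
        ((Z - Real.pi * d.m J t : ℝ) : ℂ) := by
      push_cast
      rw [key]; ring
    rw [h1, h2, conj_ofReal]
    push_cast; ring
  rw [e3, Complex.norm_real, Real.norm_eq_abs, abs_le]
  have hpi := Real.pi_le_four
  have hpi0 := Real.pi_pos
  constructor <;> nlinarith

lemma U_sq_le (J : Cell) (t x : ℝ) : ‖d.U J t x‖ ^ 2 ≤ 3 * (mu J : ℝ) * d.m J t := by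
  classical
  have h1 : ‖d.U J t x‖ ≤ ∑ k ∈ FF d.Kc with k ∈ PP J, phi J k * ‖d.b t k‖ := by
    unfold U
    refine (norm_sum_le _ _).trans (le_of_eq ?_)
    rw [Finset.sum_filter]
    refine Finset.sum_congr rfl fun k _ => ?_
    rw [norm_mul, norm_mul, norm_ex, mul_one, Complex.norm_real, Real.norm_eq_abs,
      abs_of_nonneg (phi_nonneg J k)]
    split_ifs with hk
    · rfl
    · rw [phi_off hk, zero_mul]
  have h2 := sq_sum_le_card_mul_sum_sq (s := (FF d.Kc).filter fun k => k ∈ PP J)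
    (f := fun k => phi J k * ‖d.b t k‖)
  have h3 : (((FF d.Kc).filter fun k => k ∈ PP J).card : ℝ) ≤ 3 * (mu J : ℝ) := by
    refine le_trans ?_ (card_PP J)
    exact_mod_cast Finset.card_le_card fun k hk => (Finset.mem_filter.1 hk).2
  have h4 : ∑ k ∈ FF d.Kc with k ∈ PP J, (phi J k * ‖d.b t k‖) ^ 2 ≤ d.m J t := by
    unfold m
    simp only [mul_pow]
    exact Finset.sum_le_sum_of_subset_of_nonneg (Finset.filter_subset _ _)
      fun _ _ _ => by positivity
  calc ‖d.U J t x‖ ^ 2 ≤ (∑ k ∈ FF d.Kc with k ∈ PP J, phi J k * ‖d.b t k‖) ^ 2 :=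
        pow_le_pow_left₀ (norm_nonneg _) h1 2
    _ ≤ _ := h2
    _ ≤ 3 * (mu J : ℝ) * d.m J t :=
        mul_le_mul h3 h4 (Finset.sum_nonneg fun _ _ => by positivity)
          (by have := mu_pos J; positivity)

/-- space time average -/
noncomputable def L (f : ℝ → ℝ → ℝ) : ℝ :=
  ∫ t in (0 : ℝ)..d.T, (2 * Real.pi)⁻¹ * ∫ x in (0 : ℝ)..(2 * Real.pi), f t x

lemma cont_inner {E : Type} [NormedAddCommGroup E] [NormedSpace ℝ E] {f : ℝ → ℝ → E}
    (hf : Continuous fun q : ℝ × ℝ => f q.1 q.2) :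
    Continuous fun t => ∫ x in (0 : ℝ)..(2 * Real.pi), f t x :=
  intervalIntegral.continuous_parametric_intervalIntegral_of_continuous' (f := f) hf _ _

lemma cont_slice {E : Type} [TopologicalSpace E] {f : ℝ → ℝ → E}
    (hf : Continuous fun q : ℝ × ℝ => f q.1 q.2) (t : ℝ) : Continuous (f t) :=
  hf.comp (by fun_prop : Continuous fun x : ℝ => (t, x))

lemma L_mono {f g : ℝ → ℝ → ℝ} (hf : Continuous fun q : ℝ × ℝ => f q.1 q.2)
    (hg : Continuous fun q : ℝ × ℝ => g q.1 q.2)
    (h : ∀ t ∈ Set.Icc 0 d.T, ∀ x, f t x ≤ g t x) : d.L f ≤ d.L g := by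
  unfold L
  refine intervalIntegral.integral_mono_on d.hT
    ((continuous_const.mul (cont_inner hf)).intervalIntegrable _ _)
    ((continuous_const.mul (cont_inner hg)).intervalIntegrable _ _) fun t ht => ?_
  refine mul_le_mul_of_nonneg_left ?_ (by positivity)
  exact intervalIntegral.integral_mono_on (by positivity)
    ((cont_slice hf t).intervalIntegrable _ _) ((cont_slice hg t).intervalIntegrable _ _)
    fun x _ => h t ht x

lemma L_nonneg {f : ℝ → ℝ → ℝ} (h : ∀ t x, 0 ≤ f t x) : 0 ≤ d.L f :=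
  intervalIntegral.integral_nonneg d.hT fun t _ => mul_nonneg (by positivity)
    (intervalIntegral.integral_nonneg (by positivity) fun x _ => h t x)

lemma L_add {f g : ℝ → ℝ → ℝ} (hf : Continuous fun q : ℝ × ℝ => f q.1 q.2)
    (hg : Continuous fun q : ℝ × ℝ => g q.1 q.2) :
    d.L (fun t x => f t x + g t x) = d.L f + d.L g := by
  unfold L
  have h1 : Continuous fun t => (2 * Real.pi)⁻¹ * ∫ x in (0 : ℝ)..(2 * Real.pi), f t x :=
    continuous_const.mul (cont_inner hf)
  have h2 : Continuous fun t => (2 * Real.pi)⁻¹ * ∫ x in (0 : ℝ)..(2 * Real.pi), g t x :=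
    continuous_const.mul (cont_inner hg)
  rw [← intervalIntegral.integral_add (h1.intervalIntegrable _ _) (h2.intervalIntegrable _ _)]
  congr 1
  ext t
  rw [intervalIntegral.integral_add ((cont_slice hf t).intervalIntegrable _ _)
    ((cont_slice hg t).intervalIntegrable _ _)]
  ring

lemma L_smul (c : ℝ) (f : ℝ → ℝ → ℝ) : d.L (fun t x => c * f t x) = c * d.L f := by
  unfold L
  rw [← intervalIntegral.integral_const_mul]
  congr 1
  ext t
  rw [intervalIntegral.integral_const_mul]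
  ring

/-- Cauchy-Schwarz in space time -/
lemma L_cs {f g : ℝ → ℝ → ℝ} (hf : Continuous fun q : ℝ × ℝ => f q.1 q.2)
    (hg : Continuous fun q : ℝ × ℝ => g q.1 q.2) :
    d.L (fun t x => f t x * g t x) ≤
      √(d.L fun t x => f t x ^ 2) * √(d.L fun t x => g t x ^ 2) := by
  have hF : 0 ≤ d.L fun t x => f t x ^ 2 := d.L_nonneg fun _ _ => by positivity
  have h : ∀ s : ℝ, 0 ≤ (d.L fun t x => f t x ^ 2) * (s * s) +
      (2 * d.L fun t x => f t x * g t x) * s + d.L fun t x => g t x ^ 2 := by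
    intro s
    have h0 : 0 ≤ d.L fun t x => (s * s) * f t x ^ 2 + (2 * s) * (f t x * g t x) + g t x ^ 2 :=
      d.L_nonneg fun t x => by nlinarith [sq_nonneg (s * f t x + g t x)]
    rw [d.L_add (f := fun t x => (s * s) * f t x ^ 2 + (2 * s) * (f t x * g t x))
      (by fun_prop) (by fun_prop),
      d.L_add (f := fun t x => (s * s) * f t x ^ 2) (by fun_prop) (by fun_prop),
      d.L_smul, d.L_smul] at h0
    linarith
  have h2 := discrim_le_zero h
  unfold discrim at h2
  rw [← Real.sqrt_mul hF]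
  exact Real.le_sqrt_of_sq_le (by nlinarith)

lemma Y_eq (J J' : Cell) (h h' : ℝ) : d.Y J J' h h' =
    d.L fun t x => ‖d.U J t (x + h)‖ ^ 2 * ‖d.U J' t (x + h')‖ ^ 2 := rfl

lemma cont_Ush (J : Cell) (h : ℝ) : Continuous fun q : ℝ × ℝ => d.U J q.1 (q.2 + h) :=
  (d.cont_U J).comp (by fun_prop : Continuous fun q : ℝ × ℝ => (q.1, q.2 + h))

lemma Y_nonneg (J J' : Cell) (h h' : ℝ) : 0 ≤ d.Y J J' h h' :=
  d.L_nonneg fun _ _ => by positivity

lemma Y_le (J J' : Cell) (h h' : ℝ) :
    d.Y J J' h h' ≤ ∫ t in (0 : ℝ)..d.T, 3 * (mu J : ℝ) * d.m J t * d.m J' t := by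
  have h1 := d.cont_Ush J h
  have h2 := d.cont_Ush J' h'
  have h3 := (d.cont_m J).comp (continuous_fst : Continuous fun q : ℝ × ℝ => q.1)
  rw [Y_eq]
  refine (d.L_mono (g := fun t x => 3 * (mu J : ℝ) * d.m J t * ‖d.U J' t (x + h')‖ ^ 2)
    (by fun_prop) ((continuous_const.mul h3).mul (by fun_prop)) fun t _ x =>
      mul_le_mul_of_nonneg_right (d.U_sq_le J t _) (by positivity)).trans (le_of_eq ?_)
  unfold L
  congr 1
  ext t
  rw [intervalIntegral.integral_const_mul, ← d.avg_normSq J' h' t]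
  ring

lemma Y_le_X (J J' : Cell) (h h' : ℝ) : d.Y J J' h h' ≤ d.X J J' :=
  le_ciSup (f := fun p : ℝ × ℝ => d.Y J J' p.1 p.2)
    ⟨_, by rintro _ ⟨p, rfl⟩; exact d.Y_le J J' p.1 p.2⟩ (h, h')

lemma X_nonneg (J J' : Cell) : 0 ≤ d.X J J' := (d.Y_nonneg J J' 0 0).trans (d.Y_le_X J J' 0 0)

lemma X_le {J J' : Cell} {A : ℝ} (h : ∀ h h', d.Y J J' h h' ≤ A) : d.X J J' ≤ A :=
  ciSup_le fun p => h p.1 p.2

lemma Y_symm (J J' : Cell) (h h' : ℝ) : d.Y J J' h h' = d.Y J' J h' h := by
  simp only [Y_eq, mul_comm]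

lemma X_symm (J J' : Cell) : d.X J J' = d.X J' J :=
  le_antisymm (d.X_le fun h h' => d.Y_symm J J' h h' ▸ d.Y_le_X J' J h' h)
    (d.X_le fun h h' => d.Y_symm J' J h h' ▸ d.Y_le_X J J' h' h)

lemma X_triv (J J' : Cell) {G : ℝ} (hG : ∀ t ∈ Set.Icc 0 d.T, d.m J' t ≤ G) :
    d.X J J' ≤ 3 * (mu J : ℝ) * d.im J * G := by
  refine d.X_le fun h h' => (d.Y_le J J' h h').trans ?_
  have h1 := d.cont_m J
  have h2 := d.cont_m J'
  have e : 3 * (mu J : ℝ) * d.im J * G = ∫ t in (0 : ℝ)..d.T, 3 * (mu J : ℝ) * d.m J t * G := by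
    unfold im
    rw [intervalIntegral.integral_mul_const, intervalIntegral.integral_const_mul]
  rw [e]
  refine intervalIntegral.integral_mono_on d.hT
    ((by fun_prop : Continuous fun t => 3 * (mu J : ℝ) * d.m J t * d.m J' t).intervalIntegrable _ _)
    ((by fun_prop : Continuous fun t => 3 * (mu J : ℝ) * d.m J t * G).intervalIntegrable _ _)
    fun t ht => ?_
  have := mu_pos J
  have := d.m_nonneg J t
  exact mul_le_mul_of_nonneg_left (hG t ht) (by positivity)

end Dat

end Pool.Agent.Lib.MMTW
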