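import Pool.Agent.Lib.MP_0dc93f_an.WDefA
import Pool.Agent.Lib.MP_0dc93f_an.WFlux
import Pool.Agent.Lib.MMT.Ode

/-! Galerkin solutions: existence, conservation laws, time reversal. -/

namespace Pool.Agent.Lib.MMTW.Gl

open Finset Complex ComplexConjugate Filter Topology

noncomputable section

lemma br_one (k : ℤ) : 1 ≤ br k := by unfold br; linarith [abs_nonneg (k : ℝ)]

lemma br_pos (k : ℤ) : 0 < br k := lt_of_lt_of_le one_pos (br_one k)

lemma om_nonneg (α : ℝ) (k : ℤ) : 0 ≤ om α k := Real.rpow_nonneg (abs_nonneg _) _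

/-- the quartic form -/
def Q4 (F : Finset ℤ) (a b c d : ℤ → ℂ) : ℂ :=
  ∑ k ∈ F, ∑ l ∈ F, ∑ m ∈ F, ∑ n ∈ F,
    if k - l + m = n then a k * conj (b l) * c m * conj (d n) else 0

lemma sum3_rev {M : Type} [AddCommMonoid M] (F : Finset ℤ) (f : ℤ → ℤ → ℤ → M) :
    ∑ k ∈ F, ∑ l ∈ F, ∑ m ∈ F, f k l m = ∑ m ∈ F, ∑ l ∈ F, ∑ k ∈ F, f k l m := by
  calc _ = ∑ l ∈ F, ∑ k ∈ F, ∑ m ∈ F, f k l m := sum_comm
    _ = ∑ l ∈ F, ∑ m ∈ F, ∑ k ∈ F, f k l m := sum_congr rfl fun _ _ => sum_comm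
    _ = _ := sum_comm

lemma NL_eq (Kc : ℕ) (a : ℤ → ℂ) (n : ℤ) : NL Kc a n = ∑ k ∈ FF Kc, ∑ l ∈ FF Kc, ∑ m ∈ FF Kc,
    if k - l + m = n then a k * conj (a l) * a m else 0 := by
  rw [NL, sum_filter, sum_product]
  simp only [sum_product]

lemma Q4_NL (Kc : ℕ) (a d : ℤ → ℂ) :
    ∑ n ∈ FF Kc, NL Kc a n * conj (d n) = Q4 (FF Kc) a a a d := by
  simp only [NL_eq, sum_mul, Q4, ite_mul, zero_mul]
  rw [sum_comm]
  refine sum_congr rfl fun k _ => ?_
  rw [sum_comm]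
  exact sum_congr rfl fun l _ => sum_comm

lemma Q4_13 (F : Finset ℤ) (a b c d : ℤ → ℂ) : Q4 F a b c d = Q4 F c b a d := by
  unfold Q4
  rw [sum3_rev]
  refine sum_congr rfl fun k _ => sum_congr rfl fun l _ => sum_congr rfl fun m _ =>
    sum_congr rfl fun n _ => ?_
  exact if_congr (by omega) (by ring) rfl

lemma Q4_24 (F : Finset ℤ) (a b c d : ℤ → ℂ) : Q4 F a b c d = Q4 F a d c b := by
  unfold Q4
  refine sum_congr rfl fun k _ => ?_
  rw [sum3_rev]
  refine sum_congr rfl fun l _ => sum_congr rfl fun m _ => sum_congr rfl fun n _ => ?_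
  exact if_congr (by omega) (by ring) rfl

lemma Q4_conj (F : Finset ℤ) (a b c d : ℤ → ℂ) : conj (Q4 F a b c d) = Q4 F b a d c := by
  unfold Q4
  simp only [map_sum]
  rw [sum_comm]
  refine sum_congr rfl fun k _ => sum_congr rfl fun l _ => ?_
  rw [sum_comm]
  refine sum_congr rfl fun m _ => sum_congr rfl fun n _ => ?_
  rw [apply_ite conj, map_zero]
  exact if_congr (by omega) (by simp only [map_mul, conj_conj]; ring) rfl

lemma Q4_im (F : Finset ℤ) (a : ℤ → ℂ) : (Q4 F a a a a).im = 0 :=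
  Complex.conj_eq_iff_im.1 (Q4_conj F a a a a)

lemma Q4_nonneg (Kc : ℕ) (a : ℤ → ℂ) : 0 ≤ (Q4 (FF Kc) a a a a).re := by
  set S : ℤ → ℂ := fun p => ∑ k ∈ FF Kc, ∑ m ∈ FF Kc, if k + m = p then a k * a m else 0 with hS
  have : Q4 (FF Kc) a a a a = ∑ p ∈ FF (2 * Kc), S p * conj (S p) := by
    simp only [hS, map_sum, sum_mul, mul_sum, apply_ite conj, map_zero, map_mul]
    rw [sum_comm, Q4, sum_comm]
    refine sum_congr rfl fun l _ => ?_
    rw [sum3_rev, sum_comm (s := FF (2 * Kc))]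
    refine sum_congr rfl fun n _ => ?_
    rw [sum_comm, sum_comm (s := FF (2 * Kc))]
    refine sum_congr rfl fun k hk => ?_
    rw [sum_comm (s := FF (2 * Kc))]
    refine sum_congr rfl fun m hm => ?_
    have hp : k + m ∈ FF (2 * Kc) := by
      simp only [FF, mem_Icc] at hk hm ⊢
      push_cast
      omega
    simp only [ite_mul, zero_mul, mul_ite, mul_zero]
    rw [sum_eq_single_of_mem (k + m) hp fun p _ hne => by simp [hne.symm]]
    simp only [if_true]
    exact if_congr (by omega) (by ring) rfl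
  rw [this, re_sum]
  exact sum_nonneg fun p _ => by rw [mul_conj]; simpa using normSq_nonneg _

lemma Q4_deriv {F : Finset ℤ} {b : ℝ → ℤ → ℂ} {b' : ℤ → ℂ} {t : ℝ}
    (h : ∀ k ∈ F, HasDerivAt (fun s => b s k) (b' k) t) :
    HasDerivAt (fun s => (Q4 F (b s) (b s) (b s) (b s)).re)
      (4 * (Q4 F (b t) (b t) (b t) b').re) t := by
  have h1 : HasDerivAt (fun s => Q4 F (b s) (b s) (b s) (b s))
      (Q4 F b' (b t) (b t) (b t) + Q4 F (b t) b' (b t) (b t) + Q4 F (b t) (b t) b' (b t) +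
        Q4 F (b t) (b t) (b t) b') t := by
    unfold Q4
    simp only [← sum_add_distrib]
    refine HasDerivAt.fun_sum fun k hk => HasDerivAt.fun_sum fun l hl =>
      HasDerivAt.fun_sum fun m hm => HasDerivAt.fun_sum fun n hn => ?_
    split_ifs
    · have hl' : HasDerivAt (fun s => conj (b s l)) (conj (b' l)) t := (h l hl).star
      have hn' : HasDerivAt (fun s => conj (b s n)) (conj (b' n)) t := (h n hn).star
      exact ((((h k hk).mul hl').mul (h m hm)).mul hn').congr_deriv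
        (by simp only [Pi.mul_apply]; ring)
    · simpa using hasDerivAt_const t (0 : ℂ)
  have h2 := Complex.reCLM.hasFDerivAt.comp_hasDerivAt t h1
  refine h2.congr_deriv ?_
  rw [Q4_13 F (b t) (b t) b' (b t), ← Q4_conj F (b t) b' (b t) (b t),
    Q4_24 F (b t) b' (b t) (b t)]
  simp only [reCLM_apply, add_re, conj_re]
  ring

lemma nsq_deriv {z : ℝ → ℂ} {z' : ℂ} {t : ℝ} (h : HasDerivAt z z' t) :
    HasDerivAt (fun s => ‖z s‖ ^ 2) (2 * (z' * conj (z t)).re) t := by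
  have h1 : HasDerivAt (fun s => conj (z s)) (conj z') t := h.star
  have h2 := Complex.reCLM.hasFDerivAt.comp_hasDerivAt t (h.mul h1)
  have e : (fun s => ‖z s‖ ^ 2) = reCLM ∘ (z * fun s => conj (z s)) := by
    ext s
    simp only [Function.comp, Pi.mul_apply, reCLM_apply, Complex.mul_conj', ← ofReal_pow, ofReal_re]
  rw [e]
  refine h2.congr_deriv ?_
  simp only [reCLM_apply, add_re, mul_re, conj_re, conj_im]
  ring

lemma mass_deriv {α : ℝ} {Kc : ℕ} {b : ℝ → ℤ → ℂ} {t χ : ℝ}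
    (h : ∀ k ∈ FF Kc, HasDerivAt (fun s => b s k)
      (χ * (-I * (om α k * b t k + NL Kc (b t) k))) t) :
    HasDerivAt (fun s => ∑ k ∈ FF Kc, ‖b s k‖ ^ 2) 0 t := by
  refine (HasDerivAt.fun_sum fun k hk => nsq_deriv (h k hk)).congr_deriv ?_
  have := Q4_im (FF Kc) (b t)
  rw [← Q4_NL, im_sum] at this
  calc _ = ∑ k ∈ FF Kc, 2 * χ * (NL Kc (b t) k * conj (b t k)).im := by
        refine sum_congr rfl fun k _ => ?_
        simp only [mul_re, mul_im, add_re, add_im, neg_re, neg_im, I_re, I_im, ofReal_re,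
          ofReal_im, conj_re, conj_im]
        ring
    _ = 0 := by rw [← mul_sum, this, mul_zero]

lemma const_of {f : ℝ → ℝ} (h : ∀ t, HasDerivAt f 0 t) (t : ℝ) : f t = f 0 :=
  is_const_of_deriv_eq_zero (fun s => (h s).differentiableAt) (fun s => (h s).deriv) t 0

variable {α : ℝ} {Kc : ℕ} {b : ℝ → ℤ → ℂ}

lemma mass_eq (h : Gal α Kc b) (t : ℝ) :
    ∑ k ∈ FF Kc, ‖b t k‖ ^ 2 = ∑ k ∈ FF Kc, ‖b 0 k‖ ^ 2 :=
  const_of (f := fun s => ∑ k ∈ FF Kc, ‖b s k‖ ^ 2)
    (fun s => mass_deriv (α := α) (χ := 1) fun k hk => by simpa using h s k hk) t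

lemma energy_eq (h : Gal α Kc b) (t : ℝ) :
    ∑ k ∈ FF Kc, om α k * ‖b t k‖ ^ 2 + 1 / 2 * (Q4 (FF Kc) (b t) (b t) (b t) (b t)).re =
      ∑ k ∈ FF Kc, om α k * ‖b 0 k‖ ^ 2 + 1 / 2 * (Q4 (FF Kc) (b 0) (b 0) (b 0) (b 0)).re := by
  refine const_of (f := fun s => ∑ k ∈ FF Kc, om α k * ‖b s k‖ ^ 2 +
    1 / 2 * (Q4 (FF Kc) (b s) (b s) (b s) (b s)).re) (fun s => ?_) t
  refine ((HasDerivAt.fun_sum fun k hk => (nsq_deriv (h s k hk)).const_mul (om α k)).add
    ((Q4_deriv (h s)).const_mul (1 / 2))).congr_deriv ?_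
  rw [← Q4_NL, re_sum, mul_sum, mul_sum, ← sum_add_distrib]
  refine sum_eq_zero fun k _ => ?_
  simp only [mul_re, mul_im, add_re, add_im, neg_re, neg_im, I_re, I_im, ofReal_re,
    ofReal_im, conj_re, conj_im]
  ring

lemma NL_conj (Kc : ℕ) (a : ℤ → ℂ) (k : ℤ) :
    NL Kc (fun j => conj (a j)) k = conj (NL Kc a k) := by
  simp only [NL, map_sum, map_mul]

lemma gal_rev (h : Gal α Kc b) : Gal α Kc fun t k => conj (b (-t) k) := by
  intro t k hk
  have h1 := (h (-t) k hk).scomp t (hasDerivAt_neg t)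
  have h2 : HasDerivAt (fun s => conj (b (-s) k)) _ t := h1.star
  refine h2.congr_deriv ?_
  rw [NL_conj]
  simp

lemma cont (h : Gal α Kc b) {k : ℤ} (hk : k ∈ FF Kc) : Continuous fun t => b t k :=
  MMT.cont_of_deriv fun t => h t k hk

lemma cont_NL (h : Gal α Kc b) (k : ℤ) : Continuous fun t => NL Kc (b t) k := by
  unfold NL
  refine continuous_finsetSum _ fun p hp => ?_
  simp only [mem_filter, mem_product] at hp
  exact ((cont h hp.1.1).mul (continuous_conj.comp (cont h hp.1.2.1))).mul (cont h hp.1.2.2)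

/-- extension by zero -/
def ext0 (Kc : ℕ) (u : FF Kc → ℂ) (k : ℤ) : ℂ := if h : k ∈ FF Kc then u ⟨k, h⟩ else 0

lemma ext0_smooth (Kc : ℕ) (k : ℤ) : ContDiff ℝ 1 fun u : FF Kc → ℂ => ext0 Kc u k := by
  unfold ext0
  split_ifs
  · exact contDiff_apply ℝ ℂ _
  · exact contDiff_const

theorem exists_gal (α : ℝ) (Kc : ℕ) (c : ℤ → ℂ) : ∃ b : ℝ → ℤ → ℂ, Gal α Kc b ∧
    (∀ t k, k ∉ FF Kc → b t k = 0) ∧ ∀ k ∈ FF Kc, b 0 k = c k := by
  set M : ℝ := ∑ k ∈ FF Kc, ‖c k‖ ^ 2 with hM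
  set ms : (FF Kc → ℂ) → ℝ := fun u => ∑ k ∈ FF Kc, ‖ext0 Kc u k‖ ^ 2 with hms
  set χ : (FF Kc → ℂ) → ℝ := fun u => Real.smoothTransition (M + 1 - ms u) with hχ
  set F : (FF Kc → ℂ) → FF Kc → ℂ := fun u k =>
    χ u * (-I * (om α k * ext0 Kc u k + NL Kc (ext0 Kc u) k)) with hF
  have cj : ∀ k, ContDiff ℝ 1 fun u : FF Kc → ℂ => conj (ext0 Kc u k) := fun k =>
    conjCLE.contDiff.comp (ext0_smooth Kc k)
  have c1 : ContDiff ℝ 1 ms := ContDiff.sum fun k _ => (ext0_smooth Kc k).norm_sq ℂ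
  have c2 : ContDiff ℝ 1 χ := Real.smoothTransition.contDiff.comp (contDiff_const.sub c1)
  have c3 : ContDiff ℝ 1 F := by
    refine contDiff_pi.2 fun k => (ofRealCLM.contDiff.comp c2).mul (contDiff_const.mul
      ((contDiff_const.mul (ext0_smooth Kc k)).add ?_))
    exact ContDiff.sum fun p _ => ((ext0_smooth Kc _).mul (cj _)).mul (ext0_smooth Kc _)
  have hL : MMT.LipB F := fun R =>
    c3.contDiffOn.exists_lipschitzOnWith one_ne_zero (convex_closedBall _ _)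
      (isCompact_closedBall _ _)
  have hM0 : 0 ≤ M := sum_nonneg fun _ _ => by positivity
  obtain ⟨B, hB⟩ := (isCompact_closedBall (0 : FF Kc → ℂ) (M + 2)).exists_bound_of_continuousOn
    c3.continuous.continuousOn
  have hB' : ∀ u, ‖F u‖ ≤ B := by
    intro u
    by_cases hu : ms u ≤ M + 1
    · refine hB u (mem_closedBall_zero_iff.2 ((pi_norm_le_iff_of_nonneg (by linarith)).2
        fun k => ?_))
      have h1 : ‖ext0 Kc u k‖ ^ 2 ≤ ms u :=
        single_le_sum (f := fun k => ‖ext0 Kc u k‖ ^ 2) (fun _ _ => by positivity) k.2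
      have h2 : ext0 Kc u k = u k := by simp [ext0, k.2]
      rw [h2] at h1
      nlinarith [sq_nonneg (‖u k‖ - 1)]
    · have : F u = 0 := by
        ext k
        simp [hF, hχ, Real.smoothTransition.zero_of_nonpos (by linarith : M + 1 - ms u ≤ 0)]
      rw [this, norm_zero]
      exact (norm_nonneg _).trans (hB 0 (Metric.mem_closedBall_self (by linarith)))
  obtain ⟨x, hx0, hx⟩ := MMT.exists_global_of_bounded hL hB' fun k => c k
  have hd : ∀ t, ∀ k ∈ FF Kc, HasDerivAt (fun s => ext0 Kc (x s) k)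
      (χ (x t) * (-I * (om α k * ext0 Kc (x t) k + NL Kc (ext0 Kc (x t)) k))) t := by
    intro t k hk
    have := (hasDerivAt_pi.1 (hx t)) ⟨k, hk⟩
    simpa only [ext0, dif_pos hk, hF] using this
  have h0 : ∀ k ∈ FF Kc, ext0 Kc (x 0) k = c k := fun k hk => by simp [ext0, hk, hx0]
  have hm : ∀ t, ms (x t) = M := fun t =>
    (const_of (f := fun s => ∑ k ∈ FF Kc, ‖ext0 Kc (x s) k‖ ^ 2)
      (fun s => mass_deriv (b := fun s => ext0 Kc (x s)) (hd s)) t).trans
      (sum_congr rfl fun k hk => by rw [h0 k hk])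
  refine ⟨fun t => ext0 Kc (x t), fun t k hk => ?_, fun t k hk => by simp [ext0, hk], h0⟩
  have := hd t k hk
  rwa [show χ (x t) = 1 by
    simp only [hχ, hm]; exact Real.smoothTransition.one_of_one_le (by linarith), ofReal_one,
    one_mul] at this

end

end Pool.Agent.Lib.MMTW.Gl
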