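import Pool.Agent.Lib.MP_0dc93f_an.WAn

/-! Whitney decomposition of frequency quadruples. -/

namespace Pool.Agent.Lib.MMTW

open Finset

noncomputable section

/-- level of the unit that contains `k` -/
def ulev (K l : ℕ) (k : ℤ) : ℕ := Nat.findGreatest (fun j => (K : ℤ) ≤ |k / 2 ^ j|) l

/-- the unit that contains `k` -/
def unit (K l : ℕ) (k : ℤ) : Cell := (ulev K l k, k / 2 ^ ulev K l k)

/-- the four frequencies are close at level `l` -/
abbrev close (K l : ℕ) (k : Fin 4 → ℤ) : Prop := ∀ i j, k i / 2 ^ l - k j / 2 ^ l ≤ K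

/-- Whitney level of a quadruple -/
def tlev (K Kc : ℕ) (k : Fin 4 → ℤ) : ℕ := Nat.findGreatest (fun l => ¬ close K l k) Kc

/-- types of quadruples -/
abbrev Ty := ℕ × (Fin 4 → Cell)

/-- the type of a quadruple -/
def ty (K Kc : ℕ) (k : Fin 4 → ℤ) : Ty := (tlev K Kc k, fun i => unit K (tlev K Kc k) (k i))

/-- the types that occur -/
def TT (K Kc : ℕ) : Finset Ty := (F4 Kc).image (ty K Kc)

/-- admissible cells -/
def AA (K Kc : ℕ) : Finset Cell :=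
  (range (Kc + 1) ×ˢ Icc (-(2 * Kc : ℤ)) (2 * Kc)).filter fun J =>
    (J.1 = 0 ∨ (K : ℤ) ≤ |J.2|) ∧ |cc J| ≤ 2 * Kc

/-- geometry of the types that occur -/
structure Good (K Kc : ℕ) (τ : Ty) : Prop where
  mem : ∀ i, τ.2 i ∈ AA K Kc
  lev : ∀ i, (τ.2 i).1 ≤ τ.1
  shell : ∀ i, (τ.2 i).1 < τ.1 → |(τ.2 i).2| ≤ 2 * K
  near : ∀ i j, cc (τ.2 i) - cc (τ.2 j) ≤ (2 * K + 2) * 2 ^ τ.1
  far : 0 < τ.1 → ∃ i j, K * 2 ^ τ.1 ≤ cc (τ.2 i) - cc (τ.2 j)

lemma mem_FF {Kc : ℕ} {k : ℤ} : k ∈ FF Kc ↔ |k| ≤ Kc := by simp [FF, abs_le]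

lemma mem_F4 {Kc : ℕ} {k : Fin 4 → ℤ} : k ∈ F4 Kc ↔ ∀ i, k i ∈ FF Kc := by simp [F4]

lemma mem_cell {J : Cell} {k : ℤ} : k ∈ cell J ↔ cc J ≤ k ∧ k < cc J + mu J := by simp [cell]

lemma mem_PP {J : Cell} {k : ℤ} : k ∈ PP J ↔ cc J - mu J < k ∧ k < cc J + 2 * mu J := by simp [PP]

lemma mem_cell' {J : Cell} {k : ℤ} : k ∈ cell J ↔ k / 2 ^ J.1 = J.2 := by
  rw [mem_cell, cc, mu, Int.ediv_eq_iff_of_pos (by positivity)]

lemma div_pow_add (k : ℤ) (a b : ℕ) : k / 2 ^ (a + b) = k / 2 ^ a / 2 ^ b := by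
  rw [pow_add, Int.ediv_ediv_of_nonneg (by positivity)]

lemma div_eq_of_le {k k' : ℤ} {a b : ℕ} (h : k / 2 ^ a = k' / 2 ^ a) (hab : a ≤ b) :
    k / 2 ^ b = k' / 2 ^ b := by
  obtain ⟨c, rfl⟩ := Nat.exists_eq_add_of_le hab
  rw [div_pow_add, div_pow_add, h]

lemma fg_congr {P P' : ℕ → Prop} [DecidablePred P] [DecidablePred P'] {n : ℕ}
    (h : ∀ i, Nat.findGreatest P n ≤ i → (P i ↔ P' i)) :
    Nat.findGreatest P' n = Nat.findGreatest P n := by
  have h1 := (Nat.findGreatest_eq_iff (P := P) (k := n)).1 rfl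
  rw [Nat.findGreatest_eq_iff]
  exact ⟨h1.1, fun h0 => (h _ le_rfl).1 (h1.2.1 h0),
    fun i hi hi' hp => h1.2.2 hi hi' ((h i hi.le).2 hp)⟩

lemma ulev_le (K l : ℕ) (k : ℤ) : ulev K l k ≤ l := by
  unfold ulev; exact Nat.findGreatest_le _

lemma mem_unit (K l : ℕ) (k : ℤ) : k ∈ cell (unit K l k) := mem_cell'.2 rfl

lemma unit_eq {K l : ℕ} {k k' : ℤ} (h : k' ∈ cell (unit K l k)) : unit K l k' = unit K l k := by
  have h1 : k' / 2 ^ ulev K l k = k / 2 ^ ulev K l k := mem_cell'.1 h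
  have h2 : ulev K l k' = ulev K l k := by
    unfold ulev at h1 ⊢
    exact fg_congr fun i hi => by rw [div_eq_of_le h1 hi]
  rw [unit, unit, h2, h1]

lemma ty_eq {K Kc : ℕ} {k k' : Fin 4 → ℤ} (h : ∀ i, k' i ∈ cell ((ty K Kc k).2 i)) :
    ty K Kc k' = ty K Kc k := by
  have h1 : ∀ i, k' i / 2 ^ tlev K Kc k = k i / 2 ^ tlev K Kc k := fun i =>
    div_eq_of_le (mem_cell'.1 (h i)) (ulev_le _ _ _)
  have h2 : tlev K Kc k' = tlev K Kc k := by
    unfold tlev at h1 ⊢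
    exact fg_congr fun l hl => by simp only [close, fun i => div_eq_of_le (h1 i) hl]
  refine Prod.ext h2 (funext fun i => ?_)
  simp only [ty, h2]
  exact unit_eq (h i)

lemma sum_types {M : Type} [AddCommMonoid M] (K Kc : ℕ) (f : (Fin 4 → ℤ) → M) :
    ∑ k ∈ F4 Kc, f k =
      ∑ τ ∈ TT K Kc, ∑ k ∈ (F4 Kc).filter fun k => ∀ i, k i ∈ cell (τ.2 i), f k := by
  rw [← sum_fiberwise_of_maps_to (g := ty K Kc) (t := TT K Kc) fun k hk => mem_image_of_mem _ hk]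
  refine sum_congr rfl fun τ hτ => sum_congr ?_ fun _ _ => rfl
  obtain ⟨k0, -, rfl⟩ := mem_image.1 hτ
  refine filter_congr fun k _ => ⟨fun h i => ?_, ty_eq⟩
  rw [← h]; exact mem_unit _ _ _

lemma cc_le {k : ℤ} {a b : ℕ} (h : a ≤ b) : k / 2 ^ b * 2 ^ b ≤ k / 2 ^ a * 2 ^ a := by
  obtain ⟨c, rfl⟩ := Nat.exists_eq_add_of_le h
  rw [div_pow_add, pow_add, mul_comm (2 ^ a), ← mul_assoc]
  exact mul_le_mul_of_nonneg_right (Int.ediv_mul_le _ (by positivity)) (by positivity)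

lemma lt_cc (k : ℤ) (a : ℕ) : k < (k / 2 ^ a + 1) * 2 ^ a :=
  Int.lt_ediv_add_one_mul_self _ (by positivity)

lemma abs_le_cc (J : Cell) : |J.2| ≤ |cc J| := by
  rw [cc, abs_mul]
  exact le_mul_of_one_le_right (abs_nonneg _) (by rw [abs_of_pos (by positivity)]; bound)

lemma abs_cc (J : Cell) : |cc J| = |J.2| * mu J := by
  rw [cc, mu, abs_mul, abs_of_pos (by positivity : (0 : ℤ) < 2 ^ J.1)]

lemma unit_adm (K l : ℕ) (k : ℤ) : (unit K l k).1 = 0 ∨ (K : ℤ) ≤ |(unit K l k).2| := by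
  by_cases h : ulev K l k = 0
  · exact .inl h
  · exact .inr (((Nat.findGreatest_eq_iff).1 (rfl : ulev K l k = _)).2.1 h)

lemma good_ty {K Kc : ℕ} (hK : 2 ≤ K) {τ : Ty} (hτ : τ ∈ TT K Kc) : Good K Kc τ := by
  obtain ⟨k, hk, rfl⟩ := mem_image.1 hτ
  have hk' : ∀ i, |k i| ≤ Kc := fun i => mem_FF.1 (mem_F4.1 hk i)
  have hl : tlev K Kc k ≤ Kc := by unfold tlev; exact Nat.findGreatest_le _
  have hK' : (2 : ℤ) ≤ K := by exact_mod_cast hK
  have sp := (Nat.findGreatest_eq_iff (P := fun l => ¬ close K l k)).1 (rfl : tlev K Kc k = _)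
  have lo : ∀ i l, tlev K Kc k ≤ l → k i / 2 ^ l * 2 ^ l ≤ cc ((ty K Kc k).2 i) := fun i l h =>
    cc_le ((ulev_le _ _ _).trans h)
  have hi : ∀ i, cc ((ty K Kc k).2 i) ≤ k i := fun i => (mem_cell.1 (mem_unit _ _ _)).1
  refine ⟨fun i => ?_, fun i => ulev_le _ _ _, fun i h => ?_, fun i j => ?_, fun h => ?_⟩
  · have h1 : |cc ((ty K Kc k).2 i)| ≤ 2 * Kc := by
      have h2 := mem_cell.1 (mem_unit K (tlev K Kc k) (k i))
      have h3 := hk' i
      have h4 := abs_cc ((ty K Kc k).2 i)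
      have h5 := mu_pos ((ty K Kc k).2 i)
      simp only [ty] at h4 h5 ⊢
      rcases unit_adm K (tlev K Kc k) (k i) with h | h
      · rw [mu, h] at h2; clear h4; simp only [abs_eq_max_neg] at h3 ⊢; omega
      · have : 2 * mu (unit K (tlev K Kc k) (k i)) ≤ |cc (unit K (tlev K Kc k) (k i))| := by
          rw [h4]; nlinarith
        clear h4 h; simp only [abs_eq_max_neg] at h3 this ⊢; omega
    refine mem_filter.2 ⟨mem_product.2 ⟨mem_range.2 ?_, mem_Icc.2 ?_⟩, unit_adm _ _ _, h1⟩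
    · exact Nat.lt_succ_of_le ((ulev_le _ _ _).trans hl)
    · exact abs_le.1 ((abs_le_cc _).trans h1)
  · have h1 := ((Nat.findGreatest_eq_iff).1 (rfl : ulev K (tlev K Kc k) (k i) = _)).2.2
      (Nat.lt_succ_self _) h
    rw [Nat.succ_eq_add_one, div_pow_add, pow_one] at h1
    change |k i / 2 ^ ulev K (tlev K Kc k) (k i)| ≤ _
    simp only [abs_eq_max_neg] at h1 ⊢; omega
  · have hc : close K (tlev K Kc k + 1) k := by
      by_cases h : tlev K Kc k + 1 ≤ Kc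
      · exact not_not.1 (sp.2.2 (Nat.lt_succ_self _) h)
      · have h1 : (Kc : ℤ) < 2 ^ (tlev K Kc k + 1) := by
          exact_mod_cast (by omega : Kc < tlev K Kc k + 1).trans Nat.lt_two_pow_self
        have h2 : ∀ a, -1 ≤ k a / 2 ^ (tlev K Kc k + 1) ∧ k a / 2 ^ (tlev K Kc k + 1) < 1 :=
          fun a => ⟨Int.le_ediv_of_mul_le (by positivity) (by have := abs_le.1 (hk' a); omega),
            Int.ediv_lt_of_lt_mul (by positivity) (by have := abs_le.1 (hk' a); omega)⟩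
        intro a b
        have := h2 a; have := h2 b; omega
    have h1 := lo j _ (Nat.le_succ _)
    have h2 := lt_cc (k i) (tlev K Kc k + 1)
    have h3 := hi i
    have h4 := mul_le_mul_of_nonneg_right (hc i j)
      (by positivity : (0 : ℤ) ≤ 2 ^ (tlev K Kc k + 1))
    change _ ≤ _ * 2 ^ tlev K Kc k
    generalize k i / 2 ^ (tlev K Kc k + 1) = a at *
    generalize k j / 2 ^ (tlev K Kc k + 1) = b at *
    rw [pow_succ] at h1 h2 h4
    nlinarith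
  · have h0 := sp.2.1 h.ne'
    simp only [close, not_forall, not_le] at h0
    obtain ⟨i, j, h0⟩ := h0
    refine ⟨i, j, ?_⟩
    have h1 := lo i _ le_rfl
    have h2 := lt_cc (k j) (tlev K Kc k)
    have h3 := hi j
    have h4 := mul_le_mul_of_nonneg_right (Int.add_one_le_of_lt h0)
      (by positivity : (0 : ℤ) ≤ 2 ^ tlev K Kc k)
    change _ * 2 ^ tlev K Kc k ≤ _
    nlinarith

end

end Pool.Agent.Lib.MMTW
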