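import Pool.Agent.Lib.MP_0dc93f_an.WCore

/-! Real geometry of types (job D1). -/

namespace Pool.Agent.Lib.MMTW

open Finset

variable {d : Dat} {K : ℕ} {Q R β : ℝ} {τ : Ty} {J J' : Cell} {ν : Cell → ℝ}

lemma Hyp.K_ge (H : Hyp d K Q R β) : 250000 ≤ K := by
  have : (250000 : ℝ) ≤ K := by nlinarith [H.hK, H.a1, (Nat.cast_nonneg K : (0 : ℝ) ≤ K)]
  exact_mod_cast this

lemma Hyp.K_ge' (H : Hyp d K Q R β) : (250000 : ℝ) ≤ K := by exact_mod_cast H.K_ge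

lemma Hyp.Q_ge (H : Hyp d K Q R β) : 25000000 ≤ Q := by linarith [H.K_ge', H.hQ]

lemma Hyp.QR (H : Hyp d K Q R β) : Q ^ 200 ≤ R :=   H.hR.trans (Real.rpow_le_self_of_one_le H.hR1 (by norm_num))

lemma Hyp.Q_le_R (H : Hyp d K Q R β) : Q ≤ R :=
  (le_self_pow₀ (by linarith [H.Q_ge]) (by norm_num)).trans H.QR

lemma Hyp.good (H : Hyp d K Q R β) (hτ : τ ∈ TT K d.Kc) : Good K d.Kc τ :=   good_ty (le_trans (by norm_num) H.K_ge) hτ

lemma gg_pos (H : Hyp d K Q R β) (J : Cell) : 0 < gg Q β J := by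
  have := xx_pos J
  have : 0 < Q := by linarith [H.Q_ge]
  unfold gg
  positivity

lemma WW_pos (β : ℝ) (J : Cell) : 0 < WW β J :=   mul_pos (mu_posRB J) (Real.rpow_pos_of_pos (xx_pos J) _)

lemma DD_pos (τ : Ty) : 0 < DD τ := by unfold DD; positivity

lemma Lg_pos (A : Fin 4 → Cell) : 0 < Lg A := prod_pos fun _ _ => by positivity

lemma ZZ_nonneg (d : Dat) (K : ℕ) (τ : Ty) : 0 ≤ ZZ d K τ := by unfold ZZ; positivity

lemma coef_nonneg (H : Hyp d K Q R β) (J : Cell) (τ : Ty) : 0 ≤ coef K Q J τ := by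
  have := mu_posRB J
  have := DD_pos τ
  have : 0 < Q := by linarith [H.Q_ge]
  unfold coef
  split_ifs <;> positivity

lemma Yt_nonneg (H : Hyp d K Q R β) (hν : ∀ J, 0 ≤ ν J) (τ : Ty) : 0 ≤ Yt d K Q R β ν τ := by
  have := xx_pos (τ.2 3)
  have := DD_pos τ
  have := Lg_pos τ.2
  have := ZZ_nonneg d K τ
  have := hν (τ.2 0)
  have := hν (τ.2 1)
  have : 0 < Q := by linarith [H.Q_ge]
  unfold Yt
  split_ifs <;> positivity

lemma m_le_sum (d : Dat) (J : Cell) (t : ℝ) :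
    d.m J t ≤ ∑ k ∈ FF d.Kc with k ∈ PP J, ‖d.b t k‖ ^ 2 := by
  rw [sum_filter]
  refine sum_le_sum fun k _ => ?_
  split_ifs with h
  · exact mul_le_of_le_one_left (by positivity) (pow_le_one₀ (phi_nonneg J k) (phi_le_one J k))
  · simp [phi_off h]

lemma m_le (H : Hyp d K Q R β) (hJ : J ∈ AA K d.Kc) :
    ∀ t ∈ Set.Icc 0 d.T, d.m J t ≤ gg Q β J / 13 := fun t ht => by
  have x0 := xx_pos J
  have q := H.Q_ge
  have h1 : d.m J t ≤ tail d.Kc (d.b t) (xx J / 2) := (m_le_sum d J t).trans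
    (sum_le_sum_of_subset_of_nonneg (fun k hk => mem_filter.2 ⟨(mem_filter.1 hk).1, by
      linarith [(br_PP (le_trans (by norm_num) H.K_ge) hJ (mem_filter.1 hk).2).1]⟩)
        fun _ _ _ => by positivity)
  have h2 := rpow_near (half_pos x0) x0 (e := -β) (by linarith) (by linarith) (by linarith [H.b2])
    (by linarith [H.a1, H.b1])
  have h3 := Real.rpow_pos_of_pos x0 (-β)
  refine (h1.trans (H.tl t ht _ (half_pos x0))).trans
    ((mul_le_mul_of_nonneg_left h2 (by linarith)).trans ?_)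
  rw [gg, le_div_iff₀ (by norm_num)]
  nlinarith [mul_pos h3 (show 0 < Q by linarith)]

lemma xx_le_MM (τ : Ty) (i : Fin 4) : xx (τ.2 i) ≤ MM τ :=   le_ciSup (f := fun i => xx (τ.2 i)) (Set.finite_range _).bddAbove i

lemma exists_MM (τ : Ty) : ∃ i, MM τ = xx (τ.2 i) :=   (exists_eq_ciSup_of_finite (f := fun i => xx (τ.2 i))).imp fun _ => Eq.symm

lemma one_le_MM (τ : Ty) : 1 ≤ MM τ := (one_le_xx _).trans (xx_le_MM τ 0)

lemma MM_le (H : Hyp d K Q R β) (hτ : τ ∈ TT K d.Kc) (i : Fin 4) :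
    MM τ ≤ xx (τ.2 i) + (2 * K + 2) * DD τ := by
  obtain ⟨j, hj⟩ := exists_MM τ
  have h1 := (H.good hτ).near i j
  have h2 := (H.good hτ).near j i
  rw [hj, xx, xx, br_eq, br_eq, DD]
  norm_cast
  push_cast
  simp only [abs_eq_max_neg]
  omega

lemma mu_le_DD (H : Hyp d K Q R β) (hτ : τ ∈ TT K d.Kc) (i : Fin 4) :
    (mu (τ.2 i) : ℝ) ≤ DD τ := by
  rw [mu, DD]
  push_cast
  exact pow_le_pow_right₀ one_le_two ((H.good hτ).lev i)

lemma mu_or (H : Hyp d K Q R β) (hτ : τ ∈ TT K d.Kc) (i : Fin 4) :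
    (mu (τ.2 i) : ℝ) = DD τ ∨ xx (τ.2 i) ≤ 3 * K * (mu (τ.2 i) : ℝ) := by
  rcases ((H.good hτ).lev i).lt_or_eq with h | h
  · right
    have h1 := mul_le_mul_of_nonneg_right ((H.good hτ).shell i h) (mu_pos (τ.2 i)).le
    have h2 := mu_pos (τ.2 i)
    have h3 : (250000 : ℤ) ≤ K := by exact_mod_cast H.K_ge
    rw [xx, br_eq, abs_cc]
    norm_cast
    push_cast
    nlinarith
  · left
    rw [mu, DD, h]
    norm_cast

lemma dich (H : Hyp d K Q R β) (hτ : τ ∈ TT K d.Kc) :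
    (∀ i, MM τ ≤ 2 * xx (τ.2 i)) ∨ MM τ ≤ Q * DD τ := by
  refine or_iff_not_imp_left.2 fun h => ?_
  obtain ⟨i, hi⟩ := not_forall.1 h
  have h1 := MM_le H hτ i
  have h2 := DD_pos τ
  nlinarith [H.K_ge', H.hQ, not_le.1 hi]

lemma logs6 (H : Hyp d K Q R β) (τ : Ty) :
    ((τ.1 : ℝ) + 2) ^ 6 ≤ Q ^ 6 * DD τ ^ (3 / 100000 : ℝ) := by
  refine (pow_le_pow_left₀ (by positivity) (H.lg τ.1) 6).trans_eq ?_
  rw [mul_pow, ← Real.rpow_natCast (_ ^ (_ : ℝ)), ← Real.rpow_mul (by positivity), DD]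
  norm_num

lemma logs (H : Hyp d K Q R β) (hτ : τ ∈ TT K d.Kc) :
    Lg τ.2 * ((τ.1 : ℝ) + 2) ^ 6 ≤ Q ^ 11 * DD τ ^ (5 / 100000 : ℝ) := by
  have q := H.Q_ge
  have h1 : Lg τ.2 ≤ (4 * ((τ.1 : ℝ) + 2)) ^ 4 := by
    refine (prod_le_prod (g := fun _ => 4 * ((τ.1 : ℝ) + 2)) (fun _ _ => by positivity)
      fun i _ => ?_).trans_eq (by simp)
    have : ((τ.2 i).1 : ℝ) ≤ τ.1 := by exact_mod_cast (H.good hτ).lev i
    linarith
  have h2 := pow_le_pow_left₀ (by positivity) (H.lg τ.1) 10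
  rw [mul_pow, ← Real.rpow_natCast (_ ^ (_ : ℝ)), ← Real.rpow_mul (by positivity)] at h2
  calc _ ≤ (4 * ((τ.1 : ℝ) + 2)) ^ 4 * ((τ.1 : ℝ) + 2) ^ 6 := by gcongr
    _ = 256 * ((τ.1 : ℝ) + 2) ^ 10 := by ring
    _ ≤ Q * _ := mul_le_mul (by linarith) h2 (by positivity) (by linarith)
    _ = _ := by
      rw [DD, ← mul_assoc, ← pow_succ']
      norm_num

lemma real_lev (H : Hyp d K Q R β) (h : ¬ Sm R τ) : R ≤ DD τ ∧ 0 < τ.1 := by
  have h1 : R ≤ DD τ := (le_mul_of_one_le_right (by linarith [H.hR1])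
    (Real.one_le_rpow (one_le_xx _) (by norm_num))).trans (not_le.1 h).le
  refine ⟨h1, Nat.pos_of_ne_zero fun e => ?_⟩
  rw [DD, e, pow_zero] at h1
  linarith [H.Q_le_R, H.Q_ge]

lemma not_Sm (H : Hyp d K Q R β) (hτ : τ ∈ TT K d.Kc) (h : ¬ Sm R τ) :
    R ≤ DD τ ∧ DD τ ≤ MM τ := by
  refine ⟨(real_lev H h).1, ?_⟩
  obtain ⟨i, j, h1⟩ := (H.good hτ).far (real_lev H h).2
  have h2 : (K : ℝ) * DD τ ≤ cc (τ.2 i) - cc (τ.2 j) := by rw [DD]; exact_mod_cast h1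
  have h3 := xx_le_MM τ i
  have h4 := xx_le_MM τ j
  rw [xx, br] at h3 h4
  nlinarith [H.K_ge', DD_pos τ, le_abs_self (cc (τ.2 i) : ℝ), neg_abs_le (cc (τ.2 j) : ℝ)]

lemma Sm_near (H : Hyp d K Q R β) (h : Sm R τ) (hn : MM τ ≤ Q * DD τ) : MM τ ≤ R ^ 11 := by
  have m1 := one_le_MM τ
  have r1 := H.hR1
  have h1 : MM τ ≤ R * (R * MM τ ^ (801 / 1000 : ℝ)) :=
    hn.trans (mul_le_mul H.Q_le_R (h.trans (mul_le_mul_of_nonneg_left (Real.rpow_le_rpow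
      (xx_pos _).le (xx_le_MM τ 3) (by norm_num)) (by linarith))) (DD_pos τ).le (by linarith))
  have h2 := Real.log_le_log (by linarith) h1
  rw [Real.log_mul (by positivity) (by positivity), Real.log_mul (by positivity) (by positivity),
    Real.log_rpow (by linarith)] at h2
  rw [← Real.log_le_log_iff (by linarith) (by positivity), Real.log_pow]
  push_cast
  linarith [Real.log_nonneg r1]

lemma Sm_cmp (H : Hyp d K Q R β) (hτ : τ ∈ TT K d.Kc) (h : Sm R τ) (i : Fin 4) :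
    MM τ ≤ R ^ 11 * xx (τ.2 i) := by
  have h1 : 2 ≤ R ^ 11 := le_trans (by linarith [H.Q_le_R, H.Q_ge])
    (le_self_pow₀ H.hR1 (by norm_num))
  rcases dich H hτ with e | e
  · exact (e i).trans (mul_le_mul_of_nonneg_right h1 (xx_pos _).le)
  · exact (Sm_near H h e).trans (le_mul_of_one_le_right (by linarith) (one_le_xx _))

lemma pr_pair (H : Hyp d K Q R β) (hτ : τ ∈ TT K d.Kc) (h : ¬ Sm R τ) (ho : ¬ Out K τ) :
    Pair (K * 2 ^ τ.1) (fun i => cc (τ.2 i)) (pr K τ) := by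
  have h1 := exists_pair (c := fun i => cc (τ.2 i)) ((H.good hτ).far (real_lev H h).2) (not_lt.1 ho)
  rw [pr, dif_pos h1]
  exact h1.choose_spec

lemma pr_high (H : Hyp d K Q R β) (hτ : τ ∈ TT K d.Kc) (h : ¬ Sm R τ) (ho : ¬ Out K τ) :
    DD τ ≤ xx (τ.2 (pr K τ 1)) ∧ DD τ ≤ xx (τ.2 (pr K τ 3)) ∧
      DD τ ≤ 15 * (mu (τ.2 (pr K τ 1)) : ℝ) ∧ DD τ ≤ 15 * (mu (τ.2 (pr K τ 3)) : ℝ) := by
  obtain ⟨h1, h2, h3, h4⟩ := pr_pair H hτ h ho
  have key : ∀ a b, 9 * ((K : ℤ) * 2 ^ τ.1) ≤ 20 * |cc (τ.2 a) - cc (τ.2 b)| →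
      |cc (τ.2 a)| ≤ |cc (τ.2 b)| → DD τ ≤ xx (τ.2 b) ∧ DD τ ≤ 15 * (mu (τ.2 b) : ℝ) := by
    intro a b h1 h2
    have h3 : 9 * ((K : ℤ) * 2 ^ τ.1) ≤ 40 * (1 + |cc (τ.2 b)|) := by
      simp only [abs_eq_max_neg] at h1 h2 ⊢
      omega
    have h4 : 9 * ((K : ℝ) * DD τ) ≤ 40 * xx (τ.2 b) := by
      rw [xx, br_eq, DD]
      exact_mod_cast h3
    have k := H.K_ge'
    have d0 := DD_pos τ
    refine ⟨by nlinarith, ?_⟩
    rcases mu_or H hτ b with e | e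
    · linarith
    · refine le_of_mul_le_mul_left (a := (K : ℝ)) ?_ (by linarith)
      nlinarith [mul_pos (show (0 : ℝ) < K by linarith) (mu_posRB (τ.2 b))]
  exact ⟨(key _ _ h1 h3).1, (key _ _ h2 h4).1, (key _ _ h1 h3).2, (key _ _ h2 h4).2⟩

lemma LL_near (H : Hyp d K Q R β) (hτ : τ ∈ TT K d.Kc) (h : ¬ Sm R τ) {θ : ℝ} (hθ : θ ≤ 1 / 2)
    (hl : LL θ K τ) : MM τ ≤ Q * DD τ := by
  refine (dich H hτ).resolve_left fun e => ?_
  have m1 := one_le_MM τ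
  have h1 := (e _).trans (mul_le_mul_of_nonneg_left
    (hl.1.trans (Real.rpow_le_rpow_of_exponent_le m1 hθ)) zero_le_two)
  rw [← Real.sqrt_eq_rpow] at h1
  have h2 := Real.sq_sqrt (zero_le_one.trans m1)
  have h3 := (not_Sm H hτ h).1.trans (not_Sm H hτ h).2
  nlinarith [H.Q_le_R, H.Q_ge, Real.sqrt_nonneg (MM τ)]

lemma Om_le (H : Hyp d K Q R β) (hτ : τ ∈ TT K d.Kc) :
    Om β τ ≤ Q * DD τ * MM τ ^ (β - 1003 / 1000 + 5 / 1000000) := by
  have b1 := H.a1.trans H.b1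
  have b2 := H.b2
  have x0 := xx_pos (τ.2 3)
  have x1 := xx_le_MM τ 3
  have m0 := x0.trans_le x1
  have d0 := DD_pos τ
  have p0 := Real.rpow_pos_of_pos m0 (β - 1003 / 1000 + 5 / 1000000)
  rcases dich H hτ with e | e
  · refine (mul_le_mul (mu_le_DD H hτ 3) (rpow_near x0 m0 (by linarith) (e 3) (by linarith)
      (by linarith)) (by positivity) d0.le).trans ?_
    nlinarith [H.Q_ge, mul_pos d0 p0]
  · refine (mul_le_mul_of_nonneg_right (mu_le_xx (le_trans (by norm_num) H.K_ge)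
      ((H.good hτ).mem 3)) (by positivity)).trans
        (le_trans ?_ (mul_le_mul_of_nonneg_right e p0.le))
    rw [mul_comm, mul_comm (MM τ), ← Real.rpow_add_one x0.ne', ← Real.rpow_add_one m0.ne']
    exact Real.rpow_le_rpow x0.le x1 (by linarith)

lemma overlap (h : PP J ∩ cell J' ≠ ∅) :
    min (mu J : ℝ) (mu J') ≤ ((PP J).filter fun k => k ∈ PP J').card := by
  obtain ⟨k, hk⟩ := nonempty_iff_ne_empty.2 h
  have h1 := mem_PP.1 (mem_inter.1 hk).1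
  have h2 := mem_cell.1 (mem_inter.1 hk).2
  have h3 := mu_pos J
  have h4 := mu_pos J'
  have e : ((PP J).filter fun k => k ∈ PP J') = Ioo (max (cc J - mu J) (cc J' - mu J'))
      (min (cc J + 2 * mu J) (cc J' + 2 * mu J')) := by
    ext x
    simp only [mem_filter, mem_PP, mem_Ioo]
    omega
  rw [e, Int.card_Ioo, ← Int.cast_natCast]
  norm_cast
  omega

lemma overlap' (h : PP J ∩ cell J' ≠ ∅) :
    min (mu J : ℝ) (mu J') ≤ ((PP J').filter fun k => k ∈ PP J).card := by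
  rw [filter_mem_eq_inter, inter_comm, ← filter_mem_eq_inter]
  exact overlap h

lemma sum_overlap (H : Hyp d K Q R β) (hJ : J ∈ AA K d.Kc) :
    ∑ J' ∈ AA K d.Kc, (((PP J).filter fun k => k ∈ PP J').card : ℝ) ≤
      Q ^ 2 * mu J * xx J ^ (5 / 1000000 : ℝ) := by
  have q := H.Q_ge
  have k4 : 4 ≤ K := le_trans (by norm_num) H.K_ge
  have h1 := sum_cells (Kc := d.Kc) k4 (by linarith) (by norm_num) H.lg (e := 0) (by norm_num)
    (by norm_num) (PP J) (f := fun _ => 1) fun _ => zero_le_one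
  simp only [Real.rpow_zero, one_mul, mul_one, sum_const, nsmul_eq_mul, zero_add] at h1
  have h2 := sum_le_card_nsmul (PP J) (fun k => br k ^ (5 / 1000000 : ℝ))
    (16 * xx J ^ (5 / 1000000 : ℝ)) fun k hk => rpow_near (br_pos k) (xx_pos J)
      (br_PP k4 hJ hk).2 (br_PP k4 hJ hk).1 (by norm_num) (by norm_num)
  have h3 : ((PP J).card : ℝ) ≤ 3 * mu J := by
    have := mu_pos J
    rw [PP, Int.card_Ioo, ← Int.cast_natCast]
    norm_cast
    omega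
  have p := Real.rpow_pos_of_pos (xx_pos J) (5 / 1000000 : ℝ)
  rw [nsmul_eq_mul] at h2
  refine h1.trans ((mul_le_mul_of_nonneg_left (h2.trans (mul_le_mul_of_nonneg_right h3
    (by positivity))) (by linarith)).trans ?_)
  nlinarith [mul_pos (mul_pos (show 0 < Q by linarith) (mu_posRB J)) p]

/-- geometry of the types that are local for a regular window -/
lemma local_far (H : Hyp d K Q R β) (hτ : τ ∈ TT K d.Kc) (hJ : reg K d.Kc J)
    (hm : PP J ∩ cell (τ.2 3) ≠ ∅) (hl : K * 2 ^ τ.1 ≤ 64 * mu J) :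
    Far τ ∧ ∀ i, |cc (τ.2 i) - cc J| ≤ 140 * mu J ∧ xx J ≤ 2 * xx (τ.2 i) ∧
      xx (τ.2 i) ≤ 2 * xx J := by
  obtain ⟨k, hk⟩ := nonempty_iff_ne_empty.2 hm
  have h1 := mem_PP.1 (mem_inter.1 hk).1
  have h2 := mem_cell.1 (mem_inter.1 hk).2
  have m0 := mu_pos J
  have k0 : (250000 : ℤ) ≤ K := by exact_mod_cast H.K_ge
  have p0 : (0 : ℤ) < 2 ^ τ.1 := by positivity
  have h3 : 250000 * mu J ≤ |cc J| := by
    rw [abs_cc]
    exact mul_le_mul_of_nonneg_right (k0.trans hJ.1) m0.le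
  have h4 : 250000 * 2 ^ τ.1 ≤ (K : ℤ) * 2 ^ τ.1 := mul_le_mul_of_nonneg_right k0 p0.le
  have h5 : ∀ i, mu (τ.2 i) ≤ 2 ^ τ.1 := fun i =>
    pow_le_pow_right₀ one_le_two ((H.good hτ).lev i)
  have h6 : ∀ i, |cc (τ.2 i) - cc J| ≤ 140 * mu J := fun i => by
    have a := (H.good hτ).near i 3
    have b := (H.good hτ).near 3 i
    have c := h5 3
    rw [add_mul, mul_assoc] at a b
    simp only [abs_eq_max_neg]
    omega
  refine ⟨fun i => ⟨?_, (mu_or H hτ i).resolve_right fun e => ?_⟩, fun i => ⟨h6 i, ?_⟩⟩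
  · obtain ⟨j, hj⟩ := exists_MM τ
    have a := h6 i
    have b := h6 j
    rw [hj, xx, xx, br_eq, br_eq]
    norm_cast
    simp only [abs_eq_max_neg] at a b h3 ⊢
    omega
  · have a := h6 i
    have b := mul_le_mul_of_nonneg_left (h5 i) (show (0 : ℤ) ≤ K by positivity)
    have c : 1 + |cc (τ.2 i)| ≤ 3 * ((K : ℤ) * mu (τ.2 i)) := by
      rw [xx, br_eq, mul_assoc] at e
      exact_mod_cast e
    simp only [abs_eq_max_neg] at a c h3
    omega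
  · have a := h6 i
    rw [xx, xx, br_eq, br_eq]
    norm_cast
    simp only [abs_eq_max_neg] at a h3 ⊢
    omega

end Pool.Agent.Lib.MMTW
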