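import Pool.Agent.Lib.MP_0dc93f_an.WDefA
import Pool.Agent.Lib.MMT.Basic

/-! Rapidly decaying solutions of the full system are smooth solutions (job A3). -/

namespace Pool.Agent.Lib.MMTW

open Pool.Agent.Lib.MMT Complex ComplexConjugate

noncomputable section

namespace Sm

lemma one_le_br (k : ℤ) : 1 ≤ br k := by
  unfold br; linarith [abs_nonneg (k : ℝ)]

lemma br_pos (k : ℤ) : 0 < br k := lt_of_lt_of_le one_pos (one_le_br k)

lemma br_add (j k : ℤ) : br (j + k) ≤ br j * br k := by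
  unfold br
  push_cast
  have h1 := abs_add_le (j : ℝ) k
  have h2 := abs_nonneg (j : ℝ)
  have h3 := abs_nonneg (k : ℝ)
  nlinarith [mul_nonneg h2 h3]

lemma br_neg (k : ℤ) : br (-k) = br k := by
  unfold br; push_cast; rw [abs_neg]

lemma br_tri (k : ℤ) (p : ℤ × ℤ) : br k ≤ br p.1 * br p.2 * br (k - p.1 + p.2) := by
  have h1 : k = (p.1 + -p.2) + (k - p.1 + p.2) := by ring
  have h2 := br_add (p.1 + -p.2) (k - p.1 + p.2)
  rw [← h1] at h2
  have h3 := br_add p.1 (-p.2)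
  rw [br_neg] at h3
  exact h2.trans (mul_le_mul_of_nonneg_right h3 (br_pos _).le)

/-- summable weight -/
def w (k : ℤ) : ℝ := (br k ^ 2)⁻¹

lemma w_pos (k : ℤ) : 0 < w k := by
  have := br_pos k
  unfold w; positivity

lemma summable_w : Summable w := by
  have h : Summable fun n : ℕ => w n := by
    have := (summable_nat_add_iff 1).2 (Real.summable_nat_pow_inv.2 (by norm_num : 1 < 2))
    refine this.congr fun n => ?_
    unfold w br
    push_cast
    rw [abs_of_nonneg (Nat.cast_nonneg n), add_comm]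
  refine Summable.of_nat_of_neg h (h.congr fun n => ?_)
  unfold w; rw [br_neg]

lemma summable_ww : Summable fun p : ℤ × ℤ => w p.1 * w p.2 :=
  summable_w.mul_of_nonneg summable_w (fun k => (w_pos k).le) fun k => (w_pos k).le

/-- rapid decay, locally uniformly in time -/
def Rap (b : ℝ → ℤ → ℂ) : Prop :=
  ∀ T > 0, ∀ s : ℕ, ∃ A : ℝ, ∀ t, |t| ≤ T → ∀ k, br k ^ s * ‖b t k‖ ≤ A

lemma Rap.wt {b : ℝ → ℤ → ℂ} (h : Rap b) {T : ℝ} (hT : 0 < T) (s : ℕ) :
    ∃ A : ℝ, ∀ t, |t| ≤ T → ∀ k, br k ^ s * ‖b t k‖ ≤ A * w k := by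
  obtain ⟨A, hA⟩ := h T hT (s + 2)
  refine ⟨A, fun t ht k => ?_⟩
  have h1 := hA t ht k
  have h2 := br_pos k
  unfold w
  rw [← div_eq_mul_inv, le_div_iff₀ (by positivity)]
  calc _ = br k ^ (s + 2) * ‖b t k‖ := by ring
    _ ≤ A := h1

lemma Rap.summable {b : ℝ → ℤ → ℂ} (h : Rap b) (t : ℝ) : Summable fun k => ‖b t k‖ := by
  obtain ⟨A, hA⟩ := h.wt (T := |t| + 1) (by positivity) 0
  refine Summable.of_nonneg_of_le (fun k => norm_nonneg _) (fun k => ?_) (summable_w.mul_left A)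
  simpa using hA t (by linarith) k

lemma Rap.add {b c : ℝ → ℤ → ℂ} (hb : Rap b) (hc : Rap c) : Rap fun t k => b t k + c t k := by
  intro T hT s
  obtain ⟨A, hA⟩ := hb T hT s
  obtain ⟨B, hB⟩ := hc T hT s
  refine ⟨A + B, fun t ht k => ?_⟩
  have h1 := hA t ht k
  have h2 := hB t ht k
  have h3 := mul_le_mul_of_nonneg_left (norm_add_le (b t k) (c t k)) (pow_pos (br_pos k) s).le
  linarith

lemma Rap.mul {b : ℝ → ℤ → ℂ} (hb : Rap b) {m : ℤ → ℂ} (hm : ∀ k, ‖m k‖ ≤ br k) :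
    Rap fun t k => m k * b t k := by
  intro T hT s
  obtain ⟨A, hA⟩ := hb T hT (s + 1)
  refine ⟨A, fun t ht k => le_trans ?_ (hA t ht k)⟩
  have h1 := hm k
  have h2 := br_pos k
  rw [norm_mul, pow_succ, mul_assoc]
  gcongr

/-- the trilinear convolution -/
def Tri (b c d : ℤ → ℂ) (k : ℤ) : ℂ := ∑' p : ℤ × ℤ, b p.1 * conj (c p.2) * d (k - p.1 + p.2)

lemma tri_bound {b c d : ℝ → ℤ → ℂ} (hb : Rap b) (hc : Rap c) (hd : Rap d) {T : ℝ} (hT : 0 < T)
    (s : ℕ) : ∃ A : ℝ, ∀ t, |t| ≤ T → ∀ (k : ℤ) (p : ℤ × ℤ),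
      br k ^ s * ‖b t p.1 * conj (c t p.2) * d t (k - p.1 + p.2)‖ ≤ A * (w p.1 * w p.2) := by
  obtain ⟨A, hA⟩ := hb.wt hT s
  obtain ⟨B, hB⟩ := hc.wt hT s
  obtain ⟨C, hC⟩ := hd T hT s
  refine ⟨A * B * C, fun t ht k p => ?_⟩
  have h1 := hA t ht p.1
  have h2 := hB t ht p.2
  have h3 := hC t ht (k - p.1 + p.2)
  have p1 := br_pos p.1
  have p2 := br_pos p.2
  have p3 := br_pos (k - p.1 + p.2)
  have h4 : br k ^ s ≤ br p.1 ^ s * br p.2 ^ s * br (k - p.1 + p.2) ^ s := by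
    rw [← mul_pow, ← mul_pow]
    exact pow_le_pow_left₀ (br_pos k).le (br_tri k p) s
  have n1 : 0 ≤ br p.1 ^ s * ‖b t p.1‖ := by positivity
  have n2 : 0 ≤ br p.2 ^ s * ‖c t p.2‖ := by positivity
  have n3 : 0 ≤ br (k - p.1 + p.2) ^ s * ‖d t (k - p.1 + p.2)‖ := by positivity
  rw [norm_mul, norm_mul, RCLike.norm_conj]
  calc _ ≤ (br p.1 ^ s * br p.2 ^ s * br (k - p.1 + p.2) ^ s) *
        (‖b t p.1‖ * ‖c t p.2‖ * ‖d t (k - p.1 + p.2)‖) :=
        mul_le_mul_of_nonneg_right h4 (by positivity)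
    _ = (br p.1 ^ s * ‖b t p.1‖) * (br p.2 ^ s * ‖c t p.2‖) *
        (br (k - p.1 + p.2) ^ s * ‖d t (k - p.1 + p.2)‖) := by ring
    _ ≤ (A * w p.1) * (B * w p.2) * C :=
        mul_le_mul (mul_le_mul h1 h2 n2 (n1.trans h1)) h3 n3
          (mul_nonneg (n1.trans h1) (n2.trans h2))
    _ = _ := by ring

lemma tri_summable {b c d : ℝ → ℤ → ℂ} (hb : Rap b) (hc : Rap c) (hd : Rap d) (t : ℝ) (k : ℤ) :
    Summable fun p : ℤ × ℤ => b t p.1 * conj (c t p.2) * d t (k - p.1 + p.2) := by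
  obtain ⟨A, hA⟩ := tri_bound hb hc hd (T := |t| + 1) (by positivity) 0
  refine Summable.of_norm_bounded (summable_ww.mul_left A) fun p => ?_
  simpa using hA t (by linarith) k p

lemma Rap.tri {b c d : ℝ → ℤ → ℂ} (hb : Rap b) (hc : Rap c) (hd : Rap d) :
    Rap fun t k => Tri (b t) (c t) (d t) k := by
  intro T hT s
  obtain ⟨A, hA⟩ := tri_bound hb hc hd hT s
  refine ⟨A * ∑' p : ℤ × ℤ, w p.1 * w p.2, fun t ht k => ?_⟩
  have h1 := pow_pos (br_pos k) s
  have h2 : ‖Tri (b t) (c t) (d t) k‖ ≤ (br k ^ s)⁻¹ * (A * ∑' p : ℤ × ℤ, w p.1 * w p.2) := by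
    refine tsum_of_norm_bounded ((summable_ww.hasSum.mul_left A).mul_left _) fun p => ?_
    rw [le_inv_mul_iff₀ h1]
    exact hA t ht k p
  rwa [le_inv_mul_iff₀ h1] at h2

/-- `b'` is the time derivative of `b` -/
def Der (b b' : ℝ → ℤ → ℂ) : Prop := ∀ t k, HasDerivAt (fun s => b s k) (b' t k) t

lemma abs_le_of_mem {t s : ℝ} (hs : s ∈ Set.Ioo (-(|t| + 1)) (|t| + 1)) : |s| ≤ |t| + 1 :=
  (abs_lt.2 hs).le

lemma self_mem (t : ℝ) : t ∈ Set.Ioo (-(|t| + 1)) (|t| + 1) :=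
  abs_lt.1 (by linarith)

lemma der_tri {b c d b' c' d' : ℝ → ℤ → ℂ} (hb : Rap b) (hc : Rap c) (hd : Rap d)
    (hb' : Rap b') (hc' : Rap c') (hd' : Rap d') (db : Der b b') (dc : Der c c') (dd : Der d d') :
    Der (fun t k => Tri (b t) (c t) (d t) k) fun t k =>
      Tri (b' t) (c t) (d t) k + Tri (b t) (c' t) (d t) k + Tri (b t) (c t) (d' t) k := by
  intro t k
  have hT : 0 < |t| + 1 := by positivity
  obtain ⟨A, hA⟩ := tri_bound hb' hc hd hT 0
  obtain ⟨B, hB⟩ := tri_bound hb hc' hd hT 0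
  obtain ⟨C, hC⟩ := tri_bound hb hc hd' hT 0
  have key := hasDerivAt_tsum_of_isPreconnected (𝕜 := ℝ)
    (g := fun (p : ℤ × ℤ) s => b s p.1 * conj (c s p.2) * d s (k - p.1 + p.2))
    (g' := fun (p : ℤ × ℤ) s => b' s p.1 * conj (c s p.2) * d s (k - p.1 + p.2) +
      b s p.1 * conj (c' s p.2) * d s (k - p.1 + p.2) +
      b s p.1 * conj (c s p.2) * d' s (k - p.1 + p.2))
    (summable_ww.mul_left (A + B + C)) isOpen_Ioo isPreconnected_Ioo
    (fun p s _ => by
      have h := ((db s p.1).mul (dc s p.2).star).mul (dd s (k - p.1 + p.2))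
      refine h.congr_deriv ?_
      simp only [Pi.mul_apply, RCLike.star_def]
      ring)
    (fun p s hs => by
      have h1 := hA s (abs_le_of_mem hs) k p
      have h2 := hB s (abs_le_of_mem hs) k p
      have h3 := hC s (abs_le_of_mem hs) k p
      rw [pow_zero, one_mul] at h1 h2 h3
      refine norm_add₃_le.trans ?_
      linarith)
    (self_mem t) (tri_summable hb hc hd t k) (self_mem t)
  rw [((tri_summable hb' hc hd t k).add (tri_summable hb hc' hd t k)).tsum_add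
    (tri_summable hb hc hd' t k),
    (tri_summable hb' hc hd t k).tsum_add (tri_summable hb hc' hd t k)] at key
  exact key

/-- the class of coefficient families generated by `a` -/
inductive Cl (a : ℝ → ℤ → ℂ) : (ℝ → ℤ → ℂ) → Prop
  | base : Cl a a
  | mul (m : ℤ → ℂ) (hm : ∀ k, ‖m k‖ ≤ br k) (b : ℝ → ℤ → ℂ) (hb : Cl a b) :
      Cl a fun t k => m k * b t k
  | add (b c : ℝ → ℤ → ℂ) (hb : Cl a b) (hc : Cl a c) : Cl a fun t k => b t k + c t k
  | tri (b c d : ℝ → ℤ → ℂ) (hb : Cl a b) (hc : Cl a c) (hd : Cl a d) :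
      Cl a fun t k => Tri (b t) (c t) (d t) k

lemma Cl.rap {a b : ℝ → ℤ → ℂ} (ha : Rap a) (h : Cl a b) : Rap b := by
  induction h with
  | base => exact ha
  | mul m hm b _ ih => exact ih.mul hm
  | add b c _ _ ih1 ih2 => exact ih1.add ih2
  | tri b c d _ _ _ ih1 ih2 ih3 => exact ih1.tri ih2 ih3

lemma Cl.der {a a' b : ℝ → ℤ → ℂ} (ha : Rap a) (ha' : Cl a a') (da : Der a a') (h : Cl a b) :
    ∃ b', Cl a b' ∧ Der b b' := by
  induction h with
  | base => exact ⟨a', ha', da⟩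
  | mul m hm b _ ih =>
    obtain ⟨b', h1, h2⟩ := ih
    exact ⟨_, Cl.mul m hm b' h1, fun t k => (h2 t k).const_mul (m k)⟩
  | add b c _ _ ih1 ih2 =>
    obtain ⟨b', h1, h2⟩ := ih1
    obtain ⟨c', h3, h4⟩ := ih2
    exact ⟨_, Cl.add b' c' h1 h3, fun t k => (h2 t k).add (h4 t k)⟩
  | tri b c d hb hc hd ih1 ih2 ih3 =>
    obtain ⟨b', h1, h2⟩ := ih1
    obtain ⟨c', h3, h4⟩ := ih2
    obtain ⟨d', h5, h6⟩ := ih3
    exact ⟨_, Cl.add _ _ (Cl.add _ _ (Cl.tri _ _ _ h1 hc hd) (Cl.tri _ _ _ hb h3 hd))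
      (Cl.tri _ _ _ hb hc h5), der_tri (hb.rap ha) (hc.rap ha) (hd.rap ha) (h1.rap ha)
      (h3.rap ha) (h5.rap ha) h2 h4 h6⟩

/-- the Fourier series as a function of time and of the real variable -/
def G (b : ℝ → ℤ → ℂ) (z : ℝ × ℝ) : ℂ := ∑' k : ℤ, b z.1 k * exp (I * (k * z.2))

/-- first coordinate -/
def L1 : ℝ × ℝ →L[ℝ] ℂ := ofRealCLM.comp (ContinuousLinearMap.fst ℝ ℝ ℝ)

/-- second coordinate -/
def L2 : ℝ × ℝ →L[ℝ] ℂ := ofRealCLM.comp (ContinuousLinearMap.snd ℝ ℝ ℝ)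

lemma norm_ex (k : ℤ) (x : ℝ) : ‖exp (I * (k * x))‖ = 1 := by
  rw [← fourier_coe, norm_fourier]

lemma norm_ik (k : ℤ) : ‖I * (k : ℂ)‖ ≤ br k := by
  rw [norm_mul, norm_I, one_mul, Complex.norm_intCast]
  unfold br; linarith

lemma Rap.hasSum {b : ℝ → ℤ → ℂ} (h : Rap b) (z : ℝ × ℝ) :
    HasSum (fun k : ℤ => b z.1 k * exp (I * (k * z.2))) (G b z) := by
  refine (Summable.of_norm_bounded (h.summable z.1) fun k => ?_).hasSum
  rw [norm_mul, norm_ex, mul_one]

lemma term_fderiv {b b' : ℝ → ℤ → ℂ} (db : Der b b') (k : ℤ) (z : ℝ × ℝ) :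
    HasFDerivAt (fun z : ℝ × ℝ => b z.1 k * exp (I * (k * z.2)))
      ((b' z.1 k * exp (I * (k * z.2))) • L1 + (I * k * b z.1 k * exp (I * (k * z.2))) • L2) z := by
  have h1 : HasFDerivAt (fun z : ℝ × ℝ => b z.1 k) (b' z.1 k • L1) z := by
    have := (db z.1 k).hasFDerivAt.comp z (hasFDerivAt_fst (𝕜 := ℝ) (p := z))
    refine this.congr_fderiv ?_
    ext <;> simp [L1]
  have h2 : HasDerivAt (fun x : ℝ => exp (I * (k * x))) (exp (I * (k * z.2)) * (I * k)) z.2 := by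
    have := (((hasDerivAt_id (z.2 : ℂ)).const_mul (k : ℂ)).const_mul I).cexp.comp_ofReal
    simpa using this
  have h3 : HasFDerivAt (fun z : ℝ × ℝ => exp (I * (k * z.2)))
      ((exp (I * (k * z.2)) * (I * k)) • L2) z := by
    have := h2.hasFDerivAt.comp z (hasFDerivAt_snd (𝕜 := ℝ) (p := z))
    refine this.congr_fderiv ?_
    ext <;> simp [L2]
  refine (h1.mul h3).congr_fderiv ?_
  ext <;> simp [L1, L2] <;> ring

lemma hasFDerivAt_G {b b' : ℝ → ℤ → ℂ} (hb : Rap b) (hb' : Rap b') (db : Der b b') (z : ℝ × ℝ) :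
    HasFDerivAt (G b) (G b' z • L1 + G (fun t k => I * k * b t k) z • L2) z := by
  have hT : 0 < |z.1| + 1 := by positivity
  have hi : Rap fun t k => I * k * b t k := hb.mul norm_ik
  obtain ⟨A, hA⟩ := hb'.wt hT 0
  obtain ⟨B, hB⟩ := hi.wt hT 0
  have key := hasFDerivAt_tsum_of_isPreconnected (𝕜 := ℝ)
    (s := Set.Ioo (-(|z.1| + 1)) (|z.1| + 1) ×ˢ (Set.univ : Set ℝ))
    (summable_w.mul_left (A * ‖L1‖ + B * ‖L2‖)) (isOpen_Ioo.prod isOpen_univ)
    (isPreconnected_Ioo.prod isPreconnected_univ) (fun k y _ => term_fderiv db k y)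
    (fun k y hy => by
      have h1 := hA y.1 (abs_le_of_mem hy.1) k
      have h2 := hB y.1 (abs_le_of_mem hy.1) k
      rw [pow_zero, one_mul] at h1 h2
      refine (norm_add_le _ _).trans ?_
      rw [norm_smul, norm_smul, norm_mul, norm_mul _ (exp _), norm_ex, mul_one, mul_one]
      have h3 := mul_le_mul_of_nonneg_right h1 (norm_nonneg L1)
      have h4 := mul_le_mul_of_nonneg_right h2 (norm_nonneg L2)
      linarith)
    (x₀ := z) (x := z) ⟨self_mem _, trivial⟩ (hb.hasSum z).summable ⟨self_mem _, trivial⟩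
  rw [(((hb'.hasSum z).smul_const L1).add ((hi.hasSum z).smul_const L2)).tsum_eq] at key
  exact key

lemma contDiff_G {a a' : ℝ → ℤ → ℂ} (ha : Rap a) (ha' : Cl a a') (da : Der a a') (n : ℕ) :
    ∀ b, Cl a b → ContDiff ℝ n (G b) := by
  induction n with
  | zero =>
    intro b hb
    obtain ⟨b', h1, h2⟩ := Cl.der ha ha' da hb
    exact contDiff_zero.2 (continuous_iff_continuousAt.2 fun z =>
      (hasFDerivAt_G (hb.rap ha) (h1.rap ha) h2 z).continuousAt)
  | succ n ih =>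
    intro b hb
    obtain ⟨b', h1, h2⟩ := Cl.der ha ha' da hb
    rw [Nat.cast_succ, contDiff_succ_iff_hasFDerivAt]
    exact ⟨_, ((ih _ h1).smul contDiff_const).add
      ((ih _ (Cl.mul _ norm_ik b hb)).smul contDiff_const),
      hasFDerivAt_G (hb.rap ha) (h1.rap ha) h2⟩

lemma hasDerivAt_G {b b' : ℝ → ℤ → ℂ} (hb : Rap b) (hb' : Rap b') (db : Der b b') (t x : ℝ) :
    HasDerivAt (fun s => G b (s, x)) (G b' (t, x)) t := by
  have h := (hasFDerivAt_G hb hb' db (t, x)).comp_hasDerivAt t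
    ((hasDerivAt_id t).prodMk (hasDerivAt_const t x))
  refine h.congr_deriv ?_
  simp [L1, L2]

/-- reindexing of the cubic sum -/
def eqv : ℤ × (ℤ × ℤ) ≃ (ℤ × ℤ) × ℤ where
  toFun q := (q.2, q.1 - q.2.1 + q.2.2)
  invFun q := (q.2 + q.1.1 - q.1.2, q.1)
  left_inv q := Prod.ext (by ring) rfl
  right_inv q := Prod.ext rfl (by ring)

lemma G_tri {b : ℝ → ℤ → ℂ} (hb : Rap b) (z : ℝ × ℝ) :
    G (fun t k => Tri (b t) (b t) (b t) k) z = G b z * conj (G b z) * G b z := by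
  set f : ℤ → ℂ := fun k => b z.1 k * exp (I * (k * z.2)) with hf
  have s1 : Summable fun k => ‖f k‖ :=
    (hb.summable z.1).congr fun k => by rw [hf, norm_mul, norm_ex, mul_one]
  have s2 : Summable fun k => ‖conj (f k)‖ := s1.congr fun k => by rw [RCLike.norm_conj]
  have s12 := s1.mul_norm s2
  have h1 : HasSum f (G b z) := hb.hasSum z
  have h2 : HasSum (fun k => conj (f k)) (conj (G b z)) := h1.star
  have h12 := h1.mul h2 s12.of_norm
  have h3 := h12.mul h1 (s12.mul_norm s1).of_norm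
  have h4 := (eqv.hasSum_iff.2 h3).prod_fiberwise
    (g := fun k : ℤ => Tri (b z.1) (b z.1) (b z.1) k * exp (I * (k * z.2))) fun k => by
      have e : (fun p : ℤ × ℤ => f p.1 * conj (f p.2) * f (k - p.1 + p.2)) = fun p : ℤ × ℤ =>
          b z.1 p.1 * conj (b z.1 p.2) * b z.1 (k - p.1 + p.2) * exp (I * (k * z.2)) := by
        funext p
        have e1 : exp (I * (p.1 * z.2)) * conj (exp (I * (p.2 * z.2))) *
            exp (I * ((k - p.1 + p.2 : ℤ) * z.2)) = exp (I * (k * z.2)) := by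
          rw [← exp_conj, ← exp_add, ← exp_add]
          congr 1
          simp only [map_mul, conj_I, conj_ofReal, map_intCast]
          push_cast; ring
        simp only [hf, map_mul]
        rw [← e1]; ring
      have := (tri_summable hb hb hb z.1 k).hasSum.mul_right (exp (I * (k * z.2)))
      rw [← e] at this
      exact this
  exact h4.tsum_eq

end Sm

theorem smooth_of_infSol {α : ℝ} (h0 : 0 < α) (h1 : α ≤ 1) {a : ℝ → ℤ → ℂ} (h : InfSol α a) :
    ∃ v : ℝ → AddCircle (2 * Real.pi) → ℂ, (∀ T > 0, IsSmoothSol α T v) ∧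
      ∀ t, fourierCoeff (v t) = a t := by
  have ha : Sm.Rap a := fun T hT s => by
    obtain ⟨A, hA⟩ := h.1 T hT s
    exact ⟨A, fun t ht k => by simpa using hA t ht {k}⟩
  have hom : ∀ k, ‖-I * (om α k : ℂ)‖ ≤ br k := fun k => by
    have h2 := abs_nonneg (k : ℝ)
    rw [norm_mul, norm_neg, norm_I, one_mul, Complex.norm_real, Real.norm_eq_abs, om,
      abs_of_nonneg (Real.rpow_nonneg h2 α)]
    calc _ ≤ br k ^ α := Real.rpow_le_rpow h2 (by unfold br; linarith) h0.le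
      _ ≤ br k ^ (1 : ℝ) := Real.rpow_le_rpow_of_exponent_le (Sm.one_le_br k) h1
      _ = _ := Real.rpow_one _
  have hI : ∀ k : ℤ, ‖(fun _ : ℤ => -I) k‖ ≤ br k := fun k => by
    rw [norm_neg, norm_I]; exact Sm.one_le_br k
  have c1 := Sm.Cl.mul _ hom a Sm.Cl.base
  have c2 := Sm.Cl.tri a a a Sm.Cl.base Sm.Cl.base Sm.Cl.base
  have c3 := Sm.Cl.mul _ hI _ c2
  have c4 := Sm.Cl.add _ _ c1 c3
  have da : Sm.Der a fun t k => -I * (om α k : ℂ) * a t k + -I * Sm.Tri (a t) (a t) (a t) k :=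
    fun t k => (h.2 t k).congr_deriv (by unfold NLi Sm.Tri; ring)
  have hs : ∀ t, Summable fun k : ℤ => a t k • (fourier k : X) := fun t =>
    Summable.of_norm_bounded (ha.summable t) fun k => by rw [norm_smul, fourier_norm, mul_one]
  have hv : ∀ t (x : ℝ), (∑' k : ℤ, a t k • (fourier k : X)) (x : Ci) = Sm.G a (t, x) := by
    intro t x
    have := (ContinuousMap.evalCLM ℂ (x : Ci)).map_tsum (hs t)
    simp only [ContinuousMap.evalCLM_apply, ContinuousMap.smul_apply, smul_eq_mul,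
      fourier_coe] at this
    exact this
  have hc : ∀ t, fourierCoeff (∑' k : ℤ, a t k • (fourier k : X) : X) = a t := by
    intro t
    funext j
    rw [← cf_apply, (cf j).map_tsum (hs t)]
    simp only [map_smul, cf_fourier, smul_eq_mul, mul_ite, mul_one, mul_zero]
    rw [tsum_eq_single j fun k hk => if_neg hk.symm, if_pos rfl]
  refine ⟨fun t => (∑' k : ℤ, a t k • (fourier k : X) : X), fun T hT => ⟨?_, ?_⟩, hc⟩
  · simp only [hv]
    exact (contDiff_infty.2 fun n => Sm.contDiff_G ha c4 da n a Sm.Cl.base).contDiffOn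
  · intro t ht x
    induction x using QuotientAddGroup.induction_on with
    | H x =>
      rw [fracD_eq, hc]
      simp only [hv, fourier_coe]
      rw [(Sm.hasDerivAt_G ha (c4.rap ha) da t x).hasDerivWithinAt.derivWithin
        (uniqueDiffOn_Icc (by linarith) t ht)]
      have s1 := ((c1.rap ha).hasSum (t, x)).mul_left I
      have s2 := (c2.rap ha).hasSum (t, x)
      have s4 := ((c4.rap ha).hasSum (t, x)).mul_left I
      have hsym : ∀ k, sym α k = om α k := fun k => by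
        unfold sym om
        split_ifs with hk
        · rw [hk, Int.cast_zero, abs_zero, Real.zero_rpow h0.ne']
        · rfl
      have e1 : (fun k : ℤ => I * (-I * (om α k : ℂ) * a t k * exp (I * (k * x)))) =
          fun k : ℤ => (sym α k : ℂ) * a t k * exp (I * (k * x)) := by
        funext k
        rw [hsym]
        linear_combination (-(om α k : ℂ) * a t k * exp (I * (k * x))) * I_mul_I
      have e2 : (fun k : ℤ => I * ((-I * (om α k : ℂ) * a t k +
          -I * Sm.Tri (a t) (a t) (a t) k) * exp (I * (k * x)))) = fun k : ℤ =>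
          (sym α k : ℂ) * a t k * exp (I * (k * x)) +
            Sm.Tri (a t) (a t) (a t) k * exp (I * (k * x)) := by
        funext k
        rw [hsym]
        linear_combination (-((om α k : ℂ) * a t k + Sm.Tri (a t) (a t) (a t) k) *
          exp (I * (k * x))) * I_mul_I
      dsimp only at s1 s2 s4
      rw [e1] at s1
      rw [e2] at s4
      rw [s4.unique (s1.summable.hasSum.add s2), Sm.G_tri ha, mul_conj, normSq_eq_norm_sq]
      push_cast
      rfl

end

end Pool.Agent.Lib.MMTW
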