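import Pool.Agent.Lib.MP_0dc93f_an.WZ

/-! Sums over types and cells (job D3). -/

namespace Pool.Agent.Lib.MMTW

open Finset

variable {d : Dat} {K : ℕ} {Q R β : ℝ} {τ : Ty} {ν : Cell → ℝ} {s : Finset Ty} {A : ℝ}

lemma WTot_schur (H : Hyp d K Q R β) (hs : s ⊆ TT K d.Kc) {F : Ty → ℝ} {y : Cell → ℝ}
    (hy : ∀ J, 0 ≤ y J) {δ : ℝ} (hδ : 0 ≤ δ)
    (h : ∀ τ ∈ s, F τ * ((τ.1 : ℝ) + 2) ^ 6 ≤ δ * ∑ i, y (τ.2 i)) :
    ∑ τ ∈ s, F τ ≤ Q ^ 4 * δ * ∑ J ∈ AA K d.Kc, y J := by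
  have hK := H.K_ge
  refine (sum_schur (by omega) hs (fun J _ => hy J) hδ h).trans ?_
  have h1 : (250000 : ℝ) ≤ K := by exact_mod_cast hK
  have h2 : 2 * (4 * (K : ℝ) + 5) ≤ Q := by linarith [H.hQ]
  have h3 : (2 * (4 * (K : ℝ) + 5)) ^ 4 ≤ Q ^ 4 := by gcongr
  have h4 : 0 ≤ (4 * (K : ℝ) + 5) ^ 4 := by positivity
  have h5 : 0 ≤ ∑ J ∈ AA K d.Kc, y J := sum_nonneg fun J _ => hy J
  gcongr
  rw [mul_pow] at h3
  linarith

lemma WTot_int (H : Hyp d K Q R β) (S : Finset Cell) (c : Cell → ℝ) {G : ℝ} (hG : 0 ≤ G)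
    (h : ∀ t ∈ Set.Icc 0 d.T, ∑ J ∈ S, c J * d.m J t ≤ G) : ∑ J ∈ S, c J * d.im J ≤ Q * G := by
  have hc : ∀ J, Continuous fun t => c J * d.m J t := fun J => continuous_const.mul (d.cont_m J)
  simp only [Dat.im, ← intervalIntegral.integral_const_mul]
  rw [← intervalIntegral.integral_finsetSum fun J _ => (hc J).intervalIntegrable _ _]
  refine (intervalIntegral.integral_mono_on d.hT ((continuous_finsetSum _ fun J _ =>
    hc J).intervalIntegrable _ _) (continuous_const.intervalIntegrable _ _) h).trans ?_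
  rw [intervalIntegral.integral_const, sub_zero, smul_eq_mul]
  exact mul_le_mul_of_nonneg_right H.hT hG

lemma WTot_mass (H : Hyp d K Q R β) {e : ℝ} (he : -4 ≤ e) (he' : e + 9 / 10000 ≤ β) :
    ∀ t ∈ Set.Icc 0 d.T, ∑ J ∈ AA K d.Kc, xx J ^ e * d.m J t ≤ 48 * Q ^ 3 := by
  intro t ht
  have hK := H.K_ge
  have hQ := H.Q_ge
  have h1 := sum_cells (Kc := d.Kc) (by omega : 4 ≤ K) (by linarith) (by norm_num) H.lg he
    (by linarith [H.b2]) (FF d.Kc) (f := fun k => ‖d.b t k‖ ^ 2) fun _ => by positivity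
  have h2 := H.ws t ht (e + 5 / 1000000) (by linarith)
  refine (sum_le_sum fun J _ => mul_le_mul_of_nonneg_left (m_le_sum d J t)
    (Real.rpow_nonneg (xx_pos J).le _)).trans (h1.trans ?_)
  nlinarith

lemma tot_small (H : Hyp d K Q R β) (hs : s ⊆ TT K d.Kc) (hA : 0 ≤ A) {Ω : Ty → ℝ}
    (h0 : ∀ τ ∈ s, 0 ≤ Ω τ) (h1 : ∀ τ ∈ s, Sm R τ)
    (h2 : ∀ τ ∈ s, Ω τ * DD τ * MM τ ^ (-β) * ((τ.1 : ℝ) + 2) ^ 6 ≤
      A * MM τ ^ (5991 / 10000 : ℝ)) :
    ∑ τ ∈ s, Ω τ * ZZ d K τ ≤ A * R ^ 50 := by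
  have hQ := H.Q_ge
  have hR := H.hR1
  refine (WTot_schur H hs (y := fun J => xx J ^ (5991 / 10000 : ℝ) * d.im J) (fun J =>
    mul_nonneg (Real.rpow_nonneg (xx_pos J).le _) (d.im_nonneg J)) (δ := A * R ^ 35)
    (by positivity) fun τ hτ => ?_).trans ?_
  · have a1 := Z_small H (hs hτ) (h1 τ hτ)
    have a2 : 0 ≤ ∑ i, d.im (τ.2 i) := sum_nonneg fun i _ => d.im_nonneg _
    have a3 : MM τ ^ (5991 / 10000 : ℝ) * ∑ i, d.im (τ.2 i) ≤
        R ^ 11 * ∑ i, xx (τ.2 i) ^ (5991 / 10000 : ℝ) * d.im (τ.2 i) := by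
      rw [mul_sum, mul_sum]
      refine sum_le_sum fun i _ => ?_
      rw [← mul_assoc]
      refine mul_le_mul_of_nonneg_right ?_ (d.im_nonneg _)
      have b0 := xx_pos (τ.2 i)
      refine (Real.rpow_le_rpow (by linarith [one_le_MM τ]) (Sm_cmp H (hs hτ) (h1 τ hτ) i)
        (by norm_num)).trans ?_
      rw [Real.mul_rpow (by positivity) b0.le]
      refine mul_le_mul_of_nonneg_right ?_ (by positivity)
      exact Real.rpow_le_self_of_one_le (one_le_pow₀ hR) (by norm_num)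
    calc Ω τ * ZZ d K τ * ((τ.1 : ℝ) + 2) ^ 6
        ≤ Ω τ * (R ^ 24 * DD τ * MM τ ^ (-β) * ∑ i, d.im (τ.2 i)) * ((τ.1 : ℝ) + 2) ^ 6 := by
          have := h0 τ hτ
          gcongr
      _ = R ^ 24 * (Ω τ * DD τ * MM τ ^ (-β) * ((τ.1 : ℝ) + 2) ^ 6 * ∑ i, d.im (τ.2 i)) := by ring
      _ ≤ R ^ 24 * (A * MM τ ^ (5991 / 10000 : ℝ) * ∑ i, d.im (τ.2 i)) :=
          mul_le_mul_of_nonneg_left (mul_le_mul_of_nonneg_right (h2 τ hτ) a2) (by positivity)
      _ ≤ R ^ 24 * (A * (R ^ 11 * ∑ i, xx (τ.2 i) ^ (5991 / 10000 : ℝ) * d.im (τ.2 i))) := by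
          rw [mul_assoc A]; gcongr
      _ = _ := by ring
  · have a1 := WTot_int H _ _ (by positivity) (WTot_mass H (e := 5991 / 10000) (by norm_num)
      (by linarith [H.a1, H.b1]))
    have a2 : Q ^ 9 ≤ R := (pow_le_pow_right₀ (by linarith) (by norm_num)).trans H.QR
    have a3 : R ^ 36 ≤ R ^ 50 := pow_le_pow_right₀ hR (by norm_num)
    calc _ ≤ Q ^ 4 * (A * R ^ 35) * (Q * (Q * Q ^ 3)) := by
          gcongr
          refine a1.trans ?_
          gcongr; linarith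
      _ = A * (R ^ 35 * Q ^ 9) := by ring
      _ ≤ A * (R ^ 35 * R) := by gcongr
      _ ≤ _ := by rw [← pow_succ]; gcongr

lemma tot_decay (H : Hyp d K Q R β) (hs : s ⊆ TT K d.Kc) (hA : 0 ≤ A) {F : Ty → ℝ}
    (h1 : ∀ τ ∈ s, ∃ i, MM τ ≤ Q ^ 2 * mu (τ.2 i))
    (h2 : ∀ τ ∈ s, F τ * ((τ.1 : ℝ) + 2) ^ 6 ≤ A * MM τ ^ (-(2 / 10000) : ℝ)) :
    ∑ τ ∈ s, F τ ≤ A * Q ^ 10 := by
  have hQ := H.Q_ge
  have hK := H.K_ge
  have y0 : ∀ J, 0 ≤ xx J ^ (-(10002 / 10000) : ℝ) * (mu J : ℝ) := fun J =>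
    mul_nonneg (Real.rpow_nonneg (xx_pos J).le _) (mu_posRB J).le
  refine (WTot_schur H hs y0 (δ := A * Q ^ 2) (by positivity) fun τ hτ => ?_).trans ?_
  · obtain ⟨i, hi⟩ := h1 τ hτ
    refine (h2 τ hτ).trans ?_
    rw [mul_assoc]
    refine mul_le_mul_of_nonneg_left (le_trans ?_ (mul_le_mul_of_nonneg_left (single_le_sum
      (f := fun i => xx (τ.2 i) ^ (-(10002 / 10000) : ℝ) * (mu (τ.2 i) : ℝ))
      (fun j _ => y0 _) (mem_univ i)) (by positivity))) hA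
    have b0 := xx_pos (τ.2 i)
    refine (Real.rpow_le_rpow_of_nonpos b0 (xx_le_MM τ i) (by norm_num)).trans ?_
    rw [show (-(2 / 10000) : ℝ) = -(10002 / 10000) + 1 by norm_num, Real.rpow_add_one b0.ne',
      mul_left_comm]
    exact mul_le_mul_of_nonneg_left ((xx_le_MM τ i).trans hi) (by positivity)
  · have a1 := sum_cells (Kc := d.Kc) (by omega : 4 ≤ K) (by linarith) (by norm_num) H.lg
      (e := -(10002 / 10000)) (by norm_num) (by norm_num) ((AA K d.Kc).biUnion PP)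
      (f := fun _ => 1) fun _ => zero_le_one
    have a2 : ∑ k ∈ (AA K d.Kc).biUnion PP, br k ^ (-(10002 / 10000) + 5 / 1000000 : ℝ) * 1 ≤ Q :=
      (sum_le_sum fun k _ => by
        rw [mul_one]
        exact Real.rpow_le_rpow_of_exponent_le (one_le_br k) (by norm_num)).trans (H.bs _)
    have a3 : ∑ J ∈ AA K d.Kc, xx J ^ (-(10002 / 10000) : ℝ) * (mu J : ℝ) ≤ 48 * Q * Q := by
      refine (sum_le_sum fun J hJ => ?_).trans
        (a1.trans (mul_le_mul_of_nonneg_left a2 (by linarith)))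
      refine mul_le_mul_of_nonneg_left ?_ (Real.rpow_nonneg (xx_pos J).le _)
      rw [sum_const, nsmul_eq_mul, mul_one, filter_mem_eq_inter,
        inter_eq_right.2 (subset_biUnion_of_mem PP hJ), PP, Int.card_Ioo]
      have := mu_pos J
      exact_mod_cast (by omega : mu J ≤ ((cc J + 2 * mu J - (cc J - mu J) - 1).toNat : ℤ))
    calc _ ≤ Q ^ 4 * (A * Q ^ 2) * (Q ^ 2 * Q * Q) := by
          gcongr
          refine a3.trans ?_
          gcongr; nlinarith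
      _ = _ := by ring

lemma tot_charged (H : Hyp d K Q R β) (hν : Pn d K Q β ν) (hs : s ⊆ TT K d.Kc) (hA : 0 ≤ A)
    {Ω : Ty → ℝ} (h0 : ∀ τ ∈ s, 0 ≤ Ω τ) (h1 : ∀ τ ∈ s, ¬ Sm R τ ∧ ¬ Out K τ)
    (h2 : ∀ τ ∈ s, Ω τ * Ga d.α β K τ * ((τ.1 : ℝ) + 2) ^ 6 ≤ A) :
    ∑ τ ∈ s, Ω τ * ZZ d K τ ≤ A * Q ^ 8 * BB K d.Kc β ν := by
  have y0 : ∀ J, 0 ≤ WW β J * ν J := fun J => mul_nonneg (WW_pos β J).le (hν.1 J)
  refine (WTot_schur H hs y0 (δ := A * Q ^ 4) (by positivity) fun τ hτ => ?_).trans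
    (le_of_eq (by rw [BB]; ring))
  have a1 := Z_charged H hν (hs hτ) (h1 τ hτ).1 (h1 τ hτ).2
  have a2 : 0 ≤ ∑ i, WW β (τ.2 i) * ν (τ.2 i) := sum_nonneg fun i _ => y0 _
  calc Ω τ * ZZ d K τ * ((τ.1 : ℝ) + 2) ^ 6
      ≤ Ω τ * (Q ^ 4 * Ga d.α β K τ * ∑ i, WW β (τ.2 i) * ν (τ.2 i)) * ((τ.1 : ℝ) + 2) ^ 6 := by
        have := h0 τ hτ
        gcongr
    _ = Ω τ * Ga d.α β K τ * ((τ.1 : ℝ) + 2) ^ 6 * (Q ^ 4 * ∑ i, WW β (τ.2 i) * ν (τ.2 i)) := by
        ring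
    _ ≤ A * (Q ^ 4 * ∑ i, WW β (τ.2 i) * ν (τ.2 i)) := by gcongr; exact h2 τ hτ
    _ = _ := by ring

lemma WTot_WW (H : Hyp d K Q R β) {J : Cell} (hJ : J ∈ AA K d.Kc) :
    WW β J ≤ xx J ^ (β - 3 / 1000) := by
  have hK := H.K_ge
  rw [show β - 3 / 1000 = β - 1003 / 1000 + 1 by ring, Real.rpow_add_one (xx_pos J).ne', mul_comm]
  exact mul_le_mul_of_nonneg_right (mu_le_xx (by omega) hJ) (Real.rpow_nonneg (xx_pos J).le _)

lemma sum_base (H : Hyp d K Q R β) :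
    ∑ J ∈ AA K d.Kc, WW β J * (d.m J 0 + d.m J d.T + d.im J) ≤ Q ^ 6 := by
  have hQ := H.Q_ge
  have a0 : ∀ t ∈ Set.Icc 0 d.T, ∑ J ∈ AA K d.Kc, WW β J * d.m J t ≤ 48 * Q ^ 3 := fun t ht =>
    (sum_le_sum fun J hJ => mul_le_mul_of_nonneg_right (WTot_WW H hJ) (d.m_nonneg J t)).trans
      (WTot_mass H (by linarith [H.a1, H.b1]) (by linarith) t ht)
  have a1 := WTot_int H _ _ (by positivity) a0
  have a2 := a0 0 ⟨le_rfl, d.hT⟩
  have a3 := a0 d.T ⟨d.hT, le_rfl⟩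
  simp only [mul_add, sum_add_distrib]
  have a4 : 96 + Q * 48 ≤ Q ^ 3 := by nlinarith [mul_nonneg (sq_nonneg Q) (by linarith : 0 ≤ Q - 1)]
  nlinarith [mul_le_mul_of_nonneg_right a4 (by positivity : 0 ≤ Q ^ 3)]

lemma sum_exc (H : Hyp d K Q R β) :
    ∑ J ∈ AA K d.Kc with ¬ reg K d.Kc J, WW β J * (mu J * d.im J) ≤ Q ^ 6 := by
  have hQ := H.Q_ge
  have hK := H.K_ge
  have hc : (1 : ℝ) ≤ d.Kc := by exact_mod_cast H.hKc
  simp only [← mul_assoc]
  refine (WTot_int H _ _ (G := 48 * Q ^ 3 + 48 * Q * 16) (by positivity) fun t ht => ?_).trans ?_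
  · set S := (FF d.Kc).filter fun k => (d.Kc : ℝ) / 16 ≤ br k with hS
    have a1 := sum_cells (Kc := d.Kc) (by omega : 4 ≤ K) (by linarith) (by norm_num) H.lg (e := 3)
      (by norm_num) (by norm_num) S (f := fun k => ‖d.b t k‖ ^ 2) fun _ => by positivity
    have a2 : ∑ k ∈ S, br k ^ (3 + 5 / 1000000 : ℝ) * ‖d.b t k‖ ^ 2 ≤ 16 := by
      refine (sum_le_sum (g := fun k => (2 * d.Kc : ℝ) ^ 4 * ‖d.b t k‖ ^ 2) fun k hk => ?_).trans ?_
      · refine mul_le_mul_of_nonneg_right ((Real.rpow_le_rpow_of_exponent_le (one_le_br k)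
          (z := (4 : ℕ)) (by norm_num)).trans ?_) (by positivity)
        have b1 : |(k : ℝ)| ≤ d.Kc := by exact_mod_cast mem_FF.1 (mem_filter.1 hk).1
        rw [Real.rpow_natCast]
        exact pow_le_pow_left₀ (br_pos k).le (by unfold br; linarith) _
      · rw [← mul_sum]
        refine (mul_le_mul_of_nonneg_left (H.hi t ht) (by positivity)).trans (le_of_eq ?_)
        field_simp; norm_num
    have a3 := WTot_mass H (e := β - 1003 / 1000) (by linarith [H.a1, H.b1]) (by linarith) t ht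
    refine le_trans ?_ (add_le_add a3 (a1.trans (mul_le_mul_of_nonneg_left a2 (by linarith))))
    have p1 : ∀ J, 0 ≤ xx J ^ (β - 1003 / 1000) * d.m J t := fun J =>
      mul_nonneg (Real.rpow_nonneg (xx_pos J).le _) (d.m_nonneg J t)
    have p2 : ∀ J, 0 ≤ xx J ^ (3 : ℝ) * ∑ k ∈ S with k ∈ PP J, ‖d.b t k‖ ^ 2 := fun J =>
      mul_nonneg (Real.rpow_nonneg (xx_pos J).le _) (by positivity)
    rw [← sum_add_distrib]
    refine (sum_le_sum fun J hJ => ?_).trans (sum_le_sum_of_subset_of_nonneg (filter_subset _ _)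
      fun J _ _ => add_nonneg (p1 J) (p2 J))
    obtain ⟨hJ, hr⟩ := mem_filter.1 hJ
    by_cases h8 : 8 * |cc J| ≤ d.Kc
    · have b1 : J.1 = 0 := (mem_AA hJ).1.resolve_right fun h => hr ⟨h, h8⟩
      have b2 : (mu J : ℝ) = 1 := by simp [mu, b1]
      rw [WW, b2, one_mul, mul_one]
      exact le_add_of_nonneg_right (p2 J)
    · refine le_add_of_nonneg_of_le (p1 J) (mul_le_mul ?_ ((m_le_sum d J t).trans ?_)
        (d.m_nonneg J t) (Real.rpow_nonneg (xx_pos J).le _))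
      · refine (mul_le_mul (WTot_WW H hJ) (mu_le_xx (by omega) hJ) (mu_posRB J).le
          (Real.rpow_nonneg (xx_pos J).le _)).trans ?_
        rw [← Real.rpow_add_one (xx_pos J).ne']
        exact Real.rpow_le_rpow_of_exponent_le (one_le_xx J) (by linarith [H.b2])
      · refine sum_le_sum_of_subset_of_nonneg (fun k hk => ?_) fun _ _ _ => by positivity
        obtain ⟨b1, b2⟩ := mem_filter.1 hk
        refine mem_filter.2 ⟨mem_filter.2 ⟨b1, ?_⟩, b2⟩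
        have b3 := (br_PP (by omega) hJ b2).1
        have b4 : (d.Kc : ℝ) ≤ 8 * |(cc J : ℝ)| := by exact_mod_cast (not_le.1 h8).le
        rw [xx, br] at b3
        linarith
  · have a4 : 48 * Q ^ 2 + 768 ≤ Q ^ 4 := by
      nlinarith [mul_nonneg (sq_nonneg Q) (by nlinarith : 0 ≤ Q ^ 2 - 49)]
    nlinarith [mul_le_mul_of_nonneg_right a4 (by positivity : 0 ≤ Q ^ 2)]

lemma sum_coef (H : Hyp d K Q R β) (hτ : τ ∈ TT K d.Kc) :
    ∑ J ∈ AA K d.Kc with reg K d.Kc J, WW β J * coef K Q J τ ≤ Q ^ 6 * Om β τ := by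
  have hQ := H.Q_ge
  have hK := H.K_ge
  have hK' : (250000 : ℝ) ≤ K := by exact_mod_cast hK
  have h3 := (H.good hτ).mem 3
  have x0 := xx_pos (τ.2 3)
  have m0 := mu_posRB (τ.2 3)
  set e := β - 1003 / 1000 with he
  have e1 : -4 ≤ e := by linarith [H.a1, H.b1]
  have e2 : e ≤ 4 := by linarith [H.b2]
  have key : ∀ J ∈ (AA K d.Kc).filter (reg K d.Kc), WW β J * coef K Q J τ ≤
      1024 * Q * xx (τ.2 3) ^ e * ((PP (τ.2 3)).filter fun k => k ∈ PP J).card := by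
    intro J hJ
    obtain ⟨hJ, hr⟩ := mem_filter.1 hJ
    by_cases hm : PP J ∩ cell (τ.2 3) = ∅
    · rw [coef, if_pos hm, mul_zero]; positivity
    obtain ⟨k, hk⟩ := nonempty_iff_ne_empty.2 hm
    have k1 := br_PP (by omega) hJ (mem_inter.1 hk).1
    have k2 := br_PP (by omega) h3 (k := k) (by
      have := mem_cell.1 (mem_inter.1 hk).2
      have := mu_pos (τ.2 3)
      exact mem_PP.2 (by omega))
    have r1 := rpow_near (xx_pos J) (br_pos k) k1.1 k1.2 e1 e2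
    have r2 := rpow_near (br_pos k) x0 k2.2 k2.1 e1 e2
    have mJ := mu_posRB J
    have c1 : mu J * coef K Q J τ ≤ 4 * Q * min (mu J : ℝ) (mu (τ.2 3)) := by
      have D0 := DD_pos τ
      rw [coef, if_neg hm, mul_min_of_nonneg _ _ (by linarith), le_min_iff]
      split_ifs with hl
      · have b1 := ((local_far H hτ hr hm hl).1 3).2
        have b2 : K * DD τ ≤ 64 * mu J := by unfold DD; exact_mod_cast hl
        have b3 : DD τ ≤ mu J := by nlinarith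
        rw [mul_div_cancel₀ _ mJ.ne', b1]
        constructor <;> nlinarith
      · have b2 : 64 * (mu J : ℝ) ≤ K * DD τ := by unfold DD; exact_mod_cast (not_le.1 hl).le
        have b3 := mu_le_xx (by omega) hJ
        have b4 := mul_le_mul_of_nonneg_right H.hQ m0.le
        refine ⟨by nlinarith, ?_⟩
        rcases mu_or H hτ 3 with b | b
        · rw [← b] at b2; nlinarith
        · nlinarith
    have c2 := overlap' hm
    calc WW β J * coef K Q J τ = xx J ^ e * (mu J * coef K Q J τ) := by rw [WW]; ring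
      _ ≤ (16 * (16 * xx (τ.2 3) ^ e)) *
          (4 * Q * ((PP (τ.2 3)).filter fun k => k ∈ PP J).card) :=
        mul_le_mul (by linarith) (c1.trans (by gcongr))
          (mul_nonneg mJ.le (coef_nonneg H J τ)) (by positivity)
      _ = _ := by ring
  refine (sum_le_sum key).trans ((sum_le_sum_of_subset_of_nonneg (filter_subset _ _)
    fun J _ _ => by positivity).trans ?_)
  rw [← mul_sum]
  refine (mul_le_mul_of_nonneg_left (sum_overlap H h3) (by positivity)).trans ?_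
  rw [Om, Real.rpow_add x0]
  calc _ = 1024 * (Q ^ 3 * (mu (τ.2 3) * (xx (τ.2 3) ^ e * xx (τ.2 3) ^ (5 / 1000000 : ℝ)))) := by
        ring
    _ ≤ Q ^ 3 * (Q ^ 3 * (mu (τ.2 3) * (xx (τ.2 3) ^ e * xx (τ.2 3) ^ (5 / 1000000 : ℝ)))) := by
        gcongr
        nlinarith [mul_nonneg (sq_nonneg Q) (by linarith : 0 ≤ Q - 1)]
    _ = _ := by ring

end Pool.Agent.Lib.MMTW
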