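import Pool.Agent.Lib.MP_0dc93f_an.WReal

/-! Transversality and the bounds for the bilinear norms of a type (job D2). -/

namespace Pool.Agent.Lib.MMTW

open Finset

variable {d : Dat} {K : ℕ} {Q R β : ℝ} {τ : Ty} {J J' A : Cell} {ν : Cell → ℝ}

lemma WZ_split {x y a : ℝ} (hx : 0 < x) (hy : 0 < y) :
    y ^ (a - 1) = x ^ (a - 1) * (x / y) ^ (1 - a) := by
  rw [Real.div_rpow hx.le hy.le, ← neg_sub 1 a, Real.rpow_neg hx.le, Real.rpow_neg hy.le]
  have := Real.rpow_pos_of_pos hx (1 - a)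
  field_simp

lemma WZ_lo {x y a : ℝ} (hx : 0 < x) (hxy : x ≤ y) (a0 : 0 ≤ a) (a1 : a ≤ 1) :
    (1 - a) * ((y - x) * x ^ (a - 1) / y) ≤ x ^ (a - 1) - y ^ (a - 1) := by
  have hy : 0 < y := hx.trans_le hxy
  have h1 := rpow_one_add_le_one_add_mul_self (s := x / y - 1)
    (by have : 0 < x / y := by positivity
        linarith) (p := 1 - a) (by linarith) (by linarith)
  rw [add_sub_cancel] at h1
  have h2 := mul_le_mul_of_nonneg_left h1 (Real.rpow_pos_of_pos hx (a - 1)).le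
  rw [WZ_split hx hy]
  have : (1 - a) * ((y - x) * x ^ (a - 1) / y) =
      x ^ (a - 1) - x ^ (a - 1) * (1 + (1 - a) * (x / y - 1)) := by field_simp; ring
  linarith

lemma WZ_two {x a : ℝ} (hx : 0 < x) : x ^ (a - 2) = x ^ (a - 1) / x := by
  rw [← Real.rpow_sub_one hx.ne']; congr 1; ring

lemma WZ_hi {x y a : ℝ} (hx : 0 < x) (hxy : x ≤ y) (a0 : 0 ≤ a) :
    x ^ (a - 1) - y ^ (a - 1) ≤ (y - x) * x ^ (a - 2) := by
  have hy : 0 < y := hx.trans_le hxy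
  have h0 : 0 < x / y := by positivity
  have h1 := Real.rpow_le_rpow_of_exponent_ge h0 ((div_le_one hy).2 hxy)
    (by linarith : 1 - a ≤ 1)
  rw [Real.rpow_one] at h1
  have hp := Real.rpow_pos_of_pos hx (a - 1)
  have h2 := mul_le_mul_of_nonneg_left h1 hp.le
  rw [WZ_split hx hy, WZ_two hx]
  have h3 : x ^ (a - 1) - x ^ (a - 1) * (x / y) = (y - x) * (x ^ (a - 1) / y) := by
    field_simp
  have h4 : (y - x) * (x ^ (a - 1) / y) ≤ (y - x) * (x ^ (a - 1) / x) := by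
    have : 0 ≤ y - x := by linarith
    gcongr
  linarith

lemma WZ_vel_pos {a : ℝ} {c : ℤ} (h : 0 < c) : vel a c = a * |(c : ℝ)| ^ (a - 1) := by
  rw [vel, Int.sign_eq_one_of_pos h]; simp

lemma WZ_vel_neg {a : ℝ} {c : ℤ} (h : c < 0) : vel a c = -(a * |(c : ℝ)| ^ (a - 1)) := by
  rw [vel, Int.sign_eq_neg_one_of_neg h]; simp

lemma WZ_vel_le {a : ℝ} (a0 : 0 ≤ a) (a1 : a ≤ 1) (c : ℤ) : |vel a c| ≤ 1 := by
  have key : c ≠ 0 → |a * |(c : ℝ)| ^ (a - 1)| ≤ 1 := fun h => by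
    have h1 : (1 : ℝ) ≤ |(c : ℝ)| := by exact_mod_cast Int.one_le_abs h
    have h2 := Real.rpow_le_one_of_one_le_of_nonpos h1 (by linarith : a - 1 ≤ 0)
    rw [abs_of_nonneg (by positivity)]
    exact mul_le_one₀ a1 (by positivity) h2
  rcases lt_trichotomy c 0 with h | h | h
  · rw [WZ_vel_neg h, abs_neg]; exact key h.ne
  · simp [vel, h]
  · rw [WZ_vel_pos h]; exact key h.ne'

/-- lower bound for the velocity gap -/
lemma WZ_gap {a : ℝ} (a0 : 0 ≤ a) (a1 : a ≤ 1) {c c' : ℤ} (h : c ≠ 0) (ho : |c| ≤ |c'|) :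
    a * (1 - a) / 2 * (|(c : ℝ) - c'| * |(c : ℝ)| ^ (a - 1) / |(c' : ℝ)|) ≤
      |vel a c - vel a c'| := by
  have hx : (0 : ℝ) < |(c : ℝ)| := by exact_mod_cast abs_pos.2 h
  have hxy : |(c : ℝ)| ≤ |(c' : ℝ)| := by exact_mod_cast ho
  have hy := hx.trans_le hxy
  have hp := Real.rpow_pos_of_pos hx (a - 1)
  have hq := Real.rpow_pos_of_pos hy (a - 1)
  have same : |(c : ℝ) - c'| = |(c' : ℝ)| - |(c : ℝ)| →
      a * (1 - a) / 2 * (|(c : ℝ) - c'| * |(c : ℝ)| ^ (a - 1) / |(c' : ℝ)|) ≤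
      a * |(c : ℝ)| ^ (a - 1) - a * |(c' : ℝ)| ^ (a - 1) := fun e => by
    have h1 := mul_le_mul_of_nonneg_left (WZ_lo hx hxy a0 a1) a0
    have h2 : 0 ≤ a * (1 - a) * (|(c : ℝ) - c'| * |(c : ℝ)| ^ (a - 1) / |(c' : ℝ)|) := by
      have : 0 ≤ 1 - a := by linarith
      positivity
    rw [← e] at h1
    linarith
  have opp : a * (1 - a) / 2 * (|(c : ℝ) - c'| * |(c : ℝ)| ^ (a - 1) / |(c' : ℝ)|) ≤
      a * |(c : ℝ)| ^ (a - 1) + a * |(c' : ℝ)| ^ (a - 1) := by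
    have h1 : |(c : ℝ) - c'| ≤ 2 * |(c' : ℝ)| := by linarith [abs_sub (c : ℝ) c']
    have h2 : |(c : ℝ) - c'| * |(c : ℝ)| ^ (a - 1) / |(c' : ℝ)| ≤ 2 * |(c : ℝ)| ^ (a - 1) := by
      rw [div_le_iff₀ hy]; nlinarith
    have h3 : a * (1 - a) / 2 * (|(c : ℝ) - c'| * |(c : ℝ)| ^ (a - 1) / |(c' : ℝ)|) ≤
        a * 1 / 2 * (2 * |(c : ℝ)| ^ (a - 1)) := by
      gcongr; linarith
    have h4 : 0 ≤ a * |(c' : ℝ)| ^ (a - 1) := by positivity
    linarith
  have h' : c' ≠ 0 := fun e => by rw [e] at hy; simp at hy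
  rcases lt_or_gt_of_ne h with h1 | h1 <;> rcases lt_or_gt_of_ne h' with h2 | h2
  · rw [WZ_vel_neg h1, WZ_vel_neg h2]
    refine (same ?_).trans (le_of_eq_of_le (by ring) (neg_le_abs _))
    have : |c - c'| = |c'| - |c| := by simp only [abs_eq_max_neg] at ho ⊢; omega
    exact_mod_cast this
  · rw [WZ_vel_neg h1, WZ_vel_pos h2]
    exact opp.trans (le_of_eq_of_le (by ring) (neg_le_abs _))
  · rw [WZ_vel_pos h1, WZ_vel_neg h2]
    exact opp.trans (le_of_eq_of_le (by ring) (le_abs_self _))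
  · rw [WZ_vel_pos h1, WZ_vel_pos h2]
    refine (same ?_).trans (le_abs_self _)
    have : |c - c'| = |c'| - |c| := by simp only [abs_eq_max_neg] at ho ⊢; omega
    exact_mod_cast this

lemma WZ_half {x y a : ℝ} (hx : 0 < x) (h : x ≤ 2 * y) (a0 : 0 ≤ a) (a1 : a ≤ 1) :
    y ^ (a - 2) ≤ 4 * x ^ (a - 2) := by
  calc y ^ (a - 2) ≤ (x / 2) ^ (a - 2) :=
        Real.rpow_le_rpow_of_nonpos (by positivity) (by linarith) (by linarith)
    _ = 2 ^ (2 - a) * x ^ (a - 2) := by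
        rw [Real.div_rpow hx.le (by norm_num), ← neg_sub a 2, Real.rpow_neg (by norm_num)]; ring
    _ ≤ _ := by
        gcongr
        exact (Real.rpow_le_rpow_of_exponent_le (by norm_num) (by linarith : 2 - a ≤ 2)).trans
          (by norm_num)

lemma WZ_lip {x y a : ℝ} (hx : 0 < x) (h : x ≤ 2 * y) (a0 : 0 ≤ a) (a1 : a ≤ 1) :
    |a * x ^ (a - 1) - a * y ^ (a - 1)| ≤ |x - y| * (4 * x ^ (a - 2)) := by
  have hy : 0 < y := by linarith
  have hp := Real.rpow_pos_of_pos hx (a - 2)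
  rw [← mul_sub, abs_mul, abs_of_nonneg a0]
  refine (mul_le_of_le_one_left (abs_nonneg _) a1).trans ?_
  rcases le_total x y with h1 | h1
  · have h2 := WZ_hi hx h1 a0
    have h3 := Real.rpow_le_rpow_of_nonpos hx h1 (by linarith : a - 1 ≤ 0)
    rw [abs_of_nonneg (by linarith), abs_of_nonpos (by linarith)]
    nlinarith
  · have h2 := WZ_hi hy h1 a0
    have h3 := Real.rpow_le_rpow_of_nonpos hy h1 (by linarith : a - 1 ≤ 0)
    have h4 := mul_le_mul_of_nonneg_left (WZ_half hx h a0 a1) (by linarith : 0 ≤ x - y)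
    rw [abs_of_nonpos (by linarith), abs_of_nonneg (by linarith)]
    linarith

lemma WZ_reg (hJ : reg K d.Kc J) : K * mu J ≤ |cc J| := by
  rw [abs_cc]; exact mul_le_mul_of_nonneg_right hJ.1 (mu_pos J).le

lemma WZ_ne (H : Hyp d K Q R β) (hJ : reg K d.Kc J) : cc J ≠ 0 := by
  have h1 := WZ_reg hJ
  have h2 := mu_pos J
  have h3 : (250000 : ℤ) ≤ K := by exact_mod_cast H.K_ge
  intro h
  rw [h, abs_zero] at h1
  nlinarith

lemma gam_le_two (H : Hyp d K Q R β) (J J' : Cell) : gam d.α K d.Kc J J' ≤ 2 := by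
  unfold gam
  split_ifs
  · have h1 := WZ_vel_le (by linarith [H.a1] : 0 ≤ d.α) H.a2.le (cc J)
    have h2 := WZ_vel_le (by linarith [H.a1] : 0 ≤ d.α) H.a2.le (cc J')
    linarith [abs_sub (vel d.α (cc J)) (vel d.α (cc J'))]
  · exact le_rfl

lemma gam_symm (α : ℝ) (K Kc : ℕ) (J J' : Cell) : gam α K Kc J J' = gam α K Kc J' J := by
  unfold gam
  rw [abs_sub_comm]
  exact if_congr and_comm rfl rfl

lemma eps_pos (H : Hyp d K Q R β) (hJ : reg K d.Kc J) : 0 < eps d.α J := by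
  have hx : (0 : ℝ) < |(cc J : ℝ)| := by exact_mod_cast abs_pos.2 (WZ_ne H hJ)
  exact mul_pos (mu_posRB J) (Real.rpow_pos_of_pos hx _)

lemma WZ_le_xx (J : Cell) : |(cc J : ℝ)| ≤ xx J := by unfold xx br; linarith

lemma inv_eps_le (H : Hyp d K Q R β) (hJ : reg K d.Kc J) :
    1 / eps d.α J ≤ xx J ^ (2 - d.α) / mu J := by
  have hx : (0 : ℝ) < |(cc J : ℝ)| := by exact_mod_cast abs_pos.2 (WZ_ne H hJ)
  have hm := mu_posRB J
  have : 1 / eps d.α J = |(cc J : ℝ)| ^ (2 - d.α) / mu J := by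
    rw [eps, ← neg_sub 2 d.α, Real.rpow_neg hx.le]
    field_simp
  rw [this]
  have := WZ_le_xx J
  have : 0 ≤ 2 - d.α := by linarith [H.a2]
  gcongr

/-- separated cells are transversal -/
lemma sep_ok (H : Hyp d K Q R β) {D : ℤ} (hD : 0 < D) (h1 : mu J ≤ D) (h2 : mu J' ≤ D)
    (hs : 9 * (K * D) ≤ 20 * |cc J - cc J'|) (ho : |cc J| ≤ |cc J'|) :
    Ok d.α K d.Kc J J' ∧ D * xx J ^ (d.α - 1) / xx J' ≤ gam d.α K d.Kc J J' := by
  have hK : (250000 : ℝ) ≤ K := by exact_mod_cast H.K_ge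
  have hD' : (0 : ℝ) < D := by exact_mod_cast hD
  have hs' : 9 * ((K : ℝ) * D) ≤ 20 * |(cc J : ℝ) - cc J'| := by exact_mod_cast hs
  have ho' : |(cc J : ℝ)| ≤ |(cc J' : ℝ)| := by exact_mod_cast ho
  have a0 : 0 ≤ d.α := by linarith [H.a1]
  have a1 : d.α - 1 ≤ 0 := by linarith [H.a2]
  by_cases hr : reg K d.Kc J ∧ reg K d.Kc J'
  · have hx : (0 : ℝ) < |(cc J : ℝ)| := by exact_mod_cast abs_pos.2 (WZ_ne H hr.1)
    have hy := hx.trans_le ho'
    have g1 := WZ_gap a0 H.a2.le (WZ_ne H hr.1) ho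
    have r1 : (K : ℝ) * mu J ≤ |(cc J : ℝ)| := by exact_mod_cast WZ_reg hr.1
    have m1 : (mu J : ℝ) ≤ D := by exact_mod_cast h1
    have m2 : (mu J' : ℝ) ≤ D := by exact_mod_cast h2
    have p1 := mu_posRB J
    have p2 := mu_posRB J'
    have tri : |(cc J' : ℝ)| ≤ |(cc J : ℝ)| + |(cc J : ℝ) - cc J'| := by
      have := abs_sub (cc J : ℝ) ((cc J : ℝ) - cc J')
      rwa [sub_sub_cancel] at this
    have e1 : eps d.α J = mu J * (|(cc J : ℝ)| ^ (d.α - 1) / |(cc J : ℝ)|) := by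
      rw [eps, WZ_two hx]
    have e2 : eps d.α J' ≤ D * (|(cc J : ℝ)| ^ (d.α - 1) / |(cc J' : ℝ)|) := by
      rw [eps, WZ_two hy]
      have := Real.rpow_le_rpow_of_nonpos hx ho' a1
      gcongr
    have e3 : D * xx J ^ (d.α - 1) / xx J' ≤
        D * (|(cc J : ℝ)| ^ (d.α - 1) / |(cc J' : ℝ)|) := by
      rw [mul_div_assoc]
      have := Real.rpow_le_rpow_of_nonpos hx (WZ_le_xx J) a1
      have := WZ_le_xx J'
      gcongr
    have hp := Real.rpow_pos_of_pos hx (d.α - 1)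
    rw [gam, if_pos hr]
    unfold Ok
    generalize |vel d.α (cc J) - vel d.α (cc J')| = g at *
    generalize |(cc J : ℝ)| ^ (d.α - 1) = P at *
    generalize |(cc J : ℝ) - cc J'| = s at *
    generalize |(cc J : ℝ)| = x at *
    generalize |(cc J' : ℝ)| = y at *
    have hs0 : 0 < s := by nlinarith
    have hG : 0 < s * (P / y) := by positivity
    have g2 : 30000 * (s * (P / y)) ≤ K * g := by
      have k1 : 30000 ≤ K * (d.α * (1 - d.α) / 2) := by nlinarith [H.a1, H.hK]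
      rw [mul_div_assoc s] at g1
      have k2 := mul_le_mul_of_nonneg_left g1 (by linarith : (0 : ℝ) ≤ K)
      nlinarith
    have g3 : K * (D * (P / y)) ≤ 3 * (s * (P / y)) := by
      have : 0 < P / y := by positivity
      nlinarith
    have g4 : K * eps d.α J ≤ 4 * (s * (P / y)) := by
      have k1 : K * mu J * y ≤ 4 * s * x := by
        have k2 : K * mu J * x ≤ K * D * x := by gcongr
        have k3 : K * mu J * s ≤ x * s := by gcongr
        have k4 : K * mu J * y ≤ K * mu J * (x + s) := by gcongr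
        nlinarith
      have k5 : K * (mu J * (P / x)) = K * mu J * y * (P / (x * y)) := by field_simp
      have k6 : 4 * (s * (P / y)) = 4 * s * x * (P / (x * y)) := by field_simp
      rw [e1, k5, k6]
      gcongr
    have hK0 : (0 : ℝ) < K := by linarith
    refine ⟨fun _ _ => le_of_mul_le_mul_left ?_ hK0, le_of_mul_le_mul_left ?_ hK0⟩
    · have := mul_le_mul_of_nonneg_left e2 hK0.le
      linarith
    · have := mul_le_mul_of_nonneg_left e3 hK0.le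
      linarith
  · refine ⟨fun a b => (hr ⟨a, b⟩).elim, ?_⟩
    rw [gam, if_neg hr, div_le_iff₀ (xx_pos J')]
    have k1 := Real.rpow_le_one_of_one_le_of_nonpos (one_le_xx J) a1
    have k2 := abs_sub (cc J : ℝ) (cc J')
    have k3 := WZ_le_xx J'
    have k4 := xx_pos J'
    nlinarith

/-- transversality passes to smaller cells nearby -/
lemma closure_ok (H : Hyp d K Q R β) (hJ : reg K d.Kc J) (hJ' : reg K d.Kc J')
    (hok : Ok d.α K d.Kc J J') (h1 : K * mu A ≤ 64 * mu J) (h2 : |cc A - cc J| ≤ 140 * mu J) :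
    Ok d.α K d.Kc J' A ∧ 1000 * eps d.α J ≤ gam d.α K d.Kc J' A := by
  have g1 := hok hJ hJ'
  have p1 := eps_pos H hJ
  have p2 := eps_pos H hJ'
  have a0 : 0 ≤ d.α := by linarith [H.a1]
  by_cases hA : reg K d.Kc A
  · have hK : (250000 : ℤ) ≤ K := by exact_mod_cast H.K_ge
    have m1 := mu_pos J
    have m2 := mu_pos A
    have r1 : 250000 * mu J ≤ |cc J| :=
      (mul_le_mul_of_nonneg_right hK m1.le).trans (WZ_reg hJ)
    have r2 : 250000 * mu A ≤ 64 * mu J := (mul_le_mul_of_nonneg_right hK m2.le).trans h1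
    have hx : (0 : ℝ) < |(cc J : ℝ)| := by exact_mod_cast abs_pos.2 (WZ_ne H hJ)
    have hh : |(cc J : ℝ)| ≤ 2 * |(cc A : ℝ)| := by
      have : |cc J| ≤ 2 * |cc A| := by simp only [abs_eq_max_neg] at r1 h2 ⊢; omega
      exact_mod_cast this
    have hl := WZ_lip hx hh a0 H.a2.le
    have hd : |(|(cc J : ℝ)| - |(cc A : ℝ)|)| ≤ 140 * mu J := by
      refine (abs_abs_sub_abs_le _ _).trans ?_
      rw [abs_sub_comm]
      exact_mod_cast h2
    have hp := Real.rpow_pos_of_pos hx (d.α - 2)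
    have v1 : |vel d.α (cc J) - vel d.α (cc A)| ≤ 560 * eps d.α J := by
      have e : |vel d.α (cc J) - vel d.α (cc A)| =
          |d.α * |(cc J : ℝ)| ^ (d.α - 1) - d.α * |(cc A : ℝ)| ^ (d.α - 1)| := by
        rcases lt_or_gt_of_ne (WZ_ne H hJ) with h | h
        · rw [WZ_vel_neg h, WZ_vel_neg (c := cc A)
            (by simp only [abs_eq_max_neg] at r1 h2; omega), ← abs_neg]
          congr 1; ring
        · rw [WZ_vel_pos h, WZ_vel_pos (c := cc A)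
            (by simp only [abs_eq_max_neg] at r1 h2; omega)]
      rw [e, eps]
      refine hl.trans ((mul_le_mul_of_nonneg_right hd (by positivity)).trans_eq (by ring))
    have v2 : eps d.α A ≤ eps d.α J / 4 := by
      have k1 := WZ_half hx hh a0 H.a2.le
      have k2 : (mu A : ℝ) ≤ mu J / 16 := by
        have : 16 * mu A ≤ mu J := by omega
        have : 16 * (mu A : ℝ) ≤ mu J := by exact_mod_cast this
        linarith
      have k3 := mu_posRB A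
      unfold eps
      calc _ ≤ (mu J : ℝ) / 16 * (4 * |(cc J : ℝ)| ^ (d.α - 2)) := by gcongr
        _ = _ := by ring
    have v3 : |vel d.α (cc J) - vel d.α (cc J')| ≤ |vel d.α (cc J) - vel d.α (cc A)| +
        |vel d.α (cc J') - vel d.α (cc A)| := by
      rw [abs_sub_comm (vel d.α (cc J'))]; exact abs_sub_le _ _ _
    rw [gam, if_pos ⟨hJ', hA⟩]
    exact ⟨fun _ _ => by linarith, by linarith⟩
  · refine ⟨fun _ b => (hA b).elim, ?_⟩
    have g2 := gam_le_two H J J'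
    rw [gam, if_pos ⟨hJ, hJ'⟩] at g2
    rw [gam, if_neg fun h => hA h.2]
    linarith

lemma WZ_ZZ {A B : ℝ} (h1 : d.X (τ.2 (pr K τ 0)) (τ.2 (pr K τ 1)) ≤ A)
    (h2 : d.X (τ.2 (pr K τ 2)) (τ.2 (pr K τ 3)) ≤ B) : ZZ d K τ ≤ √A * √B := by
  unfold ZZ; gcongr

lemma WZ_ZZ' {A : ℝ} (h1 : d.X (τ.2 (pr K τ 0)) (τ.2 (pr K τ 1)) ≤ A)
    (h2 : d.X (τ.2 (pr K τ 2)) (τ.2 (pr K τ 3)) ≤ A) : ZZ d K τ ≤ A :=
  (WZ_ZZ h1 h2).trans_eq (Real.mul_self_sqrt ((d.X_nonneg _ _).trans h1))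

lemma WZ_dec {x M C : ℝ} (hM : 0 < M) (hC : 1 ≤ C) (h : M ≤ C * x) (b0 : 0 ≤ β) (b2 : β ≤ 2) :
    x ^ (-β) ≤ C ^ 2 * M ^ (-β) := by
  have hC0 : 0 < C := by linarith
  calc x ^ (-β) ≤ (M / C) ^ (-β) :=
        Real.rpow_le_rpow_of_nonpos (by positivity) (by rwa [div_le_iff₀' hC0]) (by linarith)
    _ = C ^ β * M ^ (-β) := by
        rw [Real.div_rpow hM.le hC0.le, Real.rpow_neg hC0.le]; field_simp
    _ ≤ _ := by
        gcongr
        exact (Real.rpow_le_rpow_of_exponent_le hC b2).trans_eq (Real.rpow_two C)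

lemma Z_small (H : Hyp d K Q R β) (hτ : τ ∈ TT K d.Kc) (h : Sm R τ) :
    ZZ d K τ ≤ R ^ 24 * DD τ * MM τ ^ (-β) * ∑ i, d.im (τ.2 i) := by
  have hQ := H.Q_ge
  have hR := H.hR1
  have b0 : 0 ≤ β := by linarith [H.a1, H.b1]
  have hM : 0 < MM τ := one_pos.trans_le (one_le_MM τ)
  have hD := DD_pos τ
  have q2 : Q ^ 2 ≤ R ^ 2 := by
    have k1 : Q ^ 1 ≤ Q ^ 200 := pow_le_pow_right₀ (by linarith) (by norm_num)
    have k2 := H.QR
    rw [pow_one] at k1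
    gcongr; linarith
  have key : ∀ a b, d.X (τ.2 a) (τ.2 b) ≤
      R ^ 24 * DD τ * MM τ ^ (-β) * ∑ i, d.im (τ.2 i) := fun a b => by
    refine (d.X_triv _ _ (m_le H ((H.good hτ).mem b))).trans ?_
    have k1 := WZ_dec hM (one_le_pow₀ hR) (Sm_cmp H hτ h b) b0 H.b2
    have k2 := mu_le_DD H hτ a
    have k3 : d.im (τ.2 a) ≤ ∑ i, d.im (τ.2 i) :=
      single_le_sum (f := fun i => d.im (τ.2 i)) (fun i _ => d.im_nonneg _) (mem_univ a)
    have k4 := d.im_nonneg (τ.2 a)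
    have k5 := mu_posRB (τ.2 a)
    have k6 := xx_pos (τ.2 b)
    calc _ = 3 / 13 * (Q ^ 2 * xx (τ.2 b) ^ (-β) * mu (τ.2 a) * d.im (τ.2 a)) := by
          unfold gg; ring
      _ ≤ 1 * (R ^ 2 * ((R ^ 11) ^ 2 * MM τ ^ (-β)) * DD τ * ∑ i, d.im (τ.2 i)) := by
          gcongr; norm_num
      _ = _ := by ring
  exact WZ_ZZ' (key _ _) (key _ _)

lemma WZ_im {G : ℝ} (h : ∀ t ∈ Set.Icc 0 d.T, d.m J t ≤ G) : d.im J ≤ d.T * G := by
  have := intervalIntegral.integral_mono_on (μ := MeasureTheory.volume) d.hT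
    ((d.cont_m J).intervalIntegrable _ _) (intervalIntegrable_const (c := G)) h
  simpa [Dat.im] using this

lemma Z_low (H : Hyp d K Q R β) (hτ : τ ∈ TT K d.Kc) (h : ¬ Sm R τ) (ho : ¬ Out K τ) {θ : ℝ}
    (hθ : θ ≤ 1 / 2) (hl : LL θ K τ) : ZZ d K τ ≤ Q ^ 9 * MM τ ^ (θ - β) := by
  have hQ := H.Q_ge
  have hQ1 : 1 ≤ Q := by linarith
  have b0 : 0 ≤ β := by linarith [H.a1, H.b1]
  have hM : 0 < MM τ := one_pos.trans_le (one_le_MM τ)
  have hn := LL_near H hτ h hθ hl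
  have hK : 1 ≤ K := le_trans (by norm_num) H.K_ge
  have key : ∀ a b, xx (τ.2 a) ≤ MM τ ^ θ → DD τ ≤ xx (τ.2 b) →
      d.X (τ.2 a) (τ.2 b) ≤ Q ^ 9 * MM τ ^ (θ - β) := fun a b ha hb => by
    refine (d.X_triv _ _ (m_le H ((H.good hτ).mem b))).trans ?_
    have k1 := WZ_dec hM hQ1 (hn.trans (by gcongr : Q * DD τ ≤ Q * xx (τ.2 b))) b0 H.b2
    have k2 := (mu_le_xx hK ((H.good hτ).mem a)).trans ha
    have k3 : d.im (τ.2 a) ≤ Q * Q ^ 2 := by
      refine (WZ_im (m_le H ((H.good hτ).mem a))).trans ?_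
      have j1 := Real.rpow_le_one_of_one_le_of_nonpos (one_le_xx (τ.2 a)) (by linarith : -β ≤ 0)
      have j2 := gg_pos H (τ.2 a)
      have j3 : gg Q β (τ.2 a) ≤ Q ^ 2 := mul_le_of_le_one_right (by positivity) j1
      exact mul_le_mul H.hT (by linarith) (by linarith) (by linarith)
    have k4 := d.im_nonneg (τ.2 a)
    have k5 := mu_posRB (τ.2 a)
    have k6 := xx_pos (τ.2 b)
    calc _ = 3 / 13 * (Q ^ 2 * xx (τ.2 b) ^ (-β) * mu (τ.2 a) * d.im (τ.2 a)) := by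
          unfold gg; ring
      _ ≤ Q ^ 2 * (Q ^ 2 * (Q ^ 2 * MM τ ^ (-β)) * MM τ ^ θ * (Q * Q ^ 2)) := by
          gcongr; nlinarith
      _ = _ := by rw [sub_eq_add_neg, Real.rpow_add hM]; ring
  obtain ⟨p1, p2, -, -⟩ := pr_high H hτ h ho
  exact WZ_ZZ' (key _ _ hl.1 p1) (key _ _ hl.2 p2)

lemma WZ_cmp {x y m D C p : ℝ} (hx : 0 < x) (hxy : x ≤ y) (hm : 0 < m) (hD : 0 < D) (hy : D ≤ y)
    (hC : 1 ≤ C) (hp : 1 ≤ p) (h : m = D ∨ x ≤ C * m) : x ^ p / m ≤ C * y ^ p / D := by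
  have hy0 : 0 < y := hx.trans_le hxy
  rcases h with rfl | h
  · have h1 : x ^ p ≤ y ^ p := by gcongr
    have h2 : y ^ p ≤ C * y ^ p := le_mul_of_one_le_left (by positivity) hC
    gcongr; linarith
  · have h1 : x ^ (p - 1) ≤ y ^ (p - 1) := by gcongr
    have e1 : x ^ p = x ^ (p - 1) * x := by rw [Real.rpow_sub_one hx.ne']; field_simp
    calc x ^ p / m ≤ y ^ (p - 1) * (C * m) / m := by rw [e1]; gcongr
      _ = C * y ^ p / y := by rw [Real.rpow_sub_one hy0.ne']; field_simp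
      _ ≤ _ := by gcongr

lemma Z_charged (H : Hyp d K Q R β) (hν : Pn d K Q β ν) (hτ : τ ∈ TT K d.Kc) (h : ¬ Sm R τ)
    (ho : ¬ Out K τ) :
    ZZ d K τ ≤ Q ^ 4 * Ga d.α β K τ * ∑ i, WW β (τ.2 i) * ν (τ.2 i) := by
  have hQ := H.Q_ge
  have hK : (250000 : ℝ) ≤ K := by exact_mod_cast H.K_ge
  have hM : 0 < MM τ := one_pos.trans_le (one_le_MM τ)
  have hD := DD_pos τ
  set S := ∑ i, WW β (τ.2 i) * ν (τ.2 i) with hS
  have hy : ∀ i, 0 ≤ WW β (τ.2 i) * ν (τ.2 i) := fun i => mul_nonneg (WW_pos _ _).le (hν.1 _)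
  have hS1 : ∀ a, WW β (τ.2 a) * ν (τ.2 a) ≤ S := fun a =>
    single_le_sum (f := fun i => WW β (τ.2 i) * ν (τ.2 i)) (fun i _ => hy i) (mem_univ a)
  have hS0 : 0 ≤ S := (hy 0).trans (hS1 0)
  have hmu : ∀ a, mu (τ.2 a) ≤ 2 ^ τ.1 := fun a => by
    have := mu_le_DD H hτ a
    unfold DD at this
    exact_mod_cast this
  set W := Q ^ 4 * (MM τ ^ (1 + 1003 / 1000 - β) / DD τ ^ 2) * S with hW
  have hW0 : 0 ≤ W := by positivity
  have key : ∀ a b, 9 * (K * 2 ^ τ.1) ≤ 20 * |cc (τ.2 a) - cc (τ.2 b)| →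
      |cc (τ.2 a)| ≤ |cc (τ.2 b)| → DD τ ≤ xx (τ.2 b) → DD τ ≤ 15 * (mu (τ.2 b) : ℝ) →
      d.X (τ.2 a) (τ.2 b) ≤ W * xx (τ.2 a) ^ (1 - d.α - β) := fun a b h1 h2 h3 h4 => by
    obtain ⟨s1, s2⟩ := sep_ok H (by positivity) (hmu a) (hmu b) h1 h2
    have s3 := hν.2 _ ((H.good hτ).mem a) _ ((H.good hτ).mem b) s1
    have s4 := (mul_le_mul_of_nonneg_right s2 (d.X_nonneg _ _)).trans s3
    have e0 : (((2 : ℤ) ^ τ.1 : ℤ) : ℝ) = DD τ := by simp [DD]
    rw [e0] at s4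
    have hxy : xx (τ.2 a) ≤ xx (τ.2 b) := by
      have : |(cc (τ.2 a) : ℝ)| ≤ |(cc (τ.2 b) : ℝ)| := by exact_mod_cast h2
      unfold xx br; linarith
    have c1 := WZ_cmp (xx_pos _) hxy (mu_posRB (τ.2 a)) hD h3 (C := 3 * K) (by linarith)
      (p := 1003 / 1000) (by norm_num) (mu_or H hτ a)
    have c2 : xx (τ.2 b) ^ (1 + 1003 / 1000 - β) ≤ MM τ ^ (1 + 1003 / 1000 - β) :=
      Real.rpow_le_rpow (xx_pos _).le (xx_le_MM τ b) (by linarith [H.b2])
    have ya := hS1 a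
    have yb := hS1 b
    have na := hν.1 (τ.2 a)
    have nb := hν.1 (τ.2 b)
    have ma := mu_posRB (τ.2 a)
    have mb := mu_posRB (τ.2 b)
    have hx := xx_pos (τ.2 a)
    have hy := xx_pos (τ.2 b)
    have hKQ := H.hQ
    unfold WW at ya yb
    unfold gg at s4
    rw [hW]
    generalize MM τ ^ (1 + 1003 / 1000 - β) = V at *
    rw [show 1 + 1003 / 1000 - β = 1 + (1003 / 1000 - β) by ring, Real.rpow_add hy,
      Real.rpow_one, Real.rpow_sub hy] at c2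
    rw [Real.rpow_sub hx] at ya
    rw [Real.rpow_sub hy] at yb
    rw [Real.rpow_neg hx.le, Real.rpow_neg hy.le, Real.rpow_sub_one hx.ne'] at s4
    rw [Real.rpow_sub hx, Real.rpow_sub hx, Real.rpow_one]
    have q1 := Real.rpow_pos_of_pos hx β
    have q2 := Real.rpow_pos_of_pos hy β
    have q3 := Real.rpow_pos_of_pos hx (1003 / 1000)
    have q4 := Real.rpow_pos_of_pos hy (1003 / 1000)
    have q5 := Real.rpow_pos_of_pos hx d.α
    generalize xx (τ.2 a) ^ β = xb at *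
    generalize xx (τ.2 b) ^ β = yb' at *
    generalize xx (τ.2 a) ^ (1003 / 1000 : ℝ) = xp at *
    generalize xx (τ.2 b) ^ (1003 / 1000 : ℝ) = yp at *
    generalize xx (τ.2 a) ^ d.α = xa at *
    generalize xx (τ.2 a) = x at *
    generalize xx (τ.2 b) = y at *
    generalize ν (τ.2 a) = n at *
    generalize ν (τ.2 b) = n' at *
    generalize (mu (τ.2 a) : ℝ) = m at *
    generalize (mu (τ.2 b) : ℝ) = m' at *
    generalize d.X (τ.2 a) (τ.2 b) = X at *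
    generalize DD τ = D at *
    have hV : 0 ≤ V := le_trans (by positivity) c2
    have t0 : X ≤ (n * (Q ^ 2 * yb'⁻¹) + Q ^ 2 * xb⁻¹ * n') / (D * (xa / x) / y) := by
      rw [le_div_iff₀' (by positivity)]; exact s4
    have t1 : n * (Q ^ 2 * yb'⁻¹) / (D * (xa / x) / y) ≤ Q ^ 3 * (V / D ^ 2) * S * (x / xa / xb) :=
      calc _ = Q ^ 2 * (m * (xb / xp) * n) * (xp / m) * (y / yb' / D) * (x / xa / xb) := by
            field_simp
        _ ≤ Q ^ 2 * S * (Q * yp / D) * (y / yb' / D) * (x / xa / xb) := by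
            have c3 : xp / m ≤ Q * yp / D := c1.trans (by gcongr; linarith)
            gcongr Q ^ 2 * ?_ * ?_ * _ * _
        _ = Q ^ 3 * (y * (yp / yb') / D ^ 2) * S * (x / xa / xb) := by field_simp
        _ ≤ _ := by gcongr
    have t2 : Q ^ 2 * xb⁻¹ * n' / (D * (xa / x) / y) ≤ Q ^ 3 * (V / D ^ 2) * S * (x / xa / xb) :=
      calc _ = Q ^ 2 * (m' * (yb' / yp) * n') * (D / m') * (y * (yp / yb') / D ^ 2) *
            (x / xa / xb) := by field_simp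
        _ ≤ Q ^ 2 * S * Q * (V / D ^ 2) * (x / xa / xb) := by
            gcongr
            rw [div_le_iff₀ mb]; nlinarith
        _ = _ := by ring
    rw [add_div] at t0
    have t3 : 0 ≤ Q ^ 3 * (V / D ^ 2) * S * (x / xa / xb) := by positivity
    nlinarith
  obtain ⟨p1, p2, p3, p4⟩ := pr_high H hτ h ho
  obtain ⟨r1, r2, r3, r4⟩ := pr_pair H hτ h ho
  refine (WZ_ZZ (key _ _ r1 r3 p1 p3) (key _ _ r2 r4 p2 p4)).trans_eq ?_
  have hx := xx_pos (τ.2 (pr K τ 0))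
  have hz := xx_pos (τ.2 (pr K τ 2))
  have e : ∀ x : ℝ, 0 < x → √(W * x ^ (1 - d.α - β)) = √W * x ^ ((1 - d.α - β) / 2) :=
    fun x hx => by
      rw [Real.sqrt_mul hW0, Real.sqrt_eq_rpow (x ^ _), ← Real.rpow_mul hx.le, mul_one_div]
  rw [e _ hx, e _ hz, mul_mul_mul_comm, Real.mul_self_sqrt hW0, hW, Ga,
    Real.mul_rpow hx.le hz.le]
  ring

end Pool.Agent.Lib.MMTW
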